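import Pool.Agent.J4.H83.HD.Defs

/-!
# Discrete compatibility: weighted averages of displacement fields are nearly affine

`affine_avg`: if all linear gaps of `v` are nonnegative on `I`, then the averages
`∑ φ(x) v(x + y)` with a slowly varying weight `φ` are, as functions of `y`, affine up to
`O(m² lam ∑ gaps)`.  Second differences of the two coordinates of `v` are first differences of
gaps; these are small on average by summation by parts.
-/

set_option autoImplicit false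

open MeasureTheory Set Filter Topology

namespace Pool.Agent.J4.H83.HD

namespace AffAux

theorem shift (m : ℕ) (φ : ℤ × ℤ → ℝ) (I : Finset (ℤ × ℤ))
    (hsupp : ∀ z, φ z ≠ 0 → ∀ y : ℤ × ℤ, |y.1| ≤ m + 3 → |y.2| ≤ m + 3 → z + y ∈ I)
    (g : ℤ × ℤ → ℝ) (c : ℤ × ℤ) (h1 : |c.1| ≤ m + 3) (h2 : |c.2| ≤ m + 3) :
    ∑ z ∈ I, φ z * g (z + c) = ∑ w ∈ I, φ (w - c) * g w := by
  classical
  have e1 : ∑ z ∈ I.filter (fun z => φ z ≠ 0), φ z * g (z + c) = ∑ z ∈ I, φ z * g (z + c) := by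
    apply Finset.sum_filter_of_ne
    intro x _ hx h0
    exact hx (by rw [h0, zero_mul])
  have e2 : ∑ w ∈ I.filter (fun w => φ (w - c) ≠ 0), φ (w - c) * g w =
      ∑ w ∈ I, φ (w - c) * g w := by
    apply Finset.sum_filter_of_ne
    intro x _ hx h0
    exact hx (by rw [h0, zero_mul])
  rw [← e1, ← e2]
  apply Finset.sum_nbij' (i := fun z => z + c) (j := fun w => w - c)
  · intro z hz
    rw [Finset.mem_filter] at hz ⊢
    refine ⟨hsupp z hz.2 c h1 h2, ?_⟩
    simpa using hz.2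
  · intro w hw
    rw [Finset.mem_filter] at hw ⊢
    refine ⟨?_, hw.2⟩
    have := hsupp (w - c) hw.2 0 (by simp; positivity) (by simp; positivity)
    simpa using this
  · intro z _; simp
  · intro w _; simp
  · intro z _; simp

theorem dr_le (k : Fin 3) : |(dr k).1| ≤ 1 ∧ |(dr k).2| ≤ 1 := by
  fin_cases k <;> simp [dr]

theorem sbp (m : ℕ) (φ : ℤ × ℤ → ℝ) (I : Finset (ℤ × ℤ)) (lam : ℝ)
    (hsupp : ∀ z, φ z ≠ 0 → ∀ y : ℤ × ℤ, |y.1| ≤ m + 3 → |y.2| ≤ m + 3 → z + y ∈ I)
    (hlip : ∀ z, ∀ k : Fin 3, |φ (z + dr k) - φ z| ≤ lam) (k k' : Fin 3) (g : ℤ × ℤ → ℝ)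
    (hg : ∀ z ∈ I, z + dr k ∈ I → 0 ≤ g z) (y : ℤ × ℤ) (h1 : |y.1| ≤ m + 1)
    (h2 : |y.2| ≤ m + 1) :
    |∑ z ∈ I, φ z * (g (z + (y + dr k')) - g (z + y))| ≤
      lam * ∑ z ∈ I, (if z + dr k ∈ I then g z else 0) := by
  classical
  have hlam : 0 ≤ lam := (abs_nonneg _).trans (hlip 0 0)
  have hk := dr_le k
  have hk' := dr_le k'
  have e : ∑ z ∈ I, φ z * (g (z + (y + dr k')) - g (z + y)) =
      ∑ w ∈ I, (φ (w - (y + dr k')) - φ (w - y)) * g w := by
    simp only [mul_sub, sub_mul, Finset.sum_sub_distrib]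
    rw [shift m φ I hsupp g (y + dr k'), shift m φ I hsupp g y]
    · exact h1.trans (by linarith)
    · exact h2.trans (by linarith)
    · calc |(y + dr k').1| = |y.1 + (dr k').1| := rfl
        _ ≤ |y.1| + |(dr k').1| := abs_add_le _ _
        _ ≤ m + 3 := by linarith [hk'.1]
    · calc |(y + dr k').2| = |y.2 + (dr k').2| := rfl
        _ ≤ |y.2| + |(dr k').2| := abs_add_le _ _
        _ ≤ m + 3 := by linarith [hk'.2]
  rw [e, Finset.mul_sum]
  refine (Finset.abs_sum_le_sum_abs _ _).trans (Finset.sum_le_sum fun w hw => ?_)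
  by_cases hz : φ (w - (y + dr k')) = 0 ∧ φ (w - y) = 0
  · rw [hz.1, hz.2, sub_self, zero_mul, abs_zero]
    split_ifs with h
    · exact mul_nonneg hlam (hg w hw h)
    · simp
  · have hmem : w + dr k ∈ I := by
      by_cases hy : φ (w - y) = 0
      · have hy' : φ (w - (y + dr k')) ≠ 0 := fun h => hz ⟨h, hy⟩
        have := hsupp _ hy' (y + dr k' + dr k) ?_ ?_
        · have e : w - (y + dr k') + (y + dr k' + dr k) = w + dr k := by abel
          rwa [e] at this
        · calc |(y + dr k' + dr k).1| = |y.1 + (dr k').1 + (dr k).1| := rfl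
            _ ≤ |y.1| + |(dr k').1| + |(dr k).1| := abs_add_three _ _ _
            _ ≤ m + 3 := by linarith [hk'.1, hk.1]
        · calc |(y + dr k' + dr k).2| = |y.2 + (dr k').2 + (dr k).2| := rfl
            _ ≤ |y.2| + |(dr k').2| + |(dr k).2| := abs_add_three _ _ _
            _ ≤ m + 3 := by linarith [hk'.2, hk.2]
      · have := hsupp _ hy (y + dr k) ?_ ?_
        · have e : w - y + (y + dr k) = w + dr k := by abel
          rwa [e] at this
        · calc |(y + dr k).1| = |y.1 + (dr k).1| := rfl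
            _ ≤ |y.1| + |(dr k).1| := abs_add_le _ _
            _ ≤ m + 3 := by linarith [hk.1]
        · calc |(y + dr k).2| = |y.2 + (dr k).2| := rfl
            _ ≤ |y.2| + |(dr k).2| := abs_add_le _ _
            _ ≤ m + 3 := by linarith [hk.2]
    rw [if_pos hmem, abs_mul, abs_of_nonneg (hg w hw hmem)]
    refine mul_le_mul_of_nonneg_right ?_ (hg w hw hmem)
    have := hlip (w - (y + dr k')) k'
    have e : w - (y + dr k') + dr k' = w - y := by abel
    rw [e, abs_sub_comm] at this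
    exact this

/-- a function with second differences at most `K` is nearly affine -/
theorem quad (p : ℕ → ℕ → ℝ) (m : ℕ) (K : ℝ) (hK : 0 ≤ K)
    (h20 : ∀ i j, i ≤ m → j ≤ m → |p (i + 2) j - 2 * p (i + 1) j + p i j| ≤ K)
    (h02 : ∀ i j, i ≤ m → j ≤ m → |p i (j + 2) - 2 * p i (j + 1) + p i j| ≤ K)
    (h11 : ∀ i j, i ≤ m → j ≤ m → |p (i + 1) (j + 1) - p (i + 1) j - p i (j + 1) + p i j| ≤ K)
    (a b : ℕ) (ha : a ≤ m) (hb : b ≤ m) :
    |p a b - p 0 0 - a * (p 1 0 - p 0 0) - b * (p 0 1 - p 0 0)| ≤ 3 * (m : ℝ) ^ 2 * K := by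
  have s1 : ∀ i, i ≤ m → |p (i + 1) 0 - p i 0 - (p 1 0 - p 0 0)| ≤ i * K := by
    intro i
    induction i with
    | zero => intro _; simp
    | succ i ih =>
      intro hi
      have h := h20 i 0 (by omega) (by omega)
      have h' := ih (by omega)
      rw [abs_le] at *
      push_cast
      constructor <;> linarith [h.1, h.2, h'.1, h'.2]
  have s2 : ∀ a, a ≤ m → |p a 0 - p 0 0 - a * (p 1 0 - p 0 0)| ≤ a * (m * K) := by
    intro a
    induction a with
    | zero => intro _; simp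
    | succ i ih =>
      intro hi
      have h := s1 i (by omega)
      have h' := ih (by omega)
      have hiK : (i : ℝ) * K ≤ m * K :=
        mul_le_mul_of_nonneg_right (by exact_mod_cast (by omega : i ≤ m)) hK
      rw [abs_le] at *
      push_cast
      constructor <;> nlinarith [h.1, h.2, h'.1, h'.2]
  have s3 : ∀ i, i ≤ m → |p i 1 - p i 0 - (p 0 1 - p 0 0)| ≤ i * K := by
    intro i
    induction i with
    | zero => intro _; simp
    | succ i ih =>
      intro hi
      have h := h11 i 0 (by omega) (by omega)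
      have h' := ih (by omega)
      rw [abs_le] at *
      push_cast
      constructor <;> linarith [h.1, h.2, h'.1, h'.2]
  have s4 : ∀ j, j ≤ m → |p a (j + 1) - p a j - (p a 1 - p a 0)| ≤ j * K := by
    intro j
    induction j with
    | zero => intro _; simp
    | succ i ih =>
      intro hi
      have h := h02 a i (by omega) (by omega)
      have h' := ih (by omega)
      rw [abs_le] at *
      push_cast
      constructor <;> linarith [h.1, h.2, h'.1, h'.2]
  have s5 : ∀ b, b ≤ m → |p a b - p a 0 - b * (p 0 1 - p 0 0)| ≤ b * (2 * m * K) := by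
    intro b
    induction b with
    | zero => intro _; simp
    | succ i ih =>
      intro hi
      have h := s4 i (by omega)
      have h3 := s3 a ha
      have h' := ih (by omega)
      have hiK : (i : ℝ) * K ≤ m * K :=
        mul_le_mul_of_nonneg_right (by exact_mod_cast (by omega : i ≤ m)) hK
      have haK : (a : ℝ) * K ≤ m * K :=
        mul_le_mul_of_nonneg_right (by exact_mod_cast ha) hK
      rw [abs_le] at *
      push_cast
      constructor <;> nlinarith [h.1, h.2, h'.1, h'.2, h3.1, h3.2]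
  have t2 := s2 a ha
  have t5 := s5 b hb
  have hmK : 0 ≤ (m : ℝ) * K := by positivity
  have haK : (a : ℝ) * (m * K) ≤ m * (m * K) :=
    mul_le_mul_of_nonneg_right (by exact_mod_cast ha) hmK
  have hbK : (b : ℝ) * (2 * m * K) ≤ m * (2 * m * K) :=
    mul_le_mul_of_nonneg_right (by exact_mod_cast hb) (by linarith)
  rw [abs_le] at *
  constructor <;> nlinarith [t2.1, t2.2, t5.1, t5.2]

end AffAux

open AffAux in
theorem affine_avg (m : ℕ) (v : ℤ × ℤ → ℂ) (φ : ℤ × ℤ → ℝ) (I : Finset (ℤ × ℤ)) (lam : ℝ)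
    (h0 : ∀ z, 0 ≤ φ z)
    (hsupp : ∀ z, φ z ≠ 0 → ∀ y : ℤ × ℤ, |y.1| ≤ m + 3 → |y.2| ≤ m + 3 → z + y ∈ I)
    (hlip : ∀ z, ∀ k : Fin 3, |φ (z + dr k) - φ z| ≤ lam)
    (hgl : ∀ z ∈ I, ∀ k : Fin 3, z + dr k ∈ I → 0 ≤ gl v z k) (a b : ℕ) (ha : a ≤ m) (hb : b ≤ m) :
    ‖∑ z ∈ I, (φ z : ℂ) * ((v (z + ((a : ℤ), (b : ℤ))) - v z) - a * (v (z + (1, 0)) - v z) -
        b * (v (z + (0, 1)) - v z))‖ ≤
      32 * (m : ℝ) ^ 2 * lam * ∑ z ∈ I, ∑ k : Fin 3, (if z + dr k ∈ I then gl v z k else 0) := by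
  classical
  have hlam : 0 ≤ lam := (abs_nonneg _).trans (hlip 0 0)
  set G : ℝ := ∑ z ∈ I, ∑ k : Fin 3, (if z + dr k ∈ I then gl v z k else 0) with hG
  -- the three gap functions
  set Gk : Fin 3 → ℝ := fun k => ∑ z ∈ I, (if z + dr k ∈ I then gl v z k else 0) with hGk
  have hGk0 : ∀ k, 0 ≤ Gk k := by
    intro k
    apply Finset.sum_nonneg
    intro z hz
    split_ifs with h
    · exact hgl z hz k h
    · exact le_rfl
  have hGsum : G = Gk 0 + Gk 1 + Gk 2 := by
    rw [hG, Finset.sum_comm, Fin.sum_univ_three]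
  -- the two coordinates
  set f1 : ℤ × ℤ → ℝ := fun z => (v z).re with hf1
  set f2 : ℤ × ℤ → ℝ := fun z => -1 / 2 * (v z).re + √3 / 2 * (v z).im with hf2
  have g0 : ∀ z, gl v z 0 = f1 (z + (1, 0)) - f1 z := by
    intro z
    simp [gl, dr, hf1]
  have g1 : ∀ z, gl v z 1 = f2 (z + (0, 1)) - f2 z := by
    intro z
    simp [gl, dr, hf2, om]
    ring
  have h3 : √3 * √3 = 3 := Real.mul_self_sqrt (by norm_num)
  have om2 : om ^ 2 = ⟨-1 / 2, -(√3 / 2)⟩ := by
    apply Complex.ext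
    · simp [om, pow_two]
      nlinarith
    · simp [om, pow_two]
      ring
  have g2 : ∀ z, gl v z 2 = f1 z + f2 z - (f1 (z + (-1, -1)) + f2 (z + (-1, -1))) := by
    intro z
    have : ((2 : Fin 3) : ℕ) = 2 := rfl
    simp only [gl, this, om2]
    simp [dr, hf1, hf2]
    ring
  -- the weighted sums
  set P : (ℤ × ℤ → ℝ) → ℤ × ℤ → ℝ := fun f y => ∑ z ∈ I, φ z * f (z + y) with hP
  have bound : ∀ (k k' : Fin 3) (y : ℤ × ℤ), |y.1| ≤ m + 1 → |y.2| ≤ m + 1 →
      |P (fun z => gl v z k) (y + dr k') - P (fun z => gl v z k) y| ≤ lam * Gk k := by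
    intro k k' y h1 h2
    have h := sbp m φ I lam hsupp hlip k k' (fun z => gl v z k) (fun z hz h => hgl z hz k h) y h1 h2
    have e : P (fun z => gl v z k) (y + dr k') - P (fun z => gl v z k) y =
        ∑ z ∈ I, φ z * (gl v (z + (y + dr k')) k - gl v (z + y) k) := by
      simp only [hP, mul_sub, Finset.sum_sub_distrib]
    rw [e]
    exact h
  have b1 : ∀ (k : Fin 3) (i j : ℤ), |i| ≤ m + 1 → |j| ≤ m + 1 →
      |P (fun z => gl v z k) (i + 1, j) - P (fun z => gl v z k) (i, j)| ≤ lam * Gk k := by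
    intro k i j h1 h2
    have := bound k 0 (i, j) h1 h2
    simpa [dr] using this
  have b2 : ∀ (k : Fin 3) (i j : ℤ), |i| ≤ m + 1 → |j| ≤ m + 1 →
      |P (fun z => gl v z k) (i, j + 1) - P (fun z => gl v z k) (i, j)| ≤ lam * Gk k := by
    intro k i j h1 h2
    have := bound k 1 (i, j) h1 h2
    simpa [dr] using this
  have r0 : ∀ i j : ℤ, P (fun z => gl v z 0) (i, j) = P f1 (i + 1, j) - P f1 (i, j) := by
    intro i j
    simp only [hP, ← Finset.sum_sub_distrib, ← mul_sub, g0]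
    refine Finset.sum_congr rfl fun z _ => ?_
    rw [add_assoc z (i, j)]
    simp
  have r1 : ∀ i j : ℤ, P (fun z => gl v z 1) (i, j) = P f2 (i, j + 1) - P f2 (i, j) := by
    intro i j
    simp only [hP, ← Finset.sum_sub_distrib, ← mul_sub, g1]
    refine Finset.sum_congr rfl fun z _ => ?_
    rw [add_assoc z (i, j)]
    simp
  have r2 : ∀ i j : ℤ, P (fun z => gl v z 2) (i, j) =
      P f1 (i, j) + P f2 (i, j) - (P f1 (i - 1, j - 1) + P f2 (i - 1, j - 1)) := by
    intro i j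
    simp only [hP, ← Finset.sum_sub_distrib, ← Finset.sum_add_distrib, ← mul_sub, ← mul_add, g2]
    refine Finset.sum_congr rfl fun z _ => ?_
    rw [add_assoc z (i, j)]
    simp [sub_eq_add_neg]
  have r2' : ∀ i j : ℤ, P (fun z => gl v z 2) (i + 1, j + 1) =
      P f1 (i + 1, j + 1) + P f2 (i + 1, j + 1) - (P f1 (i, j) + P f2 (i, j)) := by
    intro i j
    rw [r2]
    simp
  have a0 := hGk0 0
  have a1 := hGk0 1
  have a2 := hGk0 2
  have l0 : 0 ≤ lam * Gk 0 := mul_nonneg hlam a0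
  have l1 : 0 ≤ lam * Gk 1 := mul_nonneg hlam a1
  have l2 : 0 ≤ lam * Gk 2 := mul_nonneg hlam a2
  have lG : lam * G = lam * Gk 0 + lam * Gk 1 + lam * Gk 2 := by rw [hGsum]; ring
  set K : ℝ := 2 * (lam * G) with hK
  have hK0 : 0 ≤ K := by rw [hK]; linarith
  have hcast : ∀ i : ℕ, i ≤ m → |(i : ℤ)| ≤ m + 1 ∧ |(i : ℤ) + 1| ≤ m + 1 := by
    intro i hi
    rw [abs_of_nonneg (by positivity), abs_of_nonneg (by positivity)]
    constructor <;> omega
  have q1 : |P f1 ((a : ℤ), (b : ℤ)) - P f1 (0, 0) - a * (P f1 (1, 0) - P f1 (0, 0)) -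
      b * (P f1 (0, 1) - P f1 (0, 0))| ≤ 3 * (m : ℝ) ^ 2 * K := by
    have := quad (fun i j => P f1 ((i : ℤ), (j : ℤ))) m K hK0 ?_ ?_ ?_ a b ha hb
    · simpa using this
    · intro i j hi hj
      obtain ⟨hi1, hi2⟩ := hcast i hi
      obtain ⟨hj1, hj2⟩ := hcast j hj
      have t := b1 0 i j hi1 hj1
      rw [r0, r0] at t
      have e : ((i : ℤ) + 2) = (i : ℤ) + 1 + 1 := by ring
      push_cast
      rw [e, hK, lG]
      rw [abs_le] at t ⊢
      constructor <;> linarith [t.1, t.2]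
    · intro i j hi hj
      obtain ⟨hi1, hi2⟩ := hcast i hi
      obtain ⟨hj1, hj2⟩ := hcast j hj
      have t1 := b2 2 (i + 1) (j + 1) hi2 hj2
      have t2 := b2 0 i (j + 1) hi1 hj2
      have t3 := b2 1 (i + 1) j hi2 hj1
      have t4 := b1 1 i j hi1 hj1
      rw [r2', r2'] at t1
      rw [r0, r0] at t2
      rw [r1, r1] at t3
      rw [r1, r1] at t4
      have e : ((j : ℤ) + 2) = (j : ℤ) + 1 + 1 := by ring
      push_cast
      rw [e, hK, lG]
      rw [abs_le] at t1 t2 t3 t4 ⊢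
      constructor <;> linarith [t1.1, t1.2, t2.1, t2.2, t3.1, t3.2, t4.1, t4.2]
    · intro i j hi hj
      obtain ⟨hi1, hi2⟩ := hcast i hi
      obtain ⟨hj1, hj2⟩ := hcast j hj
      have t := b2 0 i j hi1 hj1
      rw [r0, r0] at t
      push_cast
      rw [hK, lG]
      rw [abs_le] at t ⊢
      constructor <;> linarith [t.1, t.2]
  have q2 : |P f2 ((a : ℤ), (b : ℤ)) - P f2 (0, 0) - a * (P f2 (1, 0) - P f2 (0, 0)) -
      b * (P f2 (0, 1) - P f2 (0, 0))| ≤ 3 * (m : ℝ) ^ 2 * K := by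
    have := quad (fun i j => P f2 ((i : ℤ), (j : ℤ))) m K hK0 ?_ ?_ ?_ a b ha hb
    · simpa using this
    · intro i j hi hj
      obtain ⟨hi1, hi2⟩ := hcast i hi
      obtain ⟨hj1, hj2⟩ := hcast j hj
      have t1 := b1 2 (i + 1) (j + 1) hi2 hj2
      have t2 := b1 0 i (j + 1) hi1 hj2
      have t3 := b1 1 (i + 1) j hi2 hj1
      have t4 := b2 0 i j hi1 hj1
      rw [r2', r2'] at t1
      rw [r0, r0] at t2
      rw [r1, r1] at t3
      rw [r0, r0] at t4
      have e : ((i : ℤ) + 2) = (i : ℤ) + 1 + 1 := by ring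
      push_cast
      rw [e, hK, lG]
      rw [abs_le] at t1 t2 t3 t4 ⊢
      constructor <;> linarith [t1.1, t1.2, t2.1, t2.2, t3.1, t3.2, t4.1, t4.2]
    · intro i j hi hj
      obtain ⟨hi1, hi2⟩ := hcast i hi
      obtain ⟨hj1, hj2⟩ := hcast j hj
      have t := b2 1 i j hi1 hj1
      rw [r1, r1] at t
      have e : ((j : ℤ) + 2) = (j : ℤ) + 1 + 1 := by ring
      push_cast
      rw [e, hK, lG]
      rw [abs_le] at t ⊢
      constructor <;> linarith [t.1, t.2]
    · intro i j hi hj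
      obtain ⟨hi1, hi2⟩ := hcast i hi
      obtain ⟨hj1, hj2⟩ := hcast j hj
      have t := b1 1 i j hi1 hj1
      rw [r1, r1] at t
      push_cast
      rw [hK, lG]
      rw [abs_le] at t ⊢
      constructor <;> linarith [t.1, t.2]
  -- the complex number
  set Z : ℂ := ∑ z ∈ I, (φ z : ℂ) * ((v (z + ((a : ℤ), (b : ℤ))) - v z) -
    a * (v (z + (1, 0)) - v z) - b * (v (z + (0, 1)) - v z)) with hZ
  have hre : Z.re = P f1 ((a : ℤ), (b : ℤ)) - P f1 (0, 0) - a * (P f1 (1, 0) - P f1 (0, 0)) -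
      b * (P f1 (0, 1) - P f1 (0, 0)) := by
    rw [hZ, Complex.re_sum]
    simp only [hP, hf1, ← Finset.sum_sub_distrib, Finset.mul_sum]
    refine Finset.sum_congr rfl fun z _ => ?_
    have : z + (0, 0) = z := by simp
    rw [this]
    simp
    ring
  have him : -1 / 2 * Z.re + √3 / 2 * Z.im = P f2 ((a : ℤ), (b : ℤ)) - P f2 (0, 0) -
      a * (P f2 (1, 0) - P f2 (0, 0)) - b * (P f2 (0, 1) - P f2 (0, 0)) := by
    rw [hZ, Complex.re_sum, Complex.im_sum]
    simp only [hP, hf2, ← Finset.sum_sub_distrib, Finset.mul_sum, ← Finset.sum_add_distrib]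
    refine Finset.sum_congr rfl fun z _ => ?_
    have : z + (0, 0) = z := by simp
    rw [this]
    simp
    ring
  rw [← hre] at q1
  rw [← him] at q2
  set B : ℝ := 3 * (m : ℝ) ^ 2 * K with hB
  have hB0 : 0 ≤ B := by rw [hB]; positivity
  have hsn : 0 ≤ √3 := Real.sqrt_nonneg 3
  have hs1 : (1.7 : ℝ) ≤ √3 := by nlinarith
  have hIm : |Z.im| ≤ 1.8 * B := by
    rw [abs_le] at q1 q2 ⊢
    have h1 : √3 / 2 * Z.im ≤ 1.5 * B := by linarith [q1.1, q1.2, q2.1, q2.2]
    have h2 : -(1.5 * B) ≤ √3 / 2 * Z.im := by linarith [q1.1, q1.2, q2.1, q2.2]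
    constructor
    · by_contra hc
      push Not at hc
      have : √3 / 2 * Z.im < √3 / 2 * (-(1.8 * B)) :=
        mul_lt_mul_of_pos_left hc (by linarith)
      nlinarith
    · by_contra hc
      push Not at hc
      have : √3 / 2 * (1.8 * B) < √3 / 2 * Z.im :=
        mul_lt_mul_of_pos_left hc (by linarith)
      nlinarith
  calc ‖Z‖ ≤ |Z.re| + |Z.im| := Complex.norm_le_abs_re_add_abs_im Z
    _ ≤ B + 1.8 * B := add_le_add q1 hIm
    _ = 16.8 * (m : ℝ) ^ 2 * (lam * G) := by rw [hB, hK]; ring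
    _ ≤ 32 * (m : ℝ) ^ 2 * lam * G := by
        have : 0 ≤ (m : ℝ) ^ 2 * (lam * G) := by
          have : 0 ≤ lam * G := by rw [lG]; linarith
          positivity
        linarith

end Pool.Agent.J4.H83.HD
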