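import Pool.Agent.J4.H83.HD.W
import Pool.Agent.J4.H83.HD.Aff

/-!
# Averages over the translations and rotations of the boundary data of a cell
-/

set_option autoImplicit false

open MeasureTheory Set Filter Topology

namespace Pool.Agent.J4.H83.HD

namespace Avg

/-- the rotation as a permutation -/
def rtE : Equiv.Perm (ℤ × ℤ) where
  toFun := rt
  invFun z := rt (rt z)
  left_inv z := by ext <;> simp [rt] <;> ring
  right_inv z := by ext <;> simp [rt] <;> ring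

/-- its powers -/
def e (j : Fin 3) : Equiv.Perm (ℤ × ℤ) := rtE ^ (j : ℕ)

lemma e_apply (j : Fin 3) (z : ℤ × ℤ) : e j z = rt^[(j : ℕ)] z := by
  rw [e, ← Equiv.Perm.iterate_eq_pow]; rfl

lemma rt_add (x y : ℤ × ℤ) : rt (x + y) = rt x + rt y := by
  ext <;> simp [rt] <;> ring

lemma e_add (j : Fin 3) (x y : ℤ × ℤ) : e j (x + y) = e j x + e j y := by
  rw [e_apply, e_apply, e_apply]
  generalize (j : ℕ) = n
  induction n with
  | zero => rfl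
  | succ n ih => simp only [Function.iterate_succ_apply', ih, rt_add]

lemma e_dr : ∀ j k : Fin 3, e j (dr k) = dr (k + j) := by
  intro j k
  rw [e_apply]
  revert j k
  decide

lemma e_bound (j : Fin 3) (y : ℤ × ℤ) (M : ℤ) (h1 : |y.1| ≤ M) (h2 : |y.2| ≤ M) :
    |(e j y).1| ≤ 2 * M ∧ |(e j y).2| ≤ 2 * M := by
  rw [e_apply]
  have hM : 0 ≤ M := (abs_nonneg _).trans h1
  rw [abs_le] at h1 h2
  fin_cases j <;> simp [rt, abs_le] <;> omega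

lemma om_re : om.re = -1 / 2 := rfl
lemma om_im : om.im = √3 / 2 := rfl

lemma cb_mul : (starRingEnd ℂ) om * om = 1 := by
  have h3 : √3 * √3 = (3 : ℝ) := Real.mul_self_sqrt (by norm_num)
  apply Complex.ext
  · simp [Complex.mul_re, om_re, om_im]; nlinarith
  · simp [Complex.mul_im, om_re, om_im]; ring

lemma om_cube : om ^ 3 = 1 := by
  have h3 : √3 * √3 = (3 : ℝ) := Real.mul_self_sqrt (by norm_num)
  have h2 : om ^ 2 = -1 - om := by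
    apply Complex.ext
    · simp [pow_two, Complex.mul_re, om_re, om_im]; nlinarith
    · simp [pow_two, Complex.mul_im, om_re, om_im]; ring
  calc om ^ 3 = om ^ 2 * om := by ring
    _ = (-1 - om) * om := by rw [h2]
    _ = -om - om ^ 2 := by ring
    _ = 1 := by rw [h2]; ring

lemma cb_cube : (starRingEnd ℂ) om ^ 3 = 1 := by
  rw [← map_pow, om_cube, map_one]

/-- the field in the rotated frame -/
noncomputable def vr (u : ℤ × ℤ → ℂ) (j : Fin 3) (x : ℤ × ℤ) : ℂ :=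
  (starRingEnd ℂ) om ^ (j : ℕ) * u (e j x)

lemma gl_rot (u : ℤ × ℤ → ℂ) (j k : Fin 3) (x : ℤ × ℤ) :
    gl (vr u j) x k = gl u (e j x) (k + j) := by
  unfold gl vr
  congr 1
  rw [map_pow, map_pow, e_add, e_dr, Fin.val_add, ← pow_eq_pow_mod _ cb_cube, pow_add]
  ring

lemma bdy_vr (u : ℤ × ℤ → ℂ) (j : Fin 3) (x y : ℤ × ℤ) :
    bdy u j (e j x) y = vr u j (x + y) - vr u j x := by
  unfold bdy vr
  rw [← e_apply, e_add]
  ring

lemma mem_map (I : Finset (ℤ × ℤ)) (j : Fin 3) (x : ℤ × ℤ) :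
    x ∈ I.map (e j).symm.toEmbedding ↔ e j x ∈ I := by
  simp only [Finset.mem_map, Equiv.coe_toEmbedding]
  constructor
  · rintro ⟨y, hy, rfl⟩
    rwa [Equiv.apply_symm_apply]
  · intro h
    exact ⟨_, h, Equiv.symm_apply_apply _ _⟩

lemma sum_rot {M : Type} [AddCommMonoid M] (I : Finset (ℤ × ℤ)) (j : Fin 3) (f : ℤ × ℤ → M) :
    ∑ x ∈ I.map (e j).symm.toEmbedding, f (e j x) = ∑ z ∈ I, f z := by
  rw [Finset.sum_map]
  refine Finset.sum_congr rfl fun z _ => ?_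
  rw [Equiv.coe_toEmbedding, Equiv.apply_symm_apply]

/-- the sum over the translations -/
noncomputable def T (u : ℤ × ℤ → ℂ) (φ : ℤ × ℤ → ℝ) (I : Finset (ℤ × ℤ)) (j : Fin 3)
    (y : ℤ × ℤ) : ℂ := ∑ z ∈ I, (φ z : ℂ) * bdy u j z y

/-- the sum over the translations and rotations -/
noncomputable def S (u : ℤ × ℤ → ℂ) (φ : ℤ × ℤ → ℝ) (I : Finset (ℤ × ℤ)) (y : ℤ × ℤ) : ℂ :=
  ∑ j : Fin 3, T u φ I j y

lemma T_eq (u : ℤ × ℤ → ℂ) (φ : ℤ × ℤ → ℝ) (I : Finset (ℤ × ℤ)) (j : Fin 3) (y : ℤ × ℤ) :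
    T u φ I j y = ∑ x ∈ I.map (e j).symm.toEmbedding,
      (φ (e j x) : ℂ) * (vr u j (x + y) - vr u j x) := by
  unfold T
  rw [← sum_rot I j fun z => (φ z : ℂ) * bdy u j z y]
  refine Finset.sum_congr rfl fun x _ => ?_
  rw [bdy_vr]

lemma gaps_rot (u : ℤ × ℤ → ℂ) (I : Finset (ℤ × ℤ)) (j : Fin 3) :
    ∑ x ∈ I.map (e j).symm.toEmbedding, ∑ k : Fin 3,
      (if x + dr k ∈ I.map (e j).symm.toEmbedding then gl (vr u j) x k else 0) =
    ∑ z ∈ I, ∑ k : Fin 3, (if z + dr k ∈ I then gl u z k else 0) := by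
  rw [← sum_rot I j fun z => ∑ k : Fin 3, (if z + dr k ∈ I then gl u z k else 0)]
  refine Finset.sum_congr rfl fun x _ => ?_
  rw [← Equiv.sum_comp (Equiv.addRight j)
    (fun k : Fin 3 => if e j x + dr k ∈ I then gl u (e j x) k else 0)]
  refine Finset.sum_congr rfl fun k _ => ?_
  simp only [Equiv.coe_addRight]
  rw [gl_rot]
  simp only [mem_map, e_add, e_dr]

lemma T_affine (m : ℕ) (u : ℤ × ℤ → ℂ) (φ : ℤ × ℤ → ℝ) (I : Finset (ℤ × ℤ))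
    (lam G : ℝ) (hlam : 0 ≤ lam) (h0 : ∀ z, 0 ≤ φ z)
    (hsupp : ∀ z, φ z ≠ 0 → ∀ y : ℤ × ℤ, |y.1| ≤ 2 * m + 6 → |y.2| ≤ 2 * m + 6 → z + y ∈ I)
    (hlip : ∀ z, ∀ k : Fin 3, |φ (z + dr k) - φ z| ≤ lam)
    (hgl : ∀ z ∈ I, ∀ k : Fin 3, z + dr k ∈ I → 0 ≤ gl u z k)
    (hG : ∑ z ∈ I, ∑ k : Fin 3, (if z + dr k ∈ I then gl u z k else 0) ≤ G) (j : Fin 3)
    (a b : ℕ) (ha : a ≤ m) (hb : b ≤ m) :
    ‖T u φ I j ((a : ℤ), (b : ℤ)) - a * T u φ I j (1, 0) - b * T u φ I j (0, 1)‖ ≤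
      32 * (m : ℝ) ^ 2 * lam * G := by
  have key := affine_avg m (vr u j) (fun x => φ (e j x)) (I.map (e j).symm.toEmbedding) lam
    (fun z => h0 _) ?_ ?_ ?_ a b ha hb
  · rw [gaps_rot] at key
    have h2 : 32 * (m : ℝ) ^ 2 * lam *
        ∑ z ∈ I, ∑ k : Fin 3, (if z + dr k ∈ I then gl u z k else 0) ≤
        32 * (m : ℝ) ^ 2 * lam * G := by
      apply mul_le_mul_of_nonneg_left hG
      positivity
    refine le_trans (le_of_eq ?_) (key.trans h2)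
    congr 1
    rw [T_eq, T_eq, T_eq, Finset.mul_sum, Finset.mul_sum, ← Finset.sum_sub_distrib,
      ← Finset.sum_sub_distrib]
    refine Finset.sum_congr rfl fun x _ => ?_
    ring
  · intro z hz y h1 h2
    rw [mem_map, e_add]
    obtain ⟨h3, h4⟩ := e_bound j y (m + 3) h1 h2
    exact hsupp _ hz _ (by linarith) (by linarith)
  · intro z k
    show |φ (e j (z + dr k)) - φ (e j z)| ≤ lam
    rw [e_add, e_dr]
    exact hlip _ _
  · intro z hz k hk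
    rw [mem_map] at hz hk
    rw [e_add, e_dr] at hk
    rw [gl_rot]
    exact hgl _ hz _ hk

lemma S_affine (m : ℕ) (u : ℤ × ℤ → ℂ) (φ : ℤ × ℤ → ℝ) (I : Finset (ℤ × ℤ))
    (lam G : ℝ) (hlam : 0 ≤ lam) (h0 : ∀ z, 0 ≤ φ z)
    (hsupp : ∀ z, φ z ≠ 0 → ∀ y : ℤ × ℤ, |y.1| ≤ 2 * m + 6 → |y.2| ≤ 2 * m + 6 → z + y ∈ I)
    (hlip : ∀ z, ∀ k : Fin 3, |φ (z + dr k) - φ z| ≤ lam)
    (hgl : ∀ z ∈ I, ∀ k : Fin 3, z + dr k ∈ I → 0 ≤ gl u z k)
    (hG : ∑ z ∈ I, ∑ k : Fin 3, (if z + dr k ∈ I then gl u z k else 0) ≤ G)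
    (a b : ℕ) (ha : a ≤ m) (hb : b ≤ m) :
    ‖S u φ I ((a : ℤ), (b : ℤ)) - a * S u φ I (1, 0) - b * S u φ I (0, 1)‖ ≤
      3 * (32 * (m : ℝ) ^ 2 * lam * G) := by
  have h : S u φ I ((a : ℤ), (b : ℤ)) - a * S u φ I (1, 0) - b * S u φ I (0, 1) =
      ∑ j : Fin 3, (T u φ I j ((a : ℤ), (b : ℤ)) - a * T u φ I j (1, 0) -
        b * T u φ I j (0, 1)) := by
    unfold S
    rw [Finset.mul_sum, Finset.mul_sum, ← Finset.sum_sub_distrib, ← Finset.sum_sub_distrib]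
  rw [h]
  refine (norm_sum_le _ _).trans ?_
  refine (Finset.sum_le_sum fun j _ => T_affine m u φ I lam G hlam h0 hsupp hlip hgl hG j a b
    ha hb).trans (le_of_eq ?_)
  simp

lemma T_one (u : ℤ × ℤ → ℂ) (φ : ℤ × ℤ → ℝ) (I : Finset (ℤ × ℤ)) (j : Fin 3) :
    T u φ I j (1, 0) = ∑ z ∈ I, (φ z : ℂ) * ((starRingEnd ℂ) om ^ (j : ℕ) *
      (u (z + dr j) - u z)) := by
  unfold T bdy
  refine Finset.sum_congr rfl fun z _ => ?_
  have : rt^[(j : ℕ)] ((1, 0) : ℤ × ℤ) = dr j := by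
    have h := e_dr j 0
    rw [e_apply, zero_add] at h
    exact h
  rw [this]

lemma T_two (u : ℤ × ℤ → ℂ) (φ : ℤ × ℤ → ℝ) (I : Finset (ℤ × ℤ)) (j : Fin 3) :
    T u φ I j (0, 1) = om * T u φ I (j + 1) (1, 0) := by
  rw [T_one, Finset.mul_sum]
  unfold T bdy
  refine Finset.sum_congr rfl fun z _ => ?_
  have h1 : rt^[(j : ℕ)] ((0, 1) : ℤ × ℤ) = dr (j + 1) := by
    have h := e_dr j 1
    rw [e_apply, add_comm] at h
    exact h
  have h2 : (starRingEnd ℂ) om ^ ((j + 1 : Fin 3) : ℕ) = (starRingEnd ℂ) om ^ (j : ℕ) *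
      (starRingEnd ℂ) om := by
    rw [Fin.val_add, ← pow_eq_pow_mod _ cb_cube, pow_add]
    simp
  rw [h1, h2]
  have h3 := cb_mul
  linear_combination (-(φ z : ℂ) * (starRingEnd ℂ) om ^ (j : ℕ) * (u (z + dr (j + 1)) - u z)) * h3

lemma S_two (u : ℤ × ℤ → ℂ) (φ : ℤ × ℤ → ℝ) (I : Finset (ℤ × ℤ)) :
    S u φ I (0, 1) = om * S u φ I (1, 0) := by
  unfold S
  rw [Finset.mul_sum, ← Equiv.sum_comp (Equiv.addRight (1 : Fin 3))
    (fun j => om * T u φ I j (1, 0))]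
  refine Finset.sum_congr rfl fun j _ => ?_
  rw [T_two]
  rfl

lemma S_re (m : ℕ) (u : ℤ × ℤ → ℂ) (φ : ℤ × ℤ → ℝ) (I : Finset (ℤ × ℤ)) (G : ℝ)
    (h1 : ∀ z, φ z ≤ 1)
    (hsupp : ∀ z, φ z ≠ 0 → ∀ y : ℤ × ℤ, |y.1| ≤ 2 * m + 6 → |y.2| ≤ 2 * m + 6 → z + y ∈ I)
    (hgl : ∀ z ∈ I, ∀ k : Fin 3, z + dr k ∈ I → 0 ≤ gl u z k)
    (hG : ∑ z ∈ I, ∑ k : Fin 3, (if z + dr k ∈ I then gl u z k else 0) ≤ G) :
    (S u φ I (1, 0)).re ≤ G := by
  have h : (S u φ I (1, 0)).re = ∑ z ∈ I, ∑ k : Fin 3, φ z * gl u z k := by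
    unfold S
    simp only [T_one]
    rw [Finset.sum_comm, Complex.re_sum]
    refine Finset.sum_congr rfl fun z _ => ?_
    rw [Complex.re_sum]
    refine Finset.sum_congr rfl fun k _ => ?_
    rw [Complex.re_ofReal_mul]
    unfold gl
    rw [map_pow]
  rw [h]
  refine le_trans (Finset.sum_le_sum fun z hz => Finset.sum_le_sum fun k _ => ?_) hG
  by_cases hφ : φ z = 0
  · rw [hφ, zero_mul]
    split_ifs with hk
    · exact hgl z hz k hk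
    · exact le_rfl
  · have hk : z + dr k ∈ I := by
      apply hsupp z hφ
      · fin_cases k <;> simp [dr] <;> omega
      · fin_cases k <;> simp [dr] <;> omega
    rw [if_pos hk]
    have := hgl z hz k hk
    nlinarith [h1 z]

end Avg

open Avg

theorem cell_avg (m : ℕ) (_hm : 2 ≤ m) (u : ℤ × ℤ → ℂ) (φ : ℤ × ℤ → ℝ) (I : Finset (ℤ × ℤ))
    (lam G : ℝ) (hlam : 0 ≤ lam) (h0 : ∀ z, 0 ≤ φ z) (h1 : ∀ z, φ z ≤ 1)
    (hsupp : ∀ z, φ z ≠ 0 → ∀ y : ℤ × ℤ, |y.1| ≤ 2 * m + 6 → |y.2| ≤ 2 * m + 6 → z + y ∈ I)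
    (hlip : ∀ z, ∀ k : Fin 3, |φ (z + dr k) - φ z| ≤ lam)
    (hgl : ∀ z ∈ I, ∀ k : Fin 3, z + dr k ∈ I → 0 ≤ gl u z k)
    (hG : ∑ z ∈ I, ∑ k : Fin 3, (if z + dr k ∈ I then gl u z k else 0) ≤ G) (hG0 : 0 < G)
    (hΦ : 0 < ∑ z ∈ I, φ z) :
    ∏ j : Fin 3, ∏ z ∈ I, W m (bdy u j z) ^ (φ z / (3 * ∑ z ∈ I, φ z)) ≤
      ENNReal.ofReal (((1 / 3 + 32 * (m : ℝ) ^ 2 * lam) * G / ∑ z ∈ I, φ z) ^ (2 * (m - 1) ^ 2)) *
        W m pt := by
  set F : ℝ := ∑ z ∈ I, φ z with hF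
  set s : ℝ := (1 / 3 + 32 * (m : ℝ) ^ 2 * lam) * G / F with hs
  have hs0 : 0 < s := by rw [hs]; positivity
  have hF0 : (F : ℂ) ≠ 0 := by exact_mod_cast hΦ.ne'
  -- Jensen
  have hJ := W_jensen m ((Finset.univ : Finset (Fin 3)) ×ˢ I)
    (fun i => φ i.2 / (3 * F)) (fun i _ => by have := h0 i.2; positivity)
    (by
      rw [Finset.sum_product]
      simp only [← Finset.sum_div, ← hF]
      rw [Finset.sum_const, Finset.card_univ, Fintype.card_fin]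
      field_simp
      norm_num)
    (fun i => bdy u i.1 i.2)
  rw [Finset.prod_product] at hJ
  refine hJ.trans ?_
  rw [← W_smul m s hs0 pt]
  -- the average
  have hav : ∀ y : ℤ × ℤ, ∑ i ∈ (Finset.univ : Finset (Fin 3)) ×ˢ I,
      ((φ i.2 / (3 * F) : ℝ) : ℂ) * bdy u i.1 i.2 y = S u φ I y / (3 * F) := by
    intro y
    rw [Finset.sum_product]
    unfold S T
    rw [Finset.sum_div]
    refine Finset.sum_congr rfl fun j _ => ?_
    rw [Finset.sum_div]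
    refine Finset.sum_congr rfl fun z _ => ?_
    push_cast
    ring
  set α : ℂ := S u φ I (1, 0) / (3 * F) with hα
  have hαre : α.re ≤ G / (3 * F) := by
    have h2 : α = S u φ I (1, 0) / ((3 * F : ℝ) : ℂ) := by rw [hα]; push_cast; rfl
    rw [h2, Complex.div_ofReal_re]
    exact div_le_div_of_nonneg_right (S_re m u φ I G h1 hsupp hgl hG) (by positivity)
  have hc : 32 * (m : ℝ) ^ 2 * lam * G / F ≤ s - α.re := by
    have h3 : s = G / (3 * F) + 32 * (m : ℝ) ^ 2 * lam * G / F := by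
      rw [hs]; field_simp
    linarith
  have hc0 : 0 ≤ 32 * (m : ℝ) ^ 2 * lam * G / F := by positivity
  refine W_robust m (s - α.re) (-α.im) (hc0.trans hc) _ _ fun z hz _ => ?_
  obtain ⟨z1, z2⟩ := z
  simp only [Sq, Finset.mem_product, Finset.mem_Icc] at hz
  obtain ⟨⟨ha0, ha⟩, hb0, hb⟩ := hz
  obtain ⟨a, rfl⟩ := Int.eq_ofNat_of_zero_le ha0
  obtain ⟨b, rfl⟩ := Int.eq_ofNat_of_zero_le hb0
  have ha' : a ≤ m := by exact_mod_cast ha
  have hb' : b ≤ m := by exact_mod_cast hb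
  have hS := S_affine m u φ I lam G hlam h0 hsupp hlip hgl hG a b ha' hb'
  rw [S_two] at hS
  show ‖(s : ℂ) * pt _ - ∑ i ∈ (Finset.univ : Finset (Fin 3)) ×ˢ I,
      ((φ i.2 / (3 * F) : ℝ) : ℂ) * bdy u i.1 i.2 _ - _‖ ≤ _
  rw [hav]
  have hαα : (((s - α.re : ℝ) : ℂ) + ((-α.im : ℝ) : ℂ) * Complex.I) = s - α := by
    apply Complex.ext <;> simp
  rw [hαα]
  have heq : (s : ℂ) * pt ((a : ℤ), (b : ℤ)) - S u φ I ((a : ℤ), (b : ℤ)) / (3 * F) -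
      (s - α) * pt ((a : ℤ), (b : ℤ)) =
      -((S u φ I ((a : ℤ), (b : ℤ)) - a * S u φ I (1, 0) - b * (om * S u φ I (1, 0))) /
        (3 * F)) := by
    rw [hα]
    unfold pt
    push_cast
    field_simp
    ring
  rw [heq, norm_neg, norm_div]
  have hn : ‖(3 * F : ℂ)‖ = 3 * F := by
    rw [norm_mul, Complex.norm_real, Real.norm_eq_abs, abs_of_pos hΦ]
    norm_num
  rw [hn]
  refine le_trans ?_ hc
  calc _ ≤ 3 * (32 * (m : ℝ) ^ 2 * lam * G) / (3 * F) :=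
        div_le_div_of_nonneg_right hS (by positivity)
    _ = _ := by field_simp

end Pool.Agent.J4.H83.HD
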