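import Mathlib

/-!
# Iterated integrals over independent blocks
-/

set_option autoImplicit false

open MeasureTheory Set Filter Topology

namespace Pool.Agent.J4.H83.HD

/-- constants (functions which do not depend on the integrated coordinates) come out -/
theorem lmarg_mul_left {ι : Type} [DecidableEq ι] (s : Finset ι) (c f : (ι → ℂ) → ENNReal)
    (hf : Measurable f) (hc : ∀ x y : ι → ℂ, (∀ i, i ∉ s → x i = y i) → c x = c y) (x : ι → ℂ) :
    (∫⋯∫⁻_s, (fun x => c x * f x) ∂(fun _ => volume)) x =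
      c x * (∫⋯∫⁻_s, f ∂(fun _ => volume)) x := by
  unfold lmarginal
  rw [← lintegral_const_mul]
  · refine lintegral_congr fun w => ?_
    beta_reduce
    congr 1
    refine hc _ _ fun j hj => ?_
    simp only [Function.updateFinset, hj, dif_neg, not_false_iff]
  · exact hf.comp measurable_updateFinset

/-- independent blocks -/
theorem lmarg_blocks {ι : Type} [DecidableEq ι] {β : Type} [DecidableEq β] (J : β → Finset ι)
    (f : β → (ι → ℂ) → ENNReal) (Bs : Finset β)
    (hJ : ∀ b ∈ Bs, ∀ b' ∈ Bs, b ≠ b' → Disjoint (J b) (J b'))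
    (hf : ∀ b ∈ Bs, Measurable (f b))
    (hdep : ∀ b ∈ Bs, ∀ b' ∈ Bs, b ≠ b' → ∀ x y : ι → ℂ, (∀ i, i ∉ J b' → x i = y i) →
      f b x = f b y)
    (hint : ∀ b ∈ Bs, ∀ x, (∫⋯∫⁻_J b, f b ∂(fun _ => volume)) x ≤ 1) (x : ι → ℂ) :
    (∫⋯∫⁻_Bs.biUnion J, (fun x => ∏ b ∈ Bs, f b x) ∂(fun _ => volume)) x ≤ 1 := by
  revert x
  induction Bs using Finset.induction_on with
  | empty => intro x; simp
  | insert b Bs hb ih =>
    intro x
    have hdisj : Disjoint (Bs.biUnion J) (J b) := by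
      rw [Finset.disjoint_biUnion_left]
      intro b' hb'
      refine hJ b' (Finset.mem_insert_of_mem hb') b (Finset.mem_insert_self _ _) ?_
      rintro rfl
      exact hb hb'
    have hmeas : Measurable fun x => ∏ b ∈ insert b Bs, f b x :=
      Finset.measurable_fun_prod _ hf
    have hmeas' : Measurable fun x => ∏ b ∈ Bs, f b x :=
      Finset.measurable_fun_prod _ fun b' hb' => hf b' (Finset.mem_insert_of_mem hb')
    rw [Finset.biUnion_insert, Finset.union_comm, lmarginal_union _ _ hmeas hdisj]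
    refine le_trans (lmarginal_mono ?_ x) (ih ?_ ?_ ?_ ?_ x)
    · intro y
      have h1 : (fun x : ι → ℂ => ∏ b ∈ insert b Bs, f b x) =
          fun x => (∏ b ∈ Bs, f b x) * f b x := by
        funext x
        rw [Finset.prod_insert hb, mul_comm]
      rw [h1, lmarg_mul_left (J b) (fun x => ∏ b ∈ Bs, f b x) (f b)
        (hf b (Finset.mem_insert_self _ _))]
      · calc (∏ b ∈ Bs, f b y) * (∫⋯∫⁻_J b, f b ∂(fun _ => volume)) y
            ≤ (∏ b ∈ Bs, f b y) * 1 := by
              gcongr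
              exact hint b (Finset.mem_insert_self _ _) y
          _ = _ := mul_one _
      · intro x y hxy
        refine Finset.prod_congr rfl fun b' hb' => ?_
        refine hdep b' (Finset.mem_insert_of_mem hb') b (Finset.mem_insert_self _ _) ?_ x y hxy
        rintro rfl
        exact hb hb'
    · intro b1 h1 b2 h2
      exact hJ b1 (Finset.mem_insert_of_mem h1) b2 (Finset.mem_insert_of_mem h2)
    · intro b1 h1
      exact hf b1 (Finset.mem_insert_of_mem h1)
    · intro b1 h1 b2 h2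
      exact hdep b1 (Finset.mem_insert_of_mem h1) b2 (Finset.mem_insert_of_mem h2)
    · intro b1 h1
      exact hint b1 (Finset.mem_insert_of_mem h1)

/-- single coordinates -/
theorem lmarg_single {ι : Type} [DecidableEq ι] (h : ι → ℂ → ENNReal)
    (hh : ∀ i, Measurable (h i)) (hh1 : ∀ i, ∫⁻ z, h i z ≤ 1) (s : Finset ι) (x : ι → ℂ) :
    (∫⋯∫⁻_s, (fun x => ∏ i ∈ s, h i (x i)) ∂(fun _ => volume)) x ≤ 1 := by
  have h1 := lmarg_blocks (fun i : ι => ({i} : Finset ι)) (fun i x => h i (x i)) s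
    (fun b _ b' _ hbb' => Finset.disjoint_singleton.mpr hbb')
    (fun b _ => (hh b).comp (measurable_pi_apply b))
    (fun b _ b' _ hbb' x y hxy => by
      rw [hxy b (by rw [Finset.mem_singleton]; exact hbb')])
    (fun b _ x => by
      rw [lmarginal_singleton]
      simpa using hh1 b) x
  rwa [Finset.biUnion_singleton_eq_self] at h1

theorem block_integral {ι : Type} [Fintype ι] [DecidableEq ι] {β : Type} [DecidableEq β]
    (Bs : Finset β) (J : β → Finset ι)
    (hJ : ∀ b ∈ Bs, ∀ b' ∈ Bs, b ≠ b' → Disjoint (J b) (J b'))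
    (h : ι → ℂ → ENNReal) (hh : ∀ i, Measurable (h i)) (hh1 : ∀ i, ∫⁻ z, h i z ≤ 1)
    (f : β → (ι → ℂ) → ENNReal) (hf : ∀ b ∈ Bs, Measurable (f b))
    (hdep : ∀ b ∈ Bs, ∀ b' ∈ Bs, b ≠ b' → ∀ x y : ι → ℂ, (∀ i, i ∉ J b' → x i = y i) →
      f b x = f b y)
    (hint : ∀ b ∈ Bs, ∀ x, (∫⋯∫⁻_J b, f b ∂(fun _ => volume)) x ≤ 1) :
    ∫⁻ x : ι → ℂ, (∏ i ∈ Finset.univ \ Bs.biUnion J, h i (x i)) * ∏ b ∈ Bs, f b x ≤ 1 := by
  have hm1 : Measurable fun x : ι → ℂ => ∏ i ∈ Finset.univ \ Bs.biUnion J, h i (x i) :=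
    Finset.measurable_fun_prod _ fun i _ => (hh i).comp (measurable_pi_apply i)
  have hm2 : Measurable fun x : ι → ℂ => ∏ b ∈ Bs, f b x := Finset.measurable_fun_prod _ hf
  have hm : Measurable fun x : ι → ℂ =>
      (∏ i ∈ Finset.univ \ Bs.biUnion J, h i (x i)) * ∏ b ∈ Bs, f b x := hm1.mul hm2
  have hv : (volume : Measure (ι → ℂ)) = Measure.pi fun _ => volume := rfl
  rw [hv, lintegral_eq_lmarginal_univ (μ := fun _ : ι => (volume : Measure ℂ)) (0 : ι → ℂ)]
  have hun : (Finset.univ : Finset ι) = (Finset.univ \ Bs.biUnion J) ∪ Bs.biUnion J :=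
    (Finset.sdiff_union_of_subset (Finset.subset_univ _)).symm
  have hdisj : Disjoint (Finset.univ \ Bs.biUnion J) (Bs.biUnion J) := Finset.sdiff_disjoint
  have key : (∫⋯∫⁻_(Finset.univ \ Bs.biUnion J) ∪ Bs.biUnion J, (fun x : ι → ℂ =>
      (∏ i ∈ Finset.univ \ Bs.biUnion J, h i (x i)) * ∏ b ∈ Bs, f b x) ∂(fun _ => volume)) 0 ≤ 1 := by
    rw [lmarginal_union _ _ hm hdisj]
    refine le_trans (lmarginal_mono ?_ 0)
      (lmarg_single h hh hh1 (Finset.univ \ Bs.biUnion J) 0)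
    intro y
    rw [lmarg_mul_left (Bs.biUnion J) (fun x : ι → ℂ => ∏ i ∈ Finset.univ \ Bs.biUnion J, h i (x i))
      (fun x => ∏ b ∈ Bs, f b x) hm2]
    · calc (∏ i ∈ Finset.univ \ Bs.biUnion J, h i (y i)) *
            (∫⋯∫⁻_Bs.biUnion J, (fun x => ∏ b ∈ Bs, f b x) ∂(fun _ => volume)) y
          ≤ (∏ i ∈ Finset.univ \ Bs.biUnion J, h i (y i)) * 1 := by
            gcongr
            exact lmarg_blocks J f Bs hJ hf hdep hint y
        _ = _ := mul_one _
    · intro x y hxy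
      refine Finset.prod_congr rfl fun i hi => ?_
      rw [hxy i (Finset.mem_sdiff.mp hi).2]
  rw [← hun] at key
  exact key

end Pool.Agent.J4.H83.HD
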