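import Pool.Agent.J4.H83.HD.Types

/-!
# The lattice of a good cell
-/

set_option autoImplicit false

open MeasureTheory Set

namespace Pool.Agent.J4.H83.HD

open Pool.Agent.J4.H83.FV

/-- the point `w` is in the half open cell `c` -/
def InC (M : ℕ) (c : ℕ × ℕ) (w : ℂ) : Prop :=
  ((M : ℝ) * c.1 ≤ w.re ∧ w.re < M * (c.1 + 1)) ∧ ((M : ℝ) * c.2 ≤ w.im ∧ w.im < M * (c.2 + 1))

/-- the point of the net below `w` -/
lemma exists_pq {M b : ℕ} {c : ℕ × ℕ} {w : ℂ} (h : InC M c w) (k : Fin b) :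
    ∃ q : Fin (100 * M) × Fin (100 * M) × Fin b, q.2.2 = k ∧ ‖w - pq M c q‖ ≤ 1 / 50 := by
  obtain ⟨⟨h1, h2⟩, h3, h4⟩ := h
  have f1 := Nat.floor_le (show 0 ≤ 100 * (w.re - M * c.1) by linarith)
  have f2 := Nat.lt_floor_add_one (100 * (w.re - M * c.1))
  have f3 := Nat.floor_le (show 0 ≤ 100 * (w.im - M * c.2) by linarith)
  have f4 := Nat.lt_floor_add_one (100 * (w.im - M * c.2))
  have i1 : ⌊100 * (w.re - M * c.1)⌋₊ < 100 * M := by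
    rw [Nat.floor_lt (by linarith)]
    push_cast
    nlinarith
  have i2 : ⌊100 * (w.im - M * c.2)⌋₊ < 100 * M := by
    rw [Nat.floor_lt (by linarith)]
    push_cast
    nlinarith
  refine ⟨(⟨_, i1⟩, ⟨_, i2⟩, k), rfl, ?_⟩
  set p := pq M c (⟨⌊100 * (w.re - M * c.1)⌋₊, i1⟩, ⟨⌊100 * (w.im - M * c.2)⌋₊, i2⟩, k) with hp
  have e1 : (w - p).re = w.re - (M * c.1 + (⌊100 * (w.re - M * c.1)⌋₊ : ℝ) / 100) := rfl
  have e2 : (w - p).im = w.im - (M * c.2 + (⌊100 * (w.im - M * c.2)⌋₊ : ℝ) / 100) := rfl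
  have g1 : |(w - p).re| ≤ 1 / 100 := by rw [e1, abs_le]; constructor <;> linarith
  have g2 : |(w - p).im| ≤ 1 / 100 := by rw [e2, abs_le]; constructor <;> linarith
  have h5 := nsq (w - p)
  have h6 := sq_le_sq' (abs_le.1 g1).1 (abs_le.1 g1).2
  have h7 := sq_le_sq' (abs_le.1 g2).1 (abs_le.1 g2).2
  refine abs_le_of_sq_le_sq' ?_ (by positivity) |>.2
  nlinarith

/-- the lattice of a good cell from the propagation theorem -/
theorem cell_lattice {N : ℕ} (x : Fin N → ℂ) (hx : ∀ i j, i ≠ j → 1 ≤ ‖x i - x j‖) {M b : ℕ}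
    (hM : 1 ≤ M) (hb : 2000 * M ≤ b) {c : ℕ × ℕ} {o : Fin N} (ho : InC M c (x o)) {r₀ : ℂ}
    (hr₀ : ‖r₀‖ = 1) {ε e₁ τ : ℝ} (hε : ε ≤ 1 / 100) (he₁ : e₁ ≤ 1 / 20) (hbe : 7 / (b : ℝ) ≤ e₁)
    (hprop : ∀ z : ℤ × ℤ, |z.1| + |z.2| ≤ (4 * M : ℕ) → ∃ i, ‖x i - x o - r₀ * pt z‖ ≤ ε ∧
      ∀ k : Fin 3, (∃ j, j ≠ i ∧ ‖x j - x i - r₀ * om ^ (k : ℕ)‖ ≤ e₁))
    (hτ : ∀ i, ‖x i - x o‖ ≤ (4 * M : ℕ) + 2 → ex x i ≤ τ) :
    ∃ (q : Fin (100 * M) × Fin (100 * M) × Fin b) (ψ : ℤ × ℤ → Fin N), ∀ z : ℤ × ℤ,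
      1 ≤ dep M c (pq M c q + rq q * pt z) →
        ‖x (ψ z) - (pq M c q + rq q * pt z)‖ ≤ 1 / 25 ∧ ex x (ψ z) ≤ τ ∧
        ∀ k : Fin 3, 1 ≤ dep M c (pq M c q + rq q * pt (z + dr k)) →
          ‖x (ψ (z + dr k)) - x (ψ z) - rq q * om ^ (k : ℕ)‖ ≤ 2 * e₁ := by
  have hM0 : (1 : ℝ) ≤ M := by exact_mod_cast hM
  have hb0 : 0 < b := by omega
  have hb1 : (0 : ℝ) < b := by exact_mod_cast hb0
  have hbM : 2000 * (M : ℝ) ≤ b := by exact_mod_cast hb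
  obtain ⟨k, hk⟩ := exists_net b hb0 r₀ hr₀
  obtain ⟨q, hqk, hq⟩ := exists_pq (M := M) ho k
  have hrq : ‖r₀ - rq q‖ ≤ 7 / b := by
    unfold rq
    rw [hqk]
    exact hk
  have h7b : 7 / (b : ℝ) * (1.5 * M) ≤ 0.006 := by
    rw [div_mul_eq_mul_div, div_le_iff₀ hb1]
    nlinarith
  haveI : Nonempty (Fin N) := ⟨o⟩
  choose! ψ hψ using hprop
  -- the distance to the lattice point
  have hdist : ∀ z : ℤ × ℤ, 1 ≤ dep M c (pq M c q + rq q * pt z) →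
      (|z.1| + |z.2| ≤ (4 * M : ℕ)) ∧ ‖x (ψ z) - (pq M c q + rq q * pt z)‖ ≤ 1 / 25 ∧
      ‖pt z‖ ≤ 1.5 * M := by
    intro z hz
    obtain ⟨b1, b2⟩ := pt_bound q (by linarith : (0:ℝ) ≤ dep M c (pq M c q + rq q * pt z))
    have hz4 : |z.1| + |z.2| ≤ (4 * M : ℕ) := by
      have : ((|z.1| + |z.2| : ℤ) : ℝ) ≤ ((4 * M : ℕ) : ℝ) := by push_cast; linarith
      exact_mod_cast this
    refine ⟨hz4, ?_, b1⟩
    have h1 := (hψ z hz4).1
    have e : x (ψ z) - (pq M c q + rq q * pt z) = (x (ψ z) - x o - r₀ * pt z) +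
        (x o - pq M c q) + (r₀ - rq q) * pt z := by ring
    rw [e]
    refine (norm_add₃_le).trans ?_
    have h2 : ‖(r₀ - rq q) * pt z‖ ≤ 0.006 := by
      rw [norm_mul]
      exact (mul_le_mul hrq b1 (norm_nonneg _) (by positivity)).trans h7b
    linarith
  refine ⟨q, ψ, fun z hz => ?_⟩
  obtain ⟨hz4, hz5, hz6⟩ := hdist z hz
  refine ⟨hz5, ?_, fun k hk2 => ?_⟩
  · refine hτ _ ?_
    have h1 := (hψ z hz4).1
    have e : x (ψ z) - x o = (x (ψ z) - x o - r₀ * pt z) + r₀ * pt z := by ring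
    rw [e]
    refine (norm_add_le _ _).trans ?_
    rw [norm_mul, hr₀, one_mul]
    push_cast
    linarith
  · obtain ⟨hz4', hz5', hz6'⟩ := hdist (z + dr k) hk2
    obtain ⟨j, hj, hj2⟩ := (hψ z hz4).2 k
    have h1 := (hψ z hz4).1
    have h2 := (hψ (z + dr k) hz4').1
    have hjeq : j = ψ (z + dr k) := by
      by_contra hne
      have h3 := hx _ _ hne
      have e : x j - x (ψ (z + dr k)) = (x j - x (ψ z) - r₀ * om ^ (k : ℕ)) +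
          (x (ψ z) - x o - r₀ * pt z) - (x (ψ (z + dr k)) - x o - r₀ * pt (z + dr k)) := by
        rw [pt_add_k, pt_dr_k]; ring
      rw [e] at h3
      have h4 := norm_sub_le ((x j - x (ψ z) - r₀ * om ^ (k : ℕ)) +
          (x (ψ z) - x o - r₀ * pt z)) (x (ψ (z + dr k)) - x o - r₀ * pt (z + dr k))
      have h5 := norm_add_le (x j - x (ψ z) - r₀ * om ^ (k : ℕ)) (x (ψ z) - x o - r₀ * pt z)
      linarith
    rw [← hjeq]
    have e : x j - x (ψ z) - rq q * om ^ (k : ℕ) = (x j - x (ψ z) - r₀ * om ^ (k : ℕ)) +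
        (r₀ - rq q) * om ^ (k : ℕ) := by ring
    rw [e]
    refine (norm_add_le _ _).trans ?_
    rw [norm_mul, norm_pow, norm_om_k, one_pow, mul_one]
    linarith

end Pool.Agent.J4.H83.HD
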