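import Pool.Agent.J4.H83.HD.Defs

/-!
# Asymptotic evaluation of the upper bound
-/

set_option autoImplicit false

open MeasureTheory Set Filter Topology

namespace Pool.Agent.J4.H83.HD

open Pool.Agent.J4.H83.FV

namespace Uasy

theorem le_exp (x : ℝ) : x ≤ Real.exp x := by
  have := Real.add_one_le_exp x
  linarith

theorem pow_le_exp (x : ℝ) (hx : 0 ≤ x) (k : ℕ) : x ^ k ≤ Real.exp (k * x) := by
  rw [Real.exp_nat_mul]
  exact pow_le_pow_left₀ hx (le_exp x) k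

theorem A1 (m M b : ℕ) (l s L N : ℝ) (hm : (m : ℝ) = s ^ 2) (hs : 16 ≤ s) (hl : 1 ≤ l)
    (hls : l ≤ s) (hM : M = m ^ 6)
    (hb : (b : ℝ) ≤ 7 / (M * Real.exp (-(2 * l / 3))) + 1 + 2000 * M) (hL : (M : ℝ) ≤ L)
    (hLN : L ^ 2 ≤ N) :
    (1 + (100 * (M : ℝ)) ^ 2 * b) ^ ((⌊L / M⌋₊ + 1) ^ 2) ≤ Real.exp (N * (84 / s ^ 22)) := by
  have hMs : (M : ℝ) = s ^ 12 := by
    rw [hM]; push_cast; rw [hm]; ring
  have hs0 : 0 < s := by linarith
  have hM1 : (1 : ℝ) ≤ M := by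
    rw [hMs]; exact one_le_pow₀ (by linarith)
  have hM0 : (0 : ℝ) < M := by linarith
  set e : ℝ := Real.exp (2 * l / 3) with he
  have he0 : 0 < e := Real.exp_pos _
  have he1 : 1 ≤ e := by
    rw [he]; exact Real.one_le_exp (by positivity)
  have hinv : Real.exp (-(2 * l / 3)) = e⁻¹ := Real.exp_neg _
  have hb2 : (b : ℝ) ≤ 2008 * M * e := by
    refine hb.trans ?_
    rw [hinv]
    have h1 : 7 / ((M : ℝ) * e⁻¹) ≤ 7 * M * e := by
      rw [div_le_iff₀ (by positivity)]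
      have : 7 * (M : ℝ) * e * (M * e⁻¹) = 7 * M * M := by
        field_simp
      rw [this]
      nlinarith
    have h2 : (1 : ℝ) ≤ M * e := by nlinarith
    have h3 : (M : ℝ) ≤ M * e := by nlinarith
    nlinarith
  have hbase : 1 + (100 * (M : ℝ)) ^ 2 * b ≤ Real.exp (21 * s ^ 2) := by
    have h1 : 1 + (100 * (M : ℝ)) ^ 2 * b ≤ 10 ^ 8 * M ^ 3 * e := by
      have h2 : (100 * (M : ℝ)) ^ 2 * b ≤ (100 * (M : ℝ)) ^ 2 * (2008 * M * e) :=
        mul_le_mul_of_nonneg_left hb2 (by positivity)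
      have h3 : (1 : ℝ) ≤ M ^ 3 * e := by
        have : (1 : ℝ) ≤ M ^ 3 := one_le_pow₀ hM1
        nlinarith
      nlinarith
    refine h1.trans ?_
    have h4 : (10 : ℝ) ^ 8 ≤ Real.exp 24 := by
      have h5 : (2.7 : ℝ) ≤ Real.exp 1 := by
        have := Real.exp_one_gt_d9
        linarith
      have h6 : Real.exp 24 = Real.exp 1 ^ 24 := by
        rw [← Real.exp_nat_mul]; norm_num
      rw [h6]
      calc (10 : ℝ) ^ 8 ≤ 2.7 ^ 24 := by norm_num
        _ ≤ _ := pow_le_pow_left₀ (by norm_num) h5 24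
    have h5 : (M : ℝ) ^ 3 ≤ Real.exp (18 * s ^ 2) := by
      have h6 := pow_le_exp (s ^ 2) (by positivity) 18
      have h7 : (M : ℝ) ^ 3 = (s ^ 2) ^ 18 := by rw [hMs]; ring
      rw [h7]
      exact_mod_cast h6
    calc 10 ^ 8 * (M : ℝ) ^ 3 * e ≤ Real.exp 24 * Real.exp (18 * s ^ 2) * Real.exp (2 * l / 3) := by
          apply mul_le_mul_of_nonneg_right _ he0.le
          exact mul_le_mul h4 h5 (by positivity) (Real.exp_pos _).le
      _ = Real.exp (24 + 18 * s ^ 2 + 2 * l / 3) := by rw [Real.exp_add, Real.exp_add]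
      _ ≤ Real.exp (21 * s ^ 2) := by
          apply Real.exp_le_exp.mpr
          nlinarith
  have hL0 : 0 < L := by linarith
  have hLM : 1 ≤ L / M := by rw [le_div_iff₀ hM0]; linarith
  have hfl : (⌊L / M⌋₊ : ℝ) ≤ L / M := Nat.floor_le (by positivity)
  have hexp : (((⌊L / M⌋₊ + 1) ^ 2 : ℕ) : ℝ) ≤ 4 * N / s ^ 24 := by
    push_cast
    have h1 : ((⌊L / M⌋₊ : ℝ) + 1) ^ 2 ≤ (2 * (L / M)) ^ 2 :=
      pow_le_pow_left₀ (by positivity) (by linarith) 2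
    refine h1.trans ?_
    rw [hMs]
    have h2 : (2 * (L / s ^ 12)) ^ 2 = 4 * L ^ 2 / s ^ 24 := by
      field_simp
      ring
    rw [h2]
    apply div_le_div_of_nonneg_right _ (by positivity)
    linarith
  calc (1 + (100 * (M : ℝ)) ^ 2 * b) ^ ((⌊L / M⌋₊ + 1) ^ 2)
      ≤ Real.exp (21 * s ^ 2) ^ ((⌊L / M⌋₊ + 1) ^ 2) :=
        pow_le_pow_left₀ (by positivity) hbase _
    _ = Real.exp ((((⌊L / M⌋₊ + 1) ^ 2 : ℕ) : ℝ) * (21 * s ^ 2)) := by rw [Real.exp_nat_mul]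
    _ ≤ Real.exp (N * (84 / s ^ 22)) := by
        apply Real.exp_le_exp.mpr
        calc (((⌊L / M⌋₊ + 1) ^ 2 : ℕ) : ℝ) * (21 * s ^ 2) ≤ 4 * N / s ^ 24 * (21 * s ^ 2) :=
              mul_le_mul_of_nonneg_right hexp (by positivity)
          _ = N * (84 / s ^ 22) := by
              field_simp
              ring

theorem A2 (k : ℕ) (s L N : ℝ) (hs : 16 ≤ s) (hN : 0 < N) (hLN : L ^ 2 ≤ N)
    (hk : (k : ℝ) ≤ 2000 / s ^ 6 * N) :
    (L ^ 2) ^ k / k.factorial ≤ Real.exp (N * (14000 / s ^ 5)) := by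
  have hs0 : 0 < s := by linarith
  set f : ℝ := 2000 / s ^ 6 with hf
  have hf0 : 0 < f := by rw [hf]; positivity
  have h1 : (L ^ 2) ^ k / k.factorial ≤ (f⁻¹) ^ k * ((f * N) ^ k / k.factorial) := by
    rw [← mul_div_assoc, ← mul_pow]
    have : f⁻¹ * (f * N) = N := by field_simp
    rw [this]
    apply div_le_div_of_nonneg_right _ (by positivity)
    exact pow_le_pow_left₀ (by positivity) hLN k
  have h2 : (f * N) ^ k / k.factorial ≤ Real.exp (f * N) :=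
    Real.pow_div_factorial_le_exp _ (by positivity) k
  have h3 : f⁻¹ ≤ Real.exp (6 * s) := by
    have h4 := pow_le_exp s hs0.le 6
    have h5 : f⁻¹ ≤ s ^ 6 := by
      rw [hf, inv_div]
      have : 0 < s ^ 6 := by positivity
      linarith
    refine h5.trans ?_
    exact_mod_cast h4
  have h4 : (f⁻¹) ^ k ≤ Real.exp (6 * s * (f * N)) := by
    calc (f⁻¹) ^ k ≤ Real.exp (6 * s) ^ k := pow_le_pow_left₀ (by positivity) h3 k
      _ = Real.exp (k * (6 * s)) := by rw [Real.exp_nat_mul]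
      _ ≤ Real.exp (6 * s * (f * N)) := by
          apply Real.exp_le_exp.mpr
          nlinarith
  calc (L ^ 2) ^ k / k.factorial ≤ (f⁻¹) ^ k * ((f * N) ^ k / k.factorial) := h1
    _ ≤ Real.exp (6 * s * (f * N)) * Real.exp (f * N) :=
        mul_le_mul h4 h2 (by positivity) (Real.exp_pos _).le
    _ = Real.exp (f * N * (6 * s + 1)) := by rw [← Real.exp_add]; ring_nf
    _ ≤ Real.exp (f * N * (7 * s)) := by
        apply Real.exp_le_exp.mpr
        apply mul_le_mul_of_nonneg_left _ (by positivity)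
        linarith
    _ = Real.exp (N * (14000 / s ^ 5)) := by
        congr 1
        rw [hf]
        field_simp
        ring

theorem A3 (M : ℕ) (s N x : ℝ) (hs : 16 ≤ s) (hM : (M : ℝ) = s ^ 12) (hx0 : 0 ≤ x)
    (hx : x ≤ 2 * N / s ^ 2 + 2000 / s ^ 6 * N) :
    ((M : ℝ) ^ 2) ^ x ≤ Real.exp (N * (48 / s + 48000 / s ^ 5)) := by
  have hs0 : 0 < s := by linarith
  have h1 : (M : ℝ) ^ 2 ≤ Real.exp (24 * s) := by
    have h2 := pow_le_exp s hs0.le 24
    rw [hM]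
    have h3 : (s ^ 12) ^ 2 = s ^ 24 := by ring
    rw [h3]
    exact_mod_cast h2
  calc ((M : ℝ) ^ 2) ^ x ≤ (Real.exp (24 * s)) ^ x := Real.rpow_le_rpow (by positivity) h1 hx0
    _ = Real.exp (24 * s * x) := by rw [← Real.exp_mul]
    _ ≤ Real.exp (24 * s * (2 * N / s ^ 2 + 2000 / s ^ 6 * N)) := by
        apply Real.exp_le_exp.mpr
        exact mul_le_mul_of_nonneg_left hx (by positivity)
    _ = _ := by
        congr 1
        field_simp
        ring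

theorem A4 (m : ℕ) (s N Φ w : ℝ) (hs : 16 ≤ s) (hm : (m : ℝ) = s ^ 2)
    (hw : (1 / 2) ^ ((m - 1) ^ 2) ≤ w) (hΦ : N - 2000 / s ^ 6 * N ≤ Φ) (hΦN : Φ ≤ N) :
    w ^ (Φ / (m : ℝ) ^ 2) ≤
      Real.exp (N * (Real.log w / (m : ℝ) ^ 2 + 2000 / s ^ 6)) := by
  have hs0 : 0 < s := by linarith
  have hm0 : (0 : ℝ) < m := by rw [hm]; positivity
  have hw0 : 0 < w := lt_of_lt_of_le (by positivity) hw
  have hlw : -(m : ℝ) ^ 2 ≤ Real.log w := by
    have h1 : Real.log ((1 / 2) ^ ((m - 1) ^ 2)) ≤ Real.log w :=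
      Real.log_le_log (by positivity) hw
    rw [Real.log_pow] at h1
    have h2 : Real.log (1 / 2 : ℝ) = - Real.log 2 := by rw [one_div, Real.log_inv]
    rw [h2] at h1
    have h3 : Real.log 2 ≤ 1 := by
      have := Real.log_le_sub_one_of_pos (show (0 : ℝ) < 2 by norm_num)
      linarith
    have h3' : 0 ≤ Real.log 2 := Real.log_nonneg (by norm_num)
    have h4 : (((m - 1) ^ 2 : ℕ) : ℝ) ≤ (m : ℝ) ^ 2 := by
      have : (m - 1) ^ 2 ≤ m ^ 2 := Nat.pow_le_pow_left (Nat.sub_le m 1) 2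
      exact_mod_cast this
    have h5 : (0 : ℝ) ≤ (((m - 1) ^ 2 : ℕ) : ℝ) := Nat.cast_nonneg _
    nlinarith
  rw [Real.rpow_def_of_pos hw0]
  apply Real.exp_le_exp.mpr
  have hm2 : (0 : ℝ) < (m : ℝ) ^ 2 := by positivity
  have h6 : (N - Φ) * (-(Real.log w / (m : ℝ) ^ 2)) ≤ (N - Φ) * 1 := by
    apply mul_le_mul_of_nonneg_left _ (by linarith)
    rw [← neg_div, div_le_one hm2]
    linarith
  have h7 : Real.log w * (Φ / (m : ℝ) ^ 2) = N * (Real.log w / (m : ℝ) ^ 2) +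
      (N - Φ) * (-(Real.log w / (m : ℝ) ^ 2)) := by
    field_simp
    ring
  rw [h7]
  nlinarith

theorem A5 (m : ℕ) (s l C N n Φ E : ℝ) (hm : (m : ℝ) = s ^ 2) (hs : 16 ≤ s) (hl : 1 ≤ l)
    (hls : l ≤ s) (hC : 1 ≤ C) (hN : 0 < N) (hn0 : 0 ≤ n) (hn : n ≤ N) (hE0 : 0 ≤ E)
    (hE : E ≤ Real.exp (-l) * (1 + Real.exp (-l)) * N) (hΦ : N - 2000 / s ^ 6 * N ≤ Φ)
    (hΦN : Φ ≤ N) (hsm : C ^ 2 * s ^ 30 * Real.exp (-(l / 3)) ≤ 1) :
    ((1 / 3 + 32 * (m : ℝ) ^ 2 * (1 / (m : ℝ) ^ 3)) *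
      (√3 * (1 + C * Real.exp (-(2 * l / 3))) * E +
        2 * n * (C * (s ^ 12) * Real.exp (-(2 * l / 3))) ^ 2) / Φ) ^
          (2 * ((m : ℝ) - 1) ^ 2 / (m : ℝ) ^ 2 * Φ) ≤
      Real.exp (N * (-(2 * l) - Real.log 3 + (234 / s ^ 2 + 8 / s + 8000 / s ^ 5))) := by
  have hs0 : 0 < s := by linarith
  set d : ℝ := Real.exp (-(l / 3)) with hd
  have hd0 : 0 < d := Real.exp_pos _
  have hd1 : d ≤ 1 := by
    rw [hd]; exact Real.exp_le_one_iff.mpr (by linarith)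
  have hd2 : Real.exp (-(2 * l / 3)) = d ^ 2 := by
    rw [hd, ← Real.exp_nat_mul]; congr 1; push_cast; ring
  have hd3 : Real.exp (-l) = d ^ 3 := by
    rw [hd, ← Real.exp_nat_mul]; congr 1; push_cast; ring
  rw [hd3] at hE
  rw [hd2, hm]
  set f : ℝ := 2000 / s ^ 6 with hf
  have hs2 : (256 : ℝ) ≤ s ^ 2 := by nlinarith
  have hs4 : (65536 : ℝ) ≤ s ^ 4 := by nlinarith
  have hs6 : (16777216 : ℝ) ≤ s ^ 6 := by
    have : s ^ 6 = s ^ 4 * s ^ 2 := by ring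
    rw [this]; nlinarith
  have hf0 : 0 < f := by rw [hf]; positivity
  have hfs : f ≤ 8 / s ^ 2 := by
    rw [hf, div_le_div_iff₀ (by positivity) (by positivity)]
    have : s ^ 6 = s ^ 4 * s ^ 2 := by ring
    rw [this]
    nlinarith
  have hfhalf : f ≤ 1 / 2 := by
    refine hfs.trans ?_
    rw [div_le_iff₀ (by positivity)]
    linarith
  set u : ℝ := 1 / s ^ 2 with hu
  have hu0 : 0 < u := by positivity
  have hus : u * s ^ 2 = 1 := by rw [hu]; field_simp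
  have hu1 : u ≤ 1 / 256 := by
    rw [hu]; exact one_div_le_one_div_of_le (by norm_num) hs2
  -- smallness
  have hC2 : C ≤ C ^ 2 := by nlinarith
  have hC21 : 1 ≤ C ^ 2 := by nlinarith
  have hs30 : s ^ 2 ≤ s ^ 30 := pow_le_pow_right₀ (by linarith) (by norm_num)
  have hCd : C * d ^ 2 ≤ u := by
    rw [hu, le_div_iff₀ (by positivity)]
    calc C * d ^ 2 * s ^ 2 ≤ C ^ 2 * (d * 1) * s ^ 30 := by
          apply mul_le_mul _ hs30 (by positivity) (by positivity)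
          apply mul_le_mul hC2 _ (by positivity) (by positivity)
          rw [pow_two]
          exact mul_le_mul_of_nonneg_left hd1 hd0.le
      _ = C ^ 2 * s ^ 30 * d := by ring
      _ ≤ 1 := hsm
  have hdd : d ^ 3 ≤ u := by
    refine le_trans ?_ hCd
    calc d ^ 3 = d ^ 2 * d := by ring
      _ ≤ d ^ 2 * 1 := mul_le_mul_of_nonneg_left hd1 (by positivity)
      _ ≤ C * d ^ 2 := by nlinarith [pow_pos hd0 2]
  have hCs : C ^ 2 * s ^ 24 * d ≤ u := by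
    have h1 : C ^ 2 * s ^ 24 * d * s ^ 6 ≤ 1 := by
      calc C ^ 2 * s ^ 24 * d * s ^ 6 = C ^ 2 * s ^ 30 * d := by ring
        _ ≤ 1 := hsm
    have h2 : C ^ 2 * s ^ 24 * d ≤ 1 / s ^ 6 := by
      rw [le_div_iff₀ (by positivity)]; exact h1
    refine h2.trans ?_
    rw [hu]
    exact one_div_le_one_div_of_le (by positivity)
      (pow_le_pow_right₀ (by linarith) (by norm_num))
  have h3pos : (0 : ℝ) < √3 := by positivity
  have h31 : (1 : ℝ) ≤ √3 := by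
    rw [show (1 : ℝ) = √1 by simp]
    exact Real.sqrt_le_sqrt (by norm_num)
  -- the numerator
  have hX : √3 * (1 + C * d ^ 2) * E + 2 * n * (C * (s ^ 12) * d ^ 2) ^ 2 ≤
      √3 * d ^ 3 * N * (1 + 5 * u) := by
    have h1 : (1 + C * d ^ 2) * E ≤ (1 + u) * (d ^ 3 * (1 + u) * N) := by
      apply mul_le_mul (by linarith) _ hE0 (by positivity)
      refine hE.trans ?_
      apply mul_le_mul_of_nonneg_right _ hN.le
      apply mul_le_mul_of_nonneg_left _ (by positivity)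
      linarith
    have h2 : 2 * n * (C * (s ^ 12) * d ^ 2) ^ 2 ≤ √3 * (2 * N * d ^ 3 * u) := by
      have h3 : 2 * n * (C * (s ^ 12) * d ^ 2) ^ 2 = 2 * n * d ^ 3 * (C ^ 2 * s ^ 24 * d) := by ring
      rw [h3]
      have h4 : 2 * n * d ^ 3 * (C ^ 2 * s ^ 24 * d) ≤ 2 * N * d ^ 3 * u := by
        apply mul_le_mul _ hCs (by positivity) (by positivity)
        apply mul_le_mul_of_nonneg_right _ (by positivity)
        linarith
      refine h4.trans ?_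
      have : 0 ≤ 2 * N * d ^ 3 * u := by positivity
      nlinarith
    have h5 : √3 * (1 + C * d ^ 2) * E ≤ √3 * ((1 + u) * (d ^ 3 * (1 + u) * N)) := by
      rw [mul_assoc]
      exact mul_le_mul_of_nonneg_left h1 h3pos.le
    have h6 : √3 * ((1 + u) * (d ^ 3 * (1 + u) * N)) + √3 * (2 * N * d ^ 3 * u) =
        √3 * d ^ 3 * N * ((1 + u) ^ 2 + 2 * u) := by ring
    have h7 : (1 + u) ^ 2 + 2 * u ≤ 1 + 5 * u := by nlinarith
    have h8 : √3 * d ^ 3 * N * ((1 + u) ^ 2 + 2 * u) ≤ √3 * d ^ 3 * N * (1 + 5 * u) :=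
      mul_le_mul_of_nonneg_left h7 (by positivity)
    linarith
  have hX0 : 0 ≤ √3 * (1 + C * d ^ 2) * E + 2 * n * (C * (s ^ 12) * d ^ 2) ^ 2 := by positivity
  have hΦ0 : 0 < Φ := by nlinarith
  have hcoef : 1 / 3 + 32 * (s ^ 2) ^ 2 * (1 / (s ^ 2) ^ 3) = 1 / 3 * (1 + 96 * u) := by
    rw [hu]
    field_simp
    ring
  rw [hcoef]
  set lam : ℝ := -l - Real.log 3 / 2 + 117 * u with hlam
  have hsq3 : √3 / 3 = Real.exp (-(Real.log 3 / 2)) := by
    have h1 : √3 = Real.exp (Real.log 3 / 2) := by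
      rw [Real.sqrt_eq_rpow, Real.rpow_def_of_pos (by norm_num)]
      congr 1
      ring
    have h2 : Real.exp (Real.log 3) = 3 := Real.exp_log (by norm_num)
    have h3 : (3 : ℝ) = √3 * √3 := by rw [Real.mul_self_sqrt (by norm_num)]
    rw [Real.exp_neg, ← h1]
    rw [div_eq_iff (by norm_num)]
    field_simp
    rw [pow_two]
    exact h3.symm
  have hbase : 1 / 3 * (1 + 96 * u) *
      (√3 * (1 + C * d ^ 2) * E + 2 * n * (C * (s ^ 12) * d ^ 2) ^ 2) / Φ ≤ Real.exp lam := by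
    rw [div_le_iff₀ hΦ0]
    have h1 : 1 / 3 * (1 + 96 * u) *
        (√3 * (1 + C * d ^ 2) * E + 2 * n * (C * (s ^ 12) * d ^ 2) ^ 2) ≤
        1 / 3 * (1 + 96 * u) * (√3 * d ^ 3 * N * (1 + 5 * u)) :=
      mul_le_mul_of_nonneg_left hX (by positivity)
    refine h1.trans ?_
    have h2 : 1 + 96 * u ≤ Real.exp (96 * u) := by
      have := Real.add_one_le_exp (96 * u); linarith
    have h3 : 1 + 5 * u ≤ Real.exp (5 * u) := by
      have := Real.add_one_le_exp (5 * u); linarith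
    have h4 : 1 ≤ (1 - f) * Real.exp (2 * f) := by
      have h5 := Real.add_one_le_exp (2 * f)
      have h6 : (1 - f) * (2 * f + 1) ≤ (1 - f) * Real.exp (2 * f) :=
        mul_le_mul_of_nonneg_left h5 (by linarith)
      nlinarith
    have h5 : N ≤ Φ * Real.exp (2 * f) := by
      calc N = N * 1 := by ring
        _ ≤ N * ((1 - f) * Real.exp (2 * f)) := mul_le_mul_of_nonneg_left h4 hN.le
        _ = (N - f * N) * Real.exp (2 * f) := by ring
        _ ≤ Φ * Real.exp (2 * f) := mul_le_mul_of_nonneg_right hΦ (Real.exp_pos _).le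
    calc 1 / 3 * (1 + 96 * u) * (√3 * d ^ 3 * N * (1 + 5 * u))
        = (√3 / 3) * d ^ 3 * ((1 + 96 * u) * (1 + 5 * u)) * N := by ring
      _ ≤ (√3 / 3) * d ^ 3 * (Real.exp (96 * u) * Real.exp (5 * u)) *
          (Φ * Real.exp (2 * f)) := by
          apply mul_le_mul _ h5 hN.le (by positivity)
          apply mul_le_mul_of_nonneg_left _ (by positivity)
          exact mul_le_mul h2 h3 (by positivity) (Real.exp_pos _).le
      _ = Real.exp (-(Real.log 3 / 2) + -l + 96 * u + 5 * u + 2 * f) * Φ := by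
          rw [hsq3, ← hd3, Real.exp_add, Real.exp_add, Real.exp_add, Real.exp_add]
          ring
      _ ≤ Real.exp lam * Φ := by
          apply mul_le_mul_of_nonneg_right _ hΦ0.le
          apply Real.exp_le_exp.mpr
          rw [hlam]
          have h6 : f ≤ 8 * u := by
            rw [hu]
            calc f ≤ 8 / s ^ 2 := hfs
              _ = 8 * (1 / s ^ 2) := by ring
          linarith
  have hbase0 : 0 ≤ 1 / 3 * (1 + 96 * u) *
      (√3 * (1 + C * d ^ 2) * E + 2 * n * (C * (s ^ 12) * d ^ 2) ^ 2) / Φ := by positivity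
  -- the exponent
  have hq : (s ^ 2 - 1) ^ 2 / (s ^ 2) ^ 2 = (1 - u) ^ 2 := by
    rw [hu]
    field_simp
  have hex : 2 * (s ^ 2 - 1) ^ 2 / (s ^ 2) ^ 2 * Φ = 2 * (1 - u) ^ 2 * Φ := by
    rw [mul_div_assoc, hq]
  rw [hex]
  have hex0 : 0 ≤ 2 * (1 - u) ^ 2 * Φ := by positivity
  have hex1 : 2 * N * (1 - 2 * u - f) ≤ 2 * (1 - u) ^ 2 * Φ := by
    have h1 : (1 - 2 * u) * ((1 - f) * N) ≤ (1 - u) ^ 2 * Φ := by
      apply mul_le_mul (by nlinarith) (by linarith) _ (by positivity)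
      have : 0 ≤ 1 - f := by linarith
      positivity
    have h2 : (1 - 2 * u - f) * N ≤ (1 - 2 * u) * ((1 - f) * N) := by
      have : (1 - 2 * u) * ((1 - f) * N) - (1 - 2 * u - f) * N = 2 * u * f * N := by ring
      have h3 : 0 ≤ 2 * u * f * N := by positivity
      linarith
    linarith
  have hlog3 : 0 ≤ Real.log 3 := Real.log_nonneg (by norm_num)
  have hlog3' : Real.log 3 ≤ 2 := by
    have := Real.log_le_sub_one_of_pos (show (0 : ℝ) < 3 by norm_num)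
    linarith
  have hlam0 : lam ≤ 0 := by
    rw [hlam]
    linarith
  have hlam1 : -lam ≤ 2 * s := by
    rw [hlam]
    linarith
  calc _ ≤ Real.exp lam ^ (2 * (1 - u) ^ 2 * Φ) := Real.rpow_le_rpow hbase0 hbase hex0
    _ = Real.exp (lam * (2 * (1 - u) ^ 2 * Φ)) := by rw [← Real.exp_mul]
    _ ≤ _ := by
        apply Real.exp_le_exp.mpr
        have h1 : lam * (2 * (1 - u) ^ 2 * Φ) ≤ lam * (2 * N * (1 - 2 * u - f)) :=
          mul_le_mul_of_nonpos_left hex1 hlam0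
        refine h1.trans ?_
        have h2 : lam * (2 * N * (1 - 2 * u - f)) = 2 * N * lam + (-lam) * (2 * N * (2 * u + f)) := by
          ring
        rw [h2]
        have h3 : (-lam) * (2 * N * (2 * u + f)) ≤ 2 * s * (2 * N * (2 * u + f)) :=
          mul_le_mul_of_nonneg_right hlam1 (by positivity)
        have h4 : 2 * N * lam + 2 * s * (2 * N * (2 * u + f)) =
            N * (-(2 * l) - Real.log 3 + (234 * u + s * (8 * u) + 4 * s * f)) := by
          rw [hlam]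
          ring
        have h5 : s * (8 * u) = 8 / s := by
          rw [hu]
          field_simp
        have h6 : 4 * s * f = 8000 / s ^ 5 := by
          rw [hf]
          field_simp
          ring
        have h7 : 234 * u = 234 / s ^ 2 := by
          rw [hu]
          ring
        rw [h5, h6, h7] at h4
        linarith


/-- the thresholds -/
theorem exists_l (C τ₁ ε : ℝ) (hC : 1 ≤ C) (hτ₁ : 0 < τ₁) (hε : 0 < ε) : ∃ l₀ : ℝ, 16 ≤ l₀ ∧
    100000 / ε ≤ l₀ ∧ 2 / τ₁ ≤ l₀ ∧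
    ∀ l : ℝ, l₀ ≤ l → C ^ 2 * (2 * l ^ 2) ^ 15 * Real.exp (-(l / 3)) ≤ 1 := by
  have h1 := Real.tendsto_pow_mul_exp_neg_atTop_nhds_zero 30
  have hc : (0 : ℝ) < 1 / (C ^ 2 * 2 ^ 15 * 3 ^ 30) := by positivity
  have h2 := (h1.eventually (gt_mem_nhds hc)).and (eventually_ge_atTop (0 : ℝ))
  obtain ⟨x₀, hx₀⟩ := eventually_atTop.1 h2
  refine ⟨max (max 16 (100000 / ε)) (max (2 / τ₁) (3 * x₀)), ?_, ?_, ?_, ?_⟩
  · exact (le_max_left _ _).trans (le_max_left _ _)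
  · exact (le_max_right _ _).trans (le_max_left _ _)
  · exact (le_max_left _ _).trans (le_max_right _ _)
  · intro l hl
    have h3 : 3 * x₀ ≤ l := ((le_max_right _ _).trans (le_max_right _ _)).trans hl
    have h4 := (hx₀ (l / 3) (by linarith)).1
    have h5 : C ^ 2 * (2 * l ^ 2) ^ 15 * Real.exp (-(l / 3)) =
        (C ^ 2 * 2 ^ 15 * 3 ^ 30) * ((l / 3) ^ 30 * Real.exp (-(l / 3))) := by
      ring
    rw [h5]
    have h6 : (C ^ 2 * 2 ^ 15 * 3 ^ 30) * ((l / 3) ^ 30 * Real.exp (-(l / 3))) ≤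
        (C ^ 2 * 2 ^ 15 * 3 ^ 30) * (1 / (C ^ 2 * 2 ^ 15 * 3 ^ 30)) :=
      mul_le_mul_of_nonneg_left h4.le (by positivity)
    refine h6.trans (le_of_eq ?_)
    field_simp

end Uasy

open Uasy

theorem uasy (w : ℕ → ℝ) (hw1 : ∀ m, (1 / 2) ^ ((m - 1) ^ 2) ≤ w m)
    (hw2 : ∀ m, w m ≤ (64 * (m : ℝ) ^ 2) ^ ((m - 1) ^ 2)) (C τ₁ : ℝ) (hC : 1 ≤ C) (hτ₁ : 0 < τ₁)
    (ε : ℝ) (hε : 0 < ε) : ∃ δ₀ : ℝ, 0 < δ₀ ∧ ∀ δ : ℝ, 0 < δ → δ < δ₀ →
      ∃ (m M b : ℕ) (lam τ L₀ : ℝ), 2 ≤ m ∧ 1 / ε ≤ m ∧ 1 ≤ M ∧ 0 < b ∧ 0 < lam ∧ 0 < τ ∧ τ ≤ τ₁ ∧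
        C * (M : ℝ) ^ 2 * τ ≤ 1 ∧ 2000 * M ≤ b ∧ 7 / (b : ℝ) ≤ M * τ ∧ m * (C * M * τ) ≤ 1 / 4 ∧
        M ≤ L₀ ∧ ∀ (L : ℝ) (N : ℕ), L₀ ≤ L → L ^ 2 ≤ (√3 / 2 + δ) * N → ∀ E F : ℝ,
          E = (L + 2 * R) ^ 2 - √3 / 2 * N → 0 ≤ E →
          F = 625 * (M : ℝ) ^ 2 * (E / τ) + 48 * (L ^ 2 / M) * (8 * m + 31 + 2 / lam) →
          F < N ∧ ∀ (n : ℕ) (Φ : ℝ), n ≤ N → N - F ≤ Φ → Φ ≤ n → 0 < Φ →
            (1 + (100 * (M : ℝ)) ^ 2 * b) ^ ((⌊L / M⌋₊ + 1) ^ 2) *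
              ((L ^ 2) ^ (N - n) / (N - n).factorial *
                (((M : ℝ) ^ 2) ^ (2 * (n : ℝ) / m + (n - Φ)) * (w m) ^ (Φ / (m : ℝ) ^ 2) *
                  ((1 / 3 + 32 * (m : ℝ) ^ 2 * lam) * (√3 * (1 + C * τ) * E +
                    2 * n * (C * M * τ) ^ 2) / Φ) ^ (2 * ((m : ℝ) - 1) ^ 2 / (m : ℝ) ^ 2 * Φ))) ≤
              Real.exp (N * (2 * Real.log δ - Real.log 3 + Real.log (w m) / (m : ℝ) ^ 2 + ε)) := by
  obtain ⟨l₀, hl16, hlε, hlτ, hlC⟩ := exists_l C τ₁ ε hC hτ₁ hε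
  refine ⟨Real.exp (-l₀), Real.exp_pos _, ?_⟩
  intro δ hδ hδ₀
  set l : ℝ := - Real.log δ with hl
  have hδl : δ = Real.exp (-l) := by rw [hl, neg_neg, Real.exp_log hδ]
  have hll : l₀ ≤ l := by
    rw [hδl] at hδ₀
    have := Real.exp_lt_exp.mp hδ₀
    linarith
  have hl1 : 16 ≤ l := hl16.trans hll
  obtain ⟨m, hm⟩ : ∃ m : ℕ, m = ⌈l ^ 2⌉₊ := ⟨_, rfl⟩
  have hml : l ^ 2 ≤ m := by rw [hm]; exact Nat.le_ceil _
  have hmu : (m : ℝ) ≤ 2 * l ^ 2 := by
    have h1 : (m : ℝ) < l ^ 2 + 1 := by rw [hm]; exact Nat.ceil_lt_add_one (by positivity)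
    nlinarith
  have hm256 : (256 : ℝ) ≤ m := by nlinarith
  have hm0 : (0 : ℝ) < m := by linarith
  set s : ℝ := √(m : ℝ) with hs
  have hms : (m : ℝ) = s ^ 2 := by rw [hs, Real.sq_sqrt hm0.le]
  have hs0 : 0 ≤ s := Real.sqrt_nonneg _
  have hls : l ≤ s := (Real.le_sqrt' (by linarith)).mpr hml
  have hs16 : 16 ≤ s := hl1.trans hls
  have hspos : 0 < s := by linarith
  have hsε : 100000 / s ≤ ε := by
    have h1 : 100000 / ε ≤ s := (hlε.trans hll).trans hls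
    rw [div_le_iff₀ hε] at h1
    rw [div_le_iff₀ hspos]
    linarith
  obtain ⟨M, hM⟩ : ∃ M : ℕ, M = m ^ 6 := ⟨_, rfl⟩
  have hMs : (M : ℝ) = s ^ 12 := by rw [hM]; push_cast; rw [hms]; ring
  have hM1 : (1 : ℝ) ≤ M := by rw [hMs]; exact one_le_pow₀ (by linarith)
  have hM0 : (0 : ℝ) < M := by linarith
  set d : ℝ := Real.exp (-(l / 3)) with hd
  have hd0 : 0 < d := Real.exp_pos _
  have hd1 : d ≤ 1 := by
    rw [hd]; exact Real.exp_le_one_iff.mpr (by linarith)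
  set τ : ℝ := Real.exp (-(2 * l / 3)) with hτ
  have hτd : τ = d ^ 2 := by
    rw [hτ, hd, ← Real.exp_nat_mul]; congr 1; push_cast; ring
  have hδd : δ = d ^ 3 := by
    rw [hδl, hd, ← Real.exp_nat_mul]; congr 1; push_cast; ring
  have hτ0 : 0 < τ := Real.exp_pos _
  obtain ⟨b, hb⟩ : ∃ b : ℕ, b = ⌈7 / (M * τ)⌉₊ + 2000 * M := ⟨_, rfl⟩
  have hb1 : 7 / (M * τ) ≤ b := by
    rw [hb]; push_cast
    have := Nat.le_ceil (7 / (M * τ))
    linarith
  have hb2 : (b : ℝ) ≤ 7 / (M * τ) + 1 + 2000 * M := by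
    rw [hb]; push_cast
    have := (Nat.ceil_lt_add_one (show 0 ≤ 7 / (M * τ) by positivity)).le
    linarith
  have hb0 : (0 : ℝ) < b := lt_of_lt_of_le (by positivity) hb1
  have hsm : C ^ 2 * s ^ 30 * d ≤ 1 := by
    have h1 := hlC l hll
    have h2 : s ^ 30 ≤ (2 * l ^ 2) ^ 15 := by
      have h3 : s ^ 30 = (s ^ 2) ^ 15 := by ring
      rw [h3, ← hms]
      exact pow_le_pow_left₀ hm0.le hmu 15
    calc C ^ 2 * s ^ 30 * d ≤ C ^ 2 * (2 * l ^ 2) ^ 15 * d := by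
          apply mul_le_mul_of_nonneg_right _ hd0.le
          exact mul_le_mul_of_nonneg_left h2 (by positivity)
      _ ≤ 1 := h1
  have hCC : C ≤ C ^ 2 := by nlinarith
  have hC21 : 1 ≤ C ^ 2 := by nlinarith
  have hspow : ∀ k : ℕ, k ≤ 30 → C * s ^ k * d ≤ 1 := by
    intro k hk
    calc C * s ^ k * d ≤ C ^ 2 * s ^ 30 * d := by
          apply mul_le_mul_of_nonneg_right _ hd0.le
          exact mul_le_mul hCC (pow_le_pow_right₀ (by linarith) hk) (by positivity) (by positivity)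
      _ ≤ 1 := hsm
  have hττ : τ ≤ τ₁ := by
    have h1 : 2 / τ₁ ≤ l := hlτ.trans hll
    have h2 := Real.add_one_le_exp (2 * l / 3)
    have h3 : τ = (Real.exp (2 * l / 3))⁻¹ := by rw [hτ, Real.exp_neg]
    rw [h3]
    rw [div_le_iff₀ hτ₁] at h1
    apply inv_le_of_inv_le₀ hτ₁
    rw [inv_le_iff_one_le_mul₀ hτ₁]
    nlinarith
  have hc1 : C * (M : ℝ) ^ 2 * τ ≤ 1 := by
    rw [hMs, hτd]
    calc C * (s ^ 12) ^ 2 * d ^ 2 = C * s ^ 24 * d * d := by ring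
      _ ≤ 1 * 1 := mul_le_mul (hspow 24 (by norm_num)) hd1 hd0.le (by norm_num)
      _ = 1 := by norm_num
  have hc2 : m * (C * M * τ) ≤ 1 / 4 := by
    rw [hMs, hτd, hms]
    have h1 : C * s ^ 16 * d ≤ 1 := hspow 16 (by norm_num)
    have h2 : s ^ 2 * (C * s ^ 12 * d ^ 2) * s ^ 2 ≤ 1 := by
      calc s ^ 2 * (C * s ^ 12 * d ^ 2) * s ^ 2 = C * s ^ 16 * d * d := by ring
        _ ≤ 1 * 1 := mul_le_mul h1 hd1 hd0.le (by norm_num)
        _ = 1 := by norm_num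
    have h3 : 0 ≤ s ^ 2 * (C * s ^ 12 * d ^ 2) := by positivity
    nlinarith
  refine ⟨m, M, b, 1 / (m : ℝ) ^ 3, τ, M + 8 / δ ^ 2, ?_, ?_, ?_, ?_, by positivity, hτ0, hττ,
    hc1, ?_, ?_, hc2, ?_, ?_⟩
  · have : (2 : ℝ) ≤ m := by linarith
    exact_mod_cast this
  · have h1 : 100000 / ε ≤ m := (hlε.trans hll).trans (by nlinarith)
    refine le_trans ?_ h1
    exact div_le_div_of_nonneg_right (by norm_num) hε.le
  · exact_mod_cast hM1
  · exact_mod_cast hb0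
  · rw [hb]; exact Nat.le_add_left _ _
  · rw [div_le_iff₀ hb0]
    rw [div_le_iff₀ (by positivity)] at hb1
    linarith
  · have : 0 ≤ 8 / δ ^ 2 := by positivity
    linarith
  intro L N hL₀ hLN E F hE hE0 hF
  have hLM : (M : ℝ) ≤ L := by
    have : 0 ≤ 8 / δ ^ 2 := by positivity
    linarith
  have hL1 : 1 ≤ L := by linarith
  have hδs : δ ≤ 1 / 10 := by
    have h1 : δ ≤ d := by
      rw [hδd]
      calc d ^ 3 = d * (d * d) := by ring
        _ ≤ d * (1 * 1) := by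
            apply mul_le_mul_of_nonneg_left _ hd0.le
            exact mul_le_mul hd1 hd1 hd0.le (by norm_num)
        _ = d := by ring
    have h2 : s * d ≤ 1 := by
      have h3 := hspow 1 (by norm_num)
      rw [pow_one] at h3
      have h4 : 0 ≤ s * d := by positivity
      nlinarith
    nlinarith
  have hs3 : √3 ≤ 1.7321 := by
    rw [Real.sqrt_le_left (by norm_num)]
    norm_num
  have hN0' : (0 : ℝ) ≤ N := Nat.cast_nonneg N
  have hLN1 : L ^ 2 ≤ N := by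
    refine hLN.trans ?_
    nlinarith
  have hN0 : (0 : ℝ) < N := lt_of_lt_of_le (by positivity) hLN1
  have hER : E ≤ Real.exp (-l) * (1 + Real.exp (-l)) * N := by
    rw [← hδl]
    have hR0 := R_pos
    have hR1 := R_lt
    have h1 : 4 * R * L + 4 * R ^ 2 ≤ 8 * L := by nlinarith
    have h2 : 8 * L ≤ δ ^ 2 * N := by
      have h3 : 8 / δ ^ 2 ≤ L := by linarith
      rw [div_le_iff₀ (by positivity)] at h3
      calc 8 * L ≤ L * δ ^ 2 * L := mul_le_mul_of_nonneg_right h3 (by linarith)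
        _ = δ ^ 2 * L ^ 2 := by ring
        _ ≤ δ ^ 2 * N := mul_le_mul_of_nonneg_left hLN1 (by positivity)
    rw [hE]
    nlinarith
  -- the bound for F
  have hFb : F ≤ 2000 / s ^ 6 * N := by
    have hs6 : 0 < s ^ 6 := by positivity
    have h1 : (M : ℝ) ^ 2 * (E / τ) ≤ 2 * N / s ^ 6 := by
      have h2 : E ≤ 2 * d ^ 3 * N := by
        refine hER.trans ?_
        rw [← hδl, hδd]
        have h3 : 1 + d ^ 3 ≤ 2 := by
          have := pow_le_one₀ (n := 3) hd0.le hd1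
          linarith
        apply mul_le_mul_of_nonneg_right _ hN0.le
        have : 0 < d ^ 3 := by positivity
        nlinarith
      have h4 : E / τ ≤ 2 * d * N := by
        rw [div_le_iff₀ hτ0, hτd]
        calc E ≤ 2 * d ^ 3 * N := h2
          _ = 2 * d * N * d ^ 2 := by ring
      rw [hMs, le_div_iff₀ hs6]
      calc (s ^ 12) ^ 2 * (E / τ) * s ^ 6 ≤ (s ^ 12) ^ 2 * (2 * d * N) * s ^ 6 := by
            apply mul_le_mul_of_nonneg_right _ hs6.le
            exact mul_le_mul_of_nonneg_left h4 (by positivity)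
        _ = 2 * N * (1 * s ^ 30 * d) := by ring
        _ ≤ 2 * N * 1 := by
            apply mul_le_mul_of_nonneg_left _ (by positivity)
            refine le_trans ?_ hsm
            apply mul_le_mul_of_nonneg_right _ hd0.le
            exact mul_le_mul_of_nonneg_right hC21 (by positivity)
        _ = 2 * N := by ring
    have h2 : L ^ 2 / M * (8 * m + 31 + 2 / (1 / (m : ℝ) ^ 3)) ≤ 8 * N / s ^ 6 := by
      have h3 : 8 * (m : ℝ) + 31 + 2 / (1 / (m : ℝ) ^ 3) ≤ 8 * s ^ 6 := by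
        have h4 : 2 / (1 / (m : ℝ) ^ 3) = 2 * s ^ 6 := by
          rw [hms]; field_simp
        rw [h4, hms]
        have h5 : s ^ 6 = s ^ 2 * s ^ 4 := by ring
        have h6 : (256 : ℝ) ≤ s ^ 2 := by nlinarith
        have h7 : (16 : ℝ) ≤ s ^ 4 := by nlinarith
        rw [h5]
        nlinarith
      have h4 : L ^ 2 / M ≤ N / s ^ 12 := by
        rw [hMs]
        exact div_le_div_of_nonneg_right hLN1 (by positivity)
      calc L ^ 2 / M * (8 * m + 31 + 2 / (1 / (m : ℝ) ^ 3)) ≤ N / s ^ 12 * (8 * s ^ 6) :=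
            mul_le_mul h4 h3 (by positivity) (by positivity)
        _ = 8 * N / s ^ 6 := by field_simp
    rw [hF]
    have h5 : 625 * (M : ℝ) ^ 2 * (E / τ) + 48 * (L ^ 2 / M) * (8 * m + 31 + 2 / (1 / (m : ℝ) ^ 3)) =
        625 * ((M : ℝ) ^ 2 * (E / τ)) +
          48 * (L ^ 2 / M * (8 * m + 31 + 2 / (1 / (m : ℝ) ^ 3))) := by ring
    rw [h5]
    have h6 : 2000 / s ^ 6 * N = 625 * (2 * N / s ^ 6) + 48 * (8 * N / s ^ 6) + 366 * N / s ^ 6 := by
      ring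
    have h7 : 0 ≤ 366 * N / s ^ 6 := by positivity
    linarith
  have hf2 : 2000 / s ^ 6 < 1 := by
    rw [div_lt_one (by positivity)]
    calc (2000 : ℝ) < 16 ^ 6 := by norm_num
      _ ≤ s ^ 6 := pow_le_pow_left₀ (by norm_num) hs16 6
  refine ⟨by nlinarith, ?_⟩
  intro n Φ hnN hΦF hΦn hΦ0
  have hnN' : (n : ℝ) ≤ N := by exact_mod_cast hnN
  have hΦf : N - 2000 / s ^ 6 * N ≤ Φ := by linarith
  have hkc : ((N - n : ℕ) : ℝ) = N - n := by rw [Nat.cast_sub hnN]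
  have hk : ((N - n : ℕ) : ℝ) ≤ 2000 / s ^ 6 * N := by rw [hkc]; linarith
  have a1 := A1 m M b l s L N hms hs16 (by linarith) hls hM hb2 hLM hLN1
  have a2 := A2 (N - n) s L N hs16 hN0 hLN1 hk
  have a3 := A3 M s N (2 * (n : ℝ) / m + (n - Φ)) hs16 hMs
    (by
      have : 0 ≤ 2 * (n : ℝ) / m := by positivity
      linarith)
    (by
      rw [hms]
      have : 2 * (n : ℝ) / s ^ 2 ≤ 2 * N / s ^ 2 :=
        div_le_div_of_nonneg_right (by linarith) (by positivity)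
      linarith)
  have a4 := A4 m s N Φ (w m) hs16 hms (hw1 m) hΦf (by linarith)
  have a5 := A5 m s l C N n Φ E hms hs16 (by linarith) hls hC hN0 (by positivity) hnN' hE0 hER hΦf
    (by linarith) hsm
  rw [← hMs] at a5
  have hw0 : 0 < w m := lt_of_lt_of_le (by positivity) (hw1 m)
  have hlast : 0 ≤ ((1 / 3 + 32 * (m : ℝ) ^ 2 * (1 / (m : ℝ) ^ 3)) * (√3 * (1 + C * τ) * E +
                    2 * n * (C * M * τ) ^ 2) / Φ) ^ (2 * ((m : ℝ) - 1) ^ 2 / (m : ℝ) ^ 2 * Φ) := by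
    positivity
  have hprod : ∀ x1 x2 x3 x4 x5 y1 y2 y3 y4 y5 : ℝ, 0 ≤ x1 → 0 ≤ x2 → 0 ≤ x3 → 0 ≤ x4 → 0 ≤ x5 →
      x1 ≤ Real.exp y1 → x2 ≤ Real.exp y2 → x3 ≤ Real.exp y3 → x4 ≤ Real.exp y4 →
      x5 ≤ Real.exp y5 → x1 * (x2 * (x3 * x4 * x5)) ≤ Real.exp (y1 + (y2 + (y3 + y4 + y5))) := by
    intro x1 x2 x3 x4 x5 y1 y2 y3 y4 y5 p1 p2 p3 p4 p5 q1 q2 q3 q4 q5
    rw [Real.exp_add, Real.exp_add, Real.exp_add, Real.exp_add]
    have e1 := (Real.exp_pos y1).le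
    have e2 := (Real.exp_pos y2).le
    have e3 := (Real.exp_pos y3).le
    have e4 := (Real.exp_pos y4).le
    have h34 := mul_le_mul q3 q4 p4 e3
    have h345 := mul_le_mul h34 q5 p5 (mul_nonneg e3 e4)
    have h2345 := mul_le_mul q2 h345 (mul_nonneg (mul_nonneg p3 p4) p5) e2
    exact mul_le_mul q1 h2345 (mul_nonneg p2 (mul_nonneg (mul_nonneg p3 p4) p5)) e1
  refine (hprod _ _ _ _ _ _ _ _ _ _ (by positivity) (by positivity) (by positivity)
    (Real.rpow_nonneg hw0.le _) hlast a1 a2 a3 a4 a5).trans ?_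
  apply Real.exp_le_exp.mpr
  have hlogδ : Real.log δ = -l := by rw [hl, neg_neg]
  rw [hlogδ]
  have hs1 : (1 : ℝ) ≤ s := by linarith
  have hinv : ∀ k : ℕ, 1 ≤ k → 1 / s ^ k ≤ 1 / s := by
    intro k hk
    apply one_div_le_one_div_of_le hspos
    calc s = s ^ 1 := by ring
      _ ≤ s ^ k := pow_le_pow_right₀ hs1 hk
  have herr : 84 / s ^ 22 + 14000 / s ^ 5 + (48 / s + 48000 / s ^ 5) + 2000 / s ^ 6 +
      (234 / s ^ 2 + 8 / s + 8000 / s ^ 5) ≤ ε := by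
    refine le_trans ?_ hsε
    have i22 := hinv 22 (by norm_num)
    have i5 := hinv 5 (by norm_num)
    have i6 := hinv 6 (by norm_num)
    have i2 := hinv 2 (by norm_num)
    have i0 : 0 ≤ 1 / s := by positivity
    have e : 84 / s ^ 22 + 14000 / s ^ 5 + (48 / s + 48000 / s ^ 5) + 2000 / s ^ 6 +
      (234 / s ^ 2 + 8 / s + 8000 / s ^ 5) = 84 * (1 / s ^ 22) + 70000 * (1 / s ^ 5) +
        56 * (1 / s) + 2000 * (1 / s ^ 6) + 234 * (1 / s ^ 2) := by ring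
    rw [e]
    have e2 : 100000 / s = 100000 * (1 / s) := by ring
    rw [e2]
    linarith
  have hfin := mul_le_mul_of_nonneg_left herr hN0.le
  have hdec : N * (84 / s ^ 22) + (N * (14000 / s ^ 5) + (N * (48 / s + 48000 / s ^ 5) +
      N * (Real.log (w m) / (m : ℝ) ^ 2 + 2000 / s ^ 6) +
      N * (-(2 * l) - Real.log 3 + (234 / s ^ 2 + 8 / s + 8000 / s ^ 5)))) =
      N * (2 * -l - Real.log 3 + Real.log (w m) / (m : ℝ) ^ 2) +
      N * (84 / s ^ 22 + 14000 / s ^ 5 + (48 / s + 48000 / s ^ 5) + 2000 / s ^ 6 +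
      (234 / s ^ 2 + 8 / s + 8000 / s ^ 5)) := by ring
  rw [hdec]
  have hdec2 : (N : ℝ) * (2 * -l - Real.log 3 + Real.log (w m) / (m : ℝ) ^ 2 + ε) =
      N * (2 * -l - Real.log 3 + Real.log (w m) / (m : ℝ) ^ 2) + N * ε := by ring
  rw [hdec2]
  linarith

end Pool.Agent.J4.H83.HD
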