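import Pool.Agent.J4.H83.HD.CountA
import Pool.Agent.J4.H83.HD.Uasy

/-!
# The upper bound for the free energy near close packing
-/

set_option autoImplicit false

open MeasureTheory Set Filter Topology

namespace Pool.Agent.J4.H83.HD

open Pool.Agent.J4.H83.FV

/-- UA -/
theorem upper_asym (ε : ℝ) (hε : 0 < ε) : ∃ δ₀ : ℝ, 0 < δ₀ ∧ ∀ δ : ℝ, 0 < δ → δ < δ₀ →
    ∃ m : ℕ, 2 ≤ m ∧ 1 / ε ≤ m ∧ ∃ L₀ : ℝ, ∀ (L : ℝ) (N : ℕ), L₀ ≤ L → 0 < N →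
      L ^ 2 ≤ (√3 / 2 + δ) * N →
        zr L N ≤ Real.exp (N * (2 * Real.log δ - Real.log 3 +
          Real.log (W m pt).toReal / (m : ℝ) ^ 2 + ε)) := by
  obtain ⟨C, hC, τ₁, hτ₁, hcount⟩ := count_bound
  have hfin : ∀ m, W m pt ≠ ⊤ := fun m => ((W_pt_le m).trans_lt ENNReal.ofReal_lt_top).ne
  have hw1 : ∀ m : ℕ, (1 / 2 : ℝ) ^ ((m - 1) ^ 2) ≤ (W m pt).toReal := fun m =>
    (ENNReal.ofReal_le_iff_le_toReal (hfin m)).1 (W_pt_ge m)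
  have hw2 : ∀ m : ℕ, (W m pt).toReal ≤ (64 * (m : ℝ) ^ 2) ^ ((m - 1) ^ 2) := fun m =>
    ENNReal.toReal_le_of_le_ofReal (by positivity) (W_pt_le m)
  obtain ⟨δ₀, hδ₀, huasy⟩ := uasy (fun m => (W m pt).toReal) hw1 hw2 C τ₁ hC hτ₁ ε hε
  refine ⟨δ₀, hδ₀, fun δ hδ hδ' => ?_⟩
  obtain ⟨m, M, b, lam, τ, L₀, hm, hmε, hM, hb, hlam, hτ, hττ, hCM, hbM, hbτ, hmC, hML, hmain⟩ :=
    huasy δ hδ hδ'
  refine ⟨m, hm, hmε, L₀, fun L N hL hN hLN => ?_⟩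
  have hM1 : (1 : ℝ) ≤ M := by exact_mod_cast hM
  have hL0 : 0 ≤ L := by linarith
  rcases Set.eq_empty_or_nonempty (A N L) with hA | ⟨x₀, hx₀⟩
  · rw [zr_eq, hA]
    simp only [measure_empty, ENNReal.toReal_zero, zero_div]
    exact (Real.exp_pos _).le
  have hE0 : 0 ≤ (L + 2 * R) ^ 2 - √3 / 2 * N := by
    obtain ⟨_, _, _, _, hst⟩ := structure_thm
    have h1 := sum_ex x₀ hL0 hx₀.1 hx₀.2
    exact le_trans (Finset.sum_nonneg fun i _ => (hst N x₀ hx₀.2 i).1) h1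
  obtain ⟨hFN, hB⟩ := hmain L N hL hLN _ _ rfl hE0 rfl
  set P : ℝ := (1 + (100 * (M : ℝ)) ^ 2 * b) ^ ((⌊L / M⌋₊ + 1) ^ 2) with hP
  have hP0 : 0 < P := by positivity
  have h2 := hcount m M b lam τ L N hm hM hb hlam hτ hττ hCM hbM hbτ hmC (hML.trans hL) hN _ _
    (Real.exp (N * (2 * Real.log δ - Real.log 3 + Real.log (W m pt).toReal / (m : ℝ) ^ 2 + ε)) / P)
    rfl rfl hFN (by positivity) fun n Φ hn h1 h2 h3 => by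
      rw [le_div_iff₀ hP0, mul_comm]
      exact hB n Φ hn h1 h2 h3
  rw [← hP, mul_div_cancel₀ _ hP0.ne'] at h2
  exact h2

end Pool.Agent.J4.H83.HD
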