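import Pool.Agent.J4.H83.HD.Defs

/-!
# Linearisation of a marginal

The marginal of a block over its interior slots is at most the volume of the polytope of the linear
constraints, and at most one.
-/

set_option autoImplicit false

open MeasureTheory Set

namespace Pool.Agent.J4.H83.HD

namespace Lin

/-! ### Facts about `om`, `rt`, `pt` -/

theorem om_sq : om ^ 2 = -1 - om := by
  have h3 : (√3 : ℝ) * √3 = 3 := Real.mul_self_sqrt (by norm_num)
  apply Complex.ext
  · simp [om, pow_two]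
    nlinarith
  · simp [om, pow_two]
    ring

theorem om_norm : ‖om‖ = 1 := by
  have h3 : (√3 : ℝ) * √3 = 3 := Real.mul_self_sqrt (by norm_num)
  have h : ‖om‖ ^ 2 = 1 := by
    rw [Complex.sq_norm, Complex.normSq_apply]
    simp [om]
    nlinarith
  nlinarith [norm_nonneg om]

theorem pt_rt (z : ℤ × ℤ) : pt (rt z) = om * pt z := by
  have h := om_sq
  simp only [pt, rt]
  push_cast
  linear_combination (-(z.2 : ℂ)) * h

theorem pt_rt_iter (j : ℕ) (z : ℤ × ℤ) : pt (rt^[j] z) = om ^ j * pt z := by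
  induction j with
  | zero => simp
  | succ j ih =>
    rw [Function.iterate_succ_apply', pt_rt, ih, pow_succ]
    ring

theorem pt_add (z w : ℤ × ℤ) : pt (z + w) = pt z + pt w := by
  simp only [pt, Prod.fst_add, Prod.snd_add]
  push_cast
  ring

theorem pt_dr (k : Fin 3) : pt (dr k) = om ^ (k : ℕ) := by
  have h := om_sq
  fin_cases k
  · simp [pt, dr]
  · simp [pt, dr]
  · simp only [pt, dr]
    simp
    linear_combination (-1 : ℂ) * h

theorem rt_add (z w : ℤ × ℤ) : rt (z + w) = rt z + rt w := by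
  simp only [rt, Prod.fst_add, Prod.snd_add, Prod.mk_add_mk, Prod.mk.injEq]
  constructor <;> ring

theorem rt_iter_add (j : ℕ) (z w : ℤ × ℤ) : rt^[j] (z + w) = rt^[j] z + rt^[j] w := by
  induction j with
  | zero => simp
  | succ j ih => simp only [Function.iterate_succ_apply', ih, rt_add]

theorem rt_inj : Function.Injective rt := by
  intro a b h
  simp only [rt, Prod.mk.injEq] at h
  obtain ⟨h1, h2⟩ := h
  ext <;> omega

theorem rt_iter_inj (j : ℕ) : Function.Injective rt^[j] := rt_inj.iterate j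

theorem rt_iter_zero (j : ℕ) : rt^[j] (0 : ℤ × ℤ) = 0 := by
  induction j with
  | zero => simp
  | succ j ih =>
    rw [Function.iterate_succ_apply', ih]
    simp [rt]

/-! ### Continuity -/

theorem tot_cont {C : Type} [DecidableEq C] (S : Finset (C × (ℤ × ℤ))) (c : C) (z : ℤ × ℤ) :
    Continuous fun x : S → ℂ => tot S x c z := by
  unfold tot
  split_ifs with h
  · exact continuous_apply _
  · exact continuous_const

theorem glue_cont (m : ℕ) (b : ℤ × ℤ → ℂ) (z : ℤ × ℤ) :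
    Continuous fun w : In m → ℂ => glue m b w z := by
  unfold glue
  split_ifs with h
  · exact continuous_apply _
  · exact continuous_const

theorem XB_closed {C : Type} [DecidableEq C] (m : ℕ) (S : Finset (C × (ℤ × ℤ))) (r : C → ℂ) (η : ℝ)
    (c : C) (j : ℕ) (z₀ : ℤ × ℤ) : IsClosed (XB m S r η c j z₀) := by
  unfold XB
  simp only [ofPred_forall, ofPred_and]
  refine isClosed_iInter fun y => isClosed_iInter fun _ => isClosed_iInter fun k =>
    isClosed_iInter fun _ => IsClosed.inter ?_ ?_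
  · exact isClosed_le continuous_const ((tot_cont S c _).sub (tot_cont S c _)).norm
  · exact isClosed_le (((tot_cont S c _).sub (tot_cont S c _)).sub continuous_const).norm
      continuous_const

theorem CS_closed (m : ℕ) (b : ℤ × ℤ → ℂ) : IsClosed (CS m b) := by
  unfold CS
  simp only [ofPred_forall]
  refine isClosed_iInter fun y => isClosed_iInter fun _ => isClosed_iInter fun k =>
    isClosed_iInter fun _ => isClosed_iInter fun _ => ?_
  unfold gl
  exact isClosed_le continuous_const (Complex.continuous_re.comp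
    (continuous_const.mul ((glue_cont m b _).sub (glue_cont m b _))))

theorem zero_mem_Sq (m : ℕ) : (0 : ℤ × ℤ) ∈ Sq m := by
  simp [Sq]

theorem In_sub_Sq {m : ℕ} {y : ℤ × ℤ} (h : y ∈ In m) : y ∈ Sq m := by
  simp only [In, Sq, Finset.mem_product, Finset.mem_Ioo, Finset.mem_Icc] at h ⊢
  omega

section Block

variable {C : Type} [DecidableEq C] (m : ℕ) (S : Finset (C × (ℤ × ℤ))) (c : C) (j : ℕ) (z₀ : ℤ × ℤ)
  (hS : ∀ y ∈ Sq m, (c, z₀ + rt^[j] y) ∈ S)

/-- the slot of an interior point -/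
noncomputable def sl (y : In m) : IB m S c j z₀ :=
  ⟨⟨(c, z₀ + rt^[j] y.1), hS y.1 (In_sub_Sq y.2)⟩, by
    simp only [IB, Finset.mem_filter, Finset.mem_univ, true_and]
    exact ⟨y.1, y.2, rfl⟩⟩

theorem sl_bij : Function.Bijective (sl m S c j z₀ hS) := by
  constructor
  · intro a b h
    have h1 : ((c, z₀ + rt^[j] a.1) : C × (ℤ × ℤ)) = (c, z₀ + rt^[j] b.1) := by
      have := congrArg (fun s : IB m S c j z₀ => s.1.1) h
      exact this
    have h2 := (Prod.mk.inj h1).2
    exact Subtype.ext (rt_iter_inj j (add_left_cancel h2))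
  · intro s
    have h := s.2
    simp only [IB, Finset.mem_filter, Finset.mem_univ, true_and] at h
    obtain ⟨y, hy, hy2⟩ := h
    exact ⟨⟨y, hy⟩, Subtype.ext (Subtype.ext hy2.symm)⟩

/-- the bijection of the interior points with the interior slots -/
noncomputable def sE : In m ≃ IB m S c j z₀ := Equiv.ofBijective _ (sl_bij m S c j z₀ hS)

theorem tot_upd_in (x : S → ℂ) (w : IB m S c j z₀ → ℂ) (y : In m) :
    tot S (Function.updateFinset x (IB m S c j z₀) w) c (z₀ + rt^[j] y.1) =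
      w (sE m S c j z₀ hS y) := by
  have h1 : (c, z₀ + rt^[j] y.1) ∈ S := hS y.1 (In_sub_Sq y.2)
  have h2 : (⟨(c, z₀ + rt^[j] y.1), h1⟩ : S) ∈ IB m S c j z₀ := by
    simp only [IB, Finset.mem_filter, Finset.mem_univ, true_and]
    exact ⟨y.1, y.2, rfl⟩
  unfold tot
  rw [dif_pos h1, Function.updateFinset_def]
  simp only
  rw [dif_pos h2]
  rfl

theorem tot_upd_out (x : S → ℂ) (w : IB m S c j z₀ → ℂ) (y : ℤ × ℤ) (hy : y ∉ In m) :
    tot S (Function.updateFinset x (IB m S c j z₀) w) c (z₀ + rt^[j] y) =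
      tot S x c (z₀ + rt^[j] y) := by
  unfold tot
  split_ifs with h
  · rw [Function.updateFinset_def]
    simp only
    rw [dif_neg]
    simp only [IB, Finset.mem_filter, Finset.mem_univ, true_and]
    rintro ⟨y', hy', he⟩
    have h2 := (Prod.mk.inj he).2
    have h3 := rt_iter_inj j (add_left_cancel h2)
    exact hy (h3 ▸ hy')
  · rfl

end Block

theorem gap_lin (u D : ℂ) (η : ℝ) (hu : ‖u‖ = 1) (hD : 1 ≤ ‖D‖) (h : ‖D - u‖ ≤ η) :
    1 - η ^ 2 / 2 ≤ ((starRingEnd ℂ) u * D).re := by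
  have h1 : ‖D - u‖ ^ 2 ≤ η ^ 2 := by
    have := norm_nonneg (D - u)
    nlinarith
  have h2 : (1 : ℝ) ≤ ‖D‖ ^ 2 := by nlinarith
  have h3 : ‖u‖ ^ 2 = 1 := by rw [hu]; norm_num
  rw [Complex.sq_norm, Complex.normSq_apply] at h1 h2 h3
  simp only [Complex.sub_re, Complex.sub_im] at h1
  simp only [Complex.mul_re, Complex.conj_re, Complex.conj_im]
  nlinarith

end Lin

open Lin

theorem XB_meas {C : Type} [DecidableEq C] (m : ℕ) (S : Finset (C × (ℤ × ℤ))) (r : C → ℂ) (η : ℝ)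
    (c : C) (j : ℕ) (z₀ : ℤ × ℤ) : MeasurableSet (XB m S r η c j z₀) :=
  (XB_closed m S r η c j z₀).measurableSet

namespace Lin

theorem marg_eq {C : Type} [DecidableEq C] (m : ℕ) (S : Finset (C × (ℤ × ℤ))) (r : C → ℂ)
    (η : ℝ) (c : C) (j : ℕ) (z₀ : ℤ × ℤ) (x : S → ℂ) :
    (∫⋯∫⁻_IB m S c j z₀, (XB m S r η c j z₀).indicator (fun _ => 1) ∂(fun _ => volume)) x =
      volume {w : IB m S c j z₀ → ℂ |
        Function.updateFinset x (IB m S c j z₀) w ∈ XB m S r η c j z₀} := by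
  unfold lmarginal
  have hm : MeasurableSet {w : IB m S c j z₀ → ℂ |
      Function.updateFinset x (IB m S c j z₀) w ∈ XB m S r η c j z₀} :=
    measurable_updateFinset (XB_meas m S r η c j z₀)
  rw [← lintegral_indicator_one hm]
  rfl

/-- the map from the interior slots to the linear displacements -/
noncomputable def Psi {C : Type} [DecidableEq C] (m : ℕ) (S : Finset (C × (ℤ × ℤ))) (r : C → ℂ)
    (η : ℝ) (c : C) (j : ℕ) (z₀ : ℤ × ℤ) (hS : ∀ y ∈ Sq m, (c, z₀ + rt^[j] y) ∈ S) (x : S → ℂ)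
    (w : IB m S c j z₀ → ℂ) (y : In m) : ℂ :=
  (starRingEnd ℂ) om ^ j * ((starRingEnd ℂ) (r c) * w (sE m S c j z₀ hS y) -
    ((1 - η ^ 2 / 2 : ℝ) : ℂ) * pt (z₀ + rt^[j] y.1) - dsp S r η x c z₀)

theorem Psi_mp {C : Type} [DecidableEq C] (m : ℕ) (S : Finset (C × (ℤ × ℤ))) (r : C → ℂ)
    (hr : ∀ c, ‖r c‖ = 1)
    (η : ℝ) (c : C) (j : ℕ) (z₀ : ℤ × ℤ) (hS : ∀ y ∈ Sq m, (c, z₀ + rt^[j] y) ∈ S) (x : S → ℂ) :
    MeasurePreserving (Psi m S r η c j z₀ hS x) volume volume := by
  have h1 : MeasurePreserving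
      (MeasurableEquiv.piCongrLeft (fun _ : In m => ℂ) (sE m S c j z₀ hS).symm) volume volume :=
    volume_measurePreserving_piCongrLeft (fun _ : In m => ℂ) (sE m S c j z₀ hS).symm
  set a : ℂ := (starRingEnd ℂ) om ^ j * (starRingEnd ℂ) (r c) with ha
  have hna : ‖a‖ = 1 := by
    rw [ha, norm_mul, norm_pow, RCLike.norm_conj, RCLike.norm_conj, om_norm, hr c]
    norm_num
  have hrot : MeasurePreserving (fun z : ℂ => a * z) volume volume := by
    exact (rotation (⟨a, by simp [Submonoid.unitSphere, hna]⟩ : Circle)).measurePreserving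
  have h2 : MeasurePreserving (fun (v : In m → ℂ) (y : In m) => a * v y -
      (starRingEnd ℂ) om ^ j * (((1 - η ^ 2 / 2 : ℝ) : ℂ) * pt (z₀ + rt^[j] y.1) +
        dsp S r η x c z₀)) volume volume := by
    exact volume_preserving_pi (f := fun (y : In m) (z : ℂ) => a * z -
      (starRingEnd ℂ) om ^ j * (((1 - η ^ 2 / 2 : ℝ) : ℂ) * pt (z₀ + rt^[j] y.1) +
        dsp S r η x c z₀)) fun y => (measurePreserving_sub_right volume _).comp hrot
  have h3 := h2.comp h1
  convert h3 using 1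
  funext w y
  simp only [Psi, Function.comp_apply]
  have h4 : (MeasurableEquiv.piCongrLeft (fun _ : In m => ℂ) (sE m S c j z₀ hS).symm) w y =
      w (sE m S c j z₀ hS y) := by
    have := MeasurableEquiv.piCongrLeft_apply_apply (sE m S c j z₀ hS).symm
      (β := fun _ : In m => ℂ) w (sE m S c j z₀ hS y)
    rw [Equiv.symm_apply_apply] at this
    exact this
  rw [h4, ha]
  ring

theorem Psi_mem {C : Type} [DecidableEq C] (m : ℕ) (S : Finset (C × (ℤ × ℤ))) (r : C → ℂ)
    (hr : ∀ c, ‖r c‖ = 1)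
    (η : ℝ) (c : C) (j : ℕ) (z₀ : ℤ × ℤ) (hS : ∀ y ∈ Sq m, (c, z₀ + rt^[j] y) ∈ S) (x : S → ℂ)
    (w : IB m S c j z₀ → ℂ)
    (hw : Function.updateFinset x (IB m S c j z₀) w ∈ XB m S r η c j z₀) :
    Psi m S r η c j z₀ hS x w ∈ CS m (bdy (dsp S r η x c) j z₀) := by
  set x' := Function.updateFinset x (IB m S c j z₀) w with hx'
  have hz₀ : tot S x' c z₀ = tot S x c z₀ := by
    have h := tot_upd_out m S c j z₀ x w 0 (by simp [In])
    rw [rt_iter_zero, add_zero] at h
    exact h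
  have hd0 : dsp S r η x' c z₀ = dsp S r η x c z₀ := by
    unfold dsp
    rw [hz₀]
  have hg : ∀ y ∈ Sq m, glue m (bdy (dsp S r η x c) j z₀) (Psi m S r η c j z₀ hS x w) y =
      (starRingEnd ℂ) om ^ j * (dsp S r η x' c (z₀ + rt^[j] y) - dsp S r η x' c z₀) := by
    intro y hy
    unfold glue
    split_ifs with h
    · have h1 := tot_upd_in m S c j z₀ hS x w ⟨y, h⟩
      simp only at h1
      simp only [Psi]
      rw [hd0]
      conv_rhs => rw [dsp]
      rw [hx', h1]
    · have h1 := tot_upd_out m S c j z₀ x w y h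
      unfold bdy
      rw [hd0]
      congr 2
      unfold dsp
      rw [hx', h1]
  intro z hz k hzk _
  unfold gl
  rw [hg z hz, hg _ hzk]
  obtain ⟨h1, h2⟩ := hw z hz k hzk
  set D : ℂ := tot S x' c (z₀ + rt^[j] (z + dr k)) - tot S x' c (z₀ + rt^[j] z) with hD
  have hu : ‖r c * om ^ (j + (k : ℕ))‖ = 1 := by
    rw [norm_mul, norm_pow, om_norm, hr c]
    norm_num
  have h3 := gap_lin (r c * om ^ (j + (k : ℕ))) D η hu h1 h2
  have hpt : pt (z₀ + rt^[j] (z + dr k)) - pt (z₀ + rt^[j] z) = om ^ (j + (k : ℕ)) := by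
    rw [rt_iter_add, pt_add, pt_add, pt_add, pt_rt_iter j (dr k), pt_dr, pow_add]
    ring
  have hco : (starRingEnd ℂ) om * om = 1 := by
    rw [mul_comm, Complex.mul_conj, Complex.normSq_eq_norm_sq, om_norm]
    norm_num
  have hcoj : (starRingEnd ℂ) om ^ (j + (k : ℕ)) * om ^ (j + (k : ℕ)) = 1 := by
    rw [← mul_pow, hco, one_pow]
  have h4 : (starRingEnd ℂ) (om ^ (k : ℕ)) *
      ((starRingEnd ℂ) om ^ j * (dsp S r η x' c (z₀ + rt^[j] (z + dr k)) - dsp S r η x' c z₀) -
        (starRingEnd ℂ) om ^ j * (dsp S r η x' c (z₀ + rt^[j] z) - dsp S r η x' c z₀)) =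
      (starRingEnd ℂ) (r c * om ^ (j + (k : ℕ))) * D - ((1 - η ^ 2 / 2 : ℝ) : ℂ) := by
    have h5 : dsp S r η x' c (z₀ + rt^[j] (z + dr k)) - dsp S r η x' c (z₀ + rt^[j] z) =
        (starRingEnd ℂ) (r c) * D - ((1 - η ^ 2 / 2 : ℝ) : ℂ) * om ^ (j + (k : ℕ)) := by
      rw [← hpt, hD]
      unfold dsp
      ring
    have h6 : (starRingEnd ℂ) om ^ j * (dsp S r η x' c (z₀ + rt^[j] (z + dr k)) -
        dsp S r η x' c z₀) - (starRingEnd ℂ) om ^ j * (dsp S r η x' c (z₀ + rt^[j] z) -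
          dsp S r η x' c z₀) = (starRingEnd ℂ) om ^ j *
        (dsp S r η x' c (z₀ + rt^[j] (z + dr k)) - dsp S r η x' c (z₀ + rt^[j] z)) := by ring
    rw [h6, h5, map_mul, map_pow, map_pow]
    have h7 : (starRingEnd ℂ) om ^ (k : ℕ) * ((starRingEnd ℂ) om ^ j *
        ((starRingEnd ℂ) (r c) * D - ((1 - η ^ 2 / 2 : ℝ) : ℂ) * om ^ (j + (k : ℕ)))) =
        (starRingEnd ℂ) om ^ (j + (k : ℕ)) * (starRingEnd ℂ) (r c) * D -
        ((1 - η ^ 2 / 2 : ℝ) : ℂ) * ((starRingEnd ℂ) om ^ (j + (k : ℕ)) *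
          om ^ (j + (k : ℕ))) := by
      rw [pow_add ((starRingEnd ℂ) om)]
      ring
    rw [h7, hcoj]
    ring
  rw [h4, Complex.sub_re, Complex.ofReal_re]
  linarith

end Lin

theorem marg_le_W {C : Type} [DecidableEq C] (m : ℕ) (S : Finset (C × (ℤ × ℤ))) (r : C → ℂ)
    (hr : ∀ c, ‖r c‖ = 1) (η : ℝ) (hη : 0 < η) (hmη : m * η ≤ 1 / 4) (c : C) (j : ℕ) (z₀ : ℤ × ℤ)
    (hS : ∀ y ∈ Sq m, (c, z₀ + rt^[j] y) ∈ S) (x : S → ℂ) :
    (∫⋯∫⁻_IB m S c j z₀, (XB m S r η c j z₀).indicator (fun _ => 1) ∂(fun _ => volume)) x ≤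
      W m (bdy (dsp S r η x c) j z₀) := by
  rw [marg_eq]
  unfold W
  rw [← (Psi_mp m S r hr η c j z₀ hS x).measure_preimage
    (CS_closed m _).measurableSet.nullMeasurableSet]
  exact measure_mono fun w hw => Psi_mem m S r hr η c j z₀ hS x w hw

theorem marg_le_one {C : Type} [DecidableEq C] (m : ℕ) (S : Finset (C × (ℤ × ℤ))) (r : C → ℂ)
    (hr : ∀ c, ‖r c‖ = 1) (η : ℝ) (hη : 0 < η) (hmη : m * η ≤ 1 / 4) (c : C) (j : ℕ) (z₀ : ℤ × ℤ)
    (hS : ∀ y ∈ Sq m, (c, z₀ + rt^[j] y) ∈ S) (x : S → ℂ) :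
    (∫⋯∫⁻_IB m S c j z₀, (XB m S r η c j z₀).indicator (fun _ => 1) ∂(fun _ => volume)) x ≤ 1 := by
  rw [marg_eq]
  set e := sE m S c j z₀ hS with he
  -- the centres of the balls
  let cen : IB m S c j z₀ → ℂ := fun s =>
    tot S x c (z₀ + rt^[j] (0, (e.symm s).1.2)) + ((e.symm s).1.1 : ℂ) * (r c * om ^ j)
  have hsub : {w : IB m S c j z₀ → ℂ |
      Function.updateFinset x (IB m S c j z₀) w ∈ XB m S r η c j z₀} ⊆
      Set.pi univ fun s => Metric.closedBall (cen s) (1 / 4) := by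
    intro w hw s _
    simp only [Set.mem_ofPred_eq] at hw
    set x' := Function.updateFinset x (IB m S c j z₀) w with hx'
    set y : In m := e.symm s with hy
    have hsy : s = e y := by rw [hy, Equiv.apply_symm_apply]
    have hyI := y.2
    simp only [In, Finset.mem_product, Finset.mem_Ioo] at hyI
    obtain ⟨⟨ha0, ham⟩, ⟨hb0, hbm⟩⟩ := hyI
    have hstep : ∀ i : ℕ, (i : ℤ) ≤ m →
        ‖tot S x' c (z₀ + rt^[j] ((i : ℤ), y.1.2)) - tot S x' c (z₀ + rt^[j] (0, y.1.2)) -
          (i : ℂ) * (r c * om ^ j)‖ ≤ i * η := by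
      intro i
      induction i with
      | zero => intro _; simp
      | succ i ih =>
        intro hi
        have hi' : (i : ℤ) ≤ m := by push_cast at hi; omega
        have h1 := ih hi'
        have hz : (((i : ℤ), y.1.2) : ℤ × ℤ) ∈ Sq m := by
          simp only [Sq, Finset.mem_product, Finset.mem_Icc]
          omega
        have hz2 : (((i : ℤ), y.1.2) : ℤ × ℤ) + dr 0 = (((i + 1 : ℕ) : ℤ), y.1.2) := by
          simp [dr]
        have hz3 : (((i : ℤ), y.1.2) : ℤ × ℤ) + dr 0 ∈ Sq m := by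
          rw [hz2]
          simp only [Sq, Finset.mem_product, Finset.mem_Icc]
          push_cast at hi ⊢
          omega
        have h2 := (hw _ hz 0 hz3).2
        rw [hz2] at h2
        simp only [Fin.val_zero, add_zero] at h2
        calc _ = ‖(tot S x' c (z₀ + rt^[j] (((i + 1 : ℕ) : ℤ), y.1.2)) -
              tot S x' c (z₀ + rt^[j] ((i : ℤ), y.1.2)) - r c * om ^ j) +
              (tot S x' c (z₀ + rt^[j] ((i : ℤ), y.1.2)) - tot S x' c (z₀ + rt^[j] (0, y.1.2)) -
                (i : ℂ) * (r c * om ^ j))‖ := by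
              congr 1
              push_cast
              ring
          _ ≤ _ := norm_add_le _ _
          _ ≤ η + i * η := add_le_add h2 h1
          _ = ((i + 1 : ℕ) : ℝ) * η := by push_cast; ring
    obtain ⟨a, ha⟩ : ∃ a : ℕ, (a : ℤ) = y.1.1 := ⟨y.1.1.toNat, Int.toNat_of_nonneg ha0.le⟩
    have h1 := hstep a (by rw [ha]; exact ham.le)
    have h2 := tot_upd_out m S c j z₀ x w (0, y.1.2) (by simp [In])
    have h3 := tot_upd_in m S c j z₀ hS x w y
    have h4 : ((a : ℤ), y.1.2) = y.1 := by rw [ha]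
    rw [h4] at h1
    rw [← hx'] at h2 h3
    rw [Metric.mem_closedBall, dist_eq_norm]
    have h5 : w s - cen s = tot S x' c (z₀ + rt^[j] y.1) - tot S x' c (z₀ + rt^[j] (0, y.1.2)) -
        (a : ℂ) * (r c * om ^ j) := by
      rw [h2, h3]
      simp only [cen]
      rw [← hy, hsy, ← ha]
      push_cast
      ring
    rw [h5]
    refine h1.trans ?_
    have h6 : (a : ℝ) ≤ m := by
      have : (a : ℤ) ≤ m := by rw [ha]; exact ham.le
      exact_mod_cast this
    nlinarith
  refine (measure_mono hsub).trans ?_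
  rw [volume_pi_pi]
  apply Finset.prod_le_one'
  intro s _
  rw [Complex.volume_closedBall]
  have hpi : Real.pi ≤ 4 := Real.pi_le_four
  have hp0 := Real.pi_pos
  rw [← ENNReal.ofReal_pow (by norm_num), ← ENNReal.ofReal_coe_nnreal,
    ← ENNReal.ofReal_mul (by norm_num)]
  rw [ENNReal.ofReal_le_one]
  simp only [NNReal.coe_real_pi]
  nlinarith

end Pool.Agent.J4.H83.HD
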