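import Pool.Agent.J4.H83.HD.W
import Pool.Agent.J4.H83.HD.Avg
import Pool.Agent.J4.H83.HD.BI
import Pool.Agent.J4.H83.HD.Lin

/-!
# Piece V of the project HD (helper46): the volume of the configurations near a lattice

Hölder's inequality over the `3 m²` families of aligned rhombi.
-/

set_option autoImplicit false

open MeasureTheory Set Filter Topology

namespace Pool.Agent.J4.H83.HD

namespace VP

/-- `rt^j` is additive -/
lemma rt_add (j : ℕ) (a b : ℤ × ℤ) : rt^[j] (a + b) = rt^[j] a + rt^[j] b := by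
  induction j generalizing a b with
  | zero => rfl
  | succ n ih =>
    rw [Function.iterate_succ_apply, Function.iterate_succ_apply, Function.iterate_succ_apply, ← ih]
    congr 1
    unfold rt
    ext <;> simp <;> ring

lemma rt_sub (j : ℕ) (a b : ℤ × ℤ) : rt^[j] (a - b) = rt^[j] a - rt^[j] b := by
  have h := rt_add j (a - b) b
  rw [sub_add_cancel] at h
  rw [h, add_sub_cancel_right]

lemma rt_three (z : ℤ × ℤ) : rt^[3] z = z := by
  simp only [Function.iterate_succ, Function.iterate_zero, Function.comp, id, rt]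
  ext
  · simp
  · simp only
    ring

/-- the inverse of `rt^j` -/
def lo (j : Fin 3) (z : ℤ × ℤ) : ℤ × ℤ := rt^[3 - (j : ℕ)] z

lemma lo_rt (j : Fin 3) (z : ℤ × ℤ) : lo j (rt^[(j : ℕ)] z) = z := by
  unfold lo
  rw [← Function.iterate_add_apply, Nat.sub_add_cancel (by omega), rt_three]

lemma rt_lo (j : Fin 3) (z : ℤ × ℤ) : rt^[(j : ℕ)] (lo j z) = z := by
  unfold lo
  rw [← Function.iterate_add_apply, Nat.add_sub_cancel' (by omega), rt_three]

lemma lo_add (j : Fin 3) (a b : ℤ × ℤ) : lo j (a + b) = lo j a + lo j b := rt_add _ _ _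

lemma lo_sub (j : Fin 3) (a b : ℤ × ℤ) : lo j (a - b) = lo j a - lo j b := rt_sub _ _ _

lemma lo_inj (j : Fin 3) {a b : ℤ × ℤ} (h : lo j a = lo j b) : a = b := by
  rw [← rt_lo j a, h, rt_lo]

lemma rt_bd (j : Fin 3) (z : ℤ × ℤ) (M : ℤ) (h1 : |z.1| ≤ M) (h2 : |z.2| ≤ M) :
    |(rt^[(j : ℕ)] z).1| ≤ 2 * M ∧ |(rt^[(j : ℕ)] z).2| ≤ 2 * M := by
  rw [abs_le] at h1 h2
  fin_cases j
  · simp only [Function.iterate_zero, id]
    constructor <;> rw [abs_le] <;> constructor <;> linarith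
  · simp only [Function.iterate_succ, Function.iterate_zero, Function.comp, id, rt]
    constructor <;> rw [abs_le] <;> constructor <;> linarith
  · simp only [Function.iterate_succ, Function.iterate_zero, Function.comp, id, rt]
    constructor <;> rw [abs_le] <;> constructor <;> linarith

lemma mem_Sq {m : ℕ} {y : ℤ × ℤ} : y ∈ Sq m ↔ (0 ≤ y.1 ∧ y.1 ≤ m) ∧ 0 ≤ y.2 ∧ y.2 ≤ m := by
  unfold Sq
  rw [Finset.mem_product, Finset.mem_Icc, Finset.mem_Icc]

lemma mem_In {m : ℕ} {y : ℤ × ℤ} : y ∈ In m ↔ (0 < y.1 ∧ y.1 < m) ∧ 0 < y.2 ∧ y.2 < m := by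
  unfold In
  rw [Finset.mem_product, Finset.mem_Ioo, Finset.mem_Ioo]

/-- the residue of a point -/
def res (m : ℕ) (w : ℤ × ℤ) (t : Fin m × Fin m) : Prop :=
  w.1 % m = (t.1 : ℕ) ∧ w.2 % m = (t.2 : ℕ)

open Classical in
/-- the blocks of the family `(j, t)` -/
noncomputable def Bl {C : Type} [DecidableEq C] (m : ℕ) (S : Finset (C × (ℤ × ℤ))) (j : Fin 3)
    (t : Fin m × Fin m) : Finset (C × (ℤ × ℤ)) :=
  S.filter fun p => (∀ y ∈ Sq m, (p.1, p.2 + rt^[(j : ℕ)] y) ∈ S) ∧ res m (lo j p.2) t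

variable {C : Type} [DecidableEq C]

lemma mem_Bl {m : ℕ} {S : Finset (C × (ℤ × ℤ))} {j : Fin 3} {t : Fin m × Fin m} {p : C × (ℤ × ℤ)} :
    p ∈ Bl m S j t ↔ p ∈ S ∧ (∀ y ∈ Sq m, (p.1, p.2 + rt^[(j : ℕ)] y) ∈ S) ∧ res m (lo j p.2) t := by
  classical
  unfold Bl
  rw [Finset.mem_filter]

/-- two blocks with a common point, interior for one of them, are equal -/
lemma block_eq {m : ℕ} {S : Finset (C × (ℤ × ℤ))} {j : Fin 3} {t : Fin m × Fin m}
    {p p' : C × (ℤ × ℤ)} (hp : p ∈ Bl m S j t) (hp' : p' ∈ Bl m S j t) {y y' : ℤ × ℤ} (hy : y ∈ Sq m)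
    (hy' : y' ∈ In m) (h : (p.1, p.2 + rt^[(j : ℕ)] y) = (p'.1, p'.2 + rt^[(j : ℕ)] y')) : p = p' := by
  rw [mem_Bl] at hp hp'
  rw [Prod.mk.injEq] at h
  obtain ⟨h1, h2⟩ := h
  have h3 := congrArg (lo j) h2
  rw [lo_add, lo_add, lo_rt, lo_rt] at h3
  obtain ⟨a1, a2⟩ := hp.2.2
  obtain ⟨b1, b2⟩ := hp'.2.2
  rw [mem_Sq] at hy
  rw [mem_In] at hy'
  have e1 : (lo j p.2).1 + y.1 = (lo j p'.2).1 + y'.1 := congrArg Prod.fst h3
  have e2 : (lo j p.2).2 + y.2 = (lo j p'.2).2 + y'.2 := congrArg Prod.snd h3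
  have key : ∀ a a' b b' M : ℤ, a % M = a' % M → a + b = a' + b' → 0 ≤ b → b ≤ M → 0 < b' → b' < M → a = a' := by
    intro a a' b b' M h1 h2 h3 h4 h5 h6
    have h7 : M ∣ a - a' := Int.ModEq.dvd (Int.ModEq.symm h1)
    obtain ⟨k, hk⟩ := h7
    have h8 : b' - b = M * k := by linarith
    have hM : 0 < M := by linarith
    have h9 : k = 0 := by
      by_contra hne
      rcases lt_or_gt_of_ne hne with h | h
      · have : k ≤ -1 := by omega
        nlinarith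
      · have : 1 ≤ k := by omega
        nlinarith
    rw [h9] at hk
    linarith
  have f1 : (lo j p.2).1 = (lo j p'.2).1 :=
    key _ _ _ _ m (a1.trans b1.symm) e1 hy.1.1 hy.1.2 hy'.1.1 hy'.1.2
  have f2 : (lo j p.2).2 = (lo j p'.2).2 :=
    key _ _ _ _ m (a2.trans b2.symm) e2 hy.2.1 hy.2.2 hy'.2.1 hy'.2.2
  have f3 : p.2 = p'.2 := lo_inj j (Prod.ext f1 f2)
  exact Prod.ext h1 f3

lemma In_sub_Sq {m : ℕ} {y : ℤ × ℤ} (h : y ∈ In m) : y ∈ Sq m := by
  rw [mem_In] at h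
  rw [mem_Sq]
  exact ⟨⟨h.1.1.le, h.1.2.le⟩, h.2.1.le, h.2.2.le⟩

lemma mem_IB {m : ℕ} {S : Finset (C × (ℤ × ℤ))} {c : C} {j : ℕ} {z₀ : ℤ × ℤ} {s : S} :
    s ∈ IB m S c j z₀ ↔ ∃ y ∈ In m, s.1 = (c, z₀ + rt^[j] y) := by
  unfold IB
  rw [Finset.mem_filter]
  simp

lemma IB_disj {m : ℕ} {S : Finset (C × (ℤ × ℤ))} {j : Fin 3} {t : Fin m × Fin m} {p p' : C × (ℤ × ℤ)}
    (hp : p ∈ Bl m S j t) (hp' : p' ∈ Bl m S j t) (hne : p ≠ p') :
    Disjoint (IB m S p.1 j p.2) (IB m S p'.1 j p'.2) := by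
  rw [Finset.disjoint_left]
  intro s hs hs'
  rw [mem_IB] at hs hs'
  obtain ⟨y, hy, h1⟩ := hs
  obtain ⟨y', hy', h2⟩ := hs'
  exact hne (block_eq hp hp' (In_sub_Sq hy) hy' (h1.symm.trans h2))

/-- a point outside the boundary lines of the family is interior -/
lemma interior {m : ℕ} (hm : 0 < m) {S : Finset (C × (ℤ × ℤ))} {j : Fin 3} {t : Fin m × Fin m} {s : S}
    (hS : ∀ y : ℤ × ℤ, |y.1| ≤ 2 * m + 6 → |y.2| ≤ 2 * m + 6 → (s.1.1, s.1.2 + y) ∈ S)
    (h1 : (lo j s.1.2).1 % m ≠ (t.1 : ℕ)) (h2 : (lo j s.1.2).2 % m ≠ (t.2 : ℕ)) :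
    s ∈ (Bl m S j t).biUnion fun p => IB m S p.1 j p.2 := by
  set w := lo j s.1.2 with hw
  have hm0 : (0 : ℤ) < m := by exact_mod_cast hm
  set y : ℤ × ℤ := ((w.1 - (t.1 : ℕ)) % m, (w.2 - (t.2 : ℕ)) % m) with hy
  have key : ∀ a b : ℤ, 0 ≤ b → b < m → a % m ≠ b → 0 < (a - b) % m ∧ (a - b) % m < m ∧
      (a - (a - b) % m) % m = b := by
    intro a b hb0 hb1 hab
    have h3 := Int.emod_nonneg (a - b) hm0.ne'
    have h4 := Int.emod_lt_of_pos (a - b) hm0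
    refine ⟨?_, h4, ?_⟩
    · rcases h3.lt_or_eq with h | h
      · exact h
      · exfalso
        apply hab
        have h5 : (a - b) % m = 0 := h.symm
        have h6 : a % m = b % m := (Int.modEq_iff_dvd.2 (Int.dvd_of_emod_eq_zero h5)).symm
        rw [h6, Int.emod_eq_of_lt hb0 hb1]
    · have h5 : (a - (a - b) % m) % m = (a - (a - b)) % m := by
        rw [Int.sub_emod, Int.emod_emod_of_dvd _ (dvd_refl _), ← Int.sub_emod]
      rw [h5, sub_sub_cancel, Int.emod_eq_of_lt hb0 hb1]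
  have hk1 := key w.1 (t.1 : ℕ) (by positivity) (by exact_mod_cast t.1.2) h1
  have hk2 := key w.2 (t.2 : ℕ) (by positivity) (by exact_mod_cast t.2.2) h2
  have hyIn : y ∈ In m := by
    rw [mem_In]
    exact ⟨⟨hk1.1, hk1.2.1⟩, hk2.1, hk2.2.1⟩
  set z₀ := s.1.2 - rt^[(j : ℕ)] y with hz₀
  have hz : s.1.2 = z₀ + rt^[(j : ℕ)] y := by rw [hz₀, sub_add_cancel]
  have hall : ∀ y' ∈ Sq m, (s.1.1, z₀ + rt^[(j : ℕ)] y') ∈ S := by
    intro y' hy'
    have e : z₀ + rt^[(j : ℕ)] y' = s.1.2 + rt^[(j : ℕ)] (y' - y) := by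
      rw [rt_sub, hz₀]; abel
    rw [e]
    rw [mem_Sq] at hy'
    rw [mem_In] at hyIn
    have hb := rt_bd j (y' - y) m (by
      rw [Prod.fst_sub, abs_le]; constructor <;> linarith [hy'.1.1, hy'.1.2, hyIn.1.1, hyIn.1.2]) (by
      rw [Prod.snd_sub, abs_le]; constructor <;> linarith [hy'.2.1, hy'.2.2, hyIn.2.1, hyIn.2.2])
    exact hS _ (hb.1.trans (by linarith)) (hb.2.trans (by linarith))
  rw [Finset.mem_biUnion]
  refine ⟨(s.1.1, z₀), ?_, ?_⟩
  · rw [mem_Bl]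
    refine ⟨?_, hall, ?_⟩
    · have h0 := hall 0 (by rw [mem_Sq]; simp)
      have h00 : rt^[(j : ℕ)] (0 : ℤ × ℤ) = 0 := by
        have := rt_sub j 0 0
        simpa using this
      rw [h00, add_zero] at h0
      exact h0
    · have e : lo j z₀ = w - y := by
        rw [hz₀, lo_sub, lo_rt]
      show res m (lo j z₀) t
      rw [e]
      exact ⟨hk1.2.2, hk2.2.2⟩
  · rw [mem_IB]
    refine ⟨y, hyIn, ?_⟩
    exact Prod.ext rfl hz

end VP

end Pool.Agent.J4.H83.HD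

namespace Pool.Agent.J4.H83.HD

namespace VP

variable {C : Type} [DecidableEq C]

/-- `XB` depends only on the slots of the closed block -/
lemma XB_congr {m : ℕ} {S : Finset (C × (ℤ × ℤ))} {r : C → ℂ} {η : ℝ} {c : C} {j : ℕ} {z₀ : ℤ × ℤ}
    {x x' : S → ℂ} (h : ∀ s : S, (∃ y ∈ Sq m, s.1 = (c, z₀ + rt^[j] y)) → x s = x' s) :
    x ∈ XB m S r η c j z₀ ↔ x' ∈ XB m S r η c j z₀ := by
  have key : ∀ y ∈ Sq m, tot S x c (z₀ + rt^[j] y) = tot S x' c (z₀ + rt^[j] y) := by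
    intro y hy
    unfold tot
    by_cases hS : (c, z₀ + rt^[j] y) ∈ S
    · rw [dif_pos hS, dif_pos hS]
      exact h ⟨_, hS⟩ ⟨y, hy, rfl⟩
    · rw [dif_neg hS, dif_neg hS]
  unfold XB
  simp only [mem_ofPred_eq]
  constructor
  · intro hx y hy k hk
    have := hx y hy k hk
    rwa [key y hy, key _ hk] at this
  · intro hx y hy k hk
    have := hx y hy k hk
    rwa [← key y hy, ← key _ hk] at this

/-- the marginal -/
noncomputable def mg (m : ℕ) (S : Finset (C × (ℤ × ℤ))) (r : C → ℂ) (η : ℝ) (j : ℕ)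
    (p : C × (ℤ × ℤ)) (x : S → ℂ) : ENNReal :=
  (∫⋯∫⁻_IB m S p.1 j p.2, (XB m S r η p.1 j p.2).indicator (fun _ => 1) ∂(fun _ => volume)) x

/-- the density of a block -/
noncomputable def dn (m : ℕ) (S : Finset (C × (ℤ × ℤ))) (r : C → ℂ) (η : ℝ) (j : ℕ)
    (p : C × (ℤ × ℤ)) (x : S → ℂ) : ENNReal :=
  (XB m S r η p.1 j p.2).indicator (fun _ => 1) x * (mg m S r η j p x)⁻¹

lemma ind_meas (m : ℕ) (S : Finset (C × (ℤ × ℤ))) (r : C → ℂ) (η : ℝ) (j : ℕ) (p : C × (ℤ × ℤ)) :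
    Measurable ((XB m S r η p.1 j p.2).indicator (fun _ => (1 : ENNReal))) :=
  measurable_const.indicator (XB_meas m S r η p.1 j p.2)

lemma mg_meas (m : ℕ) (S : Finset (C × (ℤ × ℤ))) (r : C → ℂ) (η : ℝ) (j : ℕ) (p : C × (ℤ × ℤ)) :
    Measurable (mg m S r η j p) :=
  (ind_meas m S r η j p).lmarginal _

lemma dn_meas (m : ℕ) (S : Finset (C × (ℤ × ℤ))) (r : C → ℂ) (η : ℝ) (j : ℕ) (p : C × (ℤ × ℤ)) :
    Measurable (dn m S r η j p) :=
  (ind_meas m S r η j p).mul (mg_meas m S r η j p).inv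

/-- independence of the interior slots of other blocks -/
lemma dn_dep {m : ℕ} {S : Finset (C × (ℤ × ℤ))} {r : C → ℂ} {η : ℝ} {j : Fin 3} {t : Fin m × Fin m}
    {p p' : C × (ℤ × ℤ)} (hp : p ∈ Bl m S j t) (hp' : p' ∈ Bl m S j t) (hne : p ≠ p') (x x' : S → ℂ)
    (h : ∀ i, i ∉ IB m S p'.1 j p'.2 → x i = x' i) : dn m S r η j p x = dn m S r η j p x' := by
  have key : ∀ s : S, (∃ y ∈ Sq m, s.1 = (p.1, p.2 + rt^[(j : ℕ)] y)) → s ∉ IB m S p'.1 j p'.2 := by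
    intro s hs hs'
    rw [mem_IB] at hs'
    obtain ⟨y, hy, h1⟩ := hs
    obtain ⟨y', hy', h2⟩ := hs'
    exact hne (block_eq hp hp' hy hy' (h1.symm.trans h2))
  have hX : ∀ a a' : S → ℂ, (∀ i, i ∉ IB m S p'.1 j p'.2 → a i = a' i) →
      (XB m S r η p.1 j p.2).indicator (fun _ => (1 : ENNReal)) a =
      (XB m S r η p.1 j p.2).indicator (fun _ => (1 : ENNReal)) a' := by
    intro a a' ha
    have h1 : a ∈ XB m S r η p.1 j p.2 ↔ a' ∈ XB m S r η p.1 j p.2 :=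
      XB_congr fun s hs => ha s (key s hs)
    by_cases h2 : a ∈ XB m S r η p.1 j p.2
    · rw [indicator_of_mem h2, indicator_of_mem (h1.1 h2)]
    · rw [indicator_of_notMem h2, indicator_of_notMem (fun h3 => h2 (h1.2 h3))]
  unfold dn mg
  rw [hX x x' h]
  congr 2
  unfold lmarginal
  refine lintegral_congr fun w => hX _ _ fun i hi => ?_
  unfold Function.updateFinset
  split_ifs
  · rfl
  · exact h i hi

/-- the integral of the density -/
lemma dn_int {m : ℕ} {S : Finset (C × (ℤ × ℤ))} {r : C → ℂ} {η : ℝ} (j : ℕ) (p : C × (ℤ × ℤ))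
    (x : S → ℂ) (h1 : mg m S r η j p x ≤ 1) :
    (∫⋯∫⁻_IB m S p.1 j p.2, dn m S r η j p ∂(fun _ => volume)) x ≤ 1 := by
  have hconst : ∀ w : (i : IB m S p.1 j p.2) → ℂ,
      mg m S r η j p (Function.updateFinset x (IB m S p.1 j p.2) w) = mg m S r η j p x := by
    intro w
    unfold mg lmarginal
    refine lintegral_congr fun w' => ?_
    congr 1
    rw [Function.updateFinset_updateFinset_of_subset (Finset.Subset.refl _)]
  have h2 : (∫⋯∫⁻_IB m S p.1 j p.2, dn m S r η j p ∂(fun _ => volume)) x =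
      mg m S r η j p x * (mg m S r η j p x)⁻¹ := by
    unfold dn
    conv_lhs => unfold lmarginal
    simp_rw [hconst]
    rw [lintegral_mul_const]
    · rfl
    · exact (ind_meas m S r η j p).comp measurable_updateFinset
  rw [h2]
  exact ENNReal.mul_inv_le_one _

/-- the functions of the Hölder inequality -/
noncomputable def qq (m : ℕ) (S : Finset (C × (ℤ × ℤ))) (r : C → ℂ) (η Mb : ℝ) (D : C → Set ℂ)
    (τ : Fin 3 × (Fin m × Fin m)) (x : S → ℂ) : ENNReal :=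
  (∏ i ∈ Finset.univ \ (Bl m S τ.1 τ.2).biUnion (fun p => IB m S p.1 τ.1 p.2),
    (ENNReal.ofReal Mb)⁻¹ * (D i.1.1).indicator (fun _ => 1) (x i)) *
    ∏ p ∈ Bl m S τ.1 τ.2, dn m S r η τ.1 p x

lemma qq_int (m : ℕ) (S : Finset (C × (ℤ × ℤ))) (r : C → ℂ) (hr : ∀ c, ‖r c‖ = 1) (η Mb : ℝ)
    (hη : 0 < η) (hmη : m * η ≤ 1 / 4) (hMb : 1 ≤ Mb) (D : C → Set ℂ)
    (hD : ∀ c, MeasurableSet (D c)) (hDv : ∀ c, volume (D c) ≤ ENNReal.ofReal Mb)
    (τ : Fin 3 × (Fin m × Fin m)) : ∫⁻ x, qq m S r η Mb D τ x ≤ 1 := by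
  unfold qq
  refine block_integral (Bl m S τ.1 τ.2) (fun p => IB m S p.1 τ.1 p.2) ?_
    (fun i z => (ENNReal.ofReal Mb)⁻¹ * (D i.1.1).indicator (fun _ => 1) z) ?_ ?_
    (fun p => dn m S r η τ.1 p) ?_ ?_ ?_
  · intro b hb b' hb' hne
    exact IB_disj hb hb' hne
  · intro i
    exact (measurable_const.indicator (hD _)).const_mul _
  · intro i
    rw [lintegral_const_mul _ (measurable_const.indicator (hD _)), lintegral_indicator_const (hD _) 1, one_mul]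
    calc (ENNReal.ofReal Mb)⁻¹ * volume (D i.1.1) ≤ (ENNReal.ofReal Mb)⁻¹ * ENNReal.ofReal Mb := by
          gcongr
          exact hDv _
      _ ≤ 1 := ENNReal.inv_mul_le_one _
  · intro b _
    exact dn_meas m S r η τ.1 b
  · intro b hb b' hb' hne x y hxy
    exact dn_dep hb hb' hne x y hxy
  · intro b hb x
    refine dn_int _ _ _ ?_
    rw [mem_Bl] at hb
    exact marg_le_one m S r hr η hη hmη b.1 τ.1 b.2 hb.2.1 x

lemma qq_meas (m : ℕ) (S : Finset (C × (ℤ × ℤ))) (r : C → ℂ) (η Mb : ℝ) (D : C → Set ℂ)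
    (hD : ∀ c, MeasurableSet (D c)) (τ : Fin 3 × (Fin m × Fin m)) : Measurable (qq m S r η Mb D τ) := by
  unfold qq
  refine Measurable.mul ?_ ?_
  · refine Finset.measurable_fun_prod _ fun i _ => ?_
    exact ((measurable_const.indicator (hD _)).comp (measurable_pi_apply i)).const_mul _
  · exact Finset.measurable_fun_prod _ fun p _ => dn_meas m S r η τ.1 p

end VP

end Pool.Agent.J4.H83.HD

namespace Pool.Agent.J4.H83.HD

namespace VP

variable {C : Type} [DecidableEq C]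

lemma om_three : om ^ 3 = 1 := by
  have h3 : √3 * √3 = 3 := Real.mul_self_sqrt (by norm_num)
  unfold om
  rw [pow_succ, pow_two]
  apply Complex.ext
  · simp only [Complex.mul_re, Complex.mul_im, Complex.one_re]
    linear_combination (3 / 8) * h3
  · simp only [Complex.mul_re, Complex.mul_im, Complex.one_im]
    linear_combination (-(√3) / 8) * h3

lemma om_norm : ‖om‖ = 1 := by
  have h : ‖om‖ ^ 3 = 1 := by rw [← norm_pow, om_three, norm_one]
  exact (pow_eq_one_iff_of_nonneg (norm_nonneg _) (by norm_num)).1 h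

/-- `rt^j (dr k) = dr (k + j)` -/
lemma rt_dr (j k : Fin 3) : rt^[(j : ℕ)] (dr k) = dr (k + j) := by
  fin_cases j <;> fin_cases k <;>
    simp [rt, dr, Function.iterate_succ, Fin.add_def]

lemma om_idx (j k : Fin 3) : om ^ ((k + j : Fin 3) : ℕ) = om ^ ((j : ℕ) + (k : ℕ)) := by
  rw [Fin.val_add]
  conv_rhs => rw [add_comm, ← Nat.div_add_mod ((k : ℕ) + (j : ℕ)) 3, pow_add, pow_mul, om_three, one_pow, one_mul]

/-- the configurations satisfy the constraints of all blocks -/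
lemma XS_sub_XB {m : ℕ} {S : Finset (C × (ℤ × ℤ))} {r : C → ℂ} {D : C → Set ℂ} {η G : ℝ} {x : S → ℂ}
    (hx : x ∈ XS S r D η G) {j : Fin 3} {t : Fin m × Fin m} {p : C × (ℤ × ℤ)} (hp : p ∈ Bl m S j t) :
    x ∈ XB m S r η p.1 j p.2 := by
  rw [mem_Bl] at hp
  intro y hy k hk
  have h := hx.2.1 p.1 (p.2 + rt^[(j : ℕ)] y) (k + j) (hp.2.1 y hy) (by
    rw [← rt_dr, add_assoc, ← rt_add]
    exact hp.2.1 _ hk)
  rw [← rt_dr, add_assoc, ← rt_add, om_idx] at h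
  exact h

/-- for a configuration -/
lemma qq_XS {m : ℕ} {S : Finset (C × (ℤ × ℤ))} {r : C → ℂ} {D : C → Set ℂ} {η G Mb : ℝ}
    (hMb : 1 ≤ Mb) {x : S → ℂ} (hx : x ∈ XS S r D η G) (τ : Fin 3 × (Fin m × Fin m))
    (h1 : ∀ p ∈ Bl m S τ.1 τ.2, mg m S r η τ.1 p x ≤ 1) :
    qq m S r η Mb D τ x = (ENNReal.ofReal Mb ^
      (Finset.univ \ (Bl m S τ.1 τ.2).biUnion (fun p => IB m S p.1 τ.1 p.2)).card *
      ∏ p ∈ Bl m S τ.1 τ.2, mg m S r η τ.1 p x)⁻¹ := by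
  have hM0 : ENNReal.ofReal Mb ≠ 0 := by
    rw [Ne, ENNReal.ofReal_eq_zero]
    linarith
  have hMt : ENNReal.ofReal Mb ≠ ⊤ := ENNReal.ofReal_ne_top
  unfold qq
  rw [ENNReal.mul_inv (Or.inl (pow_ne_zero _ hM0)) (Or.inl (ENNReal.pow_ne_top hMt))]
  congr 1
  · rw [ENNReal.inv_pow, ← Finset.prod_const]
    refine Finset.prod_congr rfl fun i _ => ?_
    rw [indicator_of_mem (hx.1 i), mul_one]
  · rw [ENNReal.prod_inv_distrib]
    · refine Finset.prod_congr rfl fun p hp => ?_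
      unfold dn
      rw [indicator_of_mem (XS_sub_XB hx hp), one_mul]
    · intro p _ p' hp' _
      right
      exact ne_top_of_le_ne_top ENNReal.one_ne_top (h1 p' hp')

/-- Hölder -/
lemma vol_le {m : ℕ} (hm : 0 < m) {S : Finset (C × (ℤ × ℤ))} {r : C → ℂ} (hr : ∀ c, ‖r c‖ = 1)
    {D : C → Set ℂ} {η G Mb : ℝ} (hη : 0 < η) (hmη : m * η ≤ 1 / 4) (hMb : 1 ≤ Mb)
    (hD : ∀ c, MeasurableSet (D c)) (hDv : ∀ c, volume (D c) ≤ ENNReal.ofReal Mb)
    (K : ENNReal) (hK0 : K ≠ 0) (hKt : K ≠ ⊤)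
    (hR : ∀ x ∈ XS S r D η G, ∏ τ : Fin 3 × (Fin m × Fin m), (ENNReal.ofReal Mb ^
      (Finset.univ \ (Bl m S τ.1 τ.2).biUnion (fun p => IB m S p.1 τ.1 p.2)).card *
      ∏ p ∈ Bl m S τ.1 τ.2, mg m S r η τ.1 p x) ^ (1 / (3 * (m : ℝ) ^ 2)) ≤ K) :
    volume (XS S r D η G) ≤ K := by
  have hm0 : (0 : ℝ) < m := by exact_mod_cast hm
  set p0 : ℝ := 1 / (3 * (m : ℝ) ^ 2) with hp0
  have hp00 : 0 < p0 := by positivity
  have hM0 : ENNReal.ofReal Mb ≠ 0 := by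
    rw [Ne, ENNReal.ofReal_eq_zero]
    linarith
  have hMt : ENNReal.ofReal Mb ≠ ⊤ := ENNReal.ofReal_ne_top
  have hmg : ∀ x : S → ℂ, ∀ τ : Fin 3 × (Fin m × Fin m), ∀ p ∈ Bl m S τ.1 τ.2, mg m S r η τ.1 p x ≤ 1 := by
    intro x τ p hp
    rw [mem_Bl] at hp
    exact marg_le_one m S r hr η hη hmη p.1 τ.1 p.2 hp.2.1 x
  -- Hölder
  have hH : ∫⁻ x : S → ℂ, ∏ τ : Fin 3 × (Fin m × Fin m), qq m S r η Mb D τ x ^ p0 ≤ 1 := by
    refine (ENNReal.lintegral_prod_norm_pow_le Finset.univ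
      (fun τ _ => (qq_meas m S r η Mb D hD τ).aemeasurable) ?_ (fun _ _ => hp00.le)).trans ?_
    · rw [Finset.sum_const, Finset.card_univ, Fintype.card_prod, Fintype.card_prod, Fintype.card_fin,
        Fintype.card_fin, nsmul_eq_mul, hp0]
      push_cast
      field_simp
    · refine Finset.prod_le_one (fun _ _ => zero_le) fun τ _ => ?_
      exact ENNReal.rpow_le_one (qq_int m S r hr η Mb hη hmη hMb D hD hDv τ) hp00.le
  -- lower bound
  have hlow : ∀ x ∈ XS S r D η G, 1 ≤ K * ∏ τ : Fin 3 × (Fin m × Fin m), qq m S r η Mb D τ x ^ p0 := by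
    intro x hx
    have e1 : ∏ τ : Fin 3 × (Fin m × Fin m), qq m S r η Mb D τ x ^ p0 =
        (∏ τ : Fin 3 × (Fin m × Fin m), (ENNReal.ofReal Mb ^
      (Finset.univ \ (Bl m S τ.1 τ.2).biUnion (fun p => IB m S p.1 τ.1 p.2)).card *
      ∏ p ∈ Bl m S τ.1 τ.2, mg m S r η τ.1 p x) ^ p0)⁻¹ := by
      rw [ENNReal.prod_inv_distrib]
      · refine Finset.prod_congr rfl fun τ _ => ?_
        rw [qq_XS hMb hx τ (hmg x τ), ENNReal.inv_rpow]
      · intro τ _ τ' _ _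
        right
        refine ENNReal.rpow_ne_top_of_nonneg hp00.le ?_
        refine ENNReal.mul_ne_top (ENNReal.pow_ne_top hMt) ?_
        refine ENNReal.prod_ne_top fun p hp => ?_
        exact ne_top_of_le_ne_top ENNReal.one_ne_top (hmg x τ' p hp)
    rw [e1]
    calc (1 : ENNReal) = K * K⁻¹ := (ENNReal.mul_inv_cancel hK0 hKt).symm
      _ ≤ _ := by
        gcongr
        exact hR x hx
  have hmeas : Measurable fun x : S → ℂ => ∏ τ : Fin 3 × (Fin m × Fin m), qq m S r η Mb D τ x ^ p0 :=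
    Finset.measurable_fun_prod _ fun τ _ => (qq_meas m S r η Mb D hD τ).pow_const _
  calc volume (XS S r D η G) ≤ volume {x : S → ℂ | 1 ≤ K * ∏ τ : Fin 3 × (Fin m × Fin m), qq m S r η Mb D τ x ^ p0} :=
        measure_mono fun x hx => hlow x hx
    _ ≤ (∫⁻ x : S → ℂ, K * ∏ τ : Fin 3 × (Fin m × Fin m), qq m S r η Mb D τ x ^ p0) / 1 :=
        meas_ge_le_lintegral_div (hmeas.const_mul _).aemeasurable one_ne_zero ENNReal.one_ne_top
    _ = K * ∫⁻ x : S → ℂ, ∏ τ : Fin 3 × (Fin m × Fin m), qq m S r η Mb D τ x ^ p0 := by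
        rw [div_one, lintegral_const_mul _ hmeas]
    _ ≤ K * 1 := by gcongr
    _ = K := mul_one _

end VP

end Pool.Agent.J4.H83.HD

namespace Pool.Agent.J4.H83.HD

namespace VP

variable {C : Type} [DecidableEq C]

lemma card_line {m : ℕ} (a b : ℤ) :
    ((Finset.univ : Finset (Fin m × Fin m)).filter fun t => a = (t.1 : ℕ) ∨ b = (t.2 : ℕ)).card ≤ 2 * m := by
  classical
  rw [Finset.filter_or]
  refine (Finset.card_union_le _ _).trans ?_
  have h1 : ((Finset.univ : Finset (Fin m × Fin m)).filter fun t => a = (t.1 : ℕ)).card ≤ m := by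
    calc _ ≤ (Finset.univ : Finset (Fin m)).card := by
          refine Finset.card_le_card_of_injOn (fun t => t.2) (fun _ _ => Finset.mem_coe.2 (Finset.mem_univ _)) ?_
          intro t ht t' ht' h
          rw [Finset.mem_coe, Finset.mem_filter] at ht ht'
          have : (t.1 : ℕ) = (t'.1 : ℕ) := by
            have := ht.2.symm.trans ht'.2
            exact_mod_cast this
          exact Prod.ext (Fin.ext this) h
      _ = m := by simp
  have h2 : ((Finset.univ : Finset (Fin m × Fin m)).filter fun t => b = (t.2 : ℕ)).card ≤ m := by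
    calc _ ≤ (Finset.univ : Finset (Fin m)).card := by
          refine Finset.card_le_card_of_injOn (fun t => t.1) (fun _ _ => Finset.mem_coe.2 (Finset.mem_univ _)) ?_
          intro t ht t' ht' h
          rw [Finset.mem_coe, Finset.mem_filter] at ht ht'
          have : (t.2 : ℕ) = (t'.2 : ℕ) := by
            have := ht.2.symm.trans ht'.2
            exact_mod_cast this
          exact Prod.ext h (Fin.ext this)
      _ = m := by simp
  omega

/-- the slots outside the interiors of the blocks -/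
lemma count {m : ℕ} (hm : 0 < m) {S : Finset (C × (ℤ × ℤ))} {φ : C → ℤ × ℤ → ℝ}
    (h1 : ∀ c z, φ c z ≤ 1)
    (hsupp : ∀ c z, φ c z ≠ 0 → ∀ y : ℤ × ℤ, |y.1| ≤ 2 * m + 6 → |y.2| ≤ 2 * m + 6 → (c, z + y) ∈ S) :
    (∑ τ : Fin 3 × (Fin m × Fin m),
      ((Finset.univ \ (Bl m S τ.1 τ.2).biUnion (fun p => IB m S p.1 τ.1 p.2)).card : ℝ)) *
      (1 / (3 * (m : ℝ) ^ 2)) ≤ 2 * (S.card : ℝ) / m + (S.card - ∑ p ∈ S, φ p.1 p.2) := by
  classical
  have hm0 : (0 : ℝ) < m := by exact_mod_cast hm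
  have e1 : ∀ τ : Fin 3 × (Fin m × Fin m),
      ((Finset.univ \ (Bl m S τ.1 τ.2).biUnion (fun p => IB m S p.1 τ.1 p.2)).card : ℝ) =
      ∑ s : S, if s ∉ (Bl m S τ.1 τ.2).biUnion (fun p => IB m S p.1 τ.1 p.2) then (1 : ℝ) else 0 := by
    intro τ
    rw [← Finset.sum_filter, Finset.sum_const, nsmul_eq_mul, mul_one, Finset.filter_notMem_eq_sdiff]
  have e2 : ∑ τ : Fin 3 × (Fin m × Fin m),
      ((Finset.univ \ (Bl m S τ.1 τ.2).biUnion (fun p => IB m S p.1 τ.1 p.2)).card : ℝ) =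
      ∑ s : S, ∑ j : Fin 3, ∑ t : Fin m × Fin m,
        if s ∉ (Bl m S j t).biUnion (fun p => IB m S p.1 j p.2) then (1 : ℝ) else 0 := by
    rw [Finset.sum_congr rfl fun τ _ => e1 τ, Finset.sum_comm]
    refine Finset.sum_congr rfl fun s _ => ?_
    rw [Fintype.sum_prod_type]
  have e3 : ∀ s : S, ∀ j : Fin 3, ∑ t : Fin m × Fin m,
        (if s ∉ (Bl m S j t).biUnion (fun p => IB m S p.1 j p.2) then (1 : ℝ) else 0) ≤
        2 * m + (m : ℝ) ^ 2 * (1 - φ s.1.1 s.1.2) := by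
    intro s j
    rw [← Finset.sum_filter, Finset.sum_const, nsmul_eq_mul, mul_one]
    have hφ := h1 s.1.1 s.1.2
    by_cases h0 : φ s.1.1 s.1.2 = 0
    · rw [h0]
      have h2 : ((Finset.univ : Finset (Fin m × Fin m)).filter fun t =>
          s ∉ (Bl m S j t).biUnion (fun p => IB m S p.1 j p.2)).card ≤ m * m := by
        refine (Finset.card_filter_le _ _).trans ?_
        rw [Finset.card_univ, Fintype.card_prod, Fintype.card_fin]
      have h3 : (((Finset.univ : Finset (Fin m × Fin m)).filter fun t =>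
          s ∉ (Bl m S j t).biUnion (fun p => IB m S p.1 j p.2)).card : ℝ) ≤ (m : ℝ) * m := by
        exact_mod_cast h2
      nlinarith
    · have h2 : ((Finset.univ : Finset (Fin m × Fin m)).filter fun t =>
          s ∉ (Bl m S j t).biUnion (fun p => IB m S p.1 j p.2)).card ≤ 2 * m := by
        refine (Finset.card_le_card ?_).trans (card_line ((lo j s.1.2).1 % m) ((lo j s.1.2).2 % m))
        intro t ht
        rw [Finset.mem_filter] at ht ⊢
        refine ⟨Finset.mem_univ _, ?_⟩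
        by_contra hc
        rw [not_or] at hc
        exact ht.2 (interior hm (fun y hy1 hy2 => hsupp _ _ h0 y hy1 hy2) hc.1 hc.2)
      have h3 : (((Finset.univ : Finset (Fin m × Fin m)).filter fun t =>
          s ∉ (Bl m S j t).biUnion (fun p => IB m S p.1 j p.2)).card : ℝ) ≤ 2 * (m : ℝ) := by
        exact_mod_cast h2
      have h4 : 0 ≤ (m : ℝ) ^ 2 * (1 - φ s.1.1 s.1.2) := by
        apply mul_nonneg (by positivity)
        linarith
      linarith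
  have e4 : ∑ s : S, ∑ j : Fin 3, ∑ t : Fin m × Fin m,
        (if s ∉ (Bl m S j t).biUnion (fun p => IB m S p.1 j p.2) then (1 : ℝ) else 0) ≤
      ∑ s : S, 3 * (2 * m + (m : ℝ) ^ 2 * (1 - φ s.1.1 s.1.2)) := by
    refine Finset.sum_le_sum fun s _ => ?_
    refine (Finset.sum_le_sum fun j _ => e3 s j).trans ?_
    rw [Finset.sum_const, Finset.card_univ, Fintype.card_fin, nsmul_eq_mul]
    norm_num
  have e5 : ∑ s : S, 3 * (2 * m + (m : ℝ) ^ 2 * (1 - φ s.1.1 s.1.2)) =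
      3 * (2 * m * S.card + (m : ℝ) ^ 2 * (S.card - ∑ p ∈ S, φ p.1 p.2)) := by
    rw [← Finset.mul_sum, Finset.sum_add_distrib, Finset.sum_const, Finset.card_univ, Fintype.card_coe,
      nsmul_eq_mul, ← Finset.mul_sum, Finset.sum_sub_distrib, Finset.sum_const, Finset.card_univ,
      Fintype.card_coe, nsmul_eq_mul, mul_one, Finset.sum_coe_sort S (fun p => φ p.1 p.2)]
    ring
  rw [e2]
  calc _ ≤ (3 * (2 * m * S.card + (m : ℝ) ^ 2 * (S.card - ∑ p ∈ S, φ p.1 p.2))) * (1 / (3 * (m : ℝ) ^ 2)) := by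
        rw [← e5]
        apply mul_le_mul_of_nonneg_right e4 (by positivity)
    _ = _ := by
        field_simp

/-- the marginals -/
lemma marg_prod {m : ℕ} (hm : 0 < m) {S : Finset (C × (ℤ × ℤ))} {r : C → ℂ} (hr : ∀ c, ‖r c‖ = 1)
    {η : ℝ} (hη : 0 < η) (hmη : m * η ≤ 1 / 4) {φ : C → ℤ × ℤ → ℝ}
    (h0 : ∀ c z, 0 ≤ φ c z) (h1 : ∀ c z, φ c z ≤ 1)
    (hsupp : ∀ c z, φ c z ≠ 0 → ∀ y : ℤ × ℤ, |y.1| ≤ 2 * m + 6 → |y.2| ≤ 2 * m + 6 → (c, z + y) ∈ S)
    (x : S → ℂ) (p0 : ℝ) (hp0 : 0 ≤ p0) :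
    ∏ τ : Fin 3 × (Fin m × Fin m), ∏ p ∈ Bl m S τ.1 τ.2, mg m S r η τ.1 p x ^ p0 ≤
      ∏ j : Fin 3, ∏ p ∈ S, W m (bdy (dsp S r η x p.1) j p.2) ^ (φ p.1 p.2 * p0) := by
  classical
  have hm0 : (0 : ℤ) < m := by exact_mod_cast hm
  rw [Fintype.prod_prod_type]
  refine Finset.prod_le_prod' fun j _ => ?_
  have hpt : ∀ t : Fin m × Fin m, ∀ p ∈ Bl m S j t, mg m S r η j p x ^ p0 ≤
      W m (bdy (dsp S r η x p.1) j p.2) ^ (φ p.1 p.2 * p0) := by
    intro t p hp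
    rw [mem_Bl] at hp
    have hW := marg_le_W m S r hr η hη hmη p.1 j p.2 hp.2.1 x
    have h1' := marg_le_one m S r hr η hη hmη p.1 j p.2 hp.2.1 x
    have hφ0 := h0 p.1 p.2
    have hφ1 := h1 p.1 p.2
    rw [ENNReal.rpow_mul]
    refine ENNReal.rpow_le_rpow ?_ hp0
    calc mg m S r η j p x = mg m S r η j p x ^ (1 : ℝ) := (ENNReal.rpow_one _).symm
      _ ≤ mg m S r η j p x ^ (φ p.1 p.2) := ENNReal.rpow_le_rpow_of_exponent_ge h1' hφ1
      _ ≤ _ := ENNReal.rpow_le_rpow hW hφ0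
  refine (Finset.prod_le_prod' fun t _ => Finset.prod_le_prod' fun p hp => hpt t p hp).trans ?_
  -- the fibres
  set g : C × (ℤ × ℤ) → ENNReal := fun p => W m (bdy (dsp S r η x p.1) j p.2) ^ (φ p.1 p.2 * p0) with hg
  set T : Finset (C × (ℤ × ℤ)) := S.filter fun p => ∀ y ∈ Sq m, (p.1, p.2 + rt^[(j : ℕ)] y) ∈ S with hT
  set rs : C × (ℤ × ℤ) → Fin m × Fin m := fun p =>
    (⟨((lo j p.2).1 % m).toNat, by
        have h2 := Int.emod_nonneg (lo j p.2).1 hm0.ne'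
        have h3 := Int.emod_lt_of_pos (lo j p.2).1 hm0
        omega⟩, ⟨((lo j p.2).2 % m).toNat, by
        have h2 := Int.emod_nonneg (lo j p.2).2 hm0.ne'
        have h3 := Int.emod_lt_of_pos (lo j p.2).2 hm0
        omega⟩) with hrs
  have hBl : ∀ t, Bl m S j t = T.filter fun p => rs p = t := by
    intro t
    ext p
    rw [mem_Bl, Finset.mem_filter, hT, Finset.mem_filter]
    have h2 := Int.emod_nonneg (lo j p.2).1 hm0.ne'
    have h4 := Int.emod_nonneg (lo j p.2).2 hm0.ne'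
    have h3 : res m (lo j p.2) t ↔ rs p = t := by
      unfold res
      rw [hrs, Prod.ext_iff, Fin.ext_iff, Fin.ext_iff]
      dsimp only
      constructor
      · rintro ⟨a, b⟩
        constructor <;> omega
      · rintro ⟨a, b⟩
        constructor <;> omega
    rw [h3]
    tauto
  have h5 : ∏ t : Fin m × Fin m, ∏ p ∈ Bl m S j t, g p = ∏ p ∈ T, g p := by
    rw [Finset.prod_congr rfl fun t _ => by rw [hBl t]]
    exact Finset.prod_fiberwise_of_maps_to (fun _ _ => Finset.mem_univ _) _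
  have h6 : ∏ p ∈ T, g p = ∏ p ∈ S, g p := by
    refine Finset.prod_subset (Finset.filter_subset _ _) fun p hp hpT => ?_
    have h7 : φ p.1 p.2 = 0 := by
      by_contra hne
      apply hpT
      rw [hT, Finset.mem_filter]
      refine ⟨hp, fun y hy => ?_⟩
      rw [mem_Sq] at hy
      have hb := rt_bd j y m (by rw [abs_le]; constructor <;> linarith [hy.1.1, hy.1.2]) (by
        rw [abs_le]; constructor <;> linarith [hy.2.1, hy.2.2])
      exact hsupp _ _ hne _ (hb.1.trans (by linarith)) (hb.2.trans (by linarith))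
    rw [hg]
    dsimp only
    rw [h7, zero_mul, ENNReal.rpow_zero]
  exact (h5.trans h6).le

end VP

end Pool.Agent.J4.H83.HD

namespace Pool.Agent.J4.H83.HD

namespace VP

variable {C : Type} [DecidableEq C]

lemma pt_dr (z : ℤ × ℤ) (k : Fin 3) : pt (z + dr k) - pt z = om ^ (k : ℕ) := by
  have h1 : 1 + om + om ^ 2 = 0 := by
    have h3 : √3 * √3 = 3 := Real.mul_self_sqrt (by norm_num)
    unfold om
    rw [pow_two]
    apply Complex.ext
    · simp only [Complex.mul_re, Complex.add_re, Complex.one_re, Complex.zero_re]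
      linear_combination (-1 / 4) * h3
    · simp only [Complex.mul_im, Complex.add_im, Complex.one_im, Complex.zero_im]
      ring
  unfold pt
  fin_cases k
  · simp [dr]
  · simp [dr]
    ring
  · simp [dr]
    linear_combination (-1 : ℂ) * h1

/-- the linear gap of the displacement field -/
lemma gl_dsp {S : Finset (C × (ℤ × ℤ))} {r : C → ℂ} (hr : ∀ c, ‖r c‖ = 1) {η : ℝ} {x : S → ℂ} {c : C}
    {z : ℤ × ℤ} {k : Fin 3} (h1 : 1 ≤ ‖tot S x c (z + dr k) - tot S x c z‖)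
    (h2 : ‖tot S x c (z + dr k) - tot S x c z - r c * om ^ (k : ℕ)‖ ≤ η) :
    0 ≤ gl (dsp S r η x c) z k ∧
      gl (dsp S r η x c) z k ≤ ‖tot S x c (z + dr k) - tot S x c z‖ - 1 + η ^ 2 / 2 := by
  set Dv := tot S x c (z + dr k) - tot S x c z with hDv
  set v := r c * om ^ (k : ℕ) with hv
  have hvn : ‖v‖ = 1 := by rw [hv, norm_mul, norm_pow, om_norm, hr, one_pow, mul_one]
  have hon : ‖om ^ (k : ℕ)‖ = 1 := by rw [norm_pow, om_norm, one_pow]
  have e1 : gl (dsp S r η x c) z k = (Dv * (starRingEnd ℂ) v).re - (1 - η ^ 2 / 2) := by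
    unfold gl dsp
    have e2 : (starRingEnd ℂ) (om ^ (k : ℕ)) * ((starRingEnd ℂ) (r c) * tot S x c (z + dr k) -
        ((1 - η ^ 2 / 2 : ℝ) : ℂ) * pt (z + dr k) - ((starRingEnd ℂ) (r c) * tot S x c z -
        ((1 - η ^ 2 / 2 : ℝ) : ℂ) * pt z)) = Dv * (starRingEnd ℂ) v -
        ((1 - η ^ 2 / 2 : ℝ) : ℂ) * ((starRingEnd ℂ) (om ^ (k : ℕ)) * om ^ (k : ℕ)) := by
      rw [← pt_dr z k, hv, hDv, map_mul, ← pt_dr z k]
      ring
    have e3 : (starRingEnd ℂ) (om ^ (k : ℕ)) * om ^ (k : ℕ) = 1 := by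
      rw [mul_comm, Complex.mul_conj, Complex.normSq_eq_norm_sq, hon]
      norm_num
    rw [e2, e3, mul_one, Complex.sub_re, Complex.ofReal_re]
  have h3 := Complex.normSq_sub Dv v
  rw [Complex.normSq_eq_norm_sq, Complex.normSq_eq_norm_sq, Complex.normSq_eq_norm_sq, hvn] at h3
  have h4 : (Dv * (starRingEnd ℂ) v).re ≤ ‖Dv‖ := by
    refine (Complex.re_le_norm _).trans ?_
    rw [norm_mul, RCLike.norm_conj, hvn, mul_one]
  have h5 : ‖Dv - v‖ ^ 2 ≤ η ^ 2 := by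
    have := norm_nonneg (Dv - v)
    gcongr
  rw [e1]
  constructor
  · nlinarith
  · linarith

/-- the lattice points of a cell -/
noncomputable def Ic (S : Finset (C × (ℤ × ℤ))) (c : C) : Finset (ℤ × ℤ) :=
  (S.filter fun p => p.1 = c).image Prod.snd

lemma mem_Ic {S : Finset (C × (ℤ × ℤ))} {c : C} {z : ℤ × ℤ} : z ∈ Ic S c ↔ (c, z) ∈ S := by
  unfold Ic
  rw [Finset.mem_image]
  constructor
  · rintro ⟨p, hp, rfl⟩
    rw [Finset.mem_filter] at hp
    rw [← hp.2]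
    exact hp.1
  · intro h
    exact ⟨(c, z), Finset.mem_filter.2 ⟨h, rfl⟩, rfl⟩

lemma prod_cells [Fintype C] {S : Finset (C × (ℤ × ℤ))} {M : Type} [CommMonoid M] (f : C × (ℤ × ℤ) → M) :
    ∏ p ∈ S, f p = ∏ c : C, ∏ z ∈ Ic S c, f (c, z) :=
  Finset.prod_finset_product S Finset.univ (Ic S) (fun p => by
    rw [mem_Ic]
    simp)

lemma sum_cells [Fintype C] {S : Finset (C × (ℤ × ℤ))} (f : C × (ℤ × ℤ) → ℝ) :
    ∑ p ∈ S, f p = ∑ c : C, ∑ z ∈ Ic S c, f (c, z) :=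
  Finset.sum_finset_product S Finset.univ (Ic S) (fun p => by
    rw [mem_Ic]
    simp)

/-- the gaps of a cell -/
noncomputable def Gc (S : Finset (C × (ℤ × ℤ))) (η : ℝ) (x : S → ℂ) (c : C) : ℝ :=
  ∑ z ∈ Ic S c, ∑ k : Fin 3, (if (c, z + dr k) ∈ S then
      ‖tot S x c (z + dr k) - tot S x c z‖ - 1 else 0) + 2 * η ^ 2 * (Ic S c).card

lemma Gc_sum [Fintype C] {S : Finset (C × (ℤ × ℤ))} {r : C → ℂ} {D : C → Set ℂ} {η G : ℝ} {x : S → ℂ}
    (hx : x ∈ XS S r D η G) : ∑ c : C, Gc S η x c ≤ G + 2 * S.card * η ^ 2 := by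
  unfold Gc
  rw [Finset.sum_add_distrib, ← Finset.mul_sum]
  have h1 := hx.2.2
  rw [sum_cells] at h1
  have h2 : ∑ c : C, ((Ic S c).card : ℝ) = S.card := by
    have := sum_cells (S := S) (fun _ => (1 : ℝ))
    simpa using this.symm
  rw [h2]
  linarith

lemma Gc_nonneg {S : Finset (C × (ℤ × ℤ))} {r : C → ℂ} {D : C → Set ℂ} {η G : ℝ} {x : S → ℂ}
    (hx : x ∈ XS S r D η G) (c : C) : 2 * η ^ 2 * (Ic S c).card ≤ Gc S η x c := by
  unfold Gc
  have h1 : 0 ≤ ∑ z ∈ Ic S c, ∑ k : Fin 3, (if (c, z + dr k) ∈ S then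
      ‖tot S x c (z + dr k) - tot S x c z‖ - 1 else 0) := by
    refine Finset.sum_nonneg fun z hz => Finset.sum_nonneg fun k _ => ?_
    rw [mem_Ic] at hz
    split_ifs with h
    · have := (hx.2.1 c z k hz h).1
      linarith
    · exact le_refl _
  linarith

/-- one cell -/
lemma cell_bd {m : ℕ} (hm : 2 ≤ m) {S : Finset (C × (ℤ × ℤ))} {r : C → ℂ} (hr : ∀ c, ‖r c‖ = 1)
    {D : C → Set ℂ} {lam η G : ℝ} (hlam : 0 ≤ lam) (hη : 0 < η) {φ : C → ℤ × ℤ → ℝ}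
    (h0 : ∀ c z, 0 ≤ φ c z) (h1 : ∀ c z, φ c z ≤ 1)
    (hsupp : ∀ c z, φ c z ≠ 0 → ∀ y : ℤ × ℤ, |y.1| ≤ 2 * m + 6 → |y.2| ≤ 2 * m + 6 → (c, z + y) ∈ S)
    (hlip : ∀ c z, ∀ k : Fin 3, |φ c (z + dr k) - φ c z| ≤ lam)
    {x : S → ℂ} (hx : x ∈ XS S r D η G) (c : C) :
    ∏ j : Fin 3, ∏ z ∈ Ic S c, W m (bdy (dsp S r η x c) j z) ^ (φ c z * (1 / (3 * (m : ℝ) ^ 2))) ≤
      ENNReal.ofReal (((1 / 3 + 32 * (m : ℝ) ^ 2 * lam) * Gc S η x c / ∑ z ∈ Ic S c, φ c z) ^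
        (2 * ((m : ℝ) - 1) ^ 2 / (m : ℝ) ^ 2 * ∑ z ∈ Ic S c, φ c z) *
        (W m pt).toReal ^ ((∑ z ∈ Ic S c, φ c z) / (m : ℝ) ^ 2)) := by
  have hm0 : (0 : ℝ) < m := by
    have : (2 : ℝ) ≤ m := by exact_mod_cast hm
    linarith
  have hW : W m pt ≠ ⊤ := ne_top_of_le_ne_top ENNReal.ofReal_ne_top (W_pt_le m)
  set Φ := ∑ z ∈ Ic S c, φ c z with hΦ
  have hΦ0 : 0 ≤ Φ := Finset.sum_nonneg fun z _ => h0 c z
  rcases hΦ0.eq_or_lt with h | h
  · -- trivial cell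
    have hz : ∀ z ∈ Ic S c, φ c z = 0 := by
      intro z hz
      exact (Finset.sum_eq_zero_iff_of_nonneg fun z _ => h0 c z).1 h.symm z hz
    have e1 : ∏ j : Fin 3, ∏ z ∈ Ic S c, W m (bdy (dsp S r η x c) j z) ^ (φ c z * (1 / (3 * (m : ℝ) ^ 2))) =
        1 := by
      refine Finset.prod_eq_one fun j _ => Finset.prod_eq_one fun z hz' => ?_
      rw [hz z hz', zero_mul, ENNReal.rpow_zero]
    rw [e1, ← h]
    simp
  · have hne : (Ic S c).Nonempty := by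
      by_contra hn
      rw [Finset.not_nonempty_iff_eq_empty] at hn
      rw [hΦ, hn] at h
      simp at h
    have hG0 : 0 < Gc S η x c := by
      have h2 := Gc_nonneg hx c
      have h3 : (0 : ℝ) < (Ic S c).card := by exact_mod_cast hne.card_pos
      have h4 : 0 < 2 * η ^ 2 * ((Ic S c).card : ℝ) := by positivity
      linarith
    have hca := cell_avg m hm (dsp S r η x c) (φ c) (Ic S c) lam (Gc S η x c) hlam (h0 c) (h1 c)
      (fun z hz y hy1 hy2 => mem_Ic.2 (hsupp c z hz y hy1 hy2)) (hlip c)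
      (fun z hz k hk => by
        rw [mem_Ic] at hz hk
        have h5 := hx.2.1 c z k hz hk
        exact (gl_dsp hr h5.1 h5.2).1)
      (by
        unfold Gc
        have h6 : 2 * η ^ 2 * ((Ic S c).card : ℝ) = ∑ z ∈ Ic S c, 2 * η ^ 2 := by
          rw [Finset.sum_const, nsmul_eq_mul]; ring
        rw [h6, ← Finset.sum_add_distrib]
        refine Finset.sum_le_sum fun z hz => ?_
        rw [mem_Ic] at hz
        have h7 : ∀ k : Fin 3, (if z + dr k ∈ Ic S c then gl (dsp S r η x c) z k else 0) ≤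
            (if (c, z + dr k) ∈ S then ‖tot S x c (z + dr k) - tot S x c z‖ - 1 else 0) + η ^ 2 / 2 := by
          intro k
          by_cases hk : (c, z + dr k) ∈ S
          · rw [if_pos (mem_Ic.2 hk), if_pos hk]
            have h5 := hx.2.1 c z k hz hk
            exact (gl_dsp hr h5.1 h5.2).2
          · rw [if_neg (fun h => hk (mem_Ic.1 h)), if_neg hk]
            positivity
        refine (Finset.sum_le_sum fun k _ => h7 k).trans ?_
        rw [Finset.sum_add_distrib, Finset.sum_const, Finset.card_univ, Fintype.card_fin, nsmul_eq_mul]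
        push_cast
        nlinarith [sq_nonneg η])
      hG0 h
    rw [← hΦ] at hca
    have hy : 0 ≤ Φ / (m : ℝ) ^ 2 := by positivity
    have h8 := ENNReal.rpow_le_rpow hca hy
    have e2 : (∏ j : Fin 3, ∏ z ∈ Ic S c, W m (bdy (dsp S r η x c) j z) ^ (φ c z / (3 * Φ))) ^
        (Φ / (m : ℝ) ^ 2) =
        ∏ j : Fin 3, ∏ z ∈ Ic S c, W m (bdy (dsp S r η x c) j z) ^ (φ c z * (1 / (3 * (m : ℝ) ^ 2))) := by
      rw [← ENNReal.prod_rpow_of_nonneg hy]
      refine Finset.prod_congr rfl fun j _ => ?_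
      rw [← ENNReal.prod_rpow_of_nonneg hy]
      refine Finset.prod_congr rfl fun z _ => ?_
      rw [← ENNReal.rpow_mul]
      congr 1
      field_simp
    rw [e2] at h8
    refine h8.trans (le_of_eq ?_)
    have hκ : 0 ≤ (1 / 3 + 32 * (m : ℝ) ^ 2 * lam) * Gc S η x c / Φ := by positivity
    rw [ENNReal.mul_rpow_of_nonneg _ _ hy, ENNReal.ofReal_rpow_of_nonneg (by positivity) hy,
      ← ENNReal.ofReal_toReal hW, ENNReal.ofReal_rpow_of_nonneg ENNReal.toReal_nonneg hy,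
      ← ENNReal.ofReal_mul (by positivity), ENNReal.toReal_ofReal ENNReal.toReal_nonneg]
    congr 2
    rw [← Real.rpow_natCast, ← Real.rpow_mul hκ]
    congr 1
    push_cast
    rw [Nat.cast_sub (by omega)]
    push_cast
    ring

/-- weighted AM-GM -/
lemma amgm {ι : Type} (s : Finset ι) (F g : ι → ℝ) (κ β T : ℝ) (hκ : 0 ≤ κ) (hβ : 0 ≤ β)
    (hF : ∀ i ∈ s, 0 ≤ F i) (hg : ∀ i ∈ s, 0 ≤ g i) (hF0 : 0 < ∑ i ∈ s, F i) (hT : ∑ i ∈ s, g i ≤ T) :
    ∏ i ∈ s, (κ * g i / F i) ^ (β * F i) ≤ (κ * T / ∑ i ∈ s, F i) ^ (β * ∑ i ∈ s, F i) := by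
  set Φ := ∑ i ∈ s, F i with hΦ
  have hz : ∀ i ∈ s, 0 ≤ κ * g i / F i := fun i hi =>
    div_nonneg (mul_nonneg hκ (hg i hi)) (hF i hi)
  have h1 := Real.geom_mean_le_arith_mean_weighted s (fun i => F i / Φ) (fun i => κ * g i / F i)
    (fun i hi => div_nonneg (hF i hi) hF0.le) (by rw [← Finset.sum_div, ← hΦ, div_self hF0.ne']) hz
  have h2 : ∑ i ∈ s, F i / Φ * (κ * g i / F i) ≤ κ * T / Φ := by
    calc ∑ i ∈ s, F i / Φ * (κ * g i / F i) ≤ ∑ i ∈ s, κ * g i / Φ := by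
          refine Finset.sum_le_sum fun i hi => ?_
          rcases (hF i hi).eq_or_lt with h | h
          · rw [← h]
            simp only [zero_div, zero_mul]
            exact div_nonneg (mul_nonneg hκ (hg i hi)) hF0.le
          · apply le_of_eq
            field_simp
      _ = κ * (∑ i ∈ s, g i) / Φ := by rw [Finset.mul_sum, Finset.sum_div]
      _ ≤ κ * T / Φ := by gcongr
  have h3 : ∏ i ∈ s, (κ * g i / F i) ^ (β * F i) = (∏ i ∈ s, (κ * g i / F i) ^ (F i / Φ)) ^ (β * Φ) := by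
    rw [← Real.finsetProd_rpow s _ (fun i hi => Real.rpow_nonneg (hz i hi) _)]
    refine Finset.prod_congr rfl fun i hi => ?_
    rw [← Real.rpow_mul (hz i hi)]
    congr 1
    field_simp
  rw [h3]
  exact Real.rpow_le_rpow (Finset.prod_nonneg fun i hi => Real.rpow_nonneg (hz i hi) _) (h1.trans h2)
    (by positivity)

end VP

end Pool.Agent.J4.H83.HD

namespace Pool.Agent.J4.H83.HD

open VP

theorem V_bound (m : ℕ) (hm : 2 ≤ m) (lam η Mb G : ℝ) (hlam : 0 ≤ lam) (hη : 0 < η)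
    (hmη : m * η ≤ 1 / 4) (hMb : 1 ≤ Mb) (hG : 0 ≤ G) {C : Type} [Fintype C] [DecidableEq C]
    (S : Finset (C × (ℤ × ℤ))) (r : C → ℂ) (hr : ∀ c, ‖r c‖ = 1) (D : C → Set ℂ)
    (hD : ∀ c, MeasurableSet (D c)) (hDv : ∀ c, volume (D c) ≤ ENNReal.ofReal Mb)
    (φ : C → ℤ × ℤ → ℝ) (h0 : ∀ c z, 0 ≤ φ c z) (h1 : ∀ c z, φ c z ≤ 1)
    (hsupp : ∀ c z, φ c z ≠ 0 → ∀ y : ℤ × ℤ, |y.1| ≤ 2 * m + 6 → |y.2| ≤ 2 * m + 6 →
      (c, z + y) ∈ S)
    (hlip : ∀ c z, ∀ k : Fin 3, |φ c (z + dr k) - φ c z| ≤ lam)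
    (hΦ : 0 < ∑ p ∈ S, φ p.1 p.2) :
    volume (XS S r D η G) ≤ ENNReal.ofReal
      (Mb ^ (2 * (S.card : ℝ) / m + (S.card - ∑ p ∈ S, φ p.1 p.2)) *
        (W m pt).toReal ^ ((∑ p ∈ S, φ p.1 p.2) / (m : ℝ) ^ 2) *
        ((1 / 3 + 32 * (m : ℝ) ^ 2 * lam) * (G + 2 * S.card * η ^ 2) / ∑ p ∈ S, φ p.1 p.2) ^
          (2 * ((m : ℝ) - 1) ^ 2 / (m : ℝ) ^ 2 * ∑ p ∈ S, φ p.1 p.2)) := by
  have hm1 : 0 < m := by omega
  have hm0 : (0 : ℝ) < m := by exact_mod_cast hm1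
  have hMb0 : 0 < Mb := by linarith
  set Φ := ∑ p ∈ S, φ p.1 p.2 with hΦd
  have hSne : 0 < (S.card : ℝ) := by
    have : S.Nonempty := by
      by_contra hn
      rw [Finset.not_nonempty_iff_eq_empty] at hn
      rw [hΦd, hn] at hΦ
      simp at hΦ
    exact_mod_cast this.card_pos
  have hW0 : 0 < (W m pt).toReal := by
    apply ENNReal.toReal_pos
    · intro h
      have h2 := W_pt_ge m
      rw [h, nonpos_iff_eq_zero, ENNReal.ofReal_eq_zero] at h2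
      have : (0 : ℝ) < (1 / 2) ^ ((m - 1) ^ 2) := by positivity
      linarith
    · exact ne_top_of_le_ne_top ENNReal.ofReal_ne_top (W_pt_le m)
  set K : ℝ := Mb ^ (2 * (S.card : ℝ) / m + (S.card - Φ)) * (W m pt).toReal ^ (Φ / (m : ℝ) ^ 2) *
    ((1 / 3 + 32 * (m : ℝ) ^ 2 * lam) * (G + 2 * S.card * η ^ 2) / Φ) ^
      (2 * ((m : ℝ) - 1) ^ 2 / (m : ℝ) ^ 2 * Φ) with hK
  have hG2 : 0 < G + 2 * S.card * η ^ 2 := by positivity
  have hK0 : 0 < K := by positivity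
  refine vol_le hm1 hr hη hmη hMb hD hDv (ENNReal.ofReal K) (by
    rw [Ne, ENNReal.ofReal_eq_zero]
    linarith) ENNReal.ofReal_ne_top ?_
  intro x hx
  set p0 : ℝ := 1 / (3 * (m : ℝ) ^ 2) with hp0
  have hp00 : 0 ≤ p0 := by positivity
  have hp1 : ∀ τ : Fin 3 × (Fin m × Fin m), (ENNReal.ofReal Mb ^
      (Finset.univ \ (Bl m S τ.1 τ.2).biUnion (fun p => IB m S p.1 τ.1 p.2)).card *
      ∏ p ∈ Bl m S τ.1 τ.2, mg m S r η τ.1 p x) ^ p0 =
      ENNReal.ofReal (Mb ^ (((Finset.univ \ (Bl m S τ.1 τ.2).biUnion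
        (fun p => IB m S p.1 τ.1 p.2)).card : ℝ) * p0)) *
      ∏ p ∈ Bl m S τ.1 τ.2, mg m S r η τ.1 p x ^ p0 := by
    intro τ
    rw [ENNReal.mul_rpow_of_nonneg _ _ hp00, ← ENNReal.prod_rpow_of_nonneg hp00]
    congr 1
    rw [← ENNReal.rpow_natCast, ← ENNReal.rpow_mul, ENNReal.ofReal_rpow_of_pos hMb0]
  rw [Finset.prod_congr rfl fun τ _ => hp1 τ, Finset.prod_mul_distrib]
  have hA : ∏ τ : Fin 3 × (Fin m × Fin m), ENNReal.ofReal (Mb ^ (((Finset.univ \ (Bl m S τ.1 τ.2).biUnion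
        (fun p => IB m S p.1 τ.1 p.2)).card : ℝ) * p0)) ≤
      ENNReal.ofReal (Mb ^ (2 * (S.card : ℝ) / m + (S.card - Φ))) := by
    rw [← ENNReal.ofReal_prod_of_nonneg (fun _ _ => Real.rpow_nonneg hMb0.le _)]
    apply ENNReal.ofReal_le_ofReal
    rw [← Real.rpow_sum_of_pos hMb0, ← Finset.sum_mul]
    exact Real.rpow_le_rpow_of_exponent_le hMb (count hm1 h1 hsupp)
  have hB : ∏ τ : Fin 3 × (Fin m × Fin m), ∏ p ∈ Bl m S τ.1 τ.2, mg m S r η τ.1 p x ^ p0 ≤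
      ENNReal.ofReal ((W m pt).toReal ^ (Φ / (m : ℝ) ^ 2) *
        ((1 / 3 + 32 * (m : ℝ) ^ 2 * lam) * (G + 2 * S.card * η ^ 2) / Φ) ^
          (2 * ((m : ℝ) - 1) ^ 2 / (m : ℝ) ^ 2 * Φ)) := by
    refine (marg_prod hm1 hr hη hmη h0 h1 hsupp x p0 hp00).trans ?_
    rw [Finset.prod_congr rfl fun (j : Fin 3) _ => prod_cells (S := S)
      (fun p => W m (bdy (dsp S r η x p.1) j p.2) ^ (φ p.1 p.2 * p0)), Finset.prod_comm]
    refine (Finset.prod_le_prod' fun c _ => cell_bd hm hr hlam hη h0 h1 hsupp hlip hx c).trans ?_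
    have hgc : ∀ c : C, 0 ≤ Gc S η x c := fun c => by
      have h2 := Gc_nonneg hx c
      have h3 : 0 ≤ 2 * η ^ 2 * ((Ic S c).card : ℝ) := by positivity
      linarith
    have hfc : ∀ c : C, 0 ≤ ∑ z ∈ Ic S c, φ c z := fun c => Finset.sum_nonneg fun z _ => h0 c z
    have hsum : ∑ c : C, ∑ z ∈ Ic S c, φ c z = Φ := (sum_cells (S := S) fun p => φ p.1 p.2).symm
    rw [← ENNReal.ofReal_prod_of_nonneg (fun c _ => mul_nonneg
      (Real.rpow_nonneg (div_nonneg (mul_nonneg (by positivity) (hgc c)) (hfc c)) _)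
      (Real.rpow_nonneg hW0.le _))]
    apply ENNReal.ofReal_le_ofReal
    rw [Finset.prod_mul_distrib, mul_comm]
    have h4 : ∏ c : C, (W m pt).toReal ^ ((∑ z ∈ Ic S c, φ c z) / (m : ℝ) ^ 2) =
        (W m pt).toReal ^ (Φ / (m : ℝ) ^ 2) := by
      rw [← Real.rpow_sum_of_pos hW0, ← Finset.sum_div, hsum]
    rw [h4]
    apply mul_le_mul_of_nonneg_left _ (Real.rpow_nonneg hW0.le _)
    have h5 := amgm (Finset.univ : Finset C) (fun c => ∑ z ∈ Ic S c, φ c z) (fun c => Gc S η x c)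
      (1 / 3 + 32 * (m : ℝ) ^ 2 * lam) (2 * ((m : ℝ) - 1) ^ 2 / (m : ℝ) ^ 2)
      (G + 2 * S.card * η ^ 2) (by positivity) (by positivity) (fun c _ => hfc c) (fun c _ => hgc c)
      (by rw [hsum]; exact hΦ) (Gc_sum hx)
    rw [hsum] at h5
    exact h5
  refine (mul_le_mul' hA hB).trans (le_of_eq ?_)
  rw [← ENNReal.ofReal_mul (by positivity), hK]
  congr 1
  ring

end Pool.Agent.J4.H83.HD

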