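import Pool.Agent.J4.H83.HD.Defs

/-!
# Piece VR of the project HD: forgetting coordinates
-/

set_option autoImplicit false

open MeasureTheory Set

namespace Pool.Agent.J4.H83.HD

open Pool.Agent.J4.H83.FV

theorem vol_restrict {N : ℕ} {σ : Type} [Fintype σ] (s : σ ↪ Fin N) (B : Set ℂ)
    (hB : MeasurableSet B) (X : Set (σ → ℂ)) (hX : MeasurableSet X) :
    volume {x : Fin N → ℂ | (∀ i, x i ∈ B) ∧ (fun p => x (s p)) ∈ X} ≤
      volume B ^ (N - Fintype.card σ) * volume X := by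
  classical
  let e : σ ⊕ {i : Fin N // ¬ i ∈ Set.range s} ≃ Fin N :=
    (Equiv.sumCongr (Equiv.ofInjective s s.injective) (Equiv.refl _)).trans
      (Equiv.sumCompl (· ∈ Set.range s))
  have he1 : ∀ a, e (Sum.inl a) = s a := fun a => rfl
  have hc : Fintype.card {i : Fin N // ¬ i ∈ Set.range s} = N - Fintype.card σ := by
    have h1 := Fintype.card_congr e
    rw [Fintype.card_sum, Fintype.card_fin] at h1
    omega
  have hmp := mp_split.comp (mp_comp e)
  set φ : (Fin N → ℂ) → (σ → ℂ) × ({i : Fin N // ¬ i ∈ Set.range s} → ℂ) :=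
    (fun x : σ ⊕ {i : Fin N // ¬ i ∈ Set.range s} → ℂ =>
      ((fun i => x (Sum.inl i)), (fun j => x (Sum.inr j)))) ∘
      (fun (x : Fin N → ℂ) (i : σ ⊕ {i : Fin N // ¬ i ∈ Set.range s}) => x (e i)) with hφ
  have hsub : {x : Fin N → ℂ | (∀ i, x i ∈ B) ∧ (fun p => x (s p)) ∈ X} ⊆
      φ ⁻¹' (X ×ˢ (Set.univ.pi fun _ => B)) := by
    rintro x ⟨h1, h2⟩
    refine ⟨?_, fun j _ => h1 _⟩
    have : (fun i => (fun (x : Fin N → ℂ) (i : σ ⊕ {i : Fin N // ¬ i ∈ Set.range s}) => x (e i)) x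
        (Sum.inl i)) = fun p => x (s p) := by
      funext p
      simp only [he1]
    simpa only [hφ, Function.comp_apply, this] using h2
  have hm : MeasurableSet (X ×ˢ (Set.univ.pi fun _ : {i : Fin N // ¬ i ∈ Set.range s} => B)) :=
    hX.prod (MeasurableSet.univ_pi fun _ => hB)
  refine (measure_mono hsub).trans (le_of_eq ?_)
  rw [hmp.measure_preimage hm.nullMeasurableSet, Measure.prod_prod, volume_pi_pi,
    Finset.prod_const, Finset.card_univ, hc, mul_comm]

end Pool.Agent.J4.H83.HD
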