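import Pool.Agent.J4.H83.HD.Cover2
import Pool.Agent.J4.H83.HD.V
import Pool.Agent.J4.H83.HD.VR

/-!
# Counting the types: an upper bound for the partition function
-/

set_option autoImplicit false

open MeasureTheory Set Filter Topology

namespace Pool.Agent.J4.H83.HD

open Pool.Agent.J4.H83.FV

lemma XS_meas {C : Type} [Fintype C] [DecidableEq C] (S : Finset (C × (ℤ × ℤ))) (r : C → ℂ)
    (D : C → Set ℂ) (hD : ∀ c, MeasurableSet (D c)) (η G : ℝ) : MeasurableSet (XS S r D η G) := by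
  have h : XS S r D η G = (⋂ p : S, (fun x : S → ℂ => x p) ⁻¹' (D p.1.1)) ∩
      ((⋂ c : C, ⋂ z : ℤ × ℤ, ⋂ k : Fin 3, ⋂ _ : (c, z) ∈ S, ⋂ _ : (c, z + dr k) ∈ S,
        ({x : S → ℂ | 1 ≤ ‖tot S x c (z + dr k) - tot S x c z‖} ∩
          {x : S → ℂ | ‖tot S x c (z + dr k) - tot S x c z - r c * om ^ (k : ℕ)‖ ≤ η})) ∩
      {x : S → ℂ | ∑ p ∈ S, ∑ k : Fin 3, (if (p.1, p.2 + dr k) ∈ S then
        ‖tot S x p.1 (p.2 + dr k) - tot S x p.1 p.2‖ - 1 else 0) ≤ G}) := by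
    ext x
    simp only [XS, mem_inter_iff, mem_iInter, mem_preimage, Set.mem_ofPred_eq]
  have ht : ∀ c z, Measurable fun x : S → ℂ => tot S x c z := by
    intro c z
    exact (Lin.tot_cont S c z).measurable
  have : Countable C := Finite.to_countable
  rw [h]
  refine (MeasurableSet.iInter fun p => (measurable_pi_apply p) (hD _)).inter
    ((MeasurableSet.iInter fun c => MeasurableSet.iInter fun z => MeasurableSet.iInter fun k =>
      MeasurableSet.iInter fun _ => MeasurableSet.iInter fun _ =>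
        (measurableSet_le measurable_const ((ht _ _).sub (ht _ _)).norm).inter
          (measurableSet_le (((ht _ _).sub (ht _ _)).sub measurable_const).norm
            measurable_const)).inter (measurableSet_le ?_ measurable_const))
  refine Finset.measurable_fun_sum _ fun p _ => Finset.measurable_fun_sum _ fun k _ => ?_
  split
  · exact ((ht _ _).sub (ht _ _)).norm.sub measurable_const
  · exact measurable_const

lemma card_Ty (K M b : ℕ) : Fintype.card (Ty K M b) = (1 + (100 * M) * ((100 * M) * b)) ^ (K ^ 2) := by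
  rw [Fintype.card_fun, Fintype.card_option, Fintype.card_prod, Fintype.card_prod,
    Fintype.card_prod, Fintype.card_fin, Fintype.card_fin, Fintype.card_fin, sq, add_comm]

lemma vol_type {N : ℕ} {σ : Type} [Fintype σ] (X : Set (σ → ℂ)) (hX : MeasurableSet X) {L V B : ℝ}
    (hL : 0 ≤ L) (hXV : volume X ≤ ENNReal.ofReal V)
    (hB : Fintype.card σ ≤ N →
      (L ^ 2) ^ (N - Fintype.card σ) / (N - Fintype.card σ).factorial * V ≤ B) :
    ∑ s : σ ↪ Fin N, volume {x : Fin N → ℂ | (∀ i, x i ∈ box 0 L) ∧ (fun p => x (s p)) ∈ X} ≤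
      ENNReal.ofReal (N.factorial * B) := by
  classical
  by_cases hc : Fintype.card σ ≤ N
  · have h1 : ∀ s : σ ↪ Fin N, volume {x : Fin N → ℂ | (∀ i, x i ∈ box 0 L) ∧
        (fun p => x (s p)) ∈ X} ≤ ENNReal.ofReal ((L ^ 2) ^ (N - Fintype.card σ) * V) := by
      intro s
      refine (vol_restrict s (box 0 L) (box_meas _ _) X hX).trans ?_
      rw [ENNReal.ofReal_mul (by positivity), vol_box hL, sub_zero, ENNReal.ofReal_pow (sq_nonneg L)]
      exact mul_le_mul' le_rfl hXV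
    refine (Finset.sum_le_sum fun s _ => h1 s).trans ?_
    rw [Finset.sum_const, Finset.card_univ, Fintype.card_embedding_eq, Fintype.card_fin,
      nsmul_eq_mul, ← ENNReal.ofReal_natCast, ← ENNReal.ofReal_mul (by positivity)]
    refine ENNReal.ofReal_le_ofReal ?_
    have h2 : ((N.descFactorial (Fintype.card σ) : ℕ) : ℝ) * (N - Fintype.card σ).factorial =
        N.factorial := by
      have := Nat.factorial_mul_descFactorial hc
      rw [mul_comm] at this
      exact_mod_cast this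
    have h3 : (0 : ℝ) < (N - Fintype.card σ).factorial := by exact_mod_cast Nat.factorial_pos _
    rw [← h2, mul_assoc]
    refine mul_le_mul_of_nonneg_left ?_ (Nat.cast_nonneg _)
    have h4 := hB hc
    rw [div_mul_eq_mul_div, div_le_iff₀ h3] at h4
    linarith
  · have : IsEmpty (σ ↪ Fin N) :=
      ⟨fun s => hc (by simpa using Fintype.card_le_of_embedding s)⟩
    simp

/-- COUNT -/
theorem count_bound : ∃ C : ℝ, 1 ≤ C ∧ ∃ τ₁ : ℝ, 0 < τ₁ ∧ ∀ (m M b : ℕ) (lam τ L : ℝ) (N : ℕ),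
    2 ≤ m → 1 ≤ M → 0 < b → 0 < lam → 0 < τ → τ ≤ τ₁ → C * (M : ℝ) ^ 2 * τ ≤ 1 → 2000 * M ≤ b →
    7 / (b : ℝ) ≤ M * τ → m * (C * M * τ) ≤ 1 / 4 → M ≤ L → 0 < N → ∀ E F B : ℝ,
      E = (L + 2 * R) ^ 2 - √3 / 2 * N →
      F = 625 * (M : ℝ) ^ 2 * (E / τ) + 48 * (L ^ 2 / M) * (8 * m + 31 + 2 / lam) → F < N → 0 ≤ B →
      (∀ (n : ℕ) (Φ : ℝ), n ≤ N → N - F ≤ Φ → Φ ≤ n → 0 < Φ →
        (L ^ 2) ^ (N - n) / (N - n).factorial *
          (((M : ℝ) ^ 2) ^ (2 * (n : ℝ) / m + (n - Φ)) *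
            (W m pt).toReal ^ (Φ / (m : ℝ) ^ 2) *
            ((1 / 3 + 32 * (m : ℝ) ^ 2 * lam) * (√3 * (1 + C * τ) * E +
              2 * n * (C * M * τ) ^ 2) / Φ) ^ (2 * ((m : ℝ) - 1) ^ 2 / (m : ℝ) ^ 2 * Φ)) ≤ B) →
      zr L N ≤ (1 + (100 * (M : ℝ)) ^ 2 * b) ^ ((⌊L / M⌋₊ + 1) ^ 2) * B := by
  classical
  obtain ⟨C, hC, τ₁, hτ₁, hcov⟩ := cover
  refine ⟨C, hC, τ₁, hτ₁, ?_⟩
  intro m M b lam τ L N hm hM hb hlam hτ hττ hCM hbM hbτ hmC hML hN E F B hE hF hFN hB0 hB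
  have hM1 : (1 : ℝ) ≤ M := by exact_mod_cast hM
  have hL : 0 ≤ L := by linarith
  rcases Set.eq_empty_or_nonempty (A N L) with hA | ⟨x₀, hx₀⟩
  · rw [zr_eq, hA]
    simp only [measure_empty, ENNReal.toReal_zero, zero_div]
    positivity
  have hE0 : 0 ≤ E := by
    obtain ⟨_, _, _, _, hst⟩ := structure_thm
    have h1 := sum_ex x₀ hL hx₀.1 hx₀.2
    rw [← hE] at h1
    refine le_trans (Finset.sum_nonneg fun i _ => (hst N x₀ hx₀.2 i).1) h1
  set K := ⌊L / M⌋₊ + 1 with hK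
  set η := C * M * τ with hη
  set G := √3 * (1 + C * τ) * E with hG
  have hη0 : 0 < η := by rw [hη]; positivity
  have hG0 : 0 ≤ G := by rw [hG]; positivity
  -- the good types
  set T : Finset (Ty K M b) := Finset.univ.filter fun t =>
    (N : ℝ) - F ≤ ∑ p ∈ SS t, ph m lam t p.1 p.2 with hT
  have hsub : A N L ⊆ ⋃ t ∈ T, ⋃ s : SS t ↪ Fin N, {x : Fin N → ℂ | (∀ i, x i ∈ box 0 L) ∧
      (fun p => x (s p)) ∈ XS (SS t) (rr t) (Dc M) η G} := by
    intro x hx
    obtain ⟨t, s, h1, h2⟩ := hcov M b m lam τ L N hM hb hlam hτ hττ hCM hbM hbτ hML hN x hx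
    rw [← hE, ← hF] at h2
    rw [← hE] at h1
    refine mem_iUnion₂.2 ⟨t, Finset.mem_filter.2 ⟨Finset.mem_univ _, h2⟩, mem_iUnion.2 ⟨s, hx.1, h1⟩⟩
  have hone : ∀ t ∈ T, ∑ s : SS t ↪ Fin N, volume {x : Fin N → ℂ | (∀ i, x i ∈ box 0 L) ∧
      (fun p => x (s p)) ∈ XS (SS t) (rr t) (Dc M) η G} ≤ ENNReal.ofReal (N.factorial * B) := by
    intro t ht
    have hΦ1 := (Finset.mem_filter.1 ht).2
    set Φ := ∑ p ∈ SS t, ph m lam t p.1 p.2 with hΦ
    have hΦ0 : 0 < Φ := by linarith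
    have hΦn : Φ ≤ (SS t).card := by
      rw [hΦ]
      refine (Finset.sum_le_sum fun p _ => ph_le_one m lam t p.1 p.2).trans ?_
      rw [Finset.sum_const, nsmul_eq_mul, mul_one]
    have hV := V_bound m hm lam η ((M : ℝ) ^ 2) G hlam.le hη0 hmC (one_le_pow₀ hM1) hG0 (SS t)
      (rr t) (norm_rr t) (Dc M) Dc_meas vol_Dc (ph m lam t) (ph_nonneg m lam t)
      (ph_le_one m lam t) (ph_supp m lam hlam t) (ph_lip m lam hlam t) hΦ0
    rw [← hΦ] at hV
    refine vol_type _ (XS_meas _ _ _ Dc_meas _ _) hL hV fun hc => ?_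
    rw [Fintype.card_coe] at hc ⊢
    exact hB (SS t).card Φ hc hΦ1 hΦn hΦ0
  have hvol : volume (A N L) ≤ ENNReal.ofReal (((1 + (100 * (M : ℝ)) ^ 2 * b) ^ (K ^ 2)) *
      (N.factorial * B)) := by
    calc volume (A N L) ≤ volume (⋃ t ∈ T, ⋃ s : SS t ↪ Fin N, {x : Fin N → ℂ |
          (∀ i, x i ∈ box 0 L) ∧ (fun p => x (s p)) ∈ XS (SS t) (rr t) (Dc M) η G}) :=
          measure_mono hsub
      _ ≤ ∑ t ∈ T, volume (⋃ s : SS t ↪ Fin N, {x : Fin N → ℂ |
          (∀ i, x i ∈ box 0 L) ∧ (fun p => x (s p)) ∈ XS (SS t) (rr t) (Dc M) η G}) :=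
          measure_biUnion_finset_le _ _
      _ ≤ ∑ t ∈ T, ENNReal.ofReal (N.factorial * B) := by
          refine Finset.sum_le_sum fun t ht => le_trans ?_ (hone t ht)
          exact measure_iUnion_fintype_le _ _
      _ ≤ ∑ t : Ty K M b, ENNReal.ofReal (N.factorial * B) :=
          Finset.sum_le_sum_of_subset (Finset.subset_univ _)
      _ = _ := by
          rw [Finset.sum_const, Finset.card_univ, card_Ty, nsmul_eq_mul, ← ENNReal.ofReal_natCast,
            ← ENNReal.ofReal_mul (Nat.cast_nonneg _)]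
          congr 1
          push_cast
          ring
  rw [zr_eq, div_le_iff₀ (by exact_mod_cast Nat.factorial_pos N)]
  refine (ENNReal.toReal_mono ENNReal.ofReal_ne_top hvol).trans ?_
  rw [ENNReal.toReal_ofReal (by positivity)]
  refine le_of_eq ?_
  ring

end Pool.Agent.J4.H83.HD
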