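import Pool.Agent.J4.H83.HD.Defs

/-!
# Six neighbours of a particle whose truncated Voronoi cell has a small excess
-/

set_option autoImplicit false

open MeasureTheory Set

namespace Pool.Agent.J4.H83.HD

open Pool.Agent.J4.H83.FV

namespace Hex

lemma form {v : ℂ} (h1 : 1 ≤ ‖v‖) (h2 : ‖v‖ < 2 * R) : ∃ φ : ℝ, 0 ≤ φ ∧ φ ≤ Real.pi / 6 ∧
    ‖v‖ = 2 * R * Real.cos φ ∧ sC v = φ / 3 ∧ aC v = (φ - Real.sin φ * Real.cos φ) / 3 := by
  have hR := R_pos
  have hpi := Real.pi_pos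
  have hv0 : 0 < ‖v‖ := by linarith
  have h2R : 0 < 2 * R := by positivity
  set φ := Real.arccos (‖v‖ / (2 * R)) with hφ
  have hcos : Real.cos φ = ‖v‖ / (2 * R) := by
    rw [hφ, Real.cos_arccos]
    · have : 0 ≤ ‖v‖ / (2 * R) := by positivity
      linarith
    · rw [div_le_one h2R]; exact h2.le
  have hφ0 : 0 ≤ φ := Real.arccos_nonneg _
  have hφpi : φ ≤ Real.pi := Real.arccos_le_pi _
  have hR3 : 1 / (2 * R) = √3 / 2 := by
    have h3 := sqrt3_sq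
    unfold R
    field_simp
    linarith
  have hφ6 : φ ≤ Real.pi / 6 := by
    by_contra hcon
    push Not at hcon
    have h5 := Real.strictAntiOn_cos (⟨by positivity, by linarith⟩ : Real.pi / 6 ∈ Icc 0 Real.pi)
      ⟨hφ0, hφpi⟩ hcon
    rw [Real.cos_pi_div_six, hcos] at h5
    have : 1 / (2 * R) ≤ ‖v‖ / (2 * R) := div_le_div_of_nonneg_right h1 h2R.le
    linarith
  have hd : ‖v‖ = 2 * R * Real.cos φ := by rw [hcos]; field_simp
  have hφ2 : φ < Real.pi / 2 := by linarith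
  obtain ⟨r1, r2⟩ := vol_rot v hv0
  refine ⟨φ, hφ0, hφ6, hd, ?_, ?_⟩
  · unfold sC
    rw [r2, vol_sec hv0 hφ0 hφ2 hd, ENNReal.toReal_ofReal (by positivity)]
  · unfold aC
    rw [r1, vol_cap hv0 hφ0 hφ2 hd]

lemma sC_le {v : ℂ} (h1 : 1 ≤ ‖v‖) : sC v ≤ Real.pi / 18 := by
  have hpi := Real.pi_pos
  rcases lt_or_ge ‖v‖ (2 * R) with h | h
  · obtain ⟨φ, -, h6, -, e, -⟩ := form h1 h
    rw [e]
    linarith
  · unfold sC
    rw [sec_big h]
    simp only [measure_empty, ENNReal.toReal_zero]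
    positivity

lemma R2 : 2 * R * (√3 / 2) = 1 := by
  have h3 := sqrt3_sq
  unfold R
  linarith

/-- the deficit of the cap -/
lemma aC_def {v : ℂ} (h1 : 1 ≤ ‖v‖) (h2 : ‖v‖ < 2 * R) :
    √3 / 6 * ((1 - 9 * (‖v‖ - 1)) * (‖v‖ - 1)) ≤ (Real.pi / 6 - √3 / 4) / 3 - aC v := by
  obtain ⟨φ, h0, h6, hd, -, e⟩ := form h1 h2
  have hR := R_pos
  have hpi := Real.pi_pos
  have h3 := sqrt3_sq
  have h3p : 0 < √3 := by positivity
  have hR1 := R_lt
  -- the length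
  have k1 : ‖v‖ - 1 ≤ R * (Real.pi / 6 - φ) := by
    have a0 : ‖v‖ - 1 = 2 * R * (Real.cos φ - Real.cos (Real.pi / 6)) := by
      rw [mul_sub, ← hd, Real.cos_pi_div_six, R2]
    have a1 : Real.cos φ - Real.cos (Real.pi / 6) ≤ 1 / 2 * (Real.pi / 6 - φ) := by
      rw [Real.cos_sub_cos]
      have b1 : Real.sin ((φ - Real.pi / 6) / 2) = -Real.sin ((Real.pi / 6 - φ) / 2) := by
        rw [← Real.sin_neg]; congr 1; ring
      rw [b1]
      have b2 : Real.sin ((Real.pi / 6 - φ) / 2) ≤ (Real.pi / 6 - φ) / 2 :=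
        Real.sin_le (by linarith)
      have b3 : 0 ≤ Real.sin ((Real.pi / 6 - φ) / 2) :=
        Real.sin_nonneg_of_nonneg_of_le_pi (by linarith) (by linarith)
      have b4 : Real.sin ((φ + Real.pi / 6) / 2) ≤ 1 / 2 := by
        rw [← Real.sin_pi_div_six]
        exact Real.sin_le_sin_of_le_of_le_pi_div_two (by linarith) (by linarith) (by linarith)
      have b5 : 0 ≤ Real.sin ((φ + Real.pi / 6) / 2) :=
        Real.sin_nonneg_of_nonneg_of_le_pi (by linarith) (by linarith)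
      nlinarith
    rw [a0]
    have := mul_le_mul_of_nonneg_left a1 (by positivity : 0 ≤ 2 * R)
    linarith
  -- the area
  have k2 : 2 * Real.sin φ ^ 2 * (Real.pi / 6 - φ) ≤
      (Real.pi / 6 - √3 / 4) - (φ - Real.sin φ * Real.cos φ) := by
    have c1 : √3 / 4 - Real.sin φ * Real.cos φ =
        Real.cos (Real.pi / 6 + φ) * Real.sin (Real.pi / 6 - φ) := by
      rw [Real.cos_add, Real.sin_sub, Real.cos_pi_div_six, Real.sin_pi_div_six]
      have hs := Real.sin_sq_add_cos_sq φ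
      linear_combination (-√3 / 4) * hs + (Real.sin φ * Real.cos φ / 4) * h3
    have c2 : Real.sin (Real.pi / 6 - φ) ≤ Real.pi / 6 - φ := Real.sin_le (by linarith)
    have c3 : 0 ≤ Real.sin (Real.pi / 6 - φ) :=
      Real.sin_nonneg_of_nonneg_of_le_pi (by linarith) (by linarith)
    have c4 : Real.cos (Real.pi / 6 + φ) ≤ Real.cos (2 * φ) :=
      Real.cos_le_cos_of_nonneg_of_le_pi (by linarith) (by linarith) (by linarith)
    have c5 : 0 ≤ Real.cos (Real.pi / 6 + φ) :=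
      Real.cos_nonneg_of_mem_Icc ⟨by linarith, by linarith⟩
    have c6 : Real.cos (2 * φ) = 1 - 2 * Real.sin φ ^ 2 := by
      rw [Real.cos_two_mul, Real.cos_sq']; ring
    have c7 : Real.cos (Real.pi / 6 + φ) * Real.sin (Real.pi / 6 - φ) ≤
        Real.cos (2 * φ) * (Real.pi / 6 - φ) :=
      mul_le_mul c4 c2 c3 (c5.trans c4)
    rw [c6] at c7
    linarith
  have k3 : Real.sin φ ^ 2 = 1 - 3 / 4 * ‖v‖ ^ 2 := by
    rw [Real.sin_sq, hd, mul_pow, mul_pow, R_sq]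
    ring
  have k4 : 1 / 4 * (1 - 9 * (‖v‖ - 1)) ≤ Real.sin φ ^ 2 := by
    rw [k3]
    nlinarith
  have k5 : 0 ≤ Real.sin φ ^ 2 := sq_nonneg _
  have k6 : √3 * R = 1 := by have := R2; linarith
  have k7 : √3 * (‖v‖ - 1) ≤ Real.pi / 6 - φ := by
    have := mul_le_mul_of_nonneg_left k1 h3p.le
    rw [← mul_assoc, k6, one_mul] at this
    exact this
  have k8 : 0 ≤ √3 * (‖v‖ - 1) := by
    have : 0 ≤ ‖v‖ - 1 := by linarith
    positivity
  rw [e]
  have k9 : 2 * Real.sin φ ^ 2 * (√3 * (‖v‖ - 1)) ≤ 2 * Real.sin φ ^ 2 * (Real.pi / 6 - φ) :=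
    mul_le_mul_of_nonneg_left k7 (by positivity)
  have k10 : 1 / 4 * (1 - 9 * (‖v‖ - 1)) * (√3 * (‖v‖ - 1)) ≤ Real.sin φ ^ 2 * (√3 * (‖v‖ - 1)) :=
    mul_le_mul_of_nonneg_right k4 k8
  linarith

lemma cosl {ε : ℝ} (h0 : 0 ≤ ε) (h1 : ε ≤ 1 / 2) : 1 / 2 + ε / 2 ≤ Real.cos (Real.pi / 3 - ε) := by
  rw [Real.cos_sub, Real.cos_pi_div_three, Real.sin_pi_div_three]
  have h2 := Real.one_sub_sq_div_two_le_cos (x := ε)
  have h3 : ε - ε ^ 3 / 4 ≤ Real.sin ε := by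
    rcases h0.eq_or_lt with h | h
    · rw [← h]; simp
    · have h10 := Real.sin_gt_sub_cube h
      have h11 : 0 ≤ ε ^ 3 := by positivity
      linarith
  have h4 : 1.732 ≤ √3 := by
    rw [show (1.732 : ℝ) = √(1.732 ^ 2) by rw [Real.sqrt_sq (by norm_num)]]
    exact Real.sqrt_le_sqrt (by norm_num)
  have h5 : 0 ≤ ε - ε ^ 3 / 4 := by nlinarith [pow_nonneg h0 2, pow_nonneg h0 3]
  have h6 : 0 ≤ Real.sin ε := h5.trans h3
  have h7 : 0.866 * (ε - ε ^ 3 / 4) ≤ √3 / 2 * Real.sin ε := by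
    calc 0.866 * (ε - ε ^ 3 / 4) ≤ 0.866 * Real.sin ε := by linarith
      _ ≤ √3 / 2 * Real.sin ε := mul_le_mul_of_nonneg_right (by linarith) h6
  have h9 : ε ^ 2 ≤ 1 / 2 * ε := by nlinarith
  have h8 : ε ^ 3 ≤ 1 / 4 * ε := by nlinarith [pow_nonneg h0 2]
  linarith

lemma inner_le {m : ℝ} (hm1 : m ≤ 1 / 2) {a b : ℂ} (ha : 1 ≤ ‖a‖) (ha' : ‖a‖ ≤ 1 + m)
    (hb : 1 ≤ ‖b‖) (hb' : ‖b‖ ≤ 1 + m) (hab : 1 ≤ ‖a - b‖) :
    a.re * b.re + a.im * b.im ≤ (1 / 2 + m) * (‖a‖ * ‖b‖) := by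
  have h1 : 1 ≤ ‖a - b‖ ^ 2 := by nlinarith
  rw [nsq, Complex.sub_re, Complex.sub_im] at h1
  have h2 := nsq a
  have h3 := nsq b
  set x := ‖a‖
  set y := ‖b‖
  have hm0 : 0 ≤ m := by linarith
  have h4 : (x - y) ^ 2 ≤ m ^ 2 := by
    apply sq_le_sq'
    · linarith
    · linarith
  have h5 : x * y ≤ (1 + m) ^ 2 := by nlinarith
  have h6 : x * y * (1 - 2 * m) ≤ (1 + m) ^ 2 * (1 - 2 * m) :=
    mul_le_mul_of_nonneg_right h5 (by linarith)
  nlinarith [pow_nonneg hm0 2, pow_nonneg hm0 3]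

lemma cos_arg_sub {a b : ℂ} (ha : a ≠ 0) (hb : b ≠ 0) :
    Real.cos (a.arg - b.arg) = (a.re * b.re + a.im * b.im) / (‖a‖ * ‖b‖) := by
  rw [Real.cos_sub, Complex.cos_arg ha, Complex.cos_arg hb, Complex.sin_arg, Complex.sin_arg]
  have h1 : ‖a‖ ≠ 0 := norm_ne_zero_iff.2 ha
  have h2 : ‖b‖ ≠ 0 := norm_ne_zero_iff.2 hb
  field_simp

lemma gap {m : ℝ} (hm1 : m ≤ 1 / 4) {a b : ℂ} (ha : 1 ≤ ‖a‖) (ha' : ‖a‖ ≤ 1 + m)
    (hb : 1 ≤ ‖b‖) (hb' : ‖b‖ ≤ 1 + m) (hab : 1 ≤ ‖a - b‖) :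
    Real.pi / 3 - 2 * m ≤ |a.arg - b.arg| := by
  have hm0 : 0 ≤ m := by linarith
  by_contra hcon
  push Not at hcon
  have ha0 : a ≠ 0 := by rintro rfl; rw [norm_zero] at ha; linarith
  have hb0 : b ≠ 0 := by rintro rfl; rw [norm_zero] at hb; linarith
  have h1 := inner_le (by linarith) ha ha' hb hb' hab
  have h2 : Real.cos (a.arg - b.arg) ≤ 1 / 2 + m := by
    rw [cos_arg_sub ha0 hb0, div_le_iff₀ (by positivity)]
    exact h1
  rw [← Real.cos_abs] at h2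
  have h3 := Real.cos_lt_cos_of_nonneg_of_le_pi (abs_nonneg (a.arg - b.arg))
    (by linarith [Real.pi_pos]) hcon
  have h4 := cosl (ε := 2 * m) (by linarith) (by linarith)
  linarith

lemma base {β c : ℝ} (hβ' : β ≤ Real.pi) (hc : c ≤ Real.cos β) {z : ℂ} (hz : z ≠ 0)
    (h : -(c * ‖z‖) ≤ z.re) : |z.arg| ≤ Real.pi - β := by
  by_contra hcon
  push Not at hcon
  have h1 := Real.cos_lt_cos_of_nonneg_of_le_pi (by linarith) (Complex.abs_arg_le_pi z) hcon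
  rw [Real.cos_abs, Complex.cos_arg hz, Real.cos_pi_sub, div_lt_iff₀ (norm_pos_iff.2 hz)] at h1
  have h2 : c * ‖z‖ ≤ Real.cos β * ‖z‖ := mul_le_mul_of_nonneg_right hc (norm_nonneg _)
  linarith

lemma sep {g : ℝ} : ∀ (n : ℕ) (S : Finset ℝ) (a b : ℝ), S.card = n + 1 →
    (∀ x ∈ S, ∀ y ∈ S, x ≠ y → g ≤ |x - y|) → (∀ x ∈ S, a ≤ x ∧ x ≤ b) → n * g ≤ b - a := by
  intro n
  induction n with
  | zero =>
    intro S a b hc _ h
    have : S.Nonempty := by rw [← Finset.card_pos]; omega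
    obtain ⟨x, hx⟩ := this
    have := h x hx
    simp only [Nat.cast_zero, zero_mul]
    linarith
  | succ n ih =>
    intro S a b hc hS h
    have hne : S.Nonempty := by rw [← Finset.card_pos]; omega
    obtain ⟨M, hM, hmax⟩ := S.exists_max_image id hne
    simp only [id] at hmax
    have h1 := ih (S.erase M) a (M - g) (by rw [Finset.card_erase_of_mem hM]; omega)
      (fun x hx y hy => hS x (Finset.mem_of_mem_erase hx) y (Finset.mem_of_mem_erase hy))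
      (fun x hx => by
        have h2 := Finset.mem_of_mem_erase hx
        have h3 := Finset.ne_of_mem_erase hx
        have h4 := hS x h2 M hM h3
        have h5 := hmax x h2
        rw [abs_of_nonpos (by linarith)] at h4
        exact ⟨(h x h2).1, by linarith⟩)
    have := (h M hM).2
    push_cast
    linarith

/-- packing of the arguments -/
lemma pack {ι : Type} (S : Finset ι) (z : ι → ℂ) {m β : ℝ} (hm1 : m ≤ 1 / 100)
    (h1 : ∀ j ∈ S, 1 ≤ ‖z j‖) (h2 : ∀ j ∈ S, ‖z j‖ ≤ 1 + m)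
    (h3 : ∀ j ∈ S, ∀ k ∈ S, j ≠ k → 1 ≤ ‖z j - z k‖) (hβ : ∀ j ∈ S, |(z j).arg| ≤ Real.pi - β)
    {n : ℕ} (hn : S.card = n + 1) :
    ∃ k ∈ S, (z k).arg ≤ Real.pi - β - n * (Real.pi / 3 - 2 * m) := by
  classical
  have hpi := Real.pi_gt_three
  have hg : 0 < Real.pi / 3 - 2 * m := by linarith
  have hgap : ∀ j ∈ S, ∀ k ∈ S, j ≠ k → Real.pi / 3 - 2 * m ≤ |(z j).arg - (z k).arg| :=
    fun j hj k hk hjk => gap (by linarith) (h1 j hj) (h2 j hj) (h1 k hk) (h2 k hk) (h3 j hj k hk hjk)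
  have hinj : Set.InjOn (fun j => (z j).arg) S := by
    intro j hj k hk hjk
    by_contra hne
    have := hgap j hj k hk hne
    simp only at hjk
    rw [hjk, sub_self, abs_zero] at this
    linarith
  have hne : S.Nonempty := by rw [← Finset.card_pos]; omega
  obtain ⟨k, hk, hmin⟩ := S.exists_min_image (fun j => (z j).arg) hne
  refine ⟨k, hk, ?_⟩
  have h4 := sep (g := Real.pi / 3 - 2 * m) n (S.image fun j => (z j).arg) (z k).arg (Real.pi - β)
    (by rw [Finset.card_image_of_injOn hinj, hn])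
    (by
      intro x hx y hy hxy
      obtain ⟨j, hj, rfl⟩ := Finset.mem_image.1 hx
      obtain ⟨l, hl, rfl⟩ := Finset.mem_image.1 hy
      exact hgap j hj l hl (fun e => hxy (by rw [e])))
    (by
      intro x hx
      obtain ⟨j, hj, rfl⟩ := Finset.mem_image.1 hx
      exact ⟨hmin j hj, (abs_le.1 (hβ j hj)).2⟩)
  linarith

lemma om1_re : ((1 : ℂ) + om).re = 1 / 2 := by
  rw [Complex.add_re, Complex.one_re]
  unfold om
  norm_num

lemma om1_im : ((1 : ℂ) + om).im = √3 / 2 := by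
  rw [Complex.add_im, Complex.one_im]
  unfold om
  simp

lemma om1_norm : ‖(1 : ℂ) + om‖ = 1 := by
  have h := nsq ((1 : ℂ) + om)
  rw [om1_re, om1_im, div_pow, div_pow, sqrt3_sq] at h
  have h1 : ‖(1 : ℂ) + om‖ ^ 2 = 1 := by rw [h]; norm_num
  have h2 := norm_nonneg ((1 : ℂ) + om)
  nlinarith

lemma om1_exp : Complex.exp (((-(2 * Real.pi / 3) : ℝ) : ℂ) * Complex.I) = -(1 + om) := by
  have e1 : Real.cos (2 * Real.pi / 3) = -(1 / 2) := by
    rw [show 2 * Real.pi / 3 = Real.pi - Real.pi / 3 by ring, Real.cos_pi_sub,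
      Real.cos_pi_div_three]
  have e2 : Real.sin (2 * Real.pi / 3) = √3 / 2 := by
    rw [show 2 * Real.pi / 3 = Real.pi - Real.pi / 3 by ring, Real.sin_pi_sub,
      Real.sin_pi_div_three]
  apply Complex.ext
  · rw [Complex.exp_ofReal_mul_I_re, Real.cos_neg, e1, Complex.neg_re, om1_re]
  · rw [Complex.exp_ofReal_mul_I_im, Real.sin_neg, e2, Complex.neg_im, om1_im]

lemma exp_sub (α β : ℝ) : ‖Complex.exp ((α : ℂ) * Complex.I) - Complex.exp ((β : ℂ) * Complex.I)‖ ≤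
    |α - β| := by
  have h1 : Complex.exp ((α : ℂ) * Complex.I) - Complex.exp ((β : ℂ) * Complex.I) =
      Complex.exp ((β : ℂ) * Complex.I) * (Complex.exp (Complex.I * ((α - β : ℝ) : ℂ)) - 1) := by
    rw [mul_sub, mul_one, ← Complex.exp_add]
    congr 2
    push_cast
    ring
  rw [h1, norm_mul, Complex.norm_exp_ofReal_mul_I, one_mul]
  exact Real.norm_exp_I_mul_ofReal_sub_one_le

/-- rotation of the direction `w` to the negative real axis -/
noncomputable def zz (w v : ℂ) : ℂ := -(v * (starRingEnd ℂ) (w / (‖w‖ : ℂ)))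

lemma unit_norm {w : ℂ} (hw : 1 ≤ ‖w‖) : ‖w / (‖w‖ : ℂ)‖ = 1 := by
  rw [norm_div, Complex.norm_real, norm_norm, div_self (by linarith)]

lemma zz_norm {w : ℂ} (hw : 1 ≤ ‖w‖) (v : ℂ) : ‖zz w v‖ = ‖v‖ := by
  unfold zz
  rw [norm_neg, norm_mul, RCLike.norm_conj, unit_norm hw, mul_one]

lemma zz_sub {w : ℂ} (hw : 1 ≤ ‖w‖) (v v' : ℂ) : ‖zz w v - zz w v'‖ = ‖v - v'‖ := by
  have : zz w v - zz w v' = zz w (v - v') := by unfold zz; ring
  rw [this, zz_norm hw]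

lemma zz_re {w : ℂ} (hw : 1 ≤ ‖w‖) (v : ℂ) : (zz w v).re = -((v.re * w.re + v.im * w.im) / ‖w‖) := by
  unfold zz
  have h0 : (‖w‖ : ℂ) ≠ 0 := by
    rw [Complex.ofReal_ne_zero]
    linarith
  have e : (starRingEnd ℂ) (w / (‖w‖ : ℂ)) = ((‖w‖⁻¹ : ℝ) : ℂ) * (starRingEnd ℂ) w := by
    rw [map_div₀, Complex.conj_ofReal, Complex.ofReal_inv]
    field_simp
  rw [e, Complex.neg_re]
  have e2 : v * (((‖w‖⁻¹ : ℝ) : ℂ) * (starRingEnd ℂ) w) = ((‖w‖⁻¹ : ℝ) : ℂ) * (v * (starRingEnd ℂ) w) := by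
    ring
  rw [e2, Complex.re_ofReal_mul, Complex.mul_re, Complex.conj_re, Complex.conj_im]
  ring

lemma zz_arg {w v : ℂ} (hw : 1 ≤ ‖w‖) (hv : 1 ≤ ‖v‖) {β c : ℝ} (hβ' : β ≤ Real.pi)
    (hc : c ≤ Real.cos β) (h : v.re * w.re + v.im * w.im ≤ c * (‖v‖ * ‖w‖)) :
    |(zz w v).arg| ≤ Real.pi - β := by
  refine base hβ' hc ?_ ?_
  · rw [← norm_ne_zero_iff, zz_norm hw]
    linarith
  · rw [zz_norm hw, zz_re hw, neg_le_neg_iff, div_le_iff₀ (by linarith)]
    linarith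

/-- six near neighbours form a hexagon -/
lemma six {ι : Type} (S : Finset ι) (v : ι → ℂ) {m : ℝ} (hm1 : m ≤ 1 / 100)
    (h1 : ∀ j ∈ S, 1 ≤ ‖v j‖) (h2 : ∀ j ∈ S, ‖v j‖ ≤ 1 + m)
    (h3 : ∀ j ∈ S, ∀ k ∈ S, j ≠ k → 1 ≤ ‖v j - v k‖) (hc : 6 ≤ S.card) :
    S.card = 6 ∧ ∀ j ∈ S, ∃ k ∈ S, ‖v k - (1 + om) * v j‖ ≤ 12 * m := by
  classical
  have hpi := Real.pi_gt_three
  have key : ∀ j ∈ S, ∀ n : ℕ, (S.erase j).card = n + 1 → ∃ k ∈ S, (zz (v j) (v k)).arg ≤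
      Real.pi - (n + 1) * (Real.pi / 3 - 2 * m) ∧
      -(Real.pi - (Real.pi / 3 - 2 * m)) ≤ (zz (v j) (v k)).arg := by
    intro j hj n hn
    have hm0 : 0 ≤ m := by linarith [h1 j hj, h2 j hj]
    have hcos := cosl (ε := 2 * m) (by linarith) (by linarith)
    have hb : ∀ k ∈ S.erase j, |(zz (v j) (v k)).arg| ≤ Real.pi - (Real.pi / 3 - 2 * m) := by
      intro k hk
      have hk1 := Finset.mem_of_mem_erase hk
      have hk2 := Finset.ne_of_mem_erase hk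
      refine zz_arg (h1 j hj) (h1 k hk1) (c := 1 / 2 + m) (by linarith) (by linarith) ?_
      exact inner_le (by linarith) (h1 k hk1) (h2 k hk1) (h1 j hj) (h2 j hj) (h3 k hk1 j hj hk2)
    obtain ⟨k, hk, h4⟩ := pack (S.erase j) (fun k => zz (v j) (v k)) (m := m)
      (β := Real.pi / 3 - 2 * m) hm1
      (fun k hk => by rw [zz_norm (h1 j hj)]; exact h1 k (Finset.mem_of_mem_erase hk))
      (fun k hk => by rw [zz_norm (h1 j hj)]; exact h2 k (Finset.mem_of_mem_erase hk))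
      (fun k hk l hl hkl => by
        rw [zz_sub (h1 j hj)]
        exact h3 k (Finset.mem_of_mem_erase hk) l (Finset.mem_of_mem_erase hl) hkl) hb hn
    refine ⟨k, Finset.mem_of_mem_erase hk, ?_, ?_⟩
    · linarith
    · exact (abs_le.1 (hb k hk)).1
  have hne : S.Nonempty := by rw [← Finset.card_pos]; omega
  obtain ⟨j₀, hj₀⟩ := hne
  have hcard : S.card = 6 := by
    by_contra hcon
    obtain ⟨n, hn⟩ : ∃ n, (S.erase j₀).card = n + 1 := by
      refine ⟨S.card - 2, ?_⟩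
      rw [Finset.card_erase_of_mem hj₀]
      omega
    obtain ⟨k, -, h4, h5⟩ := key j₀ hj₀ n hn
    have h6 : 5 ≤ n := by
      rw [Finset.card_erase_of_mem hj₀] at hn
      omega
    have h7 : (5 : ℝ) ≤ n := by exact_mod_cast h6
    have hg : 0 < Real.pi / 3 - 2 * m := by linarith
    nlinarith
  refine ⟨hcard, fun j hj => ?_⟩
  obtain ⟨k, hk, h4, h5⟩ := key j hj 4 (by rw [Finset.card_erase_of_mem hj, hcard])
  have hm0 : 0 ≤ m := by linarith [h1 j hj, h2 j hj]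
  refine ⟨k, hk, ?_⟩
  set z := zz (v j) (v k) with hz
  have h6 : |z.arg - (-(2 * Real.pi / 3))| ≤ 10 * m := by
    rw [abs_le]
    push_cast at h4
    constructor <;> linarith
  have h7 : ‖z - Complex.exp (((-(2 * Real.pi / 3) : ℝ) : ℂ) * Complex.I)‖ ≤ 11 * m := by
    have e1 : z = (‖z‖ : ℂ) * Complex.exp (z.arg * Complex.I) := (Complex.norm_mul_exp_arg_mul_I z).symm
    have e2 : z - Complex.exp (((-(2 * Real.pi / 3) : ℝ) : ℂ) * Complex.I) =
        ((‖z‖ - 1 : ℝ) : ℂ) * Complex.exp (z.arg * Complex.I) +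
        (Complex.exp (z.arg * Complex.I) -
          Complex.exp (((-(2 * Real.pi / 3) : ℝ) : ℂ) * Complex.I)) := by
      push_cast
      nth_rw 1 [e1]
      ring
    rw [e2]
    refine (norm_add_le _ _).trans ?_
    rw [norm_mul, Complex.norm_real, Complex.norm_exp_ofReal_mul_I, mul_one]
    have h8 := exp_sub z.arg (-(2 * Real.pi / 3))
    have h9 : ‖(‖z‖ - 1 : ℝ)‖ ≤ m := by
      rw [Real.norm_eq_abs, hz, zz_norm (h1 j hj), abs_of_nonneg (by linarith [h1 k hk])]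
      linarith [h2 k hk]
    linarith
  rw [om1_exp] at h7
  have h8 : v k - (1 + om) * v j =
      -(z - -(1 + om)) * (v j / (‖v j‖ : ℂ)) - (1 + om) * ((‖v j‖ - 1 : ℝ) : ℂ) * (v j / (‖v j‖ : ℂ)) := by
    have h0 : (‖v j‖ : ℂ) ≠ 0 := by
      rw [Complex.ofReal_ne_zero]
      linarith [h1 j hj]
    have hu : v j = (‖v j‖ : ℂ) * (v j / (‖v j‖ : ℂ)) := by field_simp
    have hu2 : (starRingEnd ℂ) (v j / (‖v j‖ : ℂ)) * (v j / (‖v j‖ : ℂ)) = 1 := by
      rw [mul_comm, Complex.mul_conj, Complex.normSq_eq_norm_sq, unit_norm (h1 j hj)]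
      norm_num
    set u := v j / (‖v j‖ : ℂ) with hud
    have hz2 : z * u = - v k := by
      rw [hz]
      unfold zz
      rw [← hud]
      linear_combination (-v k) * hu2
    push_cast
    nth_rw 1 [hu]
    linear_combination hz2
  rw [h8]
  refine (norm_sub_le _ _).trans ?_
  rw [norm_mul, norm_mul, norm_mul, norm_neg, unit_norm (h1 j hj), om1_norm, Complex.norm_real,
    mul_one, mul_one, one_mul, Real.norm_eq_abs, abs_of_nonneg (by linarith [h1 j hj])]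
  linarith [h2 j hj]

/-- there is no room for a seventh neighbour -/
lemma seventh {ι : Type} (S : Finset ι) (v : ι → ℂ) {m : ℝ} (hm1 : m ≤ 1 / 100)
    (h1 : ∀ j ∈ S, 1 ≤ ‖v j‖) (h2 : ∀ j ∈ S, ‖v j‖ ≤ 1 + m)
    (h3 : ∀ j ∈ S, ∀ k ∈ S, j ≠ k → 1 ≤ ‖v j - v k‖) (hc : S.card = 6) {w : ℂ} (hw : 1 ≤ ‖w‖)
    (hw2 : ‖w‖ < 2 * R) (hwv : ∀ j ∈ S, 1 ≤ ‖v j - w‖) : False := by
  have hpi := Real.pi_gt_three
  have hpi2 := Real.pi_lt_d2
  have hR := R_lt
  have hcos : (0.6 : ℝ) ≤ Real.cos 0.89 := by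
    have := Real.one_sub_sq_div_two_le_cos (x := 0.89)
    norm_num at this ⊢
    linarith
  have hb : ∀ k ∈ S, |(zz w (v k)).arg| ≤ Real.pi - 0.89 := by
    intro k hk
    refine zz_arg hw (h1 k hk) (c := 0.6) (by linarith) hcos ?_
    have a1 := h1 k hk
    have a2 := h2 k hk
    have a3 : 1 ≤ ‖v k - w‖ ^ 2 := by nlinarith [hwv k hk]
    rw [nsq, Complex.sub_re, Complex.sub_im] at a3
    have a4 := nsq (v k)
    have a5 := nsq w
    set a := ‖v k‖
    set b := ‖w‖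
    have a6 : a ^ 2 + b ^ 2 - 1 ≤ 1.2 * (a * b) := by
      nlinarith [mul_nonneg (by linarith : (0 : ℝ) ≤ a - 1) (by linarith : (0 : ℝ) ≤ b - 1)]
    linarith
  obtain ⟨k, hk, h4⟩ := pack S (fun k => zz w (v k)) (m := m) (β := 0.89) (n := 5) hm1
    (fun k hk => by rw [zz_norm hw]; exact h1 k hk)
    (fun k hk => by rw [zz_norm hw]; exact h2 k hk)
    (fun k hk l hl hkl => by rw [zz_sub hw]; exact h3 k hk l hl hkl) hb hc
  have h5 := (abs_le.1 (hb k hk)).1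
  push_cast at h4
  linarith

end Hex

open Hex

/-- the neighbours -/
noncomputable def Nbr {N : ℕ} (x : Fin N → ℂ) (i : Fin N) : Finset (Fin N) :=
  Finset.univ.filter fun j => j ≠ i ∧ ‖x j - x i‖ < 2 * R

theorem hex : ∃ C : ℝ, 1 ≤ C ∧ ∃ τ₁ : ℝ, 0 < τ₁ ∧ ∀ (N : ℕ) (x : Fin N → ℂ),
    (∀ i j, i ≠ j → 1 ≤ ‖x i - x j‖) → ∀ i, ex x i ≤ τ₁ →
      (Nbr x i).card = 6 ∧ (∀ j ∈ Nbr x i, ‖x j - x i‖ ≤ 1 + C * ex x i) ∧
      (∀ j ∈ Nbr x i, ∃ k ∈ Nbr x i, ‖(x k - x i) - (1 + om) * (x j - x i)‖ ≤ C * ex x i) ∧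
      (1 - C * ex x i) * ∑ j ∈ Nbr x i, (‖x j - x i‖ - 1) ≤ 2 * √3 * ex x i := by
  obtain ⟨C, hC, hloc⟩ := local_ineq
  have hg := gam_pos
  have hpi := Real.pi_gt_three
  refine ⟨12 * C + 1, by linarith, 1 / (100 * (1 / gam + C)), by positivity, ?_⟩
  intro N x hx i hEi
  set J : Finset (Fin N) := Finset.univ.erase i with hJ
  set v : Fin N → ℂ := fun j => x j - x i with hvd
  have hv : ∀ j ∈ J, 1 ≤ ‖v j‖ := fun j hj => hx j i (Finset.ne_of_mem_erase hj)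
  have hvv : ∀ j ∈ J, ∀ k ∈ J, j ≠ k → 1 ≤ ‖v j - v k‖ := fun j _ k _ hjk => by
    simp only [hvd]
    rw [sub_sub_sub_cancel_right]
    exact hx j k hjk
  set E := ex x i with hE
  have hEv : E = (volume (T J v)).toReal - √3 / 2 := rfl
  have hvolT := vol_T J v hv hvv
  have hE1 : E = gam * (Real.pi / 3 - ∑ j ∈ J, sC (v j)) + ∑ j ∈ J, (gam * sC (v j) - aC (v j)) := by
    rw [hEv, hvolT, Finset.sum_sub_distrib, ← Finset.mul_sum]
    have := gam_eq
    linarith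
  have hsum : 0 ≤ Real.pi / 3 - ∑ j ∈ J, sC (v j) := by
    have := sum_sC J v hv hvv ∅ (empty_subset _) (fun j _ => Set.empty_disjoint _)
    simp only [measure_empty, ENNReal.toReal_zero, zero_add] at this
    linarith
  have hterm : ∀ j ∈ J, 0 ≤ gam * sC (v j) - aC (v j) := fun j hj => (hloc (v j) (hv j hj)).1
  have hgs : 0 ≤ gam * (Real.pi / 3 - ∑ j ∈ J, sC (v j)) := mul_nonneg hg.le hsum
  have hE0 : 0 ≤ E := by
    rw [hE1]
    exact add_nonneg hgs (Finset.sum_nonneg hterm)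
  set Nr := J.filter fun j => ‖v j‖ - 1 ≤ C * (gam * sC (v j) - aC (v j)) with hNr
  have hNrJ : Nr ⊆ J := Finset.filter_subset _ _
  have hsingle : ∀ j ∈ J, gam * sC (v j) - aC (v j) ≤ E := by
    intro j hj
    have h1 := Finset.single_le_sum hterm hj
    rw [hE1]
    linarith
  have hfar : ∑ j ∈ J \ Nr, sC (v j) ≤ C * E := by
    calc ∑ j ∈ J \ Nr, sC (v j) ≤ ∑ j ∈ J \ Nr, C * (gam * sC (v j) - aC (v j)) := by
          refine Finset.sum_le_sum fun j hj => ?_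
          rw [Finset.mem_sdiff, hNr, Finset.mem_filter, not_and] at hj
          rcases (hloc (v j) (hv j hj.1)).2 with h | h
          · exact absurd h (hj.2 hj.1)
          · exact h
      _ = C * ∑ j ∈ J \ Nr, (gam * sC (v j) - aC (v j)) := by rw [Finset.mul_sum]
      _ ≤ C * ∑ j ∈ J, (gam * sC (v j) - aC (v j)) := by
          refine mul_le_mul_of_nonneg_left ?_ hC.le
          exact Finset.sum_le_sum_of_subset_of_nonneg Finset.sdiff_subset fun j hj _ => hterm j hj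
      _ ≤ C * E := by
          refine mul_le_mul_of_nonneg_left ?_ hC.le
          rw [hE1]
          linarith
  have hdef : Real.pi / 3 - ∑ j ∈ J, sC (v j) ≤ E / gam := by
    rw [le_div_iff₀ hg]
    have := Finset.sum_nonneg hterm
    rw [hE1]
    linarith
  have hKp : 0 < 1 / gam + C := by positivity
  have hKE : (1 / gam + C) * E ≤ 1 / 100 := by
    calc (1 / gam + C) * E ≤ (1 / gam + C) * (1 / (100 * (1 / gam + C))) :=
          mul_le_mul_of_nonneg_left hEi hKp.le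
      _ = 1 / 100 := by field_simp
  have hm1 : C * E ≤ 1 / 100 := by
    have : 0 ≤ 1 / gam * E := by positivity
    linarith
  have hm0 : 0 ≤ C * E := by positivity
  have hnear : Real.pi / 3 - ∑ j ∈ Nr, sC (v j) ≤ 1 / 100 := by
    have h1 : ∑ j ∈ J, sC (v j) = ∑ j ∈ J \ Nr, sC (v j) + ∑ j ∈ Nr, sC (v j) :=
      (Finset.sum_sdiff hNrJ).symm
    have h3 : (1 / gam + C) * E = E / gam + C * E := by ring
    linarith
  have h1' : ∀ j ∈ Nr, 1 ≤ ‖v j‖ := fun j hj => hv j (hNrJ hj)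
  have h2' : ∀ j ∈ Nr, ‖v j‖ ≤ 1 + C * E := fun j hj => by
    have := ((Finset.mem_filter.1 hj).2).trans
      (mul_le_mul_of_nonneg_left (hsingle j (hNrJ hj)) hC.le)
    linarith
  have h3' : ∀ j ∈ Nr, ∀ k ∈ Nr, j ≠ k → 1 ≤ ‖v j - v k‖ :=
    fun j hj k hk => hvv j (hNrJ hj) k (hNrJ hk)
  have hcard6 : 6 ≤ Nr.card := by
    by_contra hcon
    push Not at hcon
    have a1 : ∑ j ∈ Nr, sC (v j) ≤ Nr.card * (Real.pi / 18) := by
      calc ∑ j ∈ Nr, sC (v j) ≤ ∑ _j ∈ Nr, (Real.pi / 18) :=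
            Finset.sum_le_sum fun j hj => sC_le (h1' j hj)
        _ = _ := by rw [Finset.sum_const, nsmul_eq_mul]
    have a2 : (Nr.card : ℝ) ≤ 5 := by exact_mod_cast Nat.lt_succ_iff.1 hcon
    nlinarith
  obtain ⟨hcard, hrot⟩ := six Nr v hm1 h1' h2' h3' hcard6
  have hRg := R_gt
  have hNbr : Nbr x i = Nr := by
    ext j
    constructor
    · intro hj
      obtain ⟨-, hji, hjR⟩ := Finset.mem_filter.1 hj
      by_contra hjN
      have hjJ : j ∈ J := Finset.mem_erase.2 ⟨hji, Finset.mem_univ _⟩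
      refine seventh Nr v hm1 h1' h2' h3' hcard (w := v j) (hv j hjJ) hjR ?_
      intro k hk
      exact hvv k (hNrJ hk) j hjJ (fun e => hjN (by rw [← e]; exact hk))
    · intro hj
      refine Finset.mem_filter.2 ⟨Finset.mem_univ _, Finset.ne_of_mem_erase (hNrJ hj), ?_⟩
      have := h2' j hj
      simp only [hvd] at this
      linarith
  rw [hNbr]
  refine ⟨hcard, ?_, ?_, ?_⟩
  · intro j hj
    have := h2' j hj
    simp only [hvd] at this
    linarith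
  · intro j hj
    obtain ⟨k, hk, h⟩ := hrot j hj
    refine ⟨k, hk, h.trans ?_⟩
    linarith
  · -- the sum of the gaps
    have b1 : ∑ j ∈ J, aC (v j) = ∑ j ∈ Nr, aC (v j) := by
      symm
      refine Finset.sum_subset hNrJ fun j hj hjN => ?_
      have : 2 * R ≤ ‖v j‖ := by
        by_contra hcon
        push Not at hcon
        apply hjN
        rw [← hNbr]
        exact Finset.mem_filter.2 ⟨Finset.mem_univ _, Finset.ne_of_mem_erase hj, hcon⟩
      unfold aC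
      rw [cap_big this]
      simp
    have b2 : E = ∑ j ∈ Nr, ((Real.pi / 6 - √3 / 4) / 3 - aC (v j)) := by
      rw [hEv, hvolT, b1, Finset.sum_sub_distrib, Finset.sum_const, hcard, nsmul_eq_mul]
      push_cast
      ring
    have b3 : √3 / 6 * ((1 - 9 * (C * E)) * ∑ j ∈ Nr, (‖v j‖ - 1)) ≤ E := by
      have b30 : ∀ j ∈ Nr, √3 / 6 * ((1 - 9 * (C * E)) * (‖v j‖ - 1)) ≤
          (Real.pi / 6 - √3 / 4) / 3 - aC (v j) := by
        intro j hj
        have hj2 : ‖v j‖ < 2 * R := by linarith [h2' j hj]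
        refine le_trans ?_ (aC_def (h1' j hj) hj2)
        have c1 : 0 ≤ ‖v j‖ - 1 := by linarith [h1' j hj]
        refine mul_le_mul_of_nonneg_left ?_ (by positivity)
        refine mul_le_mul_of_nonneg_right ?_ c1
        linarith [h2' j hj]
      calc √3 / 6 * ((1 - 9 * (C * E)) * ∑ j ∈ Nr, (‖v j‖ - 1))
          = ∑ j ∈ Nr, √3 / 6 * ((1 - 9 * (C * E)) * (‖v j‖ - 1)) := by
            rw [Finset.mul_sum, Finset.mul_sum]
        _ ≤ ∑ j ∈ Nr, ((Real.pi / 6 - √3 / 4) / 3 - aC (v j)) := Finset.sum_le_sum b30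
        _ = E := b2.symm
    have b4 : 0 ≤ ∑ j ∈ Nr, (‖v j‖ - 1) := Finset.sum_nonneg fun j hj => by linarith [h1' j hj]
    have b5 : (1 - 9 * (C * E)) * ∑ j ∈ Nr, (‖v j‖ - 1) ≤ 2 * √3 * E := by
      have h3 := sqrt3_sq
      have h3p : 0 < √3 := by positivity
      calc (1 - 9 * (C * E)) * ∑ j ∈ Nr, (‖v j‖ - 1) =
            2 * √3 * (√3 / 6 * ((1 - 9 * (C * E)) * ∑ j ∈ Nr, (‖v j‖ - 1))) := by
            linear_combination (-(1 - 9 * (C * E)) * (∑ j ∈ Nr, (‖v j‖ - 1)) / 3) * h3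
        _ ≤ 2 * √3 * E := mul_le_mul_of_nonneg_left b3 (by positivity)
    refine le_trans ?_ b5
    refine mul_le_mul_of_nonneg_right ?_ b4
    nlinarith

end Pool.Agent.J4.H83.HD
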