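import Pool.Agent.J4.H83.HD.Defs

/-!
# Propagation of the lattice structure (from the local hexagonal structure)
-/

set_option autoImplicit false

open MeasureTheory Set

namespace Pool.Agent.J4.H83.HD.Prp

open Pool.Agent.J4.H83.HD Pool.Agent.J4.H83.FV

lemma om_sq_add : 1 + om + om ^ 2 = 0 := by
  have h3 : √3 * √3 = 3 := Real.mul_self_sqrt (by norm_num)
  apply Complex.ext
  · simp only [om, pow_two, Complex.add_re, Complex.mul_re, Complex.one_re, Complex.zero_re]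
    linarith
  · simp only [om, pow_two, Complex.add_im, Complex.mul_im, Complex.one_im, Complex.zero_im]
    ring

lemma om_norm : ‖om‖ = 1 := by
  have h3 : √3 * √3 = 3 := Real.mul_self_sqrt (by norm_num)
  have h : ‖om‖ ^ 2 = 1 := by
    rw [← Complex.normSq_eq_norm_sq, Complex.normSq_apply]
    simp only [om]
    linarith
  have h0 := norm_nonneg om
  nlinarith

/-- the six directions `e^{iπm/3}` -/
noncomputable def U6 (m : ℕ) : ℂ := (1 + om) ^ m

lemma one_add_om : (1 + om) = - om ^ 2 := by linear_combination om_sq_add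

lemma om_cube : om ^ 3 = 1 := by linear_combination (om - 1) * om_sq_add

lemma U6_add (a b : ℕ) : U6 (a + b) = U6 a * U6 b := pow_add _ _ _

lemma U6_six : U6 6 = 1 := by
  unfold U6
  rw [one_add_om]
  have : (- om ^ 2) ^ 6 = (om ^ 3) ^ 4 := by ring
  rw [this, om_cube, one_pow]

lemma U6_three : U6 3 = -1 := by
  unfold U6
  rw [one_add_om]
  have : (- om ^ 2) ^ 3 = - (om ^ 3) ^ 2 := by ring
  rw [this, om_cube, one_pow]

lemma U6_norm (m : ℕ) : ‖U6 m‖ = 1 := by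
  unfold U6
  rw [one_add_om, norm_pow, norm_neg, norm_pow, om_norm, one_pow, one_pow]

lemma U6_mul6 (a : ℕ) : U6 (6 * a) = 1 := by
  have : U6 (6 * a) = (U6 6) ^ a := by unfold U6; rw [pow_mul]
  rw [this, U6_six, one_pow]

lemma U6_mod (a : ℕ) : U6 (a % 6) = U6 a := by
  conv_rhs => rw [← Nat.mod_add_div a 6, U6_add, U6_mul6, mul_one]

lemma om_pow_eq (k : ℕ) : om ^ k = U6 (2 * k) := by
  unfold U6
  rw [one_add_om, pow_mul]
  have : (- om ^ 2) ^ 2 = om ^ 3 * om := by ring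
  rw [this, om_cube, one_mul]

lemma neg_om_pow_eq (k : ℕ) : - om ^ k = U6 (2 * k + 3) := by
  rw [U6_add, ← om_pow_eq, U6_three]; ring

/-- the statement of `hex` -/
def HexSt : Prop := ∃ C : ℝ, 1 ≤ C ∧ ∃ τ₁ : ℝ, 0 < τ₁ ∧ ∀ (N : ℕ) (x : Fin N → ℂ),
    (∀ i j, i ≠ j → 1 ≤ ‖x i - x j‖) → ∀ i, ex x i ≤ τ₁ →
      (Finset.univ.filter fun j => j ≠ i ∧ ‖x j - x i‖ < 2 * R).card = 6 ∧
      (∀ j ∈ Finset.univ.filter fun j => j ≠ i ∧ ‖x j - x i‖ < 2 * R,
        ‖x j - x i‖ ≤ 1 + C * ex x i) ∧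
      (∀ j ∈ Finset.univ.filter fun j => j ≠ i ∧ ‖x j - x i‖ < 2 * R,
        ∃ k ∈ Finset.univ.filter fun j => j ≠ i ∧ ‖x j - x i‖ < 2 * R,
        ‖(x k - x i) - (1 + om) * (x j - x i)‖ ≤ C * ex x i) ∧
      (1 - C * ex x i) * ∑ j ∈ Finset.univ.filter fun j => j ≠ i ∧ ‖x j - x i‖ < 2 * R,
        (‖x j - x i‖ - 1) ≤ 2 * √3 * ex x i

/-- from one neighbour to all six directions -/
lemma six_dirs {N : ℕ} (x : Fin N → ℂ) (i : Fin N) (E : ℝ)
    (h3 : ∀ j, j ≠ i ∧ ‖x j - x i‖ < 2 * R → ∃ k, (k ≠ i ∧ ‖x k - x i‖ < 2 * R) ∧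
      ‖(x k - x i) - (1 + om) * (x j - x i)‖ ≤ E)
    (j : Fin N) (hj : j ≠ i ∧ ‖x j - x i‖ < 2 * R) (b : ℕ) :
    ∃ k, (k ≠ i ∧ ‖x k - x i‖ < 2 * R) ∧ ‖(x k - x i) - U6 b * (x j - x i)‖ ≤ b * E := by
  induction b with
  | zero =>
    refine ⟨j, hj, ?_⟩
    simp [U6]
  | succ b ih =>
    obtain ⟨k, hk, hk2⟩ := ih
    obtain ⟨l, hl, hl2⟩ := h3 k hk
    refine ⟨l, hl, ?_⟩
    have e : (x l - x i) - U6 (b + 1) * (x j - x i) =
        ((x l - x i) - (1 + om) * (x k - x i)) + U6 1 * ((x k - x i) - U6 b * (x j - x i)) := by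
      rw [U6_add]; unfold U6; ring
    rw [e]
    refine (norm_add_le _ _).trans ?_
    rw [norm_mul, U6_norm, one_mul]
    push_cast
    linarith

lemma norm_pt_le (z : ℤ × ℤ) : ‖pt z‖ ≤ |z.1| + |z.2| := by
  unfold pt
  refine (norm_add_le _ _).trans ?_
  rw [norm_mul, om_norm, mul_one, Complex.norm_intCast, Complex.norm_intCast]
  push_cast
  exact le_rfl

lemma two_R_gt : 1.1 < 2 * R := by
  have h2 : (1.7 : ℝ) < √3 := by
    rw [show (1.7 : ℝ) = √(1.7 ^ 2) by rw [Real.sqrt_sq (by norm_num)]]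
    exact Real.sqrt_lt_sqrt (by norm_num) (by norm_num)
  unfold R
  linarith

/-- every lattice point of norm `l + 1` has a neighbour of norm `l` -/
lemma step_down (z : ℤ × ℤ) (l : ℕ) (hz : |z.1| + |z.2| = l + 1) :
    ∃ z' : ℤ × ℤ, |z'.1| + |z'.2| = l ∧ ∃ a : ℕ, pt z = pt z' + U6 a := by
  have e1 : (1 : ℂ) = U6 0 := by simp [U6]
  have e2 : (-1 : ℂ) = U6 3 := U6_three.symm
  have e3 : om = U6 2 := by rw [← pow_one om, om_pow_eq]
  have e4 : -om = U6 5 := by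
    have := neg_om_pow_eq 1
    rwa [pow_one] at this
  rcases lt_trichotomy z.1 0 with h | h | h
  · refine ⟨(z.1 + 1, z.2), ?_, 3, ?_⟩
    · simp only
      rw [abs_of_neg h] at hz
      rw [abs_of_nonpos (by omega)]
      omega
    · rw [← e2]; unfold pt; push_cast; ring
  · rcases lt_trichotomy z.2 0 with h' | h' | h'
    · refine ⟨(z.1, z.2 + 1), ?_, 5, ?_⟩
      · simp only
        rw [abs_of_neg h'] at hz
        rw [abs_of_nonpos (by omega : z.2 + 1 ≤ 0)]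
        omega
      · rw [← e4]; unfold pt; push_cast; ring
    · rw [h, h'] at hz
      simp at hz
      omega
    · refine ⟨(z.1, z.2 - 1), ?_, 2, ?_⟩
      · simp only
        rw [abs_of_pos h'] at hz
        rw [abs_of_nonneg (by omega : 0 ≤ z.2 - 1)]
        omega
      · rw [← e3]; unfold pt; push_cast; ring
  · refine ⟨(z.1 - 1, z.2), ?_, 0, ?_⟩
    · simp only
      rw [abs_of_pos h] at hz
      rw [abs_of_nonneg (by omega : 0 ≤ z.1 - 1)]
      omega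
    · rw [← e1]; unfold pt; push_cast; ring

theorem propagate_of_hex (H : HexSt) :
    ∃ C : ℝ, 1 ≤ C ∧ ∃ τ₁ : ℝ, 0 < τ₁ ∧ ∀ (N : ℕ) (x : Fin N → ℂ),
    (∀ i j, i ≠ j → 1 ≤ ‖x i - x j‖) → ∀ (o : Fin N) (n : ℕ) (τ : ℝ), 0 < τ → τ ≤ τ₁ →
      C * (n : ℝ) ^ 2 * τ ≤ 1 / 20 → (∀ i, ‖x i - x o‖ ≤ n + 2 → ex x i ≤ τ) →
      ∃ r : ℂ, ‖r‖ = 1 ∧ ∀ z : ℤ × ℤ, |z.1| + |z.2| ≤ n → ∃ i, ‖x i - x o - r * pt z‖ ≤
        C * (n : ℝ) ^ 2 * τ ∧ ∀ k : Fin 3,
        (∃ j, j ≠ i ∧ ‖x j - x i - r * om ^ (k : ℕ)‖ ≤ C * (n + 1) * τ) ∧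
        (∃ j, j ≠ i ∧ ‖x j - x i + r * om ^ (k : ℕ)‖ ≤ C * (n + 1) * τ) := by
  obtain ⟨C, hC, τ₁, hτ₁, H⟩ := H
  have hR := two_R_gt
  refine ⟨6 * C, by linarith, τ₁, hτ₁, fun N x hx o n τ hτ hτ1 hn hex => ?_⟩
  -- the hexagonal structure with `τ`
  have H3 : ∀ i, ‖x i - x o‖ ≤ n + 2 → ∀ j, j ≠ i ∧ ‖x j - x i‖ < 2 * R →
      ∃ k, (k ≠ i ∧ ‖x k - x i‖ < 2 * R) ∧
      ‖(x k - x i) - (1 + om) * (x j - x i)‖ ≤ C * τ := by
    intro i hi j hj
    obtain ⟨-, -, h3, -⟩ := H N x hx i ((hex i hi).trans hτ1)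
    obtain ⟨k, hk, hk2⟩ := h3 j (by simpa using hj)
    refine ⟨k, by simpa using hk, hk2.trans ?_⟩
    exact mul_le_mul_of_nonneg_left (hex i hi) (by linarith)
  -- the start
  have hoo : ‖x o - x o‖ ≤ n + 2 := by simp; positivity
  obtain ⟨hc6, h2, -, -⟩ := H N x hx o ((hex o hoo).trans hτ1)
  obtain ⟨j0, hj0⟩ : (Finset.univ.filter fun j => j ≠ o ∧ ‖x j - x o‖ < 2 * R).Nonempty := by
    rw [← Finset.card_pos]; omega
  have hj0n := h2 j0 hj0
  have hj0' : j0 ≠ o ∧ ‖x j0 - x o‖ < 2 * R := by simpa using hj0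
  have hj1 := hx j0 o hj0'.1
  have hexo : C * ex x o ≤ C * τ := mul_le_mul_of_nonneg_left (hex o hoo) (by linarith)
  set d0 : ℝ := ‖x j0 - x o‖ with hd0
  set r : ℂ := (x j0 - x o) / (d0 : ℂ) with hr
  have hd0pos : 0 < d0 := by linarith
  have hd0c : (d0 : ℂ) ≠ 0 := by exact_mod_cast hd0pos.ne'
  have hrn : ‖r‖ = 1 := by
    rw [hr, norm_div, Complex.norm_real, Real.norm_of_nonneg hd0pos.le, ← hd0,
      div_self hd0pos.ne']
  have hxr : x j0 - x o = (d0 : ℂ) * r := by rw [hr]; field_simp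
  have hjr : ‖x j0 - x o - r‖ ≤ C * τ := by
    have : x j0 - x o - r = ((d0 - 1 : ℝ) : ℂ) * r := by rw [hxr]; push_cast; ring
    rw [this, norm_mul, hrn, mul_one, Complex.norm_real, Real.norm_of_nonneg (by linarith)]
    linarith
  have hCτ : 0 < C * τ := by positivity
  refine ⟨r, hrn, ?_⟩
  have key : ∀ l : ℕ, l ≤ n → ∀ z : ℤ × ℤ, |z.1| + |z.2| = l →
      ∃ i, ‖x i - x o - r * pt z‖ ≤ 6 * C * (l : ℝ) ^ 2 * τ ∧ ∀ m : ℕ,
        ∃ j, j ≠ i ∧ ‖x j - x i - r * U6 m‖ ≤ 6 * C * (l + 1) * τ := by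
    intro l
    induction l with
    | zero =>
      intro _ z hz
      have hz1 : z.1 = 0 := by
        have := abs_nonneg z.2; have := abs_nonneg z.1
        exact abs_eq_zero.1 (by push_cast at hz; omega)
      have hz2 : z.2 = 0 := by
        have := abs_nonneg z.2; have := abs_nonneg z.1
        exact abs_eq_zero.1 (by push_cast at hz; omega)
      refine ⟨o, ?_, fun m => ?_⟩
      · unfold pt
        rw [hz1, hz2]
        simp
      · obtain ⟨k, hk, hk2⟩ := six_dirs x o (C * τ) (H3 o hoo) j0 hj0' (m % 6)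
        refine ⟨k, hk.1, ?_⟩
        rw [U6_mod] at hk2
        have e : x k - x o - r * U6 m = (x k - x o - U6 m * (x j0 - x o)) +
            U6 m * (x j0 - x o - r) := by ring
        rw [e]
        refine (norm_add_le _ _).trans ?_
        rw [norm_mul, U6_norm, one_mul]
        have h5 : ((m % 6 : ℕ) : ℝ) ≤ 5 := by
          have : m % 6 ≤ 5 := by omega
          exact_mod_cast this
        have : ((m % 6 : ℕ) : ℝ) * (C * τ) ≤ 5 * (C * τ) :=
          mul_le_mul_of_nonneg_right h5 hCτ.le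
        push_cast
        linarith
    | succ l ih =>
      intro hl z hz
      obtain ⟨z', hz', a, ha⟩ := step_down z l (by push_cast at hz; exact hz)
      obtain ⟨i, hi1, hi2⟩ := ih (by omega) z' hz'
      obtain ⟨j, hji, hj⟩ := hi2 a
      have hn1 : (l : ℝ) + 1 ≤ n := by exact_mod_cast hl
      have hl0 : (0 : ℝ) ≤ l := by positivity
      have hpos : ‖x j - x o - r * pt z‖ ≤ 6 * C * ((l + 1 : ℕ) : ℝ) ^ 2 * τ := by
        have e : x j - x o - r * pt z = (x i - x o - r * pt z') + (x j - x i - r * U6 a) := by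
          rw [ha]; ring
        rw [e]
        refine (norm_add_le _ _).trans ?_
        push_cast
        have : 0 ≤ 6 * (C * τ) * l := by positivity
        nlinarith
      have hsq : 6 * C * ((l + 1 : ℕ) : ℝ) ^ 2 * τ ≤ 1 / 20 := by
        refine le_trans ?_ hn
        push_cast
        have : ((l : ℝ) + 1) ^ 2 ≤ (n : ℝ) ^ 2 := pow_le_pow_left₀ (by linarith) hn1 2
        have : 6 * (C * τ) * ((l : ℝ) + 1) ^ 2 ≤ 6 * (C * τ) * (n : ℝ) ^ 2 :=
          mul_le_mul_of_nonneg_left this (by positivity)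
        linarith
      have hjo : ‖x j - x o‖ ≤ n + 2 := by
        have e : x j - x o = (x j - x o - r * pt z) + r * pt z := by ring
        rw [e]
        refine (norm_add_le _ _).trans ?_
        rw [norm_mul, hrn, one_mul]
        have h1 := norm_pt_le z
        have h2 : ((|z.1| : ℤ) : ℝ) + ((|z.2| : ℤ) : ℝ) = l + 1 := by exact_mod_cast hz
        have h3 := hpos.trans hsq
        linarith
      have hlin : 6 * C * ((l : ℝ) + 1) * τ ≤ 1 / 20 := by
        refine le_trans ?_ hsq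
        push_cast
        have : 0 ≤ 6 * (C * τ) * (((l : ℝ) + 1) * l) := by positivity
        nlinarith
      have hij : i ≠ j ∧ ‖x i - x j‖ < 2 * R := by
        refine ⟨hji.symm, ?_⟩
        have e : x i - x j = -(x j - x i - r * U6 a) - r * U6 a := by ring
        rw [e]
        refine lt_of_le_of_lt (norm_sub_le _ _) ?_
        rw [norm_neg, norm_mul, hrn, one_mul, U6_norm]
        linarith
      refine ⟨j, hpos, fun m => ?_⟩
      obtain ⟨k, hk, hk2⟩ := six_dirs x j (C * τ) (H3 j hjo) i hij ((m + 5 * (a + 3)) % 6)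
      refine ⟨k, hk.1, ?_⟩
      rw [U6_mod] at hk2
      have e6 : U6 (m + 5 * (a + 3)) * U6 (a + 3) = U6 m := by
        rw [← U6_add, show m + 5 * (a + 3) + (a + 3) = m + 6 * (a + 3) by ring, U6_add,
          U6_mul6, mul_one]
      have e3 : U6 (a + 3) = - U6 a := by rw [U6_add, U6_three]; ring
      have e : x k - x j - r * U6 m = (x k - x j - U6 (m + 5 * (a + 3)) * (x i - x j)) -
          U6 (m + 5 * (a + 3)) * (x j - x i - r * U6 a) := by
        rw [← e6, e3]; ring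
      rw [e]
      refine (norm_sub_le _ _).trans ?_
      rw [norm_mul, U6_norm, one_mul]
      have h5 : (((m + 5 * (a + 3)) % 6 : ℕ) : ℝ) ≤ 5 := by
        have : (m + 5 * (a + 3)) % 6 ≤ 5 := by omega
        exact_mod_cast this
      have : (((m + 5 * (a + 3)) % 6 : ℕ) : ℝ) * (C * τ) ≤ 5 * (C * τ) :=
        mul_le_mul_of_nonneg_right h5 hCτ.le
      push_cast
      linarith
  intro z hz
  obtain ⟨l, hl⟩ : ∃ l : ℕ, |z.1| + |z.2| = l :=
    ⟨(|z.1| + |z.2|).toNat, by rw [Int.toNat_of_nonneg (by positivity)]⟩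
  have hln : l ≤ n := by omega
  obtain ⟨i, hi1, hi2⟩ := key l hln z hl
  have hlr : (l : ℝ) ≤ n := by exact_mod_cast hln
  have hl0 : (0 : ℝ) ≤ l := by positivity
  have b1 : 6 * C * (l : ℝ) ^ 2 * τ ≤ 6 * C * (n : ℝ) ^ 2 * τ := by
    have : ((l : ℝ)) ^ 2 ≤ (n : ℝ) ^ 2 := pow_le_pow_left₀ hl0 hlr 2
    have : 6 * (C * τ) * ((l : ℝ)) ^ 2 ≤ 6 * (C * τ) * (n : ℝ) ^ 2 :=
      mul_le_mul_of_nonneg_left this (by positivity)
    linarith
  have b2 : 6 * C * ((l : ℝ) + 1) * τ ≤ 6 * C * ((n : ℝ) + 1) * τ := by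
    have : 6 * (C * τ) * ((l : ℝ) + 1) ≤ 6 * (C * τ) * ((n : ℝ) + 1) :=
      mul_le_mul_of_nonneg_left (by linarith) (by positivity)
    linarith
  refine ⟨i, hi1.trans b1, fun k => ⟨?_, ?_⟩⟩
  · obtain ⟨j, hj, hj2⟩ := hi2 (2 * (k : ℕ))
    refine ⟨j, hj, le_trans ?_ b2⟩
    rwa [← om_pow_eq] at hj2
  · obtain ⟨j, hj, hj2⟩ := hi2 (2 * (k : ℕ) + 3)
    refine ⟨j, hj, le_trans ?_ b2⟩
    rw [← neg_om_pow_eq] at hj2
    have e : x j - x i + r * om ^ (k : ℕ) = x j - x i - r * (-om ^ (k : ℕ)) := by ring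
    rwa [e]

end Pool.Agent.J4.H83.HD.Prp
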