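import Pool.Agent.J4.H83.HD.Hex
import Pool.Agent.J4.H83.HD.PropA

/-!
# Propagation of the lattice structure
-/

set_option autoImplicit false

open MeasureTheory Set

namespace Pool.Agent.J4.H83.HD

open Pool.Agent.J4.H83.FV

theorem propagate : ∃ C : ℝ, 1 ≤ C ∧ ∃ τ₁ : ℝ, 0 < τ₁ ∧ ∀ (N : ℕ) (x : Fin N → ℂ),
    (∀ i j, i ≠ j → 1 ≤ ‖x i - x j‖) → ∀ (o : Fin N) (n : ℕ) (τ : ℝ), 0 < τ → τ ≤ τ₁ →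
      C * (n : ℝ) ^ 2 * τ ≤ 1 / 20 → (∀ i, ‖x i - x o‖ ≤ n + 2 → ex x i ≤ τ) →
      ∃ r : ℂ, ‖r‖ = 1 ∧ ∀ z : ℤ × ℤ, |z.1| + |z.2| ≤ n → ∃ i, ‖x i - x o - r * pt z‖ ≤
        C * (n : ℝ) ^ 2 * τ ∧ ∀ k : Fin 3, (∃ j, j ≠ i ∧ ‖x j - x i - r * om ^ (k : ℕ)‖ ≤ C * (n + 1) * τ) ∧
        (∃ j, j ≠ i ∧ ‖x j - x i + r * om ^ (k : ℕ)‖ ≤ C * (n + 1) * τ) :=
  Prp.propagate_of_hex hex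

end Pool.Agent.J4.H83.HD
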