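import Pool.Agent.J4.H83.HD.Cell
import Pool.Agent.J4.H83.HD.Hex
import Pool.Agent.J4.H83.HD.Prop

/-!
# Every admissible configuration has a type
-/

set_option autoImplicit false

open MeasureTheory Set

namespace Pool.Agent.J4.H83.HD

open Pool.Agent.J4.H83.FV

/-- the floor cell -/
noncomputable def fc (M : ℕ) (w : ℂ) : ℕ × ℕ := (⌊w.re / M⌋₊, ⌊w.im / M⌋₊)

lemma fc_in {M : ℕ} (hM : 1 ≤ M) {w : ℂ} (h1 : 0 ≤ w.re) (h2 : 0 ≤ w.im) : InC M (fc M w) w := by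
  have hM0 : (0 : ℝ) < M := by exact_mod_cast hM
  have f1 := Nat.floor_le (show 0 ≤ w.re / M by positivity)
  have f2 := Nat.lt_floor_add_one (w.re / M)
  have f3 := Nat.floor_le (show 0 ≤ w.im / M by positivity)
  have f4 := Nat.lt_floor_add_one (w.im / M)
  rw [le_div_iff₀ hM0] at f1 f3
  rw [div_lt_iff₀ hM0] at f2 f4
  simp only [InC, fc]
  refine ⟨⟨?_, ?_⟩, ?_, ?_⟩ <;> linarith

lemma InC_dep {M : ℕ} {c : ℕ × ℕ} {w : ℂ} (h : InC M c w) : 0 ≤ dep M c w := by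
  obtain ⟨⟨h1, h2⟩, h3, h4⟩ := h
  rw [le_dep]
  refine ⟨⟨?_, ?_⟩, ?_, ?_⟩ <;> linarith

lemma fc_lt {M : ℕ} (hM : 1 ≤ M) {L : ℝ} {w : ℂ} (h : w ∈ box 0 L) :
    (fc M w).1 < ⌊L / M⌋₊ + 1 ∧ (fc M w).2 < ⌊L / M⌋₊ + 1 := by
  have hM0 : (0 : ℝ) < M := by exact_mod_cast hM
  obtain ⟨⟨h1, h2⟩, h3, h4⟩ := h
  constructor
  · exact Nat.lt_succ_of_le (Nat.floor_le_floor (div_le_div_of_nonneg_right h2 hM0.le))
  · exact Nat.lt_succ_of_le (Nat.floor_le_floor (div_le_div_of_nonneg_right h4 hM0.le))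

/-- good cells -/
def GoodC {N : ℕ} (x : Fin N → ℂ) (M : ℕ) (τ : ℝ) (c : ℕ × ℕ) : Prop :=
  ∃ o, InC M c (x o) ∧ ∀ j, ‖x j - x o‖ ≤ (4 * M : ℕ) + 2 → ex x j ≤ τ

/-- the lattice data of a good cell -/
def HasLat {N : ℕ} (x : Fin N → ℂ) {M b : ℕ} (τ η : ℝ) (c : ℕ × ℕ)
    (q : Fin (100 * M) × Fin (100 * M) × Fin b) (ψ : ℤ × ℤ → Fin N) : Prop :=
  ∀ z : ℤ × ℤ, 1 ≤ dep M c (pq M c q + rq q * pt z) →
    ‖x (ψ z) - (pq M c q + rq q * pt z)‖ ≤ 1 / 25 ∧ ex x (ψ z) ≤ τ ∧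
    ∀ k : Fin 3, 1 ≤ dep M c (pq M c q + rq q * pt (z + dr k)) →
      ‖x (ψ (z + dr k)) - x (ψ z) - rq q * om ^ (k : ℕ)‖ ≤ η

theorem good_lat : ∃ C : ℝ, 1 ≤ C ∧ ∃ τ₁ : ℝ, 0 < τ₁ ∧ ∀ (N : ℕ) (x : Fin N → ℂ),
    (∀ i j, i ≠ j → 1 ≤ ‖x i - x j‖) → ∀ (M b : ℕ) (τ : ℝ) (c : ℕ × ℕ), 1 ≤ M → 0 < τ → τ ≤ τ₁ →
      C * (M : ℝ) ^ 2 * τ ≤ 1 → 2000 * M ≤ b → 7 / (b : ℝ) ≤ M * τ → GoodC x M τ c →
      ∃ (q : Fin (100 * M) × Fin (100 * M) × Fin b) (ψ : ℤ × ℤ → Fin N),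
        HasLat x τ (C * M * τ) c q ψ := by
  obtain ⟨C, hC, τ₁, hτ₁, h⟩ := propagate
  refine ⟨1600 * C, by linarith, τ₁, hτ₁, ?_⟩
  intro N x hx M b τ c hM hτ hττ hCM hb hbτ hgood
  obtain ⟨o, ho, hgo⟩ := hgood
  have hM0 : (1 : ℝ) ≤ M := by exact_mod_cast hM
  have hMM : (M : ℝ) ≤ (M : ℝ) ^ 2 := by nlinarith
  have hCt : 0 < C * τ := by positivity
  obtain ⟨r₀, hr₀, hp⟩ := h N x hx o (4 * M) τ hτ hττ (by
    push_cast
    nlinarith) hgo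
  have h1 : C * ((4 * M : ℕ) : ℝ) ^ 2 * τ ≤ 1 / 100 := by push_cast; nlinarith
  have h2 : C * (((4 * M : ℕ) : ℝ) + 1) * τ ≤ 5 * C * M * τ := by
    push_cast
    nlinarith
  have h3 : 5 * C * M * τ ≤ 1 / 20 := by
    have : C * τ * M ≤ C * τ * (M : ℝ) ^ 2 := mul_le_mul_of_nonneg_left hMM hCt.le
    nlinarith
  have h4 : 7 / (b : ℝ) ≤ 5 * C * M * τ := by
    refine hbτ.trans ?_
    have : 0 ≤ M * τ := by positivity
    nlinarith
  obtain ⟨q, ψ, hq⟩ := cell_lattice x hx hM hb ho hr₀ h1 h3 h4 (fun z hz => by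
    obtain ⟨i, hi, hi2⟩ := hp z hz
    refine ⟨i, hi, fun k => ?_⟩
    obtain ⟨j, hj, hj2⟩ := (hi2 k).1
    exact ⟨j, hj, hj2.trans h2⟩) hgo
  refine ⟨q, ψ, fun z hz => ?_⟩
  obtain ⟨a1, a2, a3⟩ := hq z hz
  refine ⟨a1, a2, fun k hk => (a3 k hk).trans ?_⟩
  have : 0 ≤ C * M * τ := by positivity
  linarith

variable {N K M b : ℕ}

/-- the type of the configuration and its slots -/
theorem exists_type (x : Fin N → ℂ) (hx : ∀ i j, i ≠ j → 1 ≤ ‖x i - x j‖) {τ η : ℝ} (hM : 1 ≤ M)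
    (hb : 0 < b) (hN : 0 < N)
    (hlat : ∀ c : Fin K × Fin K, GoodC x M τ (cn c) → ∃ (q : Fin (100 * M) × Fin (100 * M) × Fin b)
      (ψ : ℤ × ℤ → Fin N), HasLat x τ η (cn c) q ψ) :
    ∃ (t : Ty K M b) (s : SS t ↪ Fin N), (∀ p : SS t, x (s p) ∈ Dc M p.1.1 ∧ ex x (s p) ≤ τ ∧
        ‖x (s p) - lp t p.1.1 p.1.2‖ ≤ 1 / 25) ∧
      (∀ c z, ∀ k : Fin 3, ∀ h1 : (c, z) ∈ SS t, ∀ h2 : (c, z + dr k) ∈ SS t,
        ‖x (s ⟨_, h2⟩) - x (s ⟨_, h1⟩) - rr t c * om ^ (k : ℕ)‖ ≤ η) ∧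
      (∀ i, ∀ c : Fin K × Fin K, InC M (cn c) (x i) → GoodC x M τ (cn c) →
        2 ≤ dep M (cn c) (x i) → ∃ p : SS t, s p = i) := by
  classical
  have hM0 : (0 : ℝ) < M := by exact_mod_cast hM
  have i1 : Nonempty (Fin N) := ⟨⟨0, hN⟩⟩
  have i2 : Nonempty (Fin (100 * M) × Fin (100 * M) × Fin b) :=
    ⟨(⟨0, by omega⟩, ⟨0, by omega⟩, ⟨0, hb⟩)⟩
  choose! q ψ hq using hlat
  set t : Ty K M b := fun c => if GoodC x M τ (cn c) then some (q c) else none with ht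
  have htg : ∀ c, GoodC x M τ (cn c) → t c = some (q c) := fun c hc => by rw [ht]; simp [hc]
  have htn : ∀ c, ¬ GoodC x M τ (cn c) → t c = none := fun c hc => by rw [ht]; simp [hc]
  have hgood : ∀ p ∈ SS t, GoodC x M τ (cn p.1) ∧ t p.1 = some (q p.1) := by
    intro p hp
    obtain ⟨q', hq'⟩ := isSome_of_mem hp
    by_cases hc : GoodC x M τ (cn p.1)
    · exact ⟨hc, htg _ hc⟩
    · rw [htn _ hc] at hq'
      exact absurd hq' (by simp)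
  have hdepl : ∀ p ∈ SS t, 1 ≤ dep M (cn p.1) (pq M (cn p.1) (q p.1) + rq (q p.1) * pt p.2) := by
    intro p hp
    obtain ⟨h1, h2⟩ := hgood p hp
    exact (mem_SS (q p.1) h2).1 hp
  have hlpe : ∀ p ∈ SS t, lp t p.1 p.2 = pq M (cn p.1) (q p.1) + rq (q p.1) * pt p.2 := by
    intro p hp
    exact lp_some _ (hgood p hp).2
  have hpos : ∀ p ∈ SS t, ‖x (ψ p.1 p.2) - lp t p.1 p.2‖ ≤ 1 / 25 := by
    intro p hp
    rw [hlpe p hp]
    exact (hq p.1 (hgood p hp).1 p.2 (hdepl p hp)).1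
  have hdepx : ∀ p ∈ SS t, 1 - 1 / 25 ≤ dep M (cn p.1) (x (ψ p.1 p.2)) := by
    intro p hp
    have h1 := dep_lip M (cn p.1) (x (ψ p.1 p.2)) (lp t p.1 p.2)
    have h2 := hpos p hp
    have h3 := hdepl p hp
    rw [← hlpe p hp] at h3
    linarith
  let s : SS t ↪ Fin N := ⟨fun p => ψ p.1.1 p.1.2, by
    intro p p' hpp
    simp only at hpp
    have h1 := hdepx p.1 p.2
    have h2 := hdepx p'.1 p'.2
    rw [← hpp] at h2
    have h3 : cn p.1.1 = cn p'.1.1 := dep_inj (w' := 0) hM0 (by linarith) (lt_of_lt_of_le (by norm_num) h2)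
    have h4 : p.1.1 = p'.1.1 := cn_inj h3
    have h5 := hpos p.1 p.2
    have h6 := hpos p'.1 p'.2
    rw [← hpp] at h6
    have h7 : lp t p.1.1 p.1.2 - lp t p'.1.1 p'.1.2 = rq (q p.1.1) * pt (p.1.2 - p'.1.2) := by
      rw [hlpe p.1 p.2, hlpe p'.1 p'.2, ← h4, pt_sub]; ring
    have h8 : ‖pt (p.1.2 - p'.1.2)‖ < 1 := by
      have h9 : ‖lp t p.1.1 p.1.2 - lp t p'.1.1 p'.1.2‖ ≤ 2 / 25 := by
        have e : lp t p.1.1 p.1.2 - lp t p'.1.1 p'.1.2 = (x (ψ p.1.1 p.1.2) - lp t p'.1.1 p'.1.2) -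
          (x (ψ p.1.1 p.1.2) - lp t p.1.1 p.1.2) := by ring
        rw [e]
        refine (norm_sub_le _ _).trans ?_
        linarith
      rw [h7, norm_mul, norm_rq, one_mul] at h9
      linarith
    have h10 : p.1.2 - p'.1.2 = 0 := by
      by_contra hne
      have := norm_pt_ge_one hne
      linarith
    exact Subtype.ext (Prod.ext h4 (sub_eq_zero.1 h10))⟩
  refine ⟨t, s, fun p => ⟨?_, ?_, ?_⟩, ?_, ?_⟩
  · have := hdepx p.1 p.2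
    show 0 ≤ dep M (cn p.1.1) (x (ψ p.1.1 p.1.2))
    linarith
  · exact (hq p.1.1 (hgood p.1 p.2).1 p.1.2 (hdepl p.1 p.2)).2.1
  · exact hpos p.1 p.2
  · intro c z k h1 h2
    have g1 : GoodC x M τ (cn c) := (hgood (c, z) h1).1
    have g2 : t c = some (q c) := (hgood (c, z) h1).2
    have g3 : 1 ≤ dep M (cn c) (pq M (cn c) (q c) + rq (q c) * pt z) := hdepl (c, z) h1
    have g4 : 1 ≤ dep M (cn c) (pq M (cn c) (q c) + rq (q c) * pt (z + dr k)) :=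
      hdepl (c, z + dr k) h2
    have h3 := (hq c g1 z g3).2.2 k g4
    have e : rr t c = rq (q c) := by
      unfold rr
      rw [g2]
    rw [e]
    exact h3
  · intro i c hin hg hdep
    obtain ⟨z, hz⟩ := exists_pt ((starRingEnd ℂ) (rq (q c)) * (x i - pq M (cn c) (q c)))
    have hrr : rq (q c) * (starRingEnd ℂ) (rq (q c)) = 1 := by
      rw [Complex.mul_conj, Complex.normSq_eq_norm_sq, norm_rq]; norm_num
    have h1 : ‖x i - (pq M (cn c) (q c) + rq (q c) * pt z)‖ ≤ 0.867 := by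
      have e : x i - (pq M (cn c) (q c) + rq (q c) * pt z) = rq (q c) *
          ((starRingEnd ℂ) (rq (q c)) * (x i - pq M (cn c) (q c)) - pt z) := by
        rw [mul_sub, ← mul_assoc, hrr]; ring
      rw [e, norm_mul, norm_rq, one_mul]
      exact hz
    have h2 : 1 ≤ dep M (cn c) (pq M (cn c) (q c) + rq (q c) * pt z) := by
      have := dep_lip M (cn c) (pq M (cn c) (q c) + rq (q c) * pt z) (x i)
      rw [norm_sub_rev] at this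
      linarith
    have hmem : (c, z) ∈ SS t := (mem_SS (q c) (htg c hg)).2 h2
    refine ⟨⟨_, hmem⟩, ?_⟩
    show ψ c z = i
    by_contra hne
    have h3 := hx _ _ hne
    have h4 := (hq c hg z h2).1
    have e : x (ψ c z) - x i = (x (ψ c z) - (pq M (cn c) (q c) + rq (q c) * pt z)) -
        (x i - (pq M (cn c) (q c) + rq (q c) * pt z)) := by ring
    rw [e] at h3
    have := norm_sub_le (x (ψ c z) - (pq M (cn c) (q c) + rq (q c) * pt z))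
      (x i - (pq M (cn c) (q c) + rq (q c) * pt z))
    linarith

end Pool.Agent.J4.H83.HD
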