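import Pool.Agent.J4.H83.HD.Gaps

/-!
# The covering theorem
-/

set_option autoImplicit false

open MeasureTheory Set

namespace Pool.Agent.J4.H83.HD

open Pool.Agent.J4.H83.FV

/-- the number of the particles which are near a bad particle or near the boundary of their cell -/
theorem count_lost {N : ℕ} (x : Fin N → ℂ) (hx : ∀ i j, i ≠ j → 1 ≤ ‖x i - x j‖) {L : ℝ} {M : ℕ}
    (hM : 1 ≤ M) (hML : (M : ℝ) ≤ L) (hbox : ∀ i, x i ∈ box 0 L) (hex0 : ∀ i, 0 ≤ ex x i) {τ w E : ℝ}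
    (hτ : 0 < τ) (hw : 0 ≤ w) (hE : ∑ i, ex x i ≤ E) (G : Finset (Fin N))
    (hG : ∀ i, i ∉ G → (∃ j, ‖x j - x i‖ ≤ (4 * M : ℕ) + 2 ∧ τ < ex x j) ∨
      dep M (fc M (x i)) (x i) < w) :
    (N : ℝ) - (625 * (M : ℝ) ^ 2 * (E / τ) + 48 * (L ^ 2 / M) * (2 * w + 1)) ≤ G.card := by
  classical
  have hM1 : (1 : ℝ) ≤ M := by exact_mod_cast hM
  have hM0 : (0 : ℝ) < M := by linarith
  have hL0 : 0 < L := by linarith
  set Bad := Finset.univ.filter fun j => τ < ex x j with hBad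
  set S1 : Fin N → Finset (Fin N) := fun j => Finset.univ.filter fun i => ‖x j - x i‖ ≤ (4 * M : ℕ) + 2
    with hS1
  set K := ⌊L / M⌋₊ + 1 with hK
  set S2 : (Fin K × Fin K) × Fin 4 → Finset (Fin N) := fun c => Finset.univ.filter fun i =>
    InC M (cn c.1) (x i) ∧ (![(x i).re - M * (c.1.1 : ℕ), M * ((c.1.1 : ℕ) + 1) - (x i).re,
      (x i).im - M * (c.1.2 : ℕ), M * ((c.1.2 : ℕ) + 1) - (x i).im] : Fin 4 → ℝ) c.2 < w with hS2
  have hsub : (Finset.univ : Finset (Fin N)) ⊆ G ∪ (Bad.biUnion S1 ∪ Finset.univ.biUnion S2) := by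
    intro i _
    by_cases hi : i ∈ G
    · exact Finset.mem_union_left _ hi
    · refine Finset.mem_union_right _ ?_
      rcases hG i hi with ⟨j, hj1, hj2⟩ | h
      · refine Finset.mem_union_left _ (Finset.mem_biUnion.2 ⟨j, ?_, ?_⟩)
        · rw [hBad, Finset.mem_filter]
          exact ⟨Finset.mem_univ _, hj2⟩
        · rw [hS1, Finset.mem_filter]
          exact ⟨Finset.mem_univ _, hj1⟩
      · refine Finset.mem_union_right _ (Finset.mem_biUnion.2 ?_)
        have hc := fc_lt hM (hbox i)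
        obtain ⟨⟨b1, -⟩, b2, -⟩ := hbox i
        have hin := fc_in hM b1 b2
        set c : Fin K × Fin K := (⟨(fc M (x i)).1, hc.1⟩, ⟨(fc M (x i)).2, hc.2⟩) with hcdef
        have hcn : cn c = fc M (x i) := rfl
        unfold dep at h
        rw [min_lt_iff, min_lt_iff, min_lt_iff] at h
        rcases h with (h | h) | (h | h)
        · refine ⟨(c, 0), Finset.mem_univ _, ?_⟩
          rw [hS2, Finset.mem_filter]
          exact ⟨Finset.mem_univ _, hin, by simpa using h⟩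
        · refine ⟨(c, 1), Finset.mem_univ _, ?_⟩
          rw [hS2, Finset.mem_filter]
          exact ⟨Finset.mem_univ _, hin, by simpa using h⟩
        · refine ⟨(c, 2), Finset.mem_univ _, ?_⟩
          rw [hS2, Finset.mem_filter]
          exact ⟨Finset.mem_univ _, hin, by simpa using h⟩
        · refine ⟨(c, 3), Finset.mem_univ _, ?_⟩
          rw [hS2, Finset.mem_filter]
          exact ⟨Finset.mem_univ _, hin, by simpa using h⟩
  have hcard : (N : ℝ) ≤ G.card + (∑ j ∈ Bad, ((S1 j).card : ℝ) + ∑ c, ((S2 c).card : ℝ)) := by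
    have h1 := Finset.card_le_card hsub
    rw [Finset.card_univ, Fintype.card_fin] at h1
    have h2 : N ≤ G.card + (∑ j ∈ Bad, (S1 j).card + ∑ c, (S2 c).card) :=
      h1.trans ((Finset.card_union_le _ _).trans (Nat.add_le_add_left
        ((Finset.card_union_le _ _).trans (Nat.add_le_add Finset.card_biUnion_le
          Finset.card_biUnion_le)) _))
    exact_mod_cast h2
  have h1 : ∀ j, ((S1 j).card : ℝ) ≤ 625 * (M : ℝ) ^ 2 := by
    intro j
    have h := packing x hx ((x j).re - ((4 * M : ℕ) + 2)) ((x j).im - ((4 * M : ℕ) + 2))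
      (2 * ((4 * M : ℕ) + 2)) (2 * ((4 * M : ℕ) + 2)) (by positivity) (by positivity) (S1 j) (by
      intro i hi
      rw [hS1, Finset.mem_filter] at hi
      have a1 := abs_le.1 ((Complex.abs_re_le_norm (x j - x i)).trans hi.2)
      have a2 := abs_le.1 ((Complex.abs_im_le_norm (x j - x i)).trans hi.2)
      rw [Complex.sub_re] at a1
      rw [Complex.sub_im] at a2
      refine ⟨⟨by linarith, by linarith⟩, by linarith, by linarith⟩)
    refine h.trans ?_
    push_cast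
    nlinarith
  have h2 : ∀ c, ((S2 c).card : ℝ) ≤ (2 * w + 1) * (2 * M + 1) := by
    rintro ⟨c, k⟩
    fin_cases k
    · have h := packing x hx (M * (c.1 : ℕ)) (M * (c.2 : ℕ)) w M hw hM0.le (S2 (c, 0)) (by
        intro i hi
        rw [hS2, Finset.mem_filter] at hi
        obtain ⟨-, ⟨⟨a1, a2⟩, a3, a4⟩, a5⟩ := hi
        simp only [cn, Matrix.cons_val_zero] at a1 a2 a3 a4 a5
        refine ⟨⟨by linarith, by linarith⟩, by linarith, by linarith⟩)
      exact h
    · have h := packing x hx (M * ((c.1 : ℕ) + 1) - w) (M * (c.2 : ℕ)) w M hw hM0.le (S2 (c, 1)) (by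
        intro i hi
        rw [hS2, Finset.mem_filter] at hi
        obtain ⟨-, ⟨⟨a1, a2⟩, a3, a4⟩, a5⟩ := hi
        simp only [cn, Matrix.cons_val_one, Matrix.cons_val_zero] at a1 a2 a3 a4 a5
        refine ⟨⟨by linarith, by linarith⟩, by linarith, by linarith⟩)
      exact h
    · have h := packing x hx (M * (c.1 : ℕ)) (M * (c.2 : ℕ)) M w hM0.le hw (S2 (c, 2)) (by
        intro i hi
        rw [hS2, Finset.mem_filter] at hi
        obtain ⟨-, ⟨⟨a1, a2⟩, a3, a4⟩, a5⟩ := hi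
        simp only [cn, Matrix.cons_val] at a1 a2 a3 a4 a5
        refine ⟨⟨by linarith, by linarith⟩, by linarith, by linarith⟩)
      exact h.trans (le_of_eq (mul_comm _ _))
    · have h := packing x hx (M * (c.1 : ℕ)) (M * ((c.2 : ℕ) + 1) - w) M w hM0.le hw (S2 (c, 3)) (by
        intro i hi
        rw [hS2, Finset.mem_filter] at hi
        obtain ⟨-, ⟨⟨a1, a2⟩, a3, a4⟩, a5⟩ := hi
        simp only [cn, Matrix.cons_val] at a1 a2 a3 a4 a5
        refine ⟨⟨by linarith, by linarith⟩, by linarith, by linarith⟩)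
      exact h.trans (le_of_eq (mul_comm _ _))
  have h3 : (Bad.card : ℝ) ≤ E / τ := by
    rw [le_div_iff₀ hτ]
    calc (Bad.card : ℝ) * τ = ∑ _j ∈ Bad, τ := by rw [Finset.sum_const, nsmul_eq_mul]
      _ ≤ ∑ j ∈ Bad, ex x j := Finset.sum_le_sum fun j hj => ((Finset.mem_filter.1 hj).2).le
      _ ≤ ∑ j, ex x j := Finset.sum_le_sum_of_subset_of_nonneg (Finset.subset_univ _)
          fun j _ _ => hex0 j
      _ ≤ E := hE
  have h4 : ∑ j ∈ Bad, ((S1 j).card : ℝ) ≤ 625 * (M : ℝ) ^ 2 * (E / τ) := by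
    calc ∑ j ∈ Bad, ((S1 j).card : ℝ) ≤ ∑ _j ∈ Bad, 625 * (M : ℝ) ^ 2 :=
          Finset.sum_le_sum fun j _ => h1 j
      _ = Bad.card * (625 * (M : ℝ) ^ 2) := by rw [Finset.sum_const, nsmul_eq_mul]
      _ ≤ (E / τ) * (625 * (M : ℝ) ^ 2) := mul_le_mul_of_nonneg_right h3 (by positivity)
      _ = _ := by ring
  have hK2 : (K : ℝ) ≤ 2 * L / M := by
    rw [hK]
    push_cast
    have f1 := Nat.floor_le (show 0 ≤ L / M by positivity)
    have f2 : 1 ≤ L / M := by rw [le_div_iff₀ hM0]; linarith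
    calc ((⌊L / M⌋₊ : ℕ) : ℝ) + 1 ≤ L / M + L / M := by linarith
      _ = 2 * L / M := by ring
  have h5 : ∑ c, ((S2 c).card : ℝ) ≤ 48 * (L ^ 2 / M) * (2 * w + 1) := by
    calc ∑ c, ((S2 c).card : ℝ) ≤ ∑ _c : (Fin K × Fin K) × Fin 4, (2 * w + 1) * (2 * M + 1) :=
          Finset.sum_le_sum fun c _ => h2 c
      _ = (K * K * 4 : ℝ) * ((2 * w + 1) * (2 * M + 1)) := by
          rw [Finset.sum_const, nsmul_eq_mul, Finset.card_univ]
          simp only [Fintype.card_prod, Fintype.card_fin]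
          push_cast
          ring
      _ ≤ ((2 * L / M) * (2 * L / M) * 4) * ((2 * w + 1) * (3 * M)) := by
          have hK0 : (0 : ℝ) ≤ K := Nat.cast_nonneg _
          gcongr
          linarith
      _ = _ := by field_simp; ring
  linarith

theorem cover : ∃ C : ℝ, 1 ≤ C ∧ ∃ τ₁ : ℝ, 0 < τ₁ ∧ ∀ (M b m : ℕ) (lam τ L : ℝ) (N : ℕ), 1 ≤ M →
    0 < b → 0 < lam → 0 < τ → τ ≤ τ₁ → C * (M : ℝ) ^ 2 * τ ≤ 1 → 2000 * M ≤ b →
    7 / (b : ℝ) ≤ M * τ → M ≤ L → 0 < N → ∀ x ∈ A N L,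
      ∃ (t : Ty (⌊L / M⌋₊ + 1) M b) (s : SS t ↪ Fin N),
        (fun p => x (s p)) ∈ XS (SS t) (rr t) (Dc M) (C * M * τ)
          (√3 * (1 + C * τ) * ((L + 2 * R) ^ 2 - √3 / 2 * N)) ∧
        (N : ℝ) - (625 * (M : ℝ) ^ 2 * (((L + 2 * R) ^ 2 - √3 / 2 * N) / τ) +
          48 * (L ^ 2 / M) * (8 * m + 31 + 2 / lam)) ≤ ∑ p ∈ SS t, ph m lam t p.1 p.2 := by
  obtain ⟨C₁, hC₁, τ₁, hτ₁, hlat⟩ := good_lat
  obtain ⟨C₂, hC₂, τ₂, hτ₂, hhex⟩ := hex
  obtain ⟨_, _, _, _, hst⟩ := structure_thm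
  refine ⟨20 * C₁ + 2 * C₂, by linarith, min τ₁ (min τ₂ (1 / (2 * C₂))), by positivity, ?_⟩
  intro M b m lam τ L N hM hb hlam hτ hττ hCM hbM hbτ hML hN x hxA
  classical
  obtain ⟨hbox, hx⟩ := hxA
  have hM1 : (1 : ℝ) ≤ M := by exact_mod_cast hM
  have hM0 : (0 : ℝ) < M := by linarith
  have hL0 : 0 ≤ L := by linarith
  have hττ₁ : τ ≤ τ₁ := hττ.trans (min_le_left _ _)
  have hττ₂ : τ ≤ τ₂ := hττ.trans ((min_le_right _ _).trans (min_le_left _ _))
  have hττ₃ : τ ≤ 1 / (2 * C₂) := hττ.trans ((min_le_right _ _).trans (min_le_right _ _))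
  have hC₂τ : C₂ * τ ≤ 1 / 2 := by
    rw [le_div_iff₀ (by positivity)] at hττ₃
    linarith
  have hMsq : 1 ≤ (M : ℝ) ^ 2 := by nlinarith
  have hC1M : C₁ * (M : ℝ) ^ 2 * τ ≤ 1 / 20 := by
    have h0 : 0 ≤ C₂ * (M : ℝ) ^ 2 * τ := by positivity
    nlinarith
  have hex0 : ∀ i, 0 ≤ ex x i := fun i => (hst N x hx i).1
  have hsum := sum_ex x hL0 hbox hx
  set E := (L + 2 * R) ^ 2 - √3 / 2 * N with hE
  set K := ⌊L / M⌋₊ + 1 with hK
  obtain ⟨t, s, hs1, hs2, hs3⟩ := exists_type (K := K) (M := M) (b := b) x hx (τ := τ)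
    (η := C₁ * M * τ) hM hb hN (fun c hc => hlat N x hx M b τ (cn c) hM hτ hττ₁ (by linarith) hbM hbτ hc)
  have htot : ∀ c z, ∀ h : (c, z) ∈ SS t, tot (SS t) (fun p => x (s p)) c z = x (s ⟨_, h⟩) := by
    intro c z h
    unfold tot
    rw [dif_pos h]
  have hη1 : C₁ * M * τ ≤ 1 / 20 := by
    have : C₁ * τ * M ≤ C₁ * τ * (M : ℝ) ^ 2 :=
      mul_le_mul_of_nonneg_left (by nlinarith) (by positivity)
    nlinarith
  have hηC : C₁ * M * τ ≤ (20 * C₁ + 2 * C₂) * M * τ := by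
    have h1 : 0 ≤ C₁ * M * τ := by positivity
    have h2 : 0 ≤ C₂ * M * τ := by positivity
    nlinarith
  refine ⟨t, s, ⟨fun p => (hs1 p).1, ?_, ?_⟩, ?_⟩
  · intro c z k h1 h2
    rw [htot c z h1, htot c _ h2]
    refine ⟨hx _ _ fun h => ?_, (hs2 c z k h1 h2).trans hηC⟩
    have h3 := congrArg (fun p : SS t => p.1.2) (s.injective h)
    simp only at h3
    exact dr_ne_zero k (by simpa using h3)
  · have hedge : ∀ p p' : SS t, Fw p.1 p'.1 → ‖x (s p') - x (s p)‖ ≤ 1 + C₁ * M * τ := by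
      rintro ⟨⟨c, z⟩, hp⟩ ⟨⟨c', z'⟩, hp'⟩ ⟨hF1, k, hk⟩
      simp only at hF1 hk
      subst hF1 hk
      have h1 := hs2 c' z k hp hp'
      have e : x (s ⟨(c', z + dr k), hp'⟩) - x (s ⟨(c', z), hp⟩) =
          (x (s ⟨(c', z + dr k), hp'⟩) - x (s ⟨(c', z), hp⟩) - rr t c' * om ^ (k : ℕ)) +
            rr t c' * om ^ (k : ℕ) := by ring
      rw [e]
      refine (norm_add_le _ _).trans ?_
      rw [norm_mul, norm_rr, norm_pow, norm_om_k, one_pow, one_mul]
      linarith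
    have h := gap_sum (SS t) x hx s (η := C₁ * M * τ) (by linarith [R_gt]) hedge (τ := τ) (C₂ := C₂)
      (by linarith) (by linarith) (fun p => ⟨hex0 _, (hs1 p).2.1⟩) (fun p =>
        (hhex N x hx (s p) ((hs1 p).2.1.trans hττ₂)).2.2.2)
    refine h.trans ?_
    have h3 : ∑ p : SS t, ex x (s p) ≤ E := by
      refine le_trans ?_ hsum
      rw [← Finset.sum_map Finset.univ s (fun i => ex x i)]
      exact Finset.sum_le_sum_of_subset_of_nonneg (Finset.subset_univ _) fun i _ _ => hex0 i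
    have h4 : 0 ≤ ∑ p : SS t, ex x (s p) := Finset.sum_nonneg fun p _ => hex0 _
    have h5 : √3 / (1 - C₂ * τ) ≤ √3 * (1 + (20 * C₁ + 2 * C₂) * τ) := by
      rw [div_le_iff₀ (by linarith), mul_assoc]
      refine le_mul_of_one_le_right (Real.sqrt_nonneg _) ?_
      have h6 : 0 ≤ C₁ * τ := by positivity
      have h7 : 0 ≤ C₂ * τ := by positivity
      nlinarith
    calc √3 / (1 - C₂ * τ) * ∑ p : SS t, ex x (s p)
        ≤ √3 * (1 + (20 * C₁ + 2 * C₂) * τ) * ∑ p : SS t, ex x (s p) :=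
          mul_le_mul_of_nonneg_right h5 h4
      _ ≤ _ := mul_le_mul_of_nonneg_left h3 (by positivity)
  · -- the lost particles
    set w : ℝ := 4 * m + 15 + 1 / lam with hw
    have hw0 : 0 ≤ w := by positivity
    set P : Finset (SS t) := Finset.univ.filter fun p => ph m lam t p.1.1 p.1.2 = 1 with hP
    have hcl := count_lost x hx hM hML hbox hex0 (τ := τ) (w := w) (E := E) hτ hw0 hsum (P.map s) (by
      intro i hi
      by_contra hcon
      push Not at hcon
      obtain ⟨hc1, hc2⟩ := hcon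
      have hc := fc_lt hM (hbox i)
      obtain ⟨⟨b1, -⟩, b2, -⟩ := hbox i
      have hin := fc_in hM b1 b2
      set c : Fin K × Fin K := (⟨(fc M (x i)).1, hc.1⟩, ⟨(fc M (x i)).2, hc.2⟩) with hcdef
      have hcn : cn c = fc M (x i) := rfl
      have hgood : GoodC x M τ (cn c) := ⟨i, hin, fun j hj => hc1 j hj⟩
      have hm0 : (0 : ℝ) ≤ m := Nat.cast_nonneg _
      have hl0 : 0 < 1 / lam := by positivity
      obtain ⟨p, hp⟩ := hs3 i c hin hgood (by rw [hcn]; linarith)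
      apply hi
      rw [Finset.mem_map]
      refine ⟨p, ?_, hp⟩
      rw [hP, Finset.mem_filter]
      refine ⟨Finset.mem_univ _, ?_⟩
      obtain ⟨a1, a2, a3⟩ := hs1 p
      rw [hp] at a1 a2 a3
      have hpc : p.1.1 = c := by
        apply cn_inj
        refine dep_inj (w := x i) (w' := 0) hM0 ?_ ?_
        · obtain ⟨q, hq⟩ := isSome_of_mem p.2
          have h1 : 1 ≤ dep M (cn p.1.1) (lp t p.1.1 p.1.2) := by
            rw [lp_some _ hq]
            exact (mem_SS q hq).1 p.2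
          have h2 := dep_lip M (cn p.1.1) (x i) (lp t p.1.1 p.1.2)
          linarith
        · rw [hcn]; linarith
      obtain ⟨q, hq⟩ := isSome_of_mem p.2
      unfold ph
      rw [if_pos (by rw [hq]; rfl)]
      have h2 := dep_lip M (cn c) (lp t p.1.1 p.1.2) (x i)
      rw [norm_sub_rev] at h2
      rw [hpc] at h2 ⊢
      rw [hcn] at h2 ⊢
      rw [hpc] at a3
      have h3 : 1 / lam ≤ dep M (fc M (x i)) (lp t c p.1.2) - (4 * m + 14) := by linarith
      have h4 : 1 ≤ lam * (dep M (fc M (x i)) (lp t c p.1.2) - (4 * m + 14)) := by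
        calc (1 : ℝ) = lam * (1 / lam) := by field_simp
          _ ≤ _ := mul_le_mul_of_nonneg_left h3 hlam.le
      rw [min_eq_left]
      exact h4.trans (le_max_right _ _))
    rw [Finset.card_map] at hcl
    have hPc : (P.card : ℝ) ≤ ∑ p ∈ SS t, ph m lam t p.1 p.2 := by
      rw [← Finset.sum_coe_sort (SS t)]
      calc (P.card : ℝ) = ∑ p ∈ P, ph m lam t p.1.1 p.1.2 := by
            rw [Finset.sum_congr rfl fun p hp => (Finset.mem_filter.1 hp).2, Finset.sum_const,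
              nsmul_eq_mul, mul_one]
        _ ≤ _ := Finset.sum_le_sum_of_subset_of_nonneg (Finset.subset_univ _)
            fun p _ _ => ph_nonneg _ _ _ _ _
    have e : 2 * w + 1 = 8 * m + 31 + 2 / lam := by
      rw [hw]; field_simp; ring
    rw [e] at hcl
    exact hcl.trans hPc

end Pool.Agent.J4.H83.HD
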