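import Pool.Agent.J4.H83.FV.Slope

/-!
# Sharp free volume asymptotics for hard disks: definitions

Triangular lattice `pt z = z.1 + z.2 ω`, `ω = e^{2πi/3}`; linear gaps of a displacement field; the
volume `W m b` of the polytope of the displacements of the interior points of a rhombus with `m × m`
cells, with the boundary displacements `b`.
-/

set_option autoImplicit false

open MeasureTheory Set

namespace Pool.Agent.J4.H83.HD

/-- `ω = e^{2πi/3}` -/
noncomputable def om : ℂ := ⟨-1 / 2, √3 / 2⟩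

/-- the point of the triangular lattice with the coordinates `z` -/
noncomputable def pt (z : ℤ × ℤ) : ℂ := z.1 + z.2 * om

/-- the three directions `1, ω, ω²` in coordinates -/
def dr : Fin 3 → ℤ × ℤ := ![(1, 0), (0, 1), (-1, -1)]

/-- the rotation by 120 degrees in coordinates -/
def rt (z : ℤ × ℤ) : ℤ × ℤ := (-z.2, z.1 - z.2)

/-- the linear gap of the displacement field `u` at the edge from `z` in the direction `k` -/
noncomputable def gl (u : ℤ × ℤ → ℂ) (z : ℤ × ℤ) (k : Fin 3) : ℝ :=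
  ((starRingEnd ℂ) (om ^ (k : ℕ)) * (u (z + dr k) - u z)).re

/-- the closed rhombus with side `m` -/
noncomputable def Sq (m : ℕ) : Finset (ℤ × ℤ) := Finset.Icc 0 (m : ℤ) ×ˢ Finset.Icc 0 (m : ℤ)

/-- its interior points -/
noncomputable def In (m : ℕ) : Finset (ℤ × ℤ) := Finset.Ioo 0 (m : ℤ) ×ˢ Finset.Ioo 0 (m : ℤ)

/-- boundary values `b`, interior values `w` -/
noncomputable def glue (m : ℕ) (b : ℤ × ℤ → ℂ) (w : In m → ℂ) (z : ℤ × ℤ) : ℂ :=
  if h : z ∈ In m then w ⟨z, h⟩ else b z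

/-- the polytope of the interior displacements: all linear gaps of the edges of the rhombus which
have an interior end point are nonnegative -/
def CS (m : ℕ) (b : ℤ × ℤ → ℂ) : Set (In m → ℂ) :=
  {w | ∀ z ∈ Sq m, ∀ k : Fin 3, z + dr k ∈ Sq m → (z ∈ In m ∨ z + dr k ∈ In m) →
    0 ≤ gl (glue m b w) z k}

/-- its volume -/
noncomputable def W (m : ℕ) (b : ℤ × ℤ → ℂ) : ENNReal := volume (CS m b)

/-- the configuration on the slots `S` as a function of the cell and the lattice point -/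
noncomputable def tot {C : Type} [DecidableEq C] (S : Finset (C × (ℤ × ℤ))) (x : S → ℂ) (c : C)
    (z : ℤ × ℤ) : ℂ := if h : (c, z) ∈ S then x ⟨(c, z), h⟩ else 0

/-- the nonlinear constraints on the slots of the cell `c` for the edges of the rhombus with the
corner `z₀`, rotated `j` times by 120 degrees -/
def XB {C : Type} [DecidableEq C] (m : ℕ) (S : Finset (C × (ℤ × ℤ))) (r : C → ℂ) (η : ℝ) (c : C)
    (j : ℕ) (z₀ : ℤ × ℤ) : Set (S → ℂ) :=
  {x | ∀ y ∈ Sq m, ∀ k : Fin 3, y + dr k ∈ Sq m →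
    1 ≤ ‖tot S x c (z₀ + rt^[j] (y + dr k)) - tot S x c (z₀ + rt^[j] y)‖ ∧
    ‖tot S x c (z₀ + rt^[j] (y + dr k)) - tot S x c (z₀ + rt^[j] y) -
      r c * om ^ (j + (k : ℕ))‖ ≤ η}

/-- the interior slots of this rhombus -/
noncomputable def IB {C : Type} [DecidableEq C] (m : ℕ) (S : Finset (C × (ℤ × ℤ))) (c : C)
    (j : ℕ) (z₀ : ℤ × ℤ) : Finset S :=
  Finset.univ.filter fun s => ∃ y ∈ In m, s.1 = (c, z₀ + rt^[j] y)

/-- the boundary data of a displacement field in the frame of the rhombus -/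
noncomputable def bdy (u : ℤ × ℤ → ℂ) (j : ℕ) (z₀ : ℤ × ℤ) (y : ℤ × ℤ) : ℂ :=
  (starRingEnd ℂ) om ^ j * (u (z₀ + rt^[j] y) - u z₀)

/-- the displacement field (up to a dilation by `η² / 2`) of a configuration in the cell `c` -/
noncomputable def dsp {C : Type} [DecidableEq C] (S : Finset (C × (ℤ × ℤ))) (r : C → ℂ) (η : ℝ)
    (x : S → ℂ) (c : C) (z : ℤ × ℤ) : ℂ :=
  (starRingEnd ℂ) (r c) * tot S x c z - ((1 - η ^ 2 / 2 : ℝ) : ℂ) * pt z

/-- the configurations on the slots `S` with the nonlinear constraints in all cells and with the sum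
of the gaps at most `G` -/
def XS {C : Type} [DecidableEq C] (S : Finset (C × (ℤ × ℤ))) (r : C → ℂ) (D : C → Set ℂ)
    (η G : ℝ) : Set (S → ℂ) :=
  {x | (∀ p : S, x p ∈ D p.1.1) ∧
    (∀ c z, ∀ k : Fin 3, (c, z) ∈ S → (c, z + dr k) ∈ S →
      1 ≤ ‖tot S x c (z + dr k) - tot S x c z‖ ∧
      ‖tot S x c (z + dr k) - tot S x c z - r c * om ^ (k : ℕ)‖ ≤ η) ∧
    ∑ p ∈ S, ∑ k : Fin 3, (if (p.1, p.2 + dr k) ∈ S then
      ‖tot S x p.1 (p.2 + dr k) - tot S x p.1 p.2‖ - 1 else 0) ≤ G}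

end Pool.Agent.J4.H83.HD
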