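import Pool.Agent.J4.H83.FV.Conv

/-!
# Existence of the thermodynamic limit for hard disks
-/

set_option autoImplicit false

open MeasureTheory Set Filter Topology

namespace Pool.Agent.J4.H83.HD

open Pool.Agent.J4.H83.FV

/-! ### boxes of four types -/

lemma prod_four {M : Type*} [CommMonoid M] (g : ℕ → M) (n₁ n₂ n₃ a b c d : ℕ) :
    ∏ i ∈ Finset.range (a + b + c + d), g (if i < a then n₁ else if i < a + b then n₂ else
      if i < a + b + c then n₃ else 0) = g n₁ ^ a * g n₂ ^ b * g n₃ ^ c * g 0 ^ d := by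
  rw [Finset.prod_range_add, Finset.prod_range_add, Finset.prod_range_add]
  congr 1
  · congr 1
    · congr 1
      · rw [Finset.prod_congr rfl fun i hi => by rw [if_pos (Finset.mem_range.1 hi)],
          Finset.prod_const, Finset.card_range]
      · rw [Finset.prod_congr rfl fun i hi => by
          have := Finset.mem_range.1 hi
          rw [if_neg (by omega), if_pos (by omega)], Finset.prod_const, Finset.card_range]
    · rw [Finset.prod_congr rfl fun i hi => by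
        have := Finset.mem_range.1 hi
        rw [if_neg (by omega), if_neg (by omega), if_pos (by omega)], Finset.prod_const,
        Finset.card_range]
  · rw [Finset.prod_congr rfl fun i hi => by
      rw [if_neg (by omega), if_neg (by omega), if_neg (by omega)], Finset.prod_const,
      Finset.card_range]

lemma sum_four (n₁ n₂ n₃ a b c d : ℕ) :
    ∑ i ∈ Finset.range (a + b + c + d), (if i < a then n₁ else if i < a + b then n₂ else
      if i < a + b + c then n₃ else 0) = a * n₁ + b * n₂ + c * n₃ := by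
  rw [Finset.sum_range_add, Finset.sum_range_add, Finset.sum_range_add]
  have e1 : ∑ i ∈ Finset.range a, (if i < a then n₁ else if i < a + b then n₂ else
      if i < a + b + c then n₃ else 0) = a * n₁ := by
    rw [Finset.sum_congr rfl fun i hi => if_pos (Finset.mem_range.1 hi), Finset.sum_const,
      Finset.card_range, smul_eq_mul]
  have e2 : ∑ i ∈ Finset.range b, (if a + i < a then n₁ else if a + i < a + b then n₂ else
      if a + i < a + b + c then n₃ else 0) = b * n₂ := by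
    rw [Finset.sum_congr rfl fun i hi => by
      have := Finset.mem_range.1 hi
      rw [if_neg (by omega), if_pos (by omega)], Finset.sum_const, Finset.card_range, smul_eq_mul]
  have e3 : ∑ i ∈ Finset.range c, (if a + b + i < a then n₁ else if a + b + i < a + b then n₂ else
      if a + b + i < a + b + c then n₃ else 0) = c * n₃ := by
    rw [Finset.sum_congr rfl fun i hi => by
      have := Finset.mem_range.1 hi
      rw [if_neg (by omega), if_neg (by omega), if_pos (by omega)], Finset.sum_const,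
      Finset.card_range, smul_eq_mul]
  have e4 : ∑ i ∈ Finset.range d, (if a + b + c + i < a then n₁ else
      if a + b + c + i < a + b then n₂ else if a + b + c + i < a + b + c then n₃ else 0) = 0 := by
    rw [Finset.sum_congr rfl fun i hi => by
      rw [if_neg (by omega), if_neg (by omega), if_neg (by omega)], Finset.sum_const_zero]
  rw [e1, e2, e3, e4, add_zero]

lemma zz_zero (Λ : Set ℂ) : zz Λ 0 = 1 := by
  unfold zz
  have : conf (Fin 0) Λ = univ := by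
    ext x
    simp only [conf, mem_setOf_eq, mem_univ, iff_true]
    exact ⟨fun i => i.elim0, fun i => i.elim0⟩
  rw [this, volume_pi, Measure.pi_univ]
  simp

theorem mix4 {l K : ℝ} (hl : 0 ≤ l) {m : ℕ} (hK : m * (l + 1) ≤ K) (n₁ n₂ n₃ a b c : ℕ)
    (hm : a + b + c ≤ m * m) :
    zz (box 0 l) n₁ ^ a * zz (box 0 l) n₂ ^ b * zz (box 0 l) n₃ ^ c ≤
      zz (box 0 K) (a * n₁ + b * n₂ + c * n₃) := by
  obtain ⟨d, hd⟩ := Nat.exists_eq_add_of_le hm
  have h := zz_grid hl m hK (fun k : Fin m × Fin m =>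
    (fun i => if i < a then n₁ else if i < a + b then n₂ else if i < a + b + c then n₃ else 0)
      (finProdFinEquiv k : ℕ))
  have e1 : ∏ k : Fin m × Fin m, zz (box 0 l) ((fun i => if i < a then n₁ else
      if i < a + b then n₂ else if i < a + b + c then n₃ else 0) (finProdFinEquiv k : ℕ)) =
      zz (box 0 l) n₁ ^ a * zz (box 0 l) n₂ ^ b * zz (box 0 l) n₃ ^ c := by
    rw [Equiv.prod_comp finProdFinEquiv (fun i : Fin (m * m) =>
      zz (box 0 l) ((fun i => if i < a then n₁ else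
        if i < a + b then n₂ else if i < a + b + c then n₃ else 0) (i : ℕ))),
      Fin.prod_univ_eq_prod_range (fun i => zz (box 0 l) ((fun i => if i < a then n₁ else
        if i < a + b then n₂ else if i < a + b + c then n₃ else 0) i)) (m * m), hd,
      prod_four (fun n => zz (box 0 l) n), zz_zero, one_pow, mul_one]
  have e2 : ∑ k : Fin m × Fin m, ((fun i => if i < a then n₁ else
      if i < a + b then n₂ else if i < a + b + c then n₃ else 0) (finProdFinEquiv k : ℕ)) =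
      a * n₁ + b * n₂ + c * n₃ := by
    rw [Equiv.sum_comp finProdFinEquiv (fun i : Fin (m * m) => ((fun i => if i < a then n₁ else
        if i < a + b then n₂ else if i < a + b + c then n₃ else 0) (i : ℕ))),
      Fin.sum_univ_eq_sum_range (fun i => ((fun i => if i < a then n₁ else
        if i < a + b then n₂ else if i < a + b + c then n₃ else 0) i)) (m * m), hd]
    exact sum_four n₁ n₂ n₃ a b c d
  rw [e1, e2] at h
  exact h

theorem log_mix4 {l K : ℝ} (hl : 0 ≤ l) {m : ℕ} (hK : m * (l + 1) ≤ K) (n₁ n₂ n₃ a b c : ℕ)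
    (hm : a + b + c ≤ m * m) (z1 : 0 < zr l n₁) (z2 : 0 < zr l n₂) (z3 : 0 < zr l n₃) :
    a * Real.log (zr l n₁) + b * Real.log (zr l n₂) + c * Real.log (zr l n₃) ≤
      Real.log (zr K (a * n₁ + b * n₂ + c * n₃)) := by
  have h := mix4 hl hK n₁ n₂ n₃ a b c hm
  have hKnn : 0 ≤ K := le_trans (by positivity) hK
  have hne : zz (box 0 K) (a * n₁ + b * n₂ + c * n₃) ≠ ⊤ := by
    unfold zz
    exact ENNReal.div_ne_top (A_ne_top _ hKnn) (by exact_mod_cast (Nat.factorial_ne_zero _))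
  have h7 := ENNReal.toReal_mono hne h
  rw [ENNReal.toReal_mul, ENNReal.toReal_mul, ENNReal.toReal_pow, ENNReal.toReal_pow,
    ENNReal.toReal_pow] at h7
  have h8 : zr l n₁ ^ a * zr l n₂ ^ b * zr l n₃ ^ c ≤ zr K (a * n₁ + b * n₂ + c * n₃) := h7
  have h9 := Real.log_le_log (by positivity) h8
  rwa [Real.log_mul (by positivity) (by positivity), Real.log_mul (by positivity) (by positivity),
    Real.log_pow, Real.log_pow, Real.log_pow] at h9

/-! ### the filter of the pairs of density `ρ` -/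

/-- boxes and numbers of particles with density `ρ` -/
noncomputable def FF (ρ : ℝ) : Filter (ℝ × ℕ) :=
  comap Prod.fst atTop ⊓ comap (fun x : ℝ × ℕ => (x.2 : ℝ) / x.1 ^ 2) (𝓝 ρ)

lemma tendsto_FF {α : Type*} {k : Filter α} {x : α → ℝ × ℕ} {ρ : ℝ} :
    Tendsto x k (FF ρ) ↔ Tendsto (fun i => (x i).1) k atTop ∧
      Tendsto (fun i => ((x i).2 : ℝ) / (x i).1 ^ 2) k (𝓝 ρ) := by
  unfold FF
  rw [tendsto_inf, tendsto_comap_iff, tendsto_comap_iff]
  rfl

instance (ρ : ℝ) : (FF ρ).IsCountablyGenerated := by unfold FF; infer_instance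

lemma fst_FF (ρ : ℝ) : Tendsto (fun x : ℝ × ℕ => x.1) (FF ρ) atTop := (tendsto_FF.1 tendsto_id).1

lemma dens_FF (ρ : ℝ) : Tendsto (fun x : ℝ × ℕ => (x.2 : ℝ) / x.1 ^ 2) (FF ρ) (𝓝 ρ) :=
  (tendsto_FF.1 tendsto_id).2

lemma neBot_FF {ρ : ℝ} (h0 : 0 < ρ) : (FF ρ).NeBot := by
  have h : Tendsto (fun k : ℕ => (((k : ℝ), ⌊ρ * (k : ℝ) ^ 2⌋₊) : ℝ × ℕ)) atTop (FF ρ) :=
    tendsto_FF.2 ⟨tendsto_natCast_atTop_atTop, (tendsto_nat_floor_mul_div_atTop h0.le).comp
      ((tendsto_pow_atTop two_ne_zero).comp tendsto_natCast_atTop_atTop)⟩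
  exact h.neBot

/-- the logarithm of the partition function per particle -/
noncomputable def phE (x : ℝ × ℕ) : ℝ := 1 / (x.2 : ℝ) * Real.log (zr x.1 x.2)

lemma ev_asym : ∃ C : ℝ, 0 < C ∧ ∀ ρ : ℝ, 0 < ρ → ρ < rc → ∀ᶠ x in FF ρ, 0 < x.2 ∧
    0 < zr x.1 x.2 ∧ |phE x| ≤ |Real.log ρ - 2 * Real.log (1 - ρ / rc)| + C := by
  obtain ⟨C, hC, h⟩ := asym
  refine ⟨C, hC, fun ρ h0 h1 => ?_⟩
  rw [eventually_iff_seq_eventually]
  intro x hx
  obtain ⟨hx1, hx2⟩ := tendsto_FF.1 hx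
  filter_upwards [h ρ h0 h1 (fun k => (x k).1) (fun k => (x k).2) hx1 hx2] with k hk
  refine ⟨hk.1, hk.2.1, ?_⟩
  have e : -(1 / ((x k).2 : ℝ)) * Real.log (zr (x k).1 (x k).2) = -phE (x k) := by
    unfold phE; ring
  have h3 := hk.2.2
  rw [e] at h3
  obtain ⟨a1, a2⟩ := abs_le.1 h3
  have b1 := neg_abs_le (Real.log ρ - 2 * Real.log (1 - ρ / rc))
  have b2 := le_abs_self (Real.log ρ - 2 * Real.log (1 - ρ / rc))
  exact abs_le.2 ⟨by linarith, by linarith⟩

lemma floor_lim {α : Type*} {F : Filter α} {u v : α → ℝ} {a : ℝ} (hv : Tendsto v F atTop)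
    (hu : ∀ᶠ x in F, 0 ≤ u x) (h : Tendsto (fun x => u x / v x) F (𝓝 a)) :
    Tendsto (fun x => (⌊u x⌋₊ : ℝ) / v x) F (𝓝 a) := by
  have h1 : Tendsto (fun x => u x / v x - 1 / v x) F (𝓝 (a - 0)) :=
    h.sub (hv.const_div_atTop 1)
  rw [sub_zero] at h1
  refine tendsto_of_tendsto_of_tendsto_of_le_of_le' h1 h ?_ ?_
  · filter_upwards [hv.eventually_gt_atTop 0] with x hx
    rw [← sub_div]
    exact div_le_div_of_nonneg_right (Nat.sub_one_lt_floor _).le hx.le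
  · filter_upwards [hv.eventually_gt_atTop 0, hu] with x hx hx2
    exact div_le_div_of_nonneg_right (Nat.floor_le hx2) hx.le

/-- the comparison of two boxes of the same density -/
theorem key_exist {ρ : ℝ} (h0 : 0 < ρ) (h1 : ρ < rc) {ε : ℝ} (hε : 0 < ε) :
    ∀ᶠ x in FF ρ, ∀ᶠ X in FF ρ, phE x - ε < phE X := by
  obtain ⟨C, hC, has⟩ := ev_asym
  set ρ₂ := (ρ + rc) / 2 with hρ₂
  have h20 : 0 < ρ₂ := by rw [hρ₂]; linarith
  have h21 : ρ₂ < rc := by rw [hρ₂]; linarith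
  have hρρ : ρ < ρ₂ := by rw [hρ₂]; linarith
  set c₁ := |Real.log ρ - 2 * Real.log (1 - ρ / rc)| + C with hc₁
  set c₂ := |Real.log ρ₂ - 2 * Real.log (1 - ρ₂ / rc)| + C with hc₂
  have hc₁p : 0 < c₁ := by rw [hc₁]; positivity
  have hc₂p : 0 < c₂ := by rw [hc₂]; positivity
  set β := min (ρ / (2 * ρ₂)) (ε * ρ / (2 * ρ₂ * (c₁ + c₂))) with hβ
  have hβ0 : 0 < β := by rw [hβ]; positivity
  have hβ1 : β * ρ₂ < ρ := by
    have : β ≤ ρ / (2 * ρ₂) := min_le_left _ _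
    calc β * ρ₂ ≤ ρ / (2 * ρ₂) * ρ₂ := mul_le_mul_of_nonneg_right this h20.le
      _ = ρ / 2 := by field_simp
      _ < ρ := by linarith
  have hβ2 : β * ρ₂ / ρ * (c₁ + c₂) < ε := by
    have : β ≤ ε * ρ / (2 * ρ₂ * (c₁ + c₂)) := min_le_right _ _
    calc β * ρ₂ / ρ * (c₁ + c₂) ≤ ε * ρ / (2 * ρ₂ * (c₁ + c₂)) * ρ₂ / ρ * (c₁ + c₂) := by gcongr
      _ = ε / 2 := by field_simp
      _ < ε := by linarith
  have hF2 : Tendsto (fun x : ℝ × ℕ => ((x.1, ⌊ρ₂ * x.1 ^ 2⌋₊) : ℝ × ℕ)) (FF ρ) (FF ρ₂) :=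
    tendsto_FF.2 ⟨fst_FF ρ, (tendsto_nat_floor_mul_div_atTop h20.le).comp
      ((tendsto_pow_atTop two_ne_zero).comp (fst_FF ρ))⟩
  have hsq : Tendsto (fun x : ℝ × ℕ => x.1 ^ 2) (FF ρ) atTop :=
    (tendsto_pow_atTop two_ne_zero).comp (fst_FF ρ)
  have hF1 : Tendsto (fun x : ℝ × ℕ => ((x.1, x.2 + 1) : ℝ × ℕ)) (FF ρ) (FF ρ) := by
    refine tendsto_FF.2 ⟨fst_FF ρ, ?_⟩
    have h2 := (dens_FF ρ).add (hsq.const_div_atTop 1)
    rw [add_zero] at h2
    refine h2.congr fun x => ?_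
    push_cast
    rw [add_div]
  have A1 := has ρ h0 h1
  have A2 := hF2.eventually (has ρ₂ h20 h21)
  have A3 := hF1.eventually (has ρ h0 h1)
  have A5 := (fst_FF ρ).eventually_ge_atTop 1
  have A4 : ∀ᶠ x in FF ρ, ρ * (x.1 + 1) ^ 2 - x.2 < β * ((⌊ρ₂ * x.1 ^ 2⌋₊ : ℝ) - x.2) := by
    have e1 : Tendsto (fun x : ℝ × ℕ => ρ * (1 + 1 / x.1) ^ 2 - (x.2 : ℝ) / x.1 ^ 2) (FF ρ)
        (𝓝 (ρ * (1 + 0) ^ 2 - ρ)) :=
      (((tendsto_const_nhds.add ((fst_FF ρ).const_div_atTop 1)).pow 2).const_mul ρ).sub (dens_FF ρ)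
    have e2 : Tendsto (fun x : ℝ × ℕ => β * ((⌊ρ₂ * x.1 ^ 2⌋₊ : ℝ) / x.1 ^ 2 - x.2 / x.1 ^ 2))
        (FF ρ) (𝓝 (β * (ρ₂ - ρ))) :=
      (((tendsto_nat_floor_mul_div_atTop h20.le).comp hsq).sub (dens_FF ρ)).const_mul β
    have e3 : ρ * (1 + 0) ^ 2 - ρ < β * (ρ₂ - ρ) := by
      have : 0 < β * (ρ₂ - ρ) := mul_pos hβ0 (by linarith)
      simpa using this
    filter_upwards [e1.eventually_lt e2 e3, A5] with x hx hx1
    have hx0 : 0 < x.1 := by linarith
    have hx2 : 0 < x.1 ^ 2 := by positivity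
    have := mul_lt_mul_of_pos_right hx hx2
    have e4 : (ρ * (1 + 1 / x.1) ^ 2 - (x.2 : ℝ) / x.1 ^ 2) * x.1 ^ 2 =
        ρ * (x.1 + 1) ^ 2 - x.2 := by field_simp
    have e5 : β * ((⌊ρ₂ * x.1 ^ 2⌋₊ : ℝ) / x.1 ^ 2 - x.2 / x.1 ^ 2) * x.1 ^ 2 =
        β * ((⌊ρ₂ * x.1 ^ 2⌋₊ : ℝ) - x.2) := by field_simp
    rwa [e4, e5] at this
  filter_upwards [A1, A2, A3, A4, A5] with x a1 a2 a3 a4 a5
  obtain ⟨l, n⟩ := x
  simp only at a1 a2 a3 a4 a5
  obtain ⟨n₂, hn₂⟩ : ∃ n₂ : ℕ, n₂ = ⌊ρ₂ * l ^ 2⌋₊ := ⟨_, rfl⟩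
  rw [← hn₂] at a2 a4
  obtain ⟨hn, hz, hph⟩ := a1
  obtain ⟨hn2, hz2, hph2⟩ := a2
  obtain ⟨-, hz3, -⟩ := a3
  have hl0 : 0 < l := by linarith
  have hnr : (0 : ℝ) < n := by exact_mod_cast hn
  have hn2r : (0 : ℝ) < n₂ := by exact_mod_cast hn2
  set κ := 1 / (l + 1) ^ 2 with hκ
  have hκ0 : 0 < κ := by rw [hκ]; positivity
  have hκn : κ * n₂ ≤ ρ₂ := by
    have h2 : (n₂ : ℝ) ≤ ρ₂ * l ^ 2 := by rw [hn₂]; exact Nat.floor_le (by positivity)
    rw [hκ, one_div, inv_mul_le_iff₀ (by positivity)]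
    calc (n₂ : ℝ) ≤ ρ₂ * l ^ 2 := h2
      _ ≤ ρ₂ * (l + 1) ^ 2 := by
        refine mul_le_mul_of_nonneg_left ?_ h20.le
        exact pow_le_pow_left₀ hl0.le (by linarith) 2
      _ = _ := by ring
  have hδ : 0 < ρ - β * κ * n₂ := by
    have : β * (κ * n₂) ≤ β * ρ₂ := mul_le_mul_of_nonneg_left hκn hβ0.le
    nlinarith
  -- the numbers of boxes
  set q : ℝ × ℕ → ℕ := fun X => ⌊1 / (l + 1) * X.1⌋₊ with hq
  set p₂ : ℝ × ℕ → ℕ := fun X => ⌊β * (q X : ℝ) ^ 2⌋₊ with hp₂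
  set M : ℝ × ℕ → ℕ := fun X => X.2 - p₂ X * n₂ with hM
  set P : ℝ × ℕ → ℕ := fun X => M X / n with hP
  have T0 := fst_FF ρ
  have T4 := dens_FF ρ
  have B1 : ∀ᶠ X in FF ρ, 1 ≤ X.1 := T0.eventually_ge_atTop 1
  have T1 : Tendsto (fun X => (q X : ℝ) / X.1) (FF ρ) (𝓝 (1 / (l + 1))) :=
    (tendsto_nat_floor_mul_div_atTop (by positivity)).comp T0
  have T2 : Tendsto (fun X => (q X : ℝ) ^ 2 / X.1 ^ 2) (FF ρ) (𝓝 κ) := by
    have := T1.pow 2
    rw [div_pow, one_pow] at this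
    refine this.congr fun X => ?_
    rw [div_pow]
  have T3 : Tendsto (fun X => (p₂ X : ℝ) / X.1 ^ 2) (FF ρ) (𝓝 (β * κ)) := by
    refine floor_lim hsq (Eventually.of_forall fun X => by positivity) ?_
    refine (T2.const_mul β).congr fun X => ?_
    rw [mul_div_assoc]
  have T5' : Tendsto (fun X : ℝ × ℕ => ((X.2 : ℝ) - p₂ X * n₂) / X.1 ^ 2) (FF ρ)
      (𝓝 (ρ - β * κ * n₂)) := by
    refine (T4.sub (T3.mul_const (n₂ : ℝ))).congr fun X => ?_
    ring
  have B2 : ∀ᶠ X in FF ρ, p₂ X * n₂ ≤ X.2 := by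
    filter_upwards [T5'.eventually (lt_mem_nhds hδ), B1] with X hX hX1
    have h2 : (0 : ℝ) < X.1 ^ 2 := by positivity
    have h3 : 0 < (X.2 : ℝ) - p₂ X * n₂ := by
      by_contra hcon
      push Not at hcon
      exact absurd hX (not_lt.2 (div_nonpos_of_nonpos_of_nonneg hcon h2.le))
    have h4 : ((p₂ X * n₂ : ℕ) : ℝ) ≤ X.2 := by push_cast; linarith
    exact_mod_cast h4
  have T5 : Tendsto (fun X => (M X : ℝ) / X.1 ^ 2) (FF ρ) (𝓝 (ρ - β * κ * n₂)) := by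
    refine T5'.congr' ?_
    filter_upwards [B2] with X hX
    rw [hM]
    simp only
    rw [Nat.cast_sub hX]
    push_cast
    rfl
  have T6 : Tendsto (fun X => (P X : ℝ) / X.1 ^ 2) (FF ρ) (𝓝 ((ρ - β * κ * n₂) / n)) := by
    have e1 : ∀ X, (P X : ℝ) = (⌊(M X : ℝ) / n⌋₊ : ℝ) := fun X => by
      rw [hP]; simp only; rw [Nat.floor_div_eq_div]
    simp_rw [e1]
    refine floor_lim hsq (Eventually.of_forall fun X => by positivity) ?_
    refine (T5.div_const (n : ℝ)).congr fun X => ?_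
    rw [div_right_comm]
  have B3 : ∀ᶠ X in FF ρ, P X + p₂ X ≤ q X * q X := by
    have hlt : (ρ - β * κ * n₂) / n + β * κ < κ := by
      rw [← lt_sub_iff_add_lt, div_lt_iff₀ hnr]
      have h2 : κ * (ρ * (l + 1) ^ 2 - n) < κ * (β * (n₂ - n)) := mul_lt_mul_of_pos_left a4 hκ0
      have h3 : κ * (ρ * (l + 1) ^ 2) = ρ := by rw [hκ]; field_simp
      rw [mul_sub, h3] at h2
      linarith
    filter_upwards [(T6.add T3).eventually_lt T2 hlt, B1] with X hX hX1
    have h2 : (0 : ℝ) < X.1 ^ 2 := by positivity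
    rw [← add_div, div_lt_div_iff_of_pos_right h2, pow_two] at hX
    exact_mod_cast hX.le
  have B4 : ∀ᶠ X in FF ρ, n ≤ P X := by
    have hpos : 0 < (ρ - β * κ * n₂) / n := by positivity
    have e1 : Tendsto (fun X => (P X : ℝ) / X.1 ^ 2 * X.1 ^ 2) (FF ρ) atTop :=
      T6.pos_mul_atTop hpos hsq
    filter_upwards [e1.eventually_ge_atTop (n : ℝ), B1] with X hX hX1
    have h2 : X.1 ^ 2 ≠ 0 := by positivity
    rw [div_mul_cancel₀ _ h2] at hX
    exact_mod_cast hX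
  -- quotients by the number of particles
  have T7 : Tendsto (fun X : ℝ × ℕ => X.1 ^ 2 / (X.2 : ℝ)) (FF ρ) (𝓝 (ρ⁻¹)) :=
    (T4.inv₀ h0.ne').congr fun X => by rw [inv_div]
  have B5 : ∀ᶠ X in FF ρ, 0 < X.2 := (has ρ h0 h1).mono fun X hX => hX.1
  have T8 : Tendsto (fun X : ℝ × ℕ => (P X : ℝ) / X.2) (FF ρ)
      (𝓝 ((ρ - β * κ * n₂) / n * ρ⁻¹)) := by
    refine (T6.mul T7).congr' ?_
    filter_upwards [B1, B5] with X hX hX2
    have h2 : X.1 ≠ 0 := by positivity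
    have h3 : (X.2 : ℝ) ≠ 0 := by positivity
    field_simp
  have T9 : Tendsto (fun X : ℝ × ℕ => (p₂ X : ℝ) / X.2) (FF ρ) (𝓝 (β * κ * ρ⁻¹)) := by
    refine (T3.mul T7).congr' ?_
    filter_upwards [B1, B5] with X hX hX2
    have h2 : X.1 ≠ 0 := by positivity
    have h3 : (X.2 : ℝ) ≠ 0 := by positivity
    field_simp
  have T10 : Tendsto (fun X : ℝ × ℕ => (X.2 : ℝ)) (FF ρ) atTop := by
    refine (T4.pos_mul_atTop h0 hsq).congr' ?_
    filter_upwards [B1] with X hX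
    have h2 : X.1 ^ 2 ≠ 0 := by positivity
    rw [div_mul_cancel₀ _ h2]
  set D := Real.log (zr l (n + 1)) - Real.log (zr l n) with hD
  have T11 : Tendsto (fun X : ℝ × ℕ => ((M X % n : ℕ) : ℝ) * D / X.2) (FF ρ) (𝓝 0) := by
    refine squeeze_zero_norm' (a := fun X : ℝ × ℕ => (n * |D|) / X.2) ?_ (T10.const_div_atTop _)
    filter_upwards [B5] with X hX
    have h3 : (0 : ℝ) < (X.2 : ℝ) := by exact_mod_cast hX
    rw [norm_div, norm_mul, Real.norm_eq_abs, Real.norm_eq_abs, Real.norm_eq_abs, abs_of_pos h3]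
    refine div_le_div_of_nonneg_right (mul_le_mul_of_nonneg_right ?_ (abs_nonneg _)) h3.le
    rw [Nat.abs_cast]
    exact_mod_cast (Nat.mod_lt _ hn).le
  have TT := ((T8.mul_const (Real.log (zr l n))).add (T9.mul_const (Real.log (zr l n₂)))).add T11
  rw [add_zero] at TT
  have hlim : phE (l, n) - ε < (ρ - β * κ * n₂) / n * ρ⁻¹ * Real.log (zr l n) +
      β * κ * ρ⁻¹ * Real.log (zr l n₂) := by
    have e1 : Real.log (zr l n) = n * phE (l, n) := by
      unfold phE; simp only; field_simp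
    have e2 : Real.log (zr l n₂) = n₂ * phE (l, n₂) := by
      unfold phE; simp only; field_simp
    rw [e1, e2]
    obtain ⟨γ, hγ⟩ : ∃ γ : ℝ, γ = β * (κ * n₂) / ρ := ⟨_, rfl⟩
    have e3 : (ρ - β * κ * n₂) / n * ρ⁻¹ * (n * phE (l, n)) + β * κ * ρ⁻¹ * (n₂ * phE (l, n₂)) =
        phE (l, n) - γ * (phE (l, n) - phE (l, n₂)) := by
      rw [hγ]
      field_simp
      ring
    rw [e3]
    have hγ0 : 0 ≤ γ := by rw [hγ]; positivity
    have hγ1 : γ ≤ β * ρ₂ / ρ := by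
      rw [hγ]
      exact div_le_div_of_nonneg_right (mul_le_mul_of_nonneg_left hκn hβ0.le) h0.le
    have h5 : phE (l, n) - phE (l, n₂) ≤ c₁ + c₂ := by
      have := (abs_le.1 hph).2
      have := (abs_le.1 hph2).1
      linarith
    have h6 : γ * (phE (l, n) - phE (l, n₂)) ≤ β * ρ₂ / ρ * (c₁ + c₂) :=
      (mul_le_mul_of_nonneg_left h5 hγ0).trans
        (mul_le_mul_of_nonneg_right hγ1 (by positivity))
    linarith
  filter_upwards [TT.eventually (lt_mem_nhds hlim), B1, B2, B3, B4, B5] with X b0 b1 b2 b3 b4 b5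
  refine b0.trans_le ?_
  have hXr : (0 : ℝ) < (X.2 : ℝ) := by exact_mod_cast b5
  have hr : M X % n < n := Nat.mod_lt _ hn
  obtain ⟨r, hr'⟩ : ∃ r, r = M X % n := ⟨_, rfl⟩
  rw [← hr'] at hr ⊢
  have hdm : n * P X + r = M X := by rw [hr', hP]; exact Nat.div_add_mod _ _
  have hK : (q X : ℝ) * (l + 1) ≤ X.1 := by
    have := Nat.floor_le (show 0 ≤ 1 / (l + 1) * X.1 by positivity)
    calc (q X : ℝ) * (l + 1) ≤ 1 / (l + 1) * X.1 * (l + 1) :=
          mul_le_mul_of_nonneg_right this (by positivity)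
      _ = X.1 := by field_simp
  have hmix := log_mix4 hl0.le hK n (n + 1) n₂ (P X - r) r (p₂ X) (by omega) hz hz3 hz2
  have htot : (P X - r) * n + r * (n + 1) + p₂ X * n₂ = X.2 := by
    have h2 : M X = X.2 - p₂ X * n₂ := rfl
    obtain ⟨s, hs⟩ := Nat.exists_eq_add_of_le (show r ≤ P X by omega)
    rw [hs, Nat.add_sub_cancel_left]
    rw [hs] at hdm
    have h3 : M X + p₂ X * n₂ = X.2 := by omega
    rw [← h3, ← hdm]
    ring
  rw [htot, Nat.cast_sub (show r ≤ P X by omega)] at hmix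
  unfold phE
  rw [one_div, ← div_eq_inv_mul, le_div_iff₀ hXr]
  refine le_trans (le_of_eq ?_) hmix
  rw [hD]
  field_simp
  ring

/-- existence of the thermodynamic limit -/
theorem exists_FE (ρ : ℝ) (h0 : 0 < ρ) (h1 : ρ < rc) : ∃ y, IsFE ρ y := by
  have hne := neBot_FF h0
  obtain ⟨C, hC, has⟩ := ev_asym
  have hb : ∀ᶠ x in FF ρ, |phE x| ≤ |Real.log ρ - 2 * Real.log (1 - ρ / rc)| + C :=
    (has ρ h0 h1).mono fun x hx => hx.2.2
  set B := |Real.log ρ - 2 * Real.log (1 - ρ / rc)| + C with hB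
  have hle : IsBoundedUnder (· ≤ ·) (FF ρ) phE :=
    ⟨B, by rw [eventually_map]; exact hb.mono fun x hx => (abs_le.1 hx).2⟩
  have hge : IsBoundedUnder (· ≥ ·) (FF ρ) phE :=
    ⟨-B, by rw [eventually_map]; exact hb.mono fun x hx => (abs_le.1 hx).1⟩
  set S := limsup phE (FF ρ) with hS
  have hlim : Tendsto phE (FF ρ) (𝓝 S) := by
    rw [Metric.tendsto_nhds]
    intro ε hε
    have e1 : ∀ᶠ x in FF ρ, phE x < S + ε := eventually_lt_of_limsup_lt (by linarith) hle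
    have e2 : ∃ᶠ x in FF ρ, S - ε / 2 < phE x :=
      frequently_lt_of_lt_limsup hge.isCoboundedUnder_le (by linarith)
    obtain ⟨x, hx1, hx2⟩ := (e2.and_eventually (key_exist h0 h1 (half_pos hε))).exists
    filter_upwards [e1, hx2] with X hX1 hX2
    rw [Real.dist_eq, abs_lt]
    exact ⟨by linarith, by linarith⟩
  refine ⟨-S, fun L N hL hN => ?_⟩
  have h2 : Tendsto (fun k => ((L k, N k) : ℝ × ℕ)) atTop (FF ρ) := tendsto_FF.2 ⟨hL, hN⟩
  refine ((hlim.comp h2).neg).congr fun k => ?_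
  simp only [Function.comp_apply, phE]
  ring

end Pool.Agent.J4.H83.HD
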