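import Pool.Agent.J4.H83.HD.Defs

/-!
# Lower bound with pinned blocks: volumes of fibres, geometry of the triangular lattice
-/

set_option autoImplicit false

open MeasureTheory Set

namespace Pool.Agent.J4.H83.HD

open Pool.Agent.J4.H83.FV

namespace Low

lemma mp_curry {κ J : Type*} [Fintype κ] [Fintype J] :
    MeasurePreserving (fun (w : κ → J → ℂ) (p : κ × J) => w p.1 p.2) volume volume := by
  refine ⟨by fun_prop, ?_⟩
  symm
  refine Measure.pi_eq fun s hs => ?_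
  rw [Measure.map_apply (by fun_prop) (MeasurableSet.univ_pi hs)]
  have h1 : (fun (w : κ → J → ℂ) (p : κ × J) => w p.1 p.2) ⁻¹' (Set.pi univ s) =
      Set.pi univ fun β => Set.pi univ fun j => s (β, j) := by
    ext w
    simp only [mem_preimage, mem_pi, mem_univ, forall_const, Prod.forall]
  rw [h1, volume_pi_pi]
  simp_rw [volume_pi_pi]
  rw [← Finset.univ_product_univ, Finset.prod_product]

lemma vol_blocks {κ J : Type*} [Fintype κ] [Fintype J] (S : κ → Set (J → ℂ))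
    (hS : ∀ β, MeasurableSet (S β)) :
    volume {w : κ × J → ℂ | ∀ β, (fun j => w (β, j)) ∈ S β} = ∏ β, volume (S β) := by
  have h0 : MeasurableSet {w : κ × J → ℂ | ∀ β, (fun j => w (β, j)) ∈ S β} := by
    have : {w : κ × J → ℂ | ∀ β, (fun j => w (β, j)) ∈ S β} =
        ⋂ β, (fun (w : κ × J → ℂ) (j : J) => w (β, j)) ⁻¹' (S β) := by
      ext w; simp
    rw [this]
    have : Countable κ := Finite.to_countable
    exact MeasurableSet.iInter fun β => (by fun_prop : Measurable fun (w : κ × J → ℂ) (j : J) => w (β, j)) (hS β)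
  rw [← (mp_curry (κ := κ) (J := J)).measure_preimage h0.nullMeasurableSet, ← volume_pi_pi]
  congr 1
  ext w
  simp

lemma vol_fiber {P κ J : Type*} [Fintype P] [Fintype κ] [Fintype J] (D : P → Set ℂ)
    (hD : ∀ p, MeasurableSet (D p)) (S : κ → Set ((P → ℂ) × (J → ℂ)))
    (hS : ∀ β, MeasurableSet (S β)) (v : ENNReal)
    (hv : ∀ β, ∀ y ∈ Set.pi univ D, v ≤ volume {w : J → ℂ | (y, w) ∈ S β}) :
    (∏ p, volume (D p)) * v ^ (Fintype.card κ) ≤
      volume {x : P ⊕ κ × J → ℂ | (∀ p, x (Sum.inl p) ∈ D p) ∧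
        ∀ β, ((fun p => x (Sum.inl p)), (fun j => x (Sum.inr (β, j)))) ∈ S β} := by
  have : Countable P := Finite.to_countable
  have : Countable κ := Finite.to_countable
  set E : Set ((P → ℂ) × (κ × J → ℂ)) := {q | (∀ p, q.1 p ∈ D p) ∧
    ∀ β, (q.1, (fun j => q.2 (β, j))) ∈ S β} with hE
  have hEm : MeasurableSet E := by
    have : E = (⋂ p, (fun q : (P → ℂ) × (κ × J → ℂ) => q.1 p) ⁻¹' (D p)) ∩
        ⋂ β, (fun q : (P → ℂ) × (κ × J → ℂ) => (q.1, (fun j => q.2 (β, j)))) ⁻¹' (S β) := by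
      ext q; simp [hE]
    rw [this]
    refine (MeasurableSet.iInter fun p => (by fun_prop : Measurable
      (fun q : (P → ℂ) × (κ × J → ℂ) => q.1 p)) (hD p)).inter
      (MeasurableSet.iInter fun β => (by fun_prop : Measurable
        (fun q : (P → ℂ) × (κ × J → ℂ) => (q.1, (fun j => q.2 (β, j))))) (hS β))
  have h1 : volume {x : P ⊕ κ × J → ℂ | (∀ p, x (Sum.inl p) ∈ D p) ∧
        ∀ β, ((fun p => x (Sum.inl p)), (fun j => x (Sum.inr (β, j)))) ∈ S β} =
      (volume.prod volume) E := by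
    rw [← (mp_split (ι := P) (κ := κ × J)).measure_preimage hEm.nullMeasurableSet]
    rfl
  rw [h1, Measure.prod_apply hEm, ← volume_pi_pi, mul_comm,
    ← setLIntegral_const, ← lintegral_indicator (MeasurableSet.univ_pi hD)]
  refine lintegral_mono fun y => ?_
  by_cases hy : y ∈ Set.pi univ D
  · rw [indicator_of_mem hy]
    have h2 : Prod.mk y ⁻¹' E = {w : κ × J → ℂ | ∀ β, (fun j => w (β, j)) ∈
        {w' : J → ℂ | (y, w') ∈ S β}} := by
      ext w
      simp only [hE, mem_preimage, Set.mem_ofPred_eq]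
      exact ⟨fun h => h.2, fun h => ⟨fun p => hy p (mem_univ p), h⟩⟩
    have hm : ∀ β, MeasurableSet {w' : J → ℂ | (y, w') ∈ S β} := fun β =>
      (by fun_prop : Measurable fun w' : J → ℂ => (y, w')) (hS β)
    rw [h2, vol_blocks _ hm, ← Finset.card_univ, ← Finset.prod_const]
    exact Finset.prod_le_prod' fun β _ => hv β y hy
  · rw [indicator_of_notMem hy]
    exact bot_le

/-! ### The lattice -/

lemma om_re : om.re = -1 / 2 := rfl
lemma om_im : om.im = √3 / 2 := rfl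

lemma pt_re (z : ℤ × ℤ) : (pt z).re = z.1 - z.2 / 2 := by
  simp [pt, om_re, om_im]; ring

lemma pt_im (z : ℤ × ℤ) : (pt z).im = √3 / 2 * z.2 := by
  simp [pt, om_re, om_im]; ring

lemma pt_add (z w : ℤ × ℤ) : pt (z + w) = pt z + pt w := by
  simp only [pt, Prod.fst_add, Prod.snd_add]; push_cast; ring

lemma pt_sub (z w : ℤ × ℤ) : pt (z - w) = pt z - pt w := by
  simp only [pt, Prod.fst_sub, Prod.snd_sub]; push_cast; ring

lemma om_sq : om ^ 2 = -1 - om := by
  have h3 : √3 * √3 = 3 := Real.mul_self_sqrt (by norm_num)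
  apply Complex.ext
  · rw [sq, Complex.mul_re, om_re, om_im, Complex.sub_re, om_re]
    simp
    nlinarith
  · rw [sq, Complex.mul_im, om_re, om_im, Complex.sub_im, om_im]
    simp
    nlinarith

lemma pt_dr (k : Fin 3) : pt (dr k) = om ^ (k : ℕ) := by
  fin_cases k
  · simp [pt, dr]
  · simp [pt, dr]
  · simp only [pt, dr]
    simp [om_sq]
    ring

lemma om_norm : ‖om‖ = 1 := by
  have h3 : √3 ^ 2 = 3 := Real.sq_sqrt (by norm_num)
  rw [Complex.norm_eq_sqrt_sq_add_sq, om_re, om_im, Real.sqrt_eq_one]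
  nlinarith

lemma om_pow_norm (k : ℕ) : ‖om ^ k‖ = 1 := by rw [norm_pow, om_norm, one_pow]

lemma pt_nsq (z : ℤ × ℤ) : ‖pt z‖ ^ 2 = ((z.1 ^ 2 - z.1 * z.2 + z.2 ^ 2 : ℤ) : ℝ) := by
  have h3 : √3 ^ 2 = 3 := Real.sq_sqrt (by norm_num)
  rw [Complex.sq_norm, Complex.normSq_apply, pt_re, pt_im]
  push_cast
  nlinarith

lemma pt_norm_le {m : ℕ} {z : ℤ × ℤ} (hz : z ∈ Sq m) : ‖pt z‖ ≤ 2 * m := by
  rw [Sq, Finset.mem_product, Finset.mem_Icc, Finset.mem_Icc] at hz
  obtain ⟨⟨h1, h2⟩, h3, h4⟩ := hz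
  have h5 : ‖pt z‖ ≤ |(z.1 : ℝ)| + |(z.2 : ℝ)| := by
    unfold pt
    refine (norm_add_le _ _).trans ?_
    rw [norm_mul, om_norm, mul_one, Complex.norm_intCast, Complex.norm_intCast]
  have a1 : (0 : ℝ) ≤ z.1 := by exact_mod_cast h1
  have a2 : (z.1 : ℝ) ≤ m := by exact_mod_cast h2
  have a3 : (0 : ℝ) ≤ z.2 := by exact_mod_cast h3
  have a4 : (z.2 : ℝ) ≤ m := by exact_mod_cast h4
  rw [abs_of_nonneg a1, abs_of_nonneg a3] at h5
  linarith

lemma pt_far {z : ℤ × ℤ} (h0 : z ≠ 0) (h1 : ∀ k, z ≠ dr k) (h2 : ∀ k, -z ≠ dr k) :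
    1.7 ≤ ‖pt z‖ := by
  obtain ⟨a, b⟩ := z
  have hne : ∀ c d : ℤ, ((a, b) : ℤ × ℤ) ≠ (c, d) → ¬(a = c ∧ b = d) := by
    intro c d h hc
    exact h (by rw [hc.1, hc.2])
  have hne' : ∀ c d : ℤ, -((a, b) : ℤ × ℤ) ≠ (c, d) → ¬(-a = c ∧ -b = d) := by
    intro c d h hc
    exact h (by rw [Prod.neg_mk, hc.1, hc.2])
  have e0 := hne 0 0 h0
  have e1 := hne 1 0 (h1 0)
  have e2 := hne 0 1 (h1 1)
  have e3 := hne (-1) (-1) (h1 2)
  have e4 := hne' 1 0 (h2 0)
  have e5 := hne' 0 1 (h2 1)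
  have e6 := hne' (-1) (-1) (h2 2)
  have key : 3 ≤ a ^ 2 - a * b + b ^ 2 := by
    by_cases hb : 2 ≤ |b|
    · have : 4 ≤ b ^ 2 := by rw [← sq_abs]; nlinarith
      nlinarith [sq_nonneg (2 * a - b)]
    · have hb' : b = 0 ∨ b = 1 ∨ b = -1 := by
        have := abs_lt.1 (not_le.1 hb)
        omega
      rcases hb' with rfl | rfl | rfl
      · have : 2 ≤ a ∨ a ≤ -2 := by omega
        rcases this with h | h <;> nlinarith
      · have : 2 ≤ a ∨ a ≤ -1 := by omega
        rcases this with h | h <;> nlinarith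
      · have : 1 ≤ a ∨ a ≤ -2 := by omega
        rcases this with h | h <;> nlinarith
  have h7 := pt_nsq (a, b)
  have h8 : (3 : ℝ) ≤ ((a ^ 2 - a * b + b ^ 2 : ℤ) : ℝ) := by exact_mod_cast key
  have h9 : (3 : ℝ) ≤ ‖pt (a, b)‖ ^ 2 := by rw [h7]; exact h8
  nlinarith [norm_nonneg (pt (a, b))]

/-- an edge with nonnegative linear gap has length at least one -/
lemma edge_ge {k : ℕ} {d : ℂ} (h : 0 ≤ ((starRingEnd ℂ) (om ^ k) * d).re) :
    1 ≤ ‖om ^ k + d‖ := by
  have h1 : ((starRingEnd ℂ) (om ^ k) * (om ^ k + d)).re = 1 + ((starRingEnd ℂ) (om ^ k) * d).re := by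
    rw [mul_add, Complex.add_re]
    congr 1
    rw [mul_comm, Complex.mul_conj, Complex.normSq_eq_norm_sq, om_pow_norm]
    simp
  have h2 := Complex.re_le_norm ((starRingEnd ℂ) (om ^ k) * (om ^ k + d))
  rw [norm_mul, Complex.norm_conj, om_pow_norm, one_mul] at h2
  linarith

end Low

end Pool.Agent.J4.H83.HD
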