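import Pool.Agent.J4.H83.HD.W
import Pool.Agent.J4.H83.HD.LowA

/-!
# Lower bound for the partition function with pinned blocks
-/

set_option autoImplicit false

open MeasureTheory Set

namespace Pool.Agent.J4.H83.HD

open Pool.Agent.J4.H83.FV

namespace Low

/-- the corner of a block -/
def corner (m : ℕ) (β : ℕ × ℕ) : ℤ × ℤ :=
  ((((m + 1) * β.1 + ((m + 1) * β.2 + m + 1) / 2 : ℕ) : ℤ), (((m + 1) * β.2 : ℕ) : ℤ))

lemma mem_Sq {m : ℕ} {z : ℤ × ℤ} : z ∈ Sq m ↔ (0 ≤ z.1 ∧ z.1 ≤ m) ∧ 0 ≤ z.2 ∧ z.2 ≤ m := by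
  rw [Sq, Finset.mem_product, Finset.mem_Icc, Finset.mem_Icc]

lemma mem_In {m : ℕ} {z : ℤ × ℤ} : z ∈ In m ↔ (0 < z.1 ∧ z.1 < m) ∧ 0 < z.2 ∧ z.2 < m := by
  rw [In, Finset.mem_product, Finset.mem_Ioo, Finset.mem_Ioo]

lemma In_sub {m : ℕ} {z : ℤ × ℤ} (h : z ∈ In m) : z ∈ Sq m := by
  rw [mem_In] at h; rw [mem_Sq]; omega

lemma In_nbr {m : ℕ} {z : ℤ × ℤ} (h : z ∈ In m) (k : Fin 3) :
    z + dr k ∈ Sq m ∧ z - dr k ∈ Sq m := by
  rw [mem_In] at h
  rw [mem_Sq, mem_Sq]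
  fin_cases k <;> simp [dr] <;> omega

lemma mul_cmp {m a b : ℕ} {y y' : ℤ} (h0 : 0 ≤ y) (h1 : y ≤ m) (h0' : 0 ≤ y') (h1' : y' ≤ m)
    (h : (((m + 1) * a : ℕ) : ℤ) + y = (((m + 1) * b : ℕ) : ℤ) + y') : a = b := by
  push_cast at h
  rcases lt_trichotomy a b with hab | hab | hab
  · exfalso
    have : (a : ℤ) + 1 ≤ b := by exact_mod_cast hab
    nlinarith
  · exact hab
  · exfalso
    have : (b : ℤ) + 1 ≤ a := by exact_mod_cast hab
    nlinarith

lemma corner_inj {m : ℕ} {β β' : ℕ × ℕ} {y y' : ℤ × ℤ} (hy : y ∈ Sq m) (hy' : y' ∈ Sq m)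
    (h : corner m β + y = corner m β' + y') : β = β' ∧ y = y' := by
  rw [mem_Sq] at hy hy'
  have h2 := congrArg Prod.snd h
  have h1 := congrArg Prod.fst h
  simp only [corner, Prod.fst_add, Prod.snd_add] at h1 h2
  have e2 : β.2 = β'.2 := mul_cmp hy.2.1 hy.2.2 hy'.2.1 hy'.2.2 h2
  rw [e2] at h1 h2
  have e1 : β.1 = β'.1 := by
    refine mul_cmp (m := m) hy.1.1 hy.1.2 hy'.1.1 hy'.1.2 ?_
    push_cast at h1 ⊢
    linarith
  rw [e1] at h1
  exact ⟨Prod.ext e1 e2, Prod.ext (by linarith) (by linarith)⟩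

/-- the pinned slots -/
abbrev PP (m q ρ : ℕ) : Type := (Fin q × ↥(Sq m \ In m)) ⊕ Fin ρ

/-- all slots -/
abbrev II (m q ρ : ℕ) : Type := PP m q ρ ⊕ Fin q × ↥(In m)

/-- `q` complete blocks and `ρ` further sites -/
structure Dat (m K₁ K₂ q ρ : ℕ) where
  g : Fin q → ℕ × ℕ
  h : Fin ρ → (ℕ × ℕ) × (ℤ × ℤ)
  ginj : Function.Injective g
  hinj : Function.Injective h
  gb : ∀ β, (g β).1 < K₁ ∧ (g β).2 < K₂
  hb : ∀ i, (h i).1.1 < K₁ ∧ (h i).1.2 < K₂
  hS : ∀ i, (h i).2 ∈ Sq m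
  hg : ∀ i β, (h i).1 ≠ g β

variable {m K₁ K₂ q ρ : ℕ} (T : Dat m K₁ K₂ q ρ) (s e : ℝ)

/-- the block and the site in the block of a slot -/
def lab : II m q ρ → (ℕ × ℕ) × (ℤ × ℤ)
  | Sum.inl (Sum.inl p) => (T.g p.1, p.2.1)
  | Sum.inl (Sum.inr i) => T.h i
  | Sum.inr p => (T.g p.1, p.2.1)

lemma lab_S (i : II m q ρ) : (lab T i).2 ∈ Sq m := by
  rcases i with (⟨β, y⟩ | i) | ⟨β, z⟩
  · exact (Finset.mem_sdiff.1 y.2).1
  · exact T.hS i
  · exact In_sub z.2

lemma lab_b (i : II m q ρ) : (lab T i).1.1 < K₁ ∧ (lab T i).1.2 < K₂ := by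
  rcases i with (⟨β, y⟩ | i) | ⟨β, z⟩
  · exact T.gb β
  · exact T.hb i
  · exact T.gb β

lemma lab_inj : Function.Injective (lab T) := by
  intro i j hij
  rcases i with (⟨β, y⟩ | i) | ⟨β, z⟩ <;> rcases j with (⟨β', y'⟩ | i') | ⟨β', z'⟩ <;>
    simp only [lab] at hij
  · have h1 := T.ginj (congrArg Prod.fst hij)
    have h2 : y = y' := Subtype.ext (congrArg Prod.snd hij)
    rw [show β = β' from h1, h2]
  · exact absurd (congrArg Prod.fst hij).symm (T.hg i' β)
  · have h2 : (y : ℤ × ℤ) = z' := congrArg Prod.snd hij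
    exact absurd (h2 ▸ z'.2) (Finset.mem_sdiff.1 y.2).2
  · exact absurd (congrArg Prod.fst hij) (T.hg i β')
  · rw [T.hinj hij]
  · exact absurd (congrArg Prod.fst hij) (T.hg i β')
  · have h2 : (z : ℤ × ℤ) = y' := congrArg Prod.snd hij
    exact absurd (h2 ▸ z.2) (Finset.mem_sdiff.1 y'.2).2
  · exact absurd (congrArg Prod.fst hij).symm (T.hg i' β)
  · have h1 := T.ginj (congrArg Prod.fst hij)
    have h2 : z = z' := Subtype.ext (congrArg Prod.snd hij)
    rw [show β = β' from h1, h2]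

/-- the lattice site of a slot -/
def site (i : II m q ρ) : ℤ × ℤ := corner m (lab T i).1 + (lab T i).2

lemma site_inj : Function.Injective (site T) := by
  intro i j hij
  obtain ⟨h1, h2⟩ := corner_inj (lab_S T i) (lab_S T j) hij
  exact lab_inj T (Prod.ext h1 h2)

/-- the position -/
noncomputable def Pos (i : II m q ρ) : ℂ := ⟨1 / 2, 1 / 2⟩ + ((1 + s : ℝ) : ℂ) * pt (site T i)

/-- the position of the corner of a complete block -/
noncomputable def Cor (β : Fin q) : ℂ :=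
  ⟨1 / 2, 1 / 2⟩ + ((1 + s : ℝ) : ℂ) * pt (corner m (T.g β))

/-- the boundary values of a complete block -/
noncomputable def bd (x : PP m q ρ → ℂ) (β : Fin q) (y : ℤ × ℤ) : ℂ :=
  if hy : y ∈ Sq m \ In m then x (Sum.inl (β, ⟨y, hy⟩)) - Cor T s β - pt y else 0

/-- the constraints of a complete block -/
def SS (β : Fin q) : Set ((PP m q ρ → ℂ) × (In m → ℂ)) :=
  {w | (fun z => w.2 z - Cor T s β - pt z) ∈ CS m (bd T s w.1 β)}

/-- the configurations -/
def XX : Set (II m q ρ → ℂ) :=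
  {x | (∀ p, x (Sum.inl p) ∈ Metric.closedBall (Pos T s (Sum.inl p)) (e * s)) ∧
    ∀ β, ((fun p => x (Sum.inl p)), (fun j => x (Sum.inr (β, j)))) ∈ SS T s β}

lemma SS_meas (β : Fin q) : MeasurableSet (SS T s β) := by
  have h : SS T s β = ⋂ z, ⋂ k : Fin 3, ⋂ _ : z ∈ Sq m ∧ z + dr k ∈ Sq m ∧
      (z ∈ In m ∨ z + dr k ∈ In m), {w : (PP m q ρ → ℂ) × (In m → ℂ) |
      0 ≤ gl (glue m (bd T s w.1 β) (fun z => w.2 z - Cor T s β - pt z)) z k} := by
    ext w
    simp only [SS, CS, mem_iInter, Set.mem_ofPred_eq]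
    exact ⟨fun h z k hz => h z hz.1 k hz.2.1 hz.2.2, fun h z hz k h1 h2 => h z k ⟨hz, h1, h2⟩⟩
  have hg : ∀ y, Measurable fun w : (PP m q ρ → ℂ) × (In m → ℂ) =>
      glue m (bd T s w.1 β) (fun z => w.2 z - Cor T s β - pt z) y := by
    intro y
    unfold glue
    by_cases hy : y ∈ In m
    · simp only [hy, dif_pos]
      fun_prop
    · simp only [hy, dif_neg, not_false_eq_true]
      unfold bd
      by_cases hy2 : y ∈ Sq m \ In m
      · simp only [hy2, dif_pos]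
        fun_prop
      · simp only [hy2, dif_neg, not_false_eq_true]
        fun_prop
  rw [h]
  refine MeasurableSet.iInter fun z => MeasurableSet.iInter fun k => MeasurableSet.iInter fun _ =>
      measurableSet_le measurable_const ?_
  unfold gl
  exact Complex.measurable_re.comp (measurable_const.mul ((hg _).sub (hg _)))

variable {T s e}

lemma Pos_eq {β : Fin q} {i : II m q ρ} (hi : (lab T i).1 = T.g β) :
    Pos T s i = Cor T s β + ((1 + s : ℝ) : ℂ) * pt (lab T i).2 := by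
  unfold Pos Cor site
  rw [hi, pt_add]
  ring

lemma bd_near {x : PP m q ρ → ℂ}
    (hx : ∀ p, x p ∈ Metric.closedBall (Pos T s (Sum.inl p)) (e * s)) (β : Fin q) {y : ℤ × ℤ}
    (hy : y ∈ Sq m) (hy2 : y ∉ In m) : ‖bd T s x β y - (s : ℂ) * pt y‖ ≤ e * s := by
  have hy3 : y ∈ Sq m \ In m := Finset.mem_sdiff.2 ⟨hy, hy2⟩
  have h1 := hx (Sum.inl (β, ⟨y, hy3⟩))
  rw [Metric.mem_closedBall, dist_eq_norm, Pos_eq (β := β) rfl] at h1
  refine le_trans (le_of_eq ?_) h1
  unfold bd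
  rw [dif_pos hy3]
  congr 1
  simp only [lab]
  push_cast
  ring

lemma glue_in {m : ℕ} (b : ℤ × ℤ → ℂ) (w : In m → ℂ) (z : In m) : glue m b w z = w z := by
  unfold glue
  rw [dif_pos z.2]

lemma glue_out {m : ℕ} (b : ℤ × ℤ → ℂ) (w : In m → ℂ) {y : ℤ × ℤ} (h : y ∉ In m) :
    glue m b w y = b y := by
  unfold glue
  rw [dif_neg h]

lemma bd_eq (x : PP m q ρ → ℂ) (β : Fin q) (y : ↥(Sq m \ In m)) :
    bd T s x β y = x (Sum.inl (β, y)) - Cor T s β - pt y := by
  unfold bd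
  rw [dif_pos y.2]

lemma val (x : II m q ρ → ℂ) {β : Fin q} {i : II m q ρ} (hi : (lab T i).1 = T.g β) :
    x i = Cor T s β + pt (lab T i).2 + glue m (bd T s (fun p => x (Sum.inl p)) β)
      (fun z => x (Sum.inr (β, z)) - Cor T s β - pt z) (lab T i).2 := by
  rcases i with (⟨β', y⟩ | i) | ⟨β', z⟩
  · have h1 : β' = β := T.ginj hi
    subst h1
    have hy := Finset.mem_sdiff.1 y.2
    change _ = Cor T s β' + pt (y : ℤ × ℤ) + glue m _ _ (y : ℤ × ℤ)
    rw [glue_out _ _ hy.2, bd_eq]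
    ring
  · exact absurd hi (T.hg i β)
  · have h1 : β' = β := T.ginj hi
    subst h1
    change _ = Cor T s β' + pt (z : ℤ × ℤ) + glue m _ _ (z : ℤ × ℤ)
    rw [glue_in]
    ring

lemma near (hs : 0 < s) (he2 : e ≤ 1 / 2) (hsm : s * (m + 1) ≤ 1 / 100)
    {x : II m q ρ → ℂ} (hx : x ∈ XX T s e) (i : II m q ρ) : ‖x i - Pos T s i‖ ≤ 6 / 100 := by
  have hm : (0 : ℝ) ≤ m := Nat.cast_nonneg m
  have hsm2 : 0 ≤ s * m := by positivity
  have hes : e * s ≤ s / 2 := by nlinarith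
  rcases i with p | ⟨β, z⟩
  · have h1 := hx.1 p
    rw [Metric.mem_closedBall, dist_eq_norm] at h1
    nlinarith
  · have h1 := hx.2 β
    have h2 := CS_bound m _ (s * (2 * m) + e * s) (fun y hy hy2 => by
      have h3 := bd_near hx.1 β hy hy2
      have h4 : ‖(s : ℂ) * pt y‖ ≤ s * (2 * m) := by
        rw [norm_mul, Complex.norm_real, Real.norm_of_nonneg hs.le]
        exact mul_le_mul_of_nonneg_left (pt_norm_le hy) hs.le
      calc ‖bd T s (fun p => x (Sum.inl p)) β y‖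
          = ‖(s : ℂ) * pt y + (bd T s (fun p => x (Sum.inl p)) β y - (s : ℂ) * pt y)‖ := by
            congr 1; ring
        _ ≤ ‖(s : ℂ) * pt y‖ + ‖bd T s (fun p => x (Sum.inl p)) β y - (s : ℂ) * pt y‖ :=
            norm_add_le _ _
        _ ≤ _ := by linarith) _ h1 z
    rw [Pos_eq (β := β) rfl]
    have h5 : ‖(s : ℂ) * pt z‖ ≤ s * (2 * m) := by
      rw [norm_mul, Complex.norm_real, Real.norm_of_nonneg hs.le]
      exact mul_le_mul_of_nonneg_left (pt_norm_le (In_sub z.2)) hs.le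
    have h6 : ‖x (Sum.inr (β, z)) - (Cor T s β + ((1 + s : ℝ) : ℂ) * pt z)‖ ≤
        ‖x (Sum.inr (β, z)) - Cor T s β - pt z‖ + ‖(s : ℂ) * pt z‖ := by
      refine le_trans (le_of_eq ?_) (norm_sub_le _ _)
      congr 1
      push_cast
      ring
    refine h6.trans ?_
    have h7 : ‖x (Sum.inr (β, z)) - Cor T s β - pt z‖ ≤ 2 * (s * (2 * m) + e * s) := h2
    nlinarith

lemma sep_edge (hs : 0 < s) (he2 : e ≤ 1 / 2)
    {x : II m q ρ → ℂ} (hx : x ∈ XX T s e) {i j : II m q ρ} {k : Fin 3}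
    (hij : site T j = site T i + dr k) : 1 ≤ ‖x j - x i‖ := by
  have hkey : ∀ β : Fin q, (lab T i).1 = T.g β → (lab T j).1 = T.g β →
      (lab T j).2 = (lab T i).2 + dr k → ((lab T i).2 ∈ In m ∨ (lab T j).2 ∈ In m) →
      1 ≤ ‖x j - x i‖ := by
    intro β h1 h2 h3 h4
    have h5 := hx.2 β
    have h6 : 0 ≤ gl (glue m (bd T s (fun p => x (Sum.inl p)) β)
      (fun z => x (Sum.inr (β, z)) - Cor T s β - pt z)) (lab T i).2 k := by
      refine h5 _ (lab_S T i) k ?_ ?_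
      · rw [← h3]; exact lab_S T j
      · rw [← h3]; exact h4
    have h7 := edge_ge h6
    rw [val (s := s) x h1, val (s := s) x h2, h3]
    convert h7 using 2
    rw [pt_add, pt_dr]
    ring
  rcases i with p | ⟨β, z⟩
  · rcases j with p' | ⟨β', z'⟩
    · have h1 := hx.1 p
      have h2 := hx.1 p'
      rw [Metric.mem_closedBall, dist_eq_norm] at h1 h2
      have h3 : Pos T s (Sum.inl p') = Pos T s (Sum.inl p) + ((1 + s : ℝ) : ℂ) * om ^ (k : ℕ) := by
        unfold Pos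
        rw [hij, pt_add, pt_dr]
        ring
      have h4 : ‖((1 + s : ℝ) : ℂ) * om ^ (k : ℕ)‖ = 1 + s := by
        rw [norm_mul, Complex.norm_real, om_pow_norm, Real.norm_of_nonneg (by linarith), mul_one]
      have h5 : ‖((1 + s : ℝ) : ℂ) * om ^ (k : ℕ)‖ ≤ ‖x (Sum.inl p') - x (Sum.inl p)‖ +
          ‖x (Sum.inl p) - Pos T s (Sum.inl p)‖ + ‖x (Sum.inl p') - Pos T s (Sum.inl p')‖ := by
        have e1 : ((1 + s : ℝ) : ℂ) * om ^ (k : ℕ) = (x (Sum.inl p') - x (Sum.inl p)) +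
          (x (Sum.inl p) - Pos T s (Sum.inl p)) - (x (Sum.inl p') - Pos T s (Sum.inl p')) := by
          rw [h3]; ring
        rw [e1]
        refine (norm_sub_le _ _).trans ?_
        have := norm_add_le (x (Sum.inl p') - x (Sum.inl p)) (x (Sum.inl p) - Pos T s (Sum.inl p))
        linarith
      nlinarith
    · have h1 : corner m (lab T (Sum.inl p)).1 + (lab T (Sum.inl p)).2 =
          corner m (T.g β') + ((z' : ℤ × ℤ) - dr k) := by
        have : corner m (T.g β') + (z' : ℤ × ℤ) =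
          corner m (lab T (Sum.inl p)).1 + (lab T (Sum.inl p)).2 + dr k := hij
        rw [← add_sub_assoc, this, add_sub_cancel_right]
      obtain ⟨h2, h3⟩ := corner_inj (lab_S T _) (In_nbr z'.2 k).2 h1
      refine hkey β' h2 rfl ?_ (Or.inr z'.2)
      rw [h3]
      simp [lab]
  · have h1 : corner m (lab T j).1 + (lab T j).2 = corner m (T.g β) + ((z : ℤ × ℤ) + dr k) := by
      have : corner m (lab T j).1 + (lab T j).2 = corner m (T.g β) + (z : ℤ × ℤ) + dr k := hij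
      rw [this, add_assoc]
    obtain ⟨h2, h3⟩ := corner_inj (lab_S T _) (In_nbr z.2 k).1 h1
    exact hkey β rfl h2 h3 (Or.inl z.2)

lemma Pos_sub (i j : II m q ρ) :
    Pos T s i - Pos T s j = ((1 + s : ℝ) : ℂ) * pt (site T i - site T j) := by
  unfold Pos
  rw [pt_sub]; ring

lemma pt_ge_one {z : ℤ × ℤ} (h0 : z ≠ 0) : 1 ≤ ‖pt z‖ := by
  by_cases h1 : ∃ k, z = dr k
  · obtain ⟨k, rfl⟩ := h1
    rw [pt_dr, om_pow_norm]
  · by_cases h2 : ∃ k, -z = dr k
    · obtain ⟨k, hk⟩ := h2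
      have : pt z = - om ^ (k : ℕ) := by
        rw [← pt_dr, ← hk]
        simp only [pt, Prod.fst_neg, Prod.snd_neg]; push_cast; ring
      rw [this, norm_neg, om_pow_norm]
    · push Not at h1 h2
      have := pt_far h0 h1 h2
      linarith

lemma Pos_sep (hs : 0 < s) {i j : II m q ρ} (hij : i ≠ j) : 1 ≤ ‖Pos T s i - Pos T s j‖ := by
  rw [Pos_sub, norm_mul, Complex.norm_real, Real.norm_of_nonneg (by linarith)]
  have h1 : 1 ≤ ‖pt (site T i - site T j)‖ :=
    pt_ge_one fun h => hij (site_inj T (sub_eq_zero.1 h))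
  nlinarith

lemma sep (hs : 0 < s) (he2 : e ≤ 1 / 2) (hsm : s * (m + 1) ≤ 1 / 100)
    {x : II m q ρ → ℂ} (hx : x ∈ XX T s e) {i j : II m q ρ} (hij : i ≠ j) :
    1 ≤ ‖x i - x j‖ := by
  by_cases h1 : ∃ k, site T i - site T j = dr k
  · obtain ⟨k, hk⟩ := h1
    exact sep_edge hs he2 hx (k := k) (by rw [← hk]; ring)
  · by_cases h2 : ∃ k, -(site T i - site T j) = dr k
    · obtain ⟨k, hk⟩ := h2
      rw [norm_sub_rev]
      exact sep_edge hs he2 hx (k := k) (by rw [← hk]; ring)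
    · push Not at h1 h2
      have h3 : 1.7 ≤ ‖pt (site T i - site T j)‖ :=
        pt_far (fun h => hij (site_inj T (sub_eq_zero.1 h))) h1 h2
      have h4 : 1.7 ≤ ‖Pos T s i - Pos T s j‖ := by
        rw [Pos_sub, norm_mul, Complex.norm_real, Real.norm_of_nonneg (by linarith)]
        nlinarith
      have h5 := near hs he2 hsm hx i
      have h6 := near hs he2 hsm hx j
      have h7 : ‖Pos T s i - Pos T s j‖ ≤ ‖x i - x j‖ + ‖x i - Pos T s i‖ + ‖x j - Pos T s j‖ := by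
        have e1 : Pos T s i - Pos T s j = (x i - x j) - (x i - Pos T s i) + (x j - Pos T s j) := by
          ring
        rw [e1]
        refine (norm_add_le _ _).trans ?_
        have := norm_sub_le (x i - x j) (x i - Pos T s i)
        linarith
      linarith

lemma in_box (hs : 0 < s) (he2 : e ≤ 1 / 2) (hsm : s * (m + 1) ≤ 1 / 100) {L : ℝ}
    (h1 : (1 + s) * ((m + 1) * K₁ + m + 2) + 1 ≤ L)
    (h2 : (1 + s) * (√3 / 2 * ((m + 1) * K₂)) + 1 ≤ L)
    {x : II m q ρ → ℂ} (hx : x ∈ XX T s e) (i : II m q ρ) : x i ∈ box 0 L := by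
  have h3 := near hs he2 hsm hx i
  have h4 := (Complex.abs_re_le_norm _).trans h3
  have h5 := (Complex.abs_im_le_norm _).trans h3
  rw [Complex.sub_re, abs_le] at h4
  rw [Complex.sub_im, abs_le] at h5
  have hS := mem_Sq.1 (lab_S T i)
  have hb := lab_b T i
  set β := (lab T i).1 with hβ
  set y := (lab T i).2 with hy
  have e1 : (Pos T s i).re = 1 / 2 + (1 + s) * ((site T i).1 - (site T i).2 / 2) := by
    unfold Pos
    rw [Complex.add_re, Complex.re_ofReal_mul, pt_re]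
  have e2 : (Pos T s i).im = 1 / 2 + (1 + s) * (√3 / 2 * (site T i).2) := by
    unfold Pos
    rw [Complex.add_im, Complex.im_ofReal_mul, pt_im]
  have e3 : site T i = corner m β + y := rfl
  have e4 : ((site T i).1 : ℝ) = (m + 1) * β.1 + (((m + 1) * β.2 + m + 1) / 2 : ℕ) + y.1 := by
    rw [e3]
    simp only [corner, Prod.fst_add]
    rw [Int.cast_add, Int.cast_natCast, Nat.cast_add, Nat.cast_mul, Nat.cast_add, Nat.cast_one]
  have e5 : ((site T i).2 : ℝ) = (m + 1) * β.2 + y.2 := by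
    rw [e3]; simp [corner]
  have a1 : ((m + 1) * β.2 + m : ℝ) ≤ 2 * (((m + 1) * β.2 + m + 1) / 2 : ℕ) := by
    have : (m + 1) * β.2 + m ≤ 2 * (((m + 1) * β.2 + m + 1) / 2) := by omega
    exact_mod_cast this
  have a2 : 2 * ((((m + 1) * β.2 + m + 1) / 2 : ℕ) : ℝ) ≤ (m + 1) * β.2 + m + 1 := by
    have : 2 * (((m + 1) * β.2 + m + 1) / 2) ≤ (m + 1) * β.2 + m + 1 := by omega
    exact_mod_cast this
  have b1 : (0 : ℝ) ≤ y.1 := by exact_mod_cast hS.1.1
  have b2 : (y.1 : ℝ) ≤ m := by exact_mod_cast hS.1.2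
  have b3 : (0 : ℝ) ≤ y.2 := by exact_mod_cast hS.2.1
  have b4 : (y.2 : ℝ) ≤ m := by exact_mod_cast hS.2.2
  have c1 : (β.1 : ℝ) + 1 ≤ K₁ := by exact_mod_cast hb.1
  have c2 : (β.2 : ℝ) + 1 ≤ K₂ := by exact_mod_cast hb.2
  have c3 : (0 : ℝ) ≤ β.1 := Nat.cast_nonneg _
  have c4 : (0 : ℝ) ≤ β.2 := Nat.cast_nonneg _
  have hm : (0 : ℝ) ≤ m := Nat.cast_nonneg m
  have d1 : 0 ≤ ((site T i).1 : ℝ) - (site T i).2 / 2 := by
    rw [e4, e5]
    have : 0 ≤ ((m : ℝ) + 1) * β.1 := by positivity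
    linarith
  have d2 : ((site T i).1 : ℝ) - (site T i).2 / 2 ≤ (m + 1) * K₁ + m + 2 := by
    rw [e4, e5]
    have : ((m : ℝ) + 1) * (β.1 + 1) ≤ (m + 1) * K₁ :=
      mul_le_mul_of_nonneg_left c1 (by positivity)
    linarith
  have d3 : (0 : ℝ) ≤ (site T i).2 := by rw [e5]; positivity
  have d4 : ((site T i).2 : ℝ) ≤ (m + 1) * K₂ := by rw [e5]; nlinarith
  have f1 : 0 ≤ (1 + s) * (((site T i).1 : ℝ) - (site T i).2 / 2) :=
    mul_nonneg (by linarith) d1
  have f2 : (1 + s) * (((site T i).1 : ℝ) - (site T i).2 / 2) ≤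
      (1 + s) * ((m + 1) * K₁ + m + 2) := mul_le_mul_of_nonneg_left d2 (by linarith)
  have f3 : 0 ≤ (1 + s) * (√3 / 2 * ((site T i).2 : ℝ)) :=
    mul_nonneg (by linarith) (by positivity)
  have f4 : (1 + s) * (√3 / 2 * ((site T i).2 : ℝ)) ≤ (1 + s) * (√3 / 2 * ((m + 1) * K₂)) :=
    mul_le_mul_of_nonneg_left (mul_le_mul_of_nonneg_left d4 (by positivity)) (by linarith)
  rw [e1] at h4
  rw [e2] at h5
  exact ⟨⟨by linarith, by linarith⟩, by linarith, by linarith⟩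

lemma XX_meas : MeasurableSet (XX T s e) := by
  have : XX T s e = (⋂ p, (fun x : II m q ρ → ℂ => x (Sum.inl p)) ⁻¹'
      (Metric.closedBall (Pos T s (Sum.inl p)) (e * s))) ∩
      ⋂ β, (fun x : II m q ρ → ℂ => ((fun p => x (Sum.inl p)), (fun j => x (Sum.inr (β, j))))) ⁻¹'
        (SS T s β) := by
    ext x
    simp only [XX, mem_inter_iff, mem_iInter, mem_preimage]
    rfl
  rw [this]
  have : Countable (PP m q ρ) := Finite.to_countable
  refine (MeasurableSet.iInter fun p => (measurable_pi_apply _) Metric.isClosed_closedBall.measurableSet).inter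
    (MeasurableSet.iInter fun β => (by fun_prop : Measurable (fun x : II m q ρ → ℂ =>
      ((fun p => x (Sum.inl p)), (fun j => x (Sum.inr (β, j)))))) (SS_meas T s β))

lemma vol_ball (c : ℂ) {r : ℝ} (hr : 0 ≤ r) :
    ENNReal.ofReal (r ^ 2) ≤ volume (Metric.closedBall c r) := by
  rw [Complex.volume_closedBall, ENNReal.ofReal_pow hr]
  have h1 : (1 : ENNReal) ≤ (NNReal.pi : ENNReal) := by
    have : (1 : NNReal) ≤ NNReal.pi := by
      rw [← NNReal.coe_le_coe]
      have := Real.pi_gt_three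
      simp only [NNReal.coe_one, NNReal.coe_real_pi]
      linarith
    exact_mod_cast this
  calc ENNReal.ofReal r ^ 2 = ENNReal.ofReal r ^ 2 * 1 := by rw [mul_one]
    _ ≤ _ := mul_le_mul' le_rfl h1

lemma XX_vol (hs : 0 < s) (he : 0 < e) (he2 : e ≤ 1 / 2) :
    ENNReal.ofReal ((e * s) ^ 2) ^ (Fintype.card (PP m q ρ)) *
      (ENNReal.ofReal (((1 - e) * s) ^ (2 * (m - 1) ^ 2)) * W m pt) ^ q ≤
      volume (XX T s e) := by
  have h1 := vol_fiber (fun p : PP m q ρ => Metric.closedBall (Pos T s (Sum.inl p)) (e * s))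
    (fun p => Metric.isClosed_closedBall.measurableSet) (SS T s) (SS_meas T s)
    (ENNReal.ofReal (((1 - e) * s) ^ (2 * (m - 1) ^ 2)) * W m pt) ?_
  · rw [Fintype.card_fin] at h1
    refine le_trans (mul_le_mul' ?_ le_rfl) h1
    rw [← Finset.card_univ, ← Finset.prod_const]
    exact Finset.prod_le_prod' fun p _ => vol_ball _ (by positivity)
  · intro β y hy
    have hy' : ∀ p, y p ∈ Metric.closedBall (Pos T s (Sum.inl p)) (e * s) := fun p =>
      hy p (mem_univ p)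
    have h2 : {w : In m → ℂ | (y, w) ∈ SS T s β} =
        (fun w => w - fun z : In m => Cor T s β + pt z) ⁻¹' (CS m (bd T s y β)) := by
      ext w
      have : (w - fun z : In m => Cor T s β + pt z) = fun z => w z - Cor T s β - pt z := by
        funext z
        simp only [Pi.sub_apply]
        ring
      rw [mem_preimage, this]
      rfl
    rw [h2, (measurePreserving_sub_right volume (fun z : In m => Cor T s β + pt z)).measure_preimage
      (CS_meas m _).nullMeasurableSet, ← W_smul m ((1 - e) * s) (mul_pos (by linarith) hs)]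
    refine W_robust m (e * s) 0 (by positivity) _ _ fun z hz hz2 => ?_
    refine le_trans (le_of_eq ?_) (bd_near hy' β hz hz2)
    congr 1
    push_cast
    ring

theorem main (hs : 0 < s) (he : 0 < e) (he2 : e ≤ 1 / 2) (hsm : s * (m + 1) ≤ 1 / 100)
    {L : ℝ} (h1 : (1 + s) * ((m + 1) * K₁ + m + 2) + 1 ≤ L)
    (h2 : (1 + s) * (√3 / 2 * ((m + 1) * K₂)) + 1 ≤ L) {N : ℕ} (E : Fin N ≃ II m q ρ)
    (T : Dat m K₁ K₂ q ρ) :
    (N.factorial : ENNReal) * (ENNReal.ofReal ((e * s) ^ 2) ^ (Fintype.card (PP m q ρ)) *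
      (ENNReal.ofReal (((1 - e) * s) ^ (2 * (m - 1) ^ 2)) * W m pt) ^ q) ≤ volume (A N L) := by
  classical
  set P : Equiv.Perm (Fin N) → Set (Fin N → ℂ) := fun σ =>
    (fun (x : Fin N → ℂ) (i : II m q ρ) => x ((E.symm.trans σ) i)) ⁻¹' (XX T s e) with hP
  have hmp : ∀ σ : Equiv.Perm (Fin N), MeasurePreserving
      (fun (x : Fin N → ℂ) (i : II m q ρ) => x ((E.symm.trans σ) i)) volume volume :=
    fun σ => mp_comp (E.symm.trans σ)
  have hPm : ∀ σ, MeasurableSet (P σ) := fun σ => (hmp σ).measurable XX_meas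
  have hPv : ∀ σ, volume (P σ) = volume (XX T s e) := fun σ =>
    (hmp σ).measure_preimage XX_meas.nullMeasurableSet
  have hdis : Pairwise (Function.onFun Disjoint P) := by
    intro σ τ hst
    rw [Function.onFun, Set.disjoint_left]
    intro x hx hy
    obtain ⟨a, ha⟩ : ∃ a, σ a ≠ τ a := by
      by_contra hcon
      push Not at hcon
      exact hst (Equiv.ext hcon)
    obtain ⟨b, hb⟩ : ∃ b, τ b = σ a := ⟨τ.symm (σ a), by simp⟩
    have hab : E a ≠ E b := by
      intro h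
      have h0 : a = b := E.injective h
      rw [← h0] at hb
      exact ha hb.symm
    have hx' : (fun i : II m q ρ => x ((E.symm.trans σ) i)) ∈ XX T s e := hx
    have hy' : (fun i : II m q ρ => x ((E.symm.trans τ) i)) ∈ XX T s e := hy
    have h3 := near hs he2 hsm hx' (E a)
    have h4 := near hs he2 hsm hy' (E b)
    simp only [Equiv.trans_apply, Equiv.symm_apply_apply] at h3 h4
    rw [hb] at h4
    have h5 := Pos_sep (T := T) hs hab
    have h6 : ‖Pos T s (E a) - Pos T s (E b)‖ ≤ ‖x (σ a) - Pos T s (E a)‖ +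
        ‖x (σ a) - Pos T s (E b)‖ := by
      have e1 : Pos T s (E a) - Pos T s (E b) = (x (σ a) - Pos T s (E b)) -
        (x (σ a) - Pos T s (E a)) := by ring
      rw [e1]
      have := norm_sub_le (x (σ a) - Pos T s (E b)) (x (σ a) - Pos T s (E a))
      linarith
    linarith
  have hsub : (⋃ σ, P σ) ⊆ A N L := by
    intro x hx
    rw [mem_iUnion] at hx
    obtain ⟨σ, hσ'⟩ := hx
    have hσ : (fun i : II m q ρ => x ((E.symm.trans σ) i)) ∈ XX T s e := hσ'
    refine ⟨fun a => ?_, fun a b hab => ?_⟩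
    · have := in_box hs he2 hsm h1 h2 hσ (E (σ.symm a))
      simpa using this
    · have := sep hs he2 hsm hσ (i := E (σ.symm a)) (j := E (σ.symm b))
        (fun h => hab (σ.symm.injective (E.injective h)))
      simpa using this
  calc _ ≤ (N.factorial : ENNReal) * volume (XX T s e) :=
        mul_le_mul' le_rfl (XX_vol hs he he2)
    _ = ∑ σ : Equiv.Perm (Fin N), volume (P σ) := by
        simp_rw [hPv]
        rw [Finset.sum_const, Finset.card_univ, Fintype.card_perm, Fintype.card_fin, nsmul_eq_mul]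
    _ = volume (⋃ σ, P σ) := by rw [measure_iUnion hdis hPm, tsum_fintype]
    _ ≤ _ := measure_mono hsub

lemma card_Sq (m : ℕ) : (Sq m).card = (m + 1) ^ 2 := by
  rw [Sq, Finset.card_product, Int.card_Icc]
  have : ((m : ℤ) + 1 - 0).toNat = m + 1 := by omega
  rw [this, sq]

lemma card_In (m : ℕ) : (In m).card = (m - 1) ^ 2 := by
  rw [In, Finset.card_product, Int.card_Ioo]
  have : ((m : ℤ) - 0 - 1).toNat = m - 1 := by omega
  rw [this, sq]

lemma card_bd (m : ℕ) : (Sq m \ In m).card + (m - 1) ^ 2 = (m + 1) ^ 2 := by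
  have h : In m ⊆ Sq m := fun z hz => In_sub hz
  have := Finset.card_sdiff_add_card_eq_card h
  rw [card_In, card_Sq] at this
  exact this

lemma exists_dat (m K₁ K₂ q ρ : ℕ) (h : q * (m + 1) ^ 2 + ρ ≤ (m + 1) ^ 2 * (K₁ * K₂)) :
    Nonempty (Dat m K₁ K₂ q ρ) := by
  classical
  have hn : 0 < (m + 1) ^ 2 := by positivity
  have hq : q ≤ K₁ * K₂ := by
    by_contra hcon
    push Not at hcon
    have : (m + 1) ^ 2 * (K₁ * K₂) < (m + 1) ^ 2 * q := Nat.mul_lt_mul_of_pos_left hcon hn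
    nlinarith
  obtain ⟨g⟩ : Nonempty (Fin q ↪ Fin K₁ × Fin K₂) := by
    rw [Function.Embedding.nonempty_iff_card_le]
    simpa using hq
  set U : Finset ((Fin K₁ × Fin K₂) × ↥(Sq m)) := (Finset.univ.image g)ᶜ ×ˢ Finset.univ with hU
  have hUc : ρ ≤ U.card := by
    rw [hU, Finset.card_product, Finset.card_compl, Finset.card_image_of_injective _ g.injective,
      Finset.card_univ, Finset.card_univ, Fintype.card_fin, Fintype.card_coe, card_Sq,
      Fintype.card_prod, Fintype.card_fin, Fintype.card_fin, Nat.sub_mul]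
    have : (m + 1) ^ 2 * (K₁ * K₂) = K₁ * K₂ * (m + 1) ^ 2 := mul_comm _ _
    omega
  obtain ⟨h⟩ : Nonempty (Fin ρ ↪ U) := by
    rw [Function.Embedding.nonempty_iff_card_le]
    simpa using hUc
  refine ⟨⟨fun β => ((g β).1, (g β).2), fun i => ((((h i).1.1.1 : ℕ), ((h i).1.1.2 : ℕ)),
    ((h i).1.2 : ℤ × ℤ)), ?_, ?_, fun β => ⟨(g β).1.2, (g β).2.2⟩,
    fun i => ⟨(h i).1.1.1.2, (h i).1.1.2.2⟩, fun i => (h i).1.2.2, ?_⟩⟩
  · intro a b hab
    simp only [Prod.mk.injEq] at hab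
    exact g.injective (Prod.ext (Fin.ext hab.1) (Fin.ext hab.2))
  · intro a b hab
    simp only [Prod.mk.injEq] at hab
    refine h.injective (Subtype.ext (Prod.ext (Prod.ext (Fin.ext hab.1.1) (Fin.ext hab.1.2))
      (Subtype.ext hab.2)))
  · intro i β hc
    simp only [Prod.mk.injEq] at hc
    have h1 := Finset.mem_compl.1 (Finset.mem_product.1 (h i).2).1
    refine h1 (Finset.mem_image.2 ⟨β, Finset.mem_univ _, ?_⟩)
    exact (Prod.ext (Fin.ext hc.1) (Fin.ext hc.2)).symm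

end Low

theorem lower_block (m : ℕ) (hm : 1 ≤ m) (s e : ℝ) (hs : 0 < s) (he : 0 < e) (he2 : e ≤ 1 / 2)
    (hsm : s * (m + 1) ≤ 1 / 100) (L : ℝ) (K₁ K₂ N : ℕ)
    (h1 : (1 + s) * ((m + 1) * K₁ + m + 2) + 1 ≤ L) (h2 : (1 + s) * (√3 / 2 * ((m + 1) * K₂)) + 1 ≤ L)
    (hN : N ≤ (m + 1) ^ 2 * (K₁ * K₂)) :
    ((e * s) ^ 2) ^ (N - (N / (m + 1) ^ 2) * (m - 1) ^ 2) *
      (((1 - e) * s) ^ (2 * (m - 1) ^ 2) * (W m pt).toReal) ^ (N / (m + 1) ^ 2) ≤ zr L N := by
  set n := (m + 1) ^ 2 with hn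
  set q := N / n with hq
  set ρ := N % n with hρ
  have hNe : q * n + ρ = N := by rw [hq, hρ, mul_comm]; exact Nat.div_add_mod N n
  obtain ⟨T⟩ := Low.exists_dat m K₁ K₂ q ρ (by rw [← hn, hNe]; exact hN)
  have hcb := Low.card_bd m
  have hcP : Fintype.card (Low.PP m q ρ) = N - q * (m - 1) ^ 2 := by
    rw [Fintype.card_sum, Fintype.card_prod, Fintype.card_fin, Fintype.card_fin, Fintype.card_coe]
    have : q * (Sq m \ In m).card + q * (m - 1) ^ 2 = q * n := by rw [← mul_add, hcb]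
    omega
  have hcI : Fintype.card (Low.II m q ρ) = N := by
    rw [Fintype.card_sum, hcP, Fintype.card_prod, Fintype.card_fin, Fintype.card_coe, Low.card_In]
    have : q * (m - 1) ^ 2 ≤ q * n := Nat.mul_le_mul_left _ (by rw [hn, ← hcb]; omega)
    omega
  have E : Fin N ≃ Low.II m q ρ := (Fintype.equivFinOfCardEq hcI).symm
  have hmain := Low.main hs he he2 hsm h1 h2 E T
  rw [hcP] at hmain
  have hL : 0 ≤ L := by
    have : 0 ≤ (1 + s) * (√3 / 2 * ((m + 1) * K₂)) := by positivity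
    linarith
  have hW : W m pt ≠ ⊤ := ((W_pt_le m).trans_lt ENNReal.ofReal_lt_top).ne
  have hp : 0 ≤ (1 - e) * s := mul_nonneg (by linarith) hs.le
  have hr : (0 : ℝ) ≤ ((e * s) ^ 2) ^ (N - q * (m - 1) ^ 2) *
      (((1 - e) * s) ^ (2 * (m - 1) ^ 2) * (W m pt).toReal) ^ q :=
    mul_nonneg (by positivity) (pow_nonneg (mul_nonneg (pow_nonneg hp _) ENNReal.toReal_nonneg) _)
  rw [zr_eq, le_div_iff₀ (by exact_mod_cast Nat.factorial_pos N)]
  have h3 : ENNReal.ofReal ((((e * s) ^ 2) ^ (N - q * (m - 1) ^ 2) *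
      (((1 - e) * s) ^ (2 * (m - 1) ^ 2) * (W m pt).toReal) ^ q) * N.factorial) ≤
      volume (A N L) := by
    refine le_trans (le_of_eq ?_) hmain
    rw [ENNReal.ofReal_mul hr, ENNReal.ofReal_natCast, mul_comm, ENNReal.ofReal_mul (by positivity),
      ENNReal.ofReal_pow (by positivity), ENNReal.ofReal_pow (mul_nonneg (pow_nonneg hp _)
        ENNReal.toReal_nonneg), ENNReal.ofReal_mul (pow_nonneg hp _), ENNReal.ofReal_toReal hW]
  exact (ENNReal.ofReal_le_iff_le_toReal (A_ne_top N hL)).1 h3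

end Pool.Agent.J4.H83.HD
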