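import Pool.Agent.J4.H83.HD.W
import Pool.Agent.J4.H83.HD.Low

/-!
# Piece WSUP: superadditivity of the polytope volumes

The rhombus with side `M` contains `K²` disjoint rhombi with side `m`; the other points are pinned.
-/

set_option autoImplicit false

open MeasureTheory Set

namespace Pool.Agent.J4.H83.HD

open Pool.Agent.J4.H83.FV

namespace Wsup

/-- the corner of a rhombus -/
def cb (m : ℕ) (a b : ℕ) : ℤ × ℤ :=
  (1 + (((m + 1) * a : ℕ) : ℤ), 1 + (((m + 1) * b : ℕ) : ℤ))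

lemma cb_inj {m a b a' b' : ℕ} {y y' : ℤ × ℤ} (hy : y ∈ Sq m) (hy' : y' ∈ Sq m)
    (h : cb m a b + y = cb m a' b' + y') : a = a' ∧ b = b' ∧ y = y' := by
  rw [Low.mem_Sq] at hy hy'
  have h2 := congrArg Prod.snd h
  have h1 := congrArg Prod.fst h
  simp only [cb, Prod.fst_add, Prod.snd_add] at h1 h2
  have e2 : b = b' := Low.mul_cmp hy.2.1 hy.2.2 hy'.2.1 hy'.2.2 (by linarith)
  have e1 : a = a' := Low.mul_cmp hy.1.1 hy.1.2 hy'.1.1 hy'.1.2 (by linarith)
  rw [e1] at h1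
  rw [e2] at h2
  exact ⟨e1, e2, Prod.ext (by linarith) (by linarith)⟩

lemma cb_mem {m K M a b : ℕ} (hM : (m + 1) * K + 1 ≤ M) (ha : a < K) (hb : b < K) {y : ℤ × ℤ}
    (hy : y ∈ Sq m) : cb m a b + y ∈ In M := by
  rw [Low.mem_Sq] at hy
  rw [Low.mem_In]
  have h1 : (m + 1) * (a + 1) ≤ (m + 1) * K := Nat.mul_le_mul_left _ ha
  have h2 : (m + 1) * (b + 1) ≤ (m + 1) * K := Nat.mul_le_mul_left _ hb
  have h3 : (m + 1) * a + m + 2 ≤ M := by nlinarith
  have h4 : (m + 1) * b + m + 2 ≤ M := by nlinarith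
  simp only [cb, Prod.fst_add, Prod.snd_add]
  have h5 : (((m + 1) * a : ℕ) : ℤ) + m + 2 ≤ M := by exact_mod_cast h3
  have h6 : (((m + 1) * b : ℕ) : ℤ) + m + 2 ≤ M := by exact_mod_cast h4
  have h7 : (0 : ℤ) ≤ (((m + 1) * a : ℕ) : ℤ) := Nat.cast_nonneg _
  have h8 : (0 : ℤ) ≤ (((m + 1) * b : ℕ) : ℤ) := Nat.cast_nonneg _
  omega

/-- the interior points of the rhombi -/
def blk (m K : ℕ) (z : ℤ × ℤ) : Prop := ∃ β : Fin K × Fin K, z - cb m β.1 β.2 ∈ In m

/-- the pinned points -/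
abbrev PT (m K M : ℕ) : Type := {z : In M // ¬ blk m K z.1}

variable {m K M : ℕ}

noncomputable instance : Fintype (PT m K M) := Fintype.ofFinite _

/-- the slots of the rhombus `M` -/
def fI (hM : (m + 1) * K + 1 ≤ M) : PT m K M ⊕ (Fin K × Fin K) × In m → In M
  | Sum.inl p => p.1
  | Sum.inr q => ⟨cb m q.1.1 q.1.2 + q.2.1, cb_mem hM q.1.1.2 q.1.2.2 (Low.In_sub q.2.2)⟩

lemma fI_bij (hM : (m + 1) * K + 1 ≤ M) : Function.Bijective (fI hM) := by
  constructor
  · intro i j hij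
    rcases i with p | ⟨β, z⟩ <;> rcases j with p' | ⟨β', z'⟩
    · rw [show p = p' from Subtype.ext hij]
    · exfalso
      apply p.2
      refine ⟨β', ?_⟩
      have h1 : (p.1 : ℤ × ℤ) = cb m β'.1 β'.2 + z' := congrArg Subtype.val hij
      rw [h1, add_sub_cancel_left]
      exact z'.2
    · exfalso
      apply p'.2
      refine ⟨β, ?_⟩
      have h1 : cb m β.1 β.2 + z = (p'.1 : ℤ × ℤ) := congrArg Subtype.val hij
      rw [← h1, add_sub_cancel_left]
      exact z.2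
    · have h1 : cb m β.1 β.2 + z = cb m β'.1 β'.2 + z' := congrArg Subtype.val hij
      obtain ⟨h2, h3, h4⟩ := cb_inj (Low.In_sub z.2) (Low.In_sub z'.2) h1
      have h5 : β = β' := Prod.ext (Fin.ext h2) (Fin.ext h3)
      have h6 : z = z' := Subtype.ext h4
      rw [h5, h6]
  · intro z
    by_cases h : blk m K z.1
    · obtain ⟨β, hβ⟩ := h
      refine ⟨Sum.inr (β, ⟨_, hβ⟩), ?_⟩
      apply Subtype.ext
      change cb m β.1 β.2 + (z.1 - cb m β.1 β.2) = z.1
      rw [add_sub_cancel]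
    · exact ⟨Sum.inl ⟨z, h⟩, rfl⟩

lemma card_PT (hM : (m + 1) * K + 1 ≤ M) :
    Fintype.card (PT m K M) = (M - 1) ^ 2 - K ^ 2 * (m - 1) ^ 2 := by
  have h := Fintype.card_congr (Equiv.ofBijective _ (fI_bij hM))
  rw [card_In, Fintype.card_sum, Fintype.card_prod, Fintype.card_prod, Fintype.card_fin, card_In] at h
  rw [← h, sq K]
  omega

open Classical in
/-- the boundary values of a rhombus -/
noncomputable def bd (hM : (m + 1) * K + 1 ≤ M) (x : PT m K M → ℂ) (β : Fin K × Fin K)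
    (y : ℤ × ℤ) : ℂ :=
  if hy : ∃ h : cb m β.1 β.2 + y ∈ In M, ¬ blk m K (cb m β.1 β.2 + y) then
    x ⟨⟨cb m β.1 β.2 + y, hy.1⟩, hy.2⟩ - pt (cb m β.1 β.2) else 0

/-- the constraints of a rhombus -/
def SS (hM : (m + 1) * K + 1 ≤ M) (β : Fin K × Fin K) : Set ((PT m K M → ℂ) × (In m → ℂ)) :=
  {w | (fun z => w.2 z - pt (cb m β.1 β.2)) ∈ CS m (bd hM w.1 β)}

lemma SS_meas (hM : (m + 1) * K + 1 ≤ M) (β : Fin K × Fin K) : MeasurableSet (SS hM β) := by
  have h : SS hM β = ⋂ z, ⋂ k : Fin 3, ⋂ _ : z ∈ Sq m ∧ z + dr k ∈ Sq m ∧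
      (z ∈ In m ∨ z + dr k ∈ In m), {w : (PT m K M → ℂ) × (In m → ℂ) |
      0 ≤ gl (glue m (bd hM w.1 β) (fun z => w.2 z - pt (cb m β.1 β.2))) z k} := by
    ext w
    simp only [SS, CS, mem_iInter, Set.mem_ofPred_eq]
    exact ⟨fun h z k hz => h z hz.1 k hz.2.1 hz.2.2, fun h z hz k h1 h2 => h z k ⟨hz, h1, h2⟩⟩
  have hg : ∀ y, Measurable fun w : (PT m K M → ℂ) × (In m → ℂ) =>
      glue m (bd hM w.1 β) (fun z => w.2 z - pt (cb m β.1 β.2)) y := by
    intro y
    unfold glue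
    by_cases hy : y ∈ In m
    · simp only [hy, dif_pos]
      fun_prop
    · simp only [hy, dif_neg, not_false_eq_true]
      unfold bd
      by_cases hy2 : ∃ h : cb m β.1 β.2 + y ∈ In M, ¬ blk m K (cb m β.1 β.2 + y)
      · simp only [dif_pos hy2]
        fun_prop
      · simp only [dif_neg hy2]
        fun_prop
  rw [h]
  refine MeasurableSet.iInter fun z => MeasurableSet.iInter fun k => MeasurableSet.iInter fun _ =>
      measurableSet_le measurable_const ?_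
  unfold gl
  exact Complex.measurable_re.comp (measurable_const.mul ((hg _).sub (hg _)))

lemma not_blk {β : Fin K × Fin K} {y : ℤ × ℤ} (hy : y ∈ Sq m) (hy2 : y ∉ In m) :
    ¬ blk m K (cb m β.1 β.2 + y) := by
  rintro ⟨β', hβ'⟩
  have h1 : cb m β.1 β.2 + y = cb m β'.1 β'.2 + (cb m β.1 β.2 + y - cb m β'.1 β'.2) := by
    rw [add_sub_cancel]
  obtain ⟨-, -, h4⟩ := cb_inj hy (Low.In_sub hβ') h1
  exact hy2 (h4 ▸ hβ')

lemma bd_eq (hM : (m + 1) * K + 1 ≤ M) (x : PT m K M → ℂ) (β : Fin K × Fin K) {y : ℤ × ℤ}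
    (hy : y ∈ Sq m) (hy2 : y ∉ In m) :
    bd hM x β y = x ⟨⟨cb m β.1 β.2 + y, cb_mem hM β.1.2 β.2.2 hy⟩, not_blk hy hy2⟩ -
      pt (cb m β.1 β.2) := by
  unfold bd
  rw [dif_pos ⟨cb_mem hM β.1.2 β.2.2 hy, not_blk hy hy2⟩]

/-- the configurations -/
def XX (hM : (m + 1) * K + 1 ≤ M) (e : ℝ) : Set (PT m K M ⊕ (Fin K × Fin K) × In m → ℂ) :=
  {x | (∀ p, x (Sum.inl p) ∈ Metric.closedBall (pt p.1.1) e) ∧
    ∀ β, ((fun p => x (Sum.inl p)), (fun j => x (Sum.inr (β, j)))) ∈ SS hM β}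

lemma XX_meas (hM : (m + 1) * K + 1 ≤ M) (e : ℝ) : MeasurableSet (XX hM e) := by
  have h : XX hM e = (⋂ p, (fun x : PT m K M ⊕ (Fin K × Fin K) × In m → ℂ => x (Sum.inl p)) ⁻¹'
      (Metric.closedBall (pt p.1.1) e)) ∩
      ⋂ β, (fun x : PT m K M ⊕ (Fin K × Fin K) × In m → ℂ =>
        ((fun p => x (Sum.inl p)), (fun j => x (Sum.inr (β, j))))) ⁻¹' (SS hM β) := by
    ext x
    simp only [XX, mem_inter_iff, mem_iInter, mem_preimage]
    rfl
  rw [h]
  have : Countable (PT m K M) := Finite.to_countable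
  refine (MeasurableSet.iInter fun p => (measurable_pi_apply _)
    Metric.isClosed_closedBall.measurableSet).inter
    (MeasurableSet.iInter fun β => (by fun_prop : Measurable
      (fun x : PT m K M ⊕ (Fin K × Fin K) × In m → ℂ =>
      ((fun p => x (Sum.inl p)), (fun j => x (Sum.inr (β, j)))))) (SS_meas hM β))

lemma XX_vol (hM : (m + 1) * K + 1 ≤ M) {e : ℝ} (he : 0 < e) (he2 : e ≤ 1 / 2) :
    ENNReal.ofReal (e ^ 2) ^ (Fintype.card (PT m K M)) *
      (ENNReal.ofReal ((1 - e) ^ (2 * (m - 1) ^ 2)) * W m pt) ^ (K ^ 2) ≤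
      volume (XX hM e) := by
  have h1 := Low.vol_fiber (fun p : PT m K M => Metric.closedBall (pt p.1.1) e)
    (fun p => Metric.isClosed_closedBall.measurableSet) (SS hM) (SS_meas hM)
    (ENNReal.ofReal ((1 - e) ^ (2 * (m - 1) ^ 2)) * W m pt) ?_
  · rw [Fintype.card_prod, Fintype.card_fin, ← sq] at h1
    refine le_trans (mul_le_mul' ?_ le_rfl) h1
    rw [← Finset.card_univ, ← Finset.prod_const]
    exact Finset.prod_le_prod' fun p _ => Low.vol_ball _ he.le
  · intro β y hy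
    have hy' : ∀ p, y p ∈ Metric.closedBall (pt p.1.1) e := fun p => hy p (mem_univ p)
    have h2 : {w : In m → ℂ | (y, w) ∈ SS hM β} =
        (fun w => w - fun _ : In m => pt (cb m β.1 β.2)) ⁻¹' (CS m (bd hM y β)) := by
      ext w
      rfl
    rw [h2, (measurePreserving_sub_right volume (fun _ : In m => pt (cb m β.1 β.2))).measure_preimage
      (CS_meas m _).nullMeasurableSet, ← W_smul m (1 - e) (by linarith)]
    refine W_robust m e 0 he.le _ _ fun z hz hz2 => ?_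
    have h3 := hy' ⟨⟨cb m β.1 β.2 + z, cb_mem hM β.1.2 β.2.2 hz⟩, not_blk hz hz2⟩
    rw [Metric.mem_closedBall, dist_eq_norm] at h3
    refine le_trans (le_of_eq ?_) h3
    rw [bd_eq hM y β hz hz2, pt_add]
    congr 1
    push_cast
    ring

/-- the values in a rhombus -/
lemma val (hM : (m + 1) * K + 1 ≤ M) (x : In M → ℂ) (β : Fin K × Fin K) {y : ℤ × ℤ}
    (hy : y ∈ Sq m) :
    glue M pt x (cb m β.1 β.2 + y) = pt (cb m β.1 β.2) +
      glue m (bd hM (fun p => x (fI hM (Sum.inl p))) β)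
        (fun z => x (fI hM (Sum.inr (β, z))) - pt (cb m β.1 β.2)) y := by
  have h1 : glue M pt x (cb m β.1 β.2 + y) = x ⟨cb m β.1 β.2 + y, cb_mem hM β.1.2 β.2.2 hy⟩ := by
    unfold glue
    rw [dif_pos (cb_mem hM β.1.2 β.2.2 hy)]
  rw [h1]
  by_cases hy2 : y ∈ In m
  · have h2 : glue m (bd hM (fun p => x (fI hM (Sum.inl p))) β)
        (fun z => x (fI hM (Sum.inr (β, z))) - pt (cb m β.1 β.2)) y =
        x (fI hM (Sum.inr (β, ⟨y, hy2⟩))) - pt (cb m β.1 β.2) := by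
      unfold glue
      rw [dif_pos hy2]
    rw [h2]
    change _ = pt (cb m β.1 β.2) + (x ⟨cb m β.1 β.2 + y, _⟩ - pt (cb m β.1 β.2))
    ring
  · rw [Low.glue_out _ _ hy2, bd_eq hM _ β hy hy2]
    change _ = pt (cb m β.1 β.2) + (x ⟨cb m β.1 β.2 + y, _⟩ - pt (cb m β.1 β.2))
    ring

lemma gl_val (hM : (m + 1) * K + 1 ≤ M) (x : In M → ℂ) (β : Fin K × Fin K) {y : ℤ × ℤ} {k : Fin 3}
    (hy : y ∈ Sq m) (hk : y + dr k ∈ Sq m) :
    gl (glue M pt x) (cb m β.1 β.2 + y) k =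
      gl (glue m (bd hM (fun p => x (fI hM (Sum.inl p))) β)
        (fun z => x (fI hM (Sum.inr (β, z))) - pt (cb m β.1 β.2))) y k := by
  unfold gl
  rw [add_assoc, val hM x β hy, val hM x β hk]
  congr 2
  ring

lemma XX_sub (hM : (m + 1) * K + 1 ≤ M) {e : ℝ} (he : 0 < e) (he2 : e ≤ 1 / 2) :
    (fun (x : In M → ℂ) (i : PT m K M ⊕ (Fin K × Fin K) × In m) => x (fI hM i)) ⁻¹' XX hM e ⊆
      CS M pt := by
  intro x hx z hz k hk hzk
  have hx1 := hx.1
  have hx2 := hx.2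
  by_cases h1 : blk m K z
  · obtain ⟨β, hβ⟩ := h1
    have h2 := hx2 β _ (Low.In_sub hβ) k (Low.In_nbr hβ k).1 (Or.inl hβ)
    have h3 := gl_val hM x β (Low.In_sub hβ) (Low.In_nbr hβ k).1
    rw [add_sub_cancel] at h3
    rw [h3]
    exact h2
  · by_cases h2 : blk m K (z + dr k)
    · obtain ⟨β, hβ⟩ := h2
      have e0 : z + dr k - cb m β.1 β.2 - dr k = z - cb m β.1 β.2 := by abel
      have e1 : z - cb m β.1 β.2 + dr k = z + dr k - cb m β.1 β.2 := by abel
      have h4 := (Low.In_nbr hβ k).2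
      rw [e0] at h4
      have h5 : z - cb m β.1 β.2 + dr k ∈ Sq m := by rw [e1]; exact Low.In_sub hβ
      have h6 := hx2 β _ h4 k h5 (Or.inr (by rw [e1]; exact hβ))
      have h3 := gl_val hM x β h4 h5
      rw [add_sub_cancel] at h3
      rw [h3]
      exact h6
    · have her : ∀ y, ¬ blk m K y → ‖glue M pt x y - pt y‖ ≤ e := by
        intro y hb
        by_cases hy : y ∈ In M
        · have := hx1 ⟨⟨y, hy⟩, hb⟩
          rw [Metric.mem_closedBall, dist_eq_norm] at this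
          simpa [glue, dif_pos hy, fI] using this
        · simp [glue, dif_neg hy, he.le]
      have hpt : pt (z + dr k) - pt z = om ^ (k : ℕ) := by rw [pt_add, pt_dr]; ring
      have e1 : (starRingEnd ℂ) (om ^ (k : ℕ)) * (glue M pt x (z + dr k) - glue M pt x z) =
          1 + (starRingEnd ℂ) (om ^ (k : ℕ)) *
            ((glue M pt x (z + dr k) - pt (z + dr k)) - (glue M pt x z - pt z)) := by
        have e3 := conj_om_pow (k : ℕ)
        rw [← hpt] at e3 ⊢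
        linear_combination e3
      have hcn : ‖(starRingEnd ℂ) (om ^ (k : ℕ))‖ = 1 := by rw [RCLike.norm_conj, norm_om_pow]
      have h5 := Complex.abs_re_le_norm ((starRingEnd ℂ) (om ^ (k : ℕ)) *
            ((glue M pt x (z + dr k) - pt (z + dr k)) - (glue M pt x z - pt z)))
      rw [norm_mul, hcn, one_mul] at h5
      have h3 : ‖(glue M pt x (z + dr k) - pt (z + dr k)) - (glue M pt x z - pt z)‖ ≤ 1 := by
        refine (norm_sub_le _ _).trans ?_
        have := her z h1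
        have := her (z + dr k) h2
        linarith
      have h4 := (abs_le.1 (h5.trans h3)).1
      unfold gl
      rw [e1, Complex.add_re, Complex.one_re]
      linarith

end Wsup

theorem W_super (m K M : ℕ) (hm : 1 ≤ m) (e : ℝ) (he : 0 < e) (he2 : e ≤ 1 / 2)
    (hM : (m + 1) * K + 1 ≤ M) :
    ENNReal.ofReal ((e ^ 2) ^ ((M - 1) ^ 2 - K ^ 2 * (m - 1) ^ 2)) *
      (ENNReal.ofReal ((1 - e) ^ (2 * (m - 1) ^ 2)) * W m pt) ^ (K ^ 2) ≤ W M pt := by
  have h1 := Wsup.XX_vol (m := m) (K := K) hM he he2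
  rw [Wsup.card_PT hM, ← ENNReal.ofReal_pow (by positivity)] at h1
  refine h1.trans ?_
  have hmp := mp_comp (Equiv.ofBijective _ (Wsup.fI_bij (m := m) (K := K) hM))
  calc volume (Wsup.XX hM e) = volume ((fun (x : In M → ℂ)
        (i : Wsup.PT m K M ⊕ (Fin K × Fin K) × In m) => x (Wsup.fI hM i)) ⁻¹' Wsup.XX hM e) := by
        symm
        exact hmp.measure_preimage (Wsup.XX_meas hM e).nullMeasurableSet
    _ ≤ W M pt := measure_mono (Wsup.XX_sub hM he he2)

end Pool.Agent.J4.H83.HD
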