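import Pool.Agent.J4.H83.HD.KlimA
import Pool.Agent.J4.H83.HD.Wsup

/-!
# Existence of the limit of the polytope constants
-/

set_option autoImplicit false

open MeasureTheory Set Filter Topology

namespace Pool.Agent.J4.H83.HD

theorem klim (B : ℝ) (hB : ∀ᶠ m : ℕ in atTop, Real.log (W m pt).toReal / (m : ℝ) ^ 2 ≤ B) :
    ∃ S : ℝ, Tendsto (fun m : ℕ => Real.log (W m pt).toReal / (m : ℝ) ^ 2) atTop (𝓝 S) :=
  KL.klim_of (fun m K M hm e he he2 hM => W_super m K M hm e he he2 hM) B hB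

end Pool.Agent.J4.H83.HD
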