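import Pool.Agent.J4.H83.HD.Norm2
import Pool.Agent.J4.H83.HD.Klim
import Pool.Agent.J4.H83.HD.Exist

/-!
# The pressure near close packing
-/

set_option autoImplicit false

open MeasureTheory Set Filter Topology

namespace Pool.Agent.J4.H83.HD

open Pool.Agent.J4.H83.FV

/-- slopes of a convex function with a logarithmic singularity -/
theorem conv_asym (F : ℝ → ℝ) (x₀ κ : ℝ) (hconv : ConvexOn ℝ (Ioi x₀) F)
    (hlim : Tendsto (fun x => F x + 2 * Real.log (x - x₀)) (𝓝[>] x₀) (𝓝 κ)) (ε : ℝ) (hε : 0 < ε) :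
    ∃ δ : ℝ, 0 < δ ∧ ∀ x₁ x₂, x₀ < x₁ → x₁ < x₂ → x₂ < x₀ + δ →
      (2 - ε) / (x₂ - x₀) ≤ (F x₁ - F x₂) / (x₂ - x₁) ∧
      (F x₁ - F x₂) / (x₂ - x₁) ≤ (2 + ε) / (x₁ - x₀) := by
  -- the parameter t
  set t : ℝ := min (1 / 2) (ε / 8) with ht
  have ht0 : 0 < t := by positivity
  have ht1 : t ≤ 1 / 2 := min_le_left _ _
  have ht2 : t ≤ ε / 8 := min_le_right _ _
  set e : ℝ := ε * t / 8 with he
  have he0 : 0 < e := by positivity
  rw [Metric.tendsto_nhdsWithin_nhds] at hlim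
  obtain ⟨δ₁, hδ₁, h⟩ := hlim e he0
  have h' : ∀ x, x₀ < x → x < x₀ + δ₁ → |F x + 2 * Real.log (x - x₀) - κ| < e := by
    intro x h1 h2
    have := h (x := x) h1 (by rw [Real.dist_eq, abs_lt]; constructor <;> linarith)
    rwa [Real.dist_eq] at this
  refine ⟨δ₁ / 2, by positivity, ?_⟩
  intro x₁ x₂ h1 h12 h2
  have hp1 : 0 < x₁ - x₀ := by linarith
  have hp2 : 0 < x₂ - x₀ := by linarith
  have hp12 : 0 < x₂ - x₁ := by linarith
  have a1 := abs_lt.1 (h' x₁ h1 (by linarith))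
  have a2 := abs_lt.1 (h' x₂ (by linarith) (by linarith))
  constructor
  · set z := x₀ + (1 + t) * (x₂ - x₀) with hz
    have hzx : z - x₂ = t * (x₂ - x₀) := by rw [hz]; ring
    have hz1 : x₂ < z := by
      have : 0 < z - x₂ := by rw [hzx]; positivity
      linarith
    have hz2 : z < x₀ + δ₁ := by
      rw [hz]
      nlinarith
    have hz3 : z - x₀ = (1 + t) * (x₂ - x₀) := by rw [hz]; ring
    have a3 := abs_lt.1 (h' z (by linarith) hz2)
    rw [hz3, Real.log_mul (by positivity) hp2.ne'] at a3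
    have hs := hconv.slope_mono_adjacent (x := x₁) (y := x₂) (z := z) h1 (by show x₀ < z; linarith)
      h12 hz1
    rw [hzx] at hs
    have hl : t / (1 + t) ≤ Real.log (1 + t) := by
      have := Real.one_sub_inv_le_log_of_pos (show 0 < 1 + t by positivity)
      refine le_trans (le_of_eq ?_) this
      field_simp
      ring
    have hl2 : t * (1 - t) ≤ t / (1 + t) := by
      rw [le_div_iff₀ (by positivity)]
      have e1 : t * (1 - t) * (1 + t) = t - t ^ 3 := by ring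
      have e2 : 0 < t ^ 3 := by positivity
      linarith
    have hF : (2 - ε) * t ≤ F x₂ - F z := by
      have b1 : 2 * Real.log (1 + t) - 2 * e ≤ F x₂ - F z := by linarith [a3.1, a3.2, a2.1, a2.2]
      rw [he] at b1
      nlinarith
    have hs' : (F x₂ - F z) / (t * (x₂ - x₀)) ≤ (F x₁ - F x₂) / (x₂ - x₁) := by
      have e1 : (F x₂ - F z) / (t * (x₂ - x₀)) = -((F z - F x₂) / (t * (x₂ - x₀))) := by
        rw [← neg_div]; congr 1; ring
      have e2 : (F x₁ - F x₂) / (x₂ - x₁) = -((F x₂ - F x₁) / (x₂ - x₁)) := by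
        rw [← neg_div]; congr 1; ring
      rw [e1, e2]
      exact neg_le_neg hs
    refine le_trans ?_ hs'
    rw [div_le_div_iff₀ hp2 (by positivity)]
    calc (2 - ε) * (t * (x₂ - x₀)) = ((2 - ε) * t) * (x₂ - x₀) := by ring
      _ ≤ (F x₂ - F z) * (x₂ - x₀) := mul_le_mul_of_nonneg_right hF hp2.le
  · set y := x₀ + (1 - t) * (x₁ - x₀) with hy
    have hyx : x₁ - y = t * (x₁ - x₀) := by rw [hy]; ring
    have hy3 : y - x₀ = (1 - t) * (x₁ - x₀) := by rw [hy]; ring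
    have h1t : 0 < 1 - t := by linarith
    have hy0 : x₀ < y := by
      have : 0 < y - x₀ := by rw [hy3]; positivity
      linarith
    have hy1 : y < x₁ := by
      have : 0 < x₁ - y := by rw [hyx]; positivity
      linarith
    have a3 := abs_lt.1 (h' y hy0 (by linarith))
    rw [hy3, Real.log_mul h1t.ne' hp1.ne'] at a3
    have hs := hconv.slope_mono_adjacent (x := y) (y := x₁) (z := x₂) hy0 (by show x₀ < x₂; linarith)
      hy1 h12
    rw [hyx] at hs
    have hl : -Real.log (1 - t) ≤ t / (1 - t) := by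
      have := Real.one_sub_inv_le_log_of_pos h1t
      have e1 : t / (1 - t) = -(1 - (1 - t)⁻¹) := by field_simp; ring
      rw [e1]
      linarith
    have hl2 : t / (1 - t) ≤ t * (1 + 2 * t) := by
      rw [div_le_iff₀ h1t]
      have e1 : t * (1 + 2 * t) * (1 - t) = t + t ^ 2 * (1 - 2 * t) := by ring
      have e2 : 0 ≤ t ^ 2 * (1 - 2 * t) := mul_nonneg (by positivity) (by linarith)
      linarith
    have hF : F y - F x₁ ≤ (2 + ε) * t := by
      have b1 : F y - F x₁ ≤ -2 * Real.log (1 - t) + 2 * e := by linarith [a3.1, a3.2, a1.1, a1.2]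
      rw [he] at b1
      nlinarith
    have hs' : (F x₁ - F x₂) / (x₂ - x₁) ≤ (F y - F x₁) / (t * (x₁ - x₀)) := by
      have e1 : (F y - F x₁) / (t * (x₁ - x₀)) = -((F x₁ - F y) / (t * (x₁ - x₀))) := by
        rw [← neg_div]; congr 1; ring
      have e2 : (F x₁ - F x₂) / (x₂ - x₁) = -((F x₂ - F x₁) / (x₂ - x₁)) := by
        rw [← neg_div]; congr 1; ring
      rw [e1, e2]
      exact neg_le_neg hs
    refine hs'.trans ?_
    rw [div_le_div_iff₀ (by positivity) hp1]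
    calc (F y - F x₁) * (x₁ - x₀) ≤ ((2 + ε) * t) * (x₁ - x₀) :=
          mul_le_mul_of_nonneg_right hF hp1.le
      _ = _ := by ring

/-- affine pieces of a function with bounds for the slopes -/
theorem affine_piece (F : ℝ → ℝ) (x₀ c₁ c₂ : ℝ) (hc₁ : 0 < c₁) (hc₂ : 0 < c₂) {x₁ x₂ A P : ℝ}
    (h1 : x₀ < x₁) (h12 : x₁ < x₂)
    (hs : ∀ y₁ y₂, x₁ ≤ y₁ → y₁ < y₂ → y₂ ≤ x₂ → c₁ / (y₂ - x₀) ≤ (F y₁ - F y₂) / (y₂ - y₁) ∧
      (F y₁ - F y₂) / (y₂ - y₁) ≤ c₂ / (y₁ - x₀))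
    (haff : ∀ v ∈ Icc x₁ x₂, F v = A - P * v) : c₁ * (x₂ - x₀) ≤ c₂ * (x₁ - x₀) := by
  have hsl : ∀ y₁ y₂, x₁ ≤ y₁ → y₁ < y₂ → y₂ ≤ x₂ → (F y₁ - F y₂) / (y₂ - y₁) = P := by
    intro y₁ y₂ a b c
    have : y₂ - y₁ ≠ 0 := by linarith
    rw [haff y₁ ⟨a, by linarith⟩, haff y₂ ⟨by linarith, c⟩]
    field_simp
    ring
  by_contra hcon
  push Not at hcon
  set G := c₁ * (x₂ - x₀) - c₂ * (x₁ - x₀) with hG
  have hG0 : 0 < G := by rw [hG]; linarith
  set ε := min ((x₂ - x₁) / 2) (G / (2 * (c₁ + c₂))) with hε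
  have hd : 0 < x₂ - x₁ := by linarith
  have hε0 : 0 < ε := lt_min (by positivity) (by positivity)
  have hε1 : ε ≤ (x₂ - x₁) / 2 := min_le_left _ _
  have hε2 : ε * (2 * (c₁ + c₂)) ≤ G := by
    have : ε ≤ G / (2 * (c₁ + c₂)) := min_le_right _ _
    rwa [le_div_iff₀ (by positivity)] at this
  have p1 := (hs x₁ (x₁ + ε) le_rfl (by linarith) (by linarith)).1
  have p2 := (hs (x₂ - ε) x₂ (by linarith) (by linarith) le_rfl).2
  rw [hsl x₁ (x₁ + ε) le_rfl (by linarith) (by linarith)] at p1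
  rw [hsl (x₂ - ε) x₂ (by linarith) (by linarith) le_rfl] at p2
  have p3 := p1.trans p2
  have s1 : 0 < x₁ + ε - x₀ := by linarith
  have s2 : 0 < x₂ - ε - x₀ := by linarith
  rw [div_le_div_iff₀ s1 s2] at p3
  nlinarith

end Pool.Agent.J4.H83.HD
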