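import Pool.Agent.J4.H83.HD.Final
import Pool.Agent.J4.H83.FV.Scale

/-!
# The normalised theorem and its scaled form
-/

set_option autoImplicit false

open MeasureTheory Set Filter Topology

namespace Pool.Agent.J4.H83.HD

open Pool.Agent.J4.H83.FV

/-- the thermodynamic limit -/
def Thm (ρ : ℝ) (L : ℕ → ℝ) (N : ℕ → ℕ) : Prop :=
  Tendsto L atTop atTop ∧ Tendsto (fun k => (N k : ℝ) / L k ^ 2) atTop (𝓝 ρ)

/-- `y` is the limiting free energy per particle of disks of radius `a` at the density `ρ` -/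
def FE (a ρ y : ℝ) : Prop := ∀ (L : ℕ → ℝ) (N : ℕ → ℕ), Thm ρ L N →
  Tendsto (fun k => -(1 / (N k : ℝ)) * Real.log (Z 2 a (L k) (N k))) atTop (𝓝 y)

lemma cc {z : ℝ} (hz : vc < z) : 0 < 1 / z ∧ 1 / z < rc := by
  have := vc_pos
  have hz0 : 0 < z := this.trans hz
  refine ⟨by positivity, ?_⟩
  rw [vc_eq] at hz
  rw [div_lt_iff₀ hz0]
  rw [div_lt_iff₀ rc_pos] at hz
  linarith

/-- the limiting free energy of disks of diameter one -/
theorem norm_limit (S : ℝ)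
    (hS : Tendsto (fun m : ℕ => Real.log (W m pt).toReal / (m : ℝ) ^ 2) atTop (𝓝 S))
    (f : ℝ → ℝ) (hf : ∀ ρ, 0 < ρ → ρ < rc → IsFE ρ (f ρ)) :
    Tendsto (fun v => f (1 / v) + 2 * Real.log (v - vc)) (𝓝[>] vc) (𝓝 (Real.log 3 - S)) := by
  rw [Metric.tendsto_nhdsWithin_nhds]
  intro ε hε
  obtain ⟨δ₀, hδ₀, h⟩ := norm_asym2 S hS (ε / 2) (by positivity)
  refine ⟨δ₀, hδ₀, fun {v} hv hd => ?_⟩
  have hv' : vc < v := hv
  rw [Real.dist_eq, abs_of_pos (by linarith)] at hd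
  obtain ⟨h1, h2⟩ := cc hv'
  obtain ⟨L, N, hL, hN⟩ := exists_seq (1 / v) h1
  have h3 := h (v - vc) (by linarith) hd L N hL (by
    have e : √3 / 2 + (v - vc) = v := by unfold vc; ring
    rw [e]; exact hN)
  have h4 := hf _ h1 h2 L N hL hN
  have h5 : Tendsto (fun k => |-(1 / (N k : ℝ)) * Real.log (zr (L k) (N k)) +
      2 * Real.log (v - vc) - (Real.log 3 - S)|) atTop
      (𝓝 |f (1 / v) + 2 * Real.log (v - vc) - (Real.log 3 - S)|) :=
    ((h4.add_const _).sub_const _).abs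
  have h6 := le_of_tendsto h5 (h3.mono fun k hk => hk.2)
  rw [Real.dist_eq]
  linarith

/-- scaling of sequences -/
lemma Thm_scale {a ρ : ℝ} (ha : 0 < a) {L : ℕ → ℝ} {N : ℕ → ℕ} (h : Thm ρ L N) :
    Tendsto (fun k => L k / (2 * a)) atTop atTop ∧
      Tendsto (fun k => (N k : ℝ) / (L k / (2 * a)) ^ 2) atTop (𝓝 ((2 * a) ^ 2 * ρ)) := by
  have h2a : 0 < 2 * a := by positivity
  refine ⟨h.1.atTop_div_const h2a, (h.2.const_mul ((2 * a) ^ 2)).congr fun k => ?_⟩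
  rw [div_pow, div_div_eq_mul_div]
  ring

/-- scaling of the free energy -/
theorem FE_scale {a ρ y : ℝ} (ha : 0 < a) (h0 : 0 < ρ) (h1 : (2 * a) ^ 2 * ρ < rc)
    (hy : IsFE ((2 * a) ^ 2 * ρ) y) : FE a ρ (y - 2 * Real.log (2 * a)) := by
  intro L N hLN
  obtain ⟨t1, t2⟩ := Thm_scale ha hLN
  obtain ⟨C, -, hseq, -⟩ := main_norm
  have h3 := (hy _ N t1 t2).sub_const (2 * Real.log (2 * a))
  refine h3.congr' ?_
  filter_upwards [hseq _ (by positivity) h1 _ N t1 t2] with k hk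
  exact (log_Z ha hk.1 hk.2.1).symm

end Pool.Agent.J4.H83.HD
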