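import Pool.Agent.J4.H83.HD.Cover

/-!
# The sum of the gaps of the slots
-/

set_option autoImplicit false

open MeasureTheory Set

namespace Pool.Agent.J4.H83.HD

open Pool.Agent.J4.H83.FV

lemma dr_inj {k l : Fin 3} (h : dr k = dr l) : k = l := by
  fin_cases k <;> fin_cases l <;> first | rfl | (exfalso; revert h; simp [dr])

lemma dr_ne_zero (k : Fin 3) : dr k ≠ 0 := by
  intro h
  have h1 := congrArg Prod.fst h
  have h2 := congrArg Prod.snd h
  revert h1 h2
  fin_cases k <;> simp [dr]

lemma dr_add_ne (k l : Fin 3) : dr k + dr l ≠ 0 := by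
  intro h
  have h1 := congrArg Prod.fst h
  have h2 := congrArg Prod.snd h
  revert h1 h2
  fin_cases k <;> fin_cases l <;> simp [dr]

/-- the forward edges -/
def Fw {C : Type} (p p' : C × (ℤ × ℤ)) : Prop := p'.1 = p.1 ∧ ∃ k : Fin 3, p'.2 = p.2 + dr k

lemma Fw_ne {C : Type} {p p' : C × (ℤ × ℤ)} (h : Fw p p') : p ≠ p' := by
  rintro rfl
  obtain ⟨-, k, hk⟩ := h
  have := dr_ne_zero k
  exact this (by simpa using hk)

lemma Fw_asymm {C : Type} {p p' : C × (ℤ × ℤ)} (h : Fw p p') : ¬ Fw p' p := by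
  rintro ⟨-, l, hl⟩
  obtain ⟨-, k, hk⟩ := h
  rw [hk, add_assoc] at hl
  exact dr_add_ne k l (by simpa using hl.symm)

/-- the sum over the edges is at most half of the sum over all pairs of neighbouring slots -/
theorem gap_sum {C : Type} [DecidableEq C] (S : Finset (C × (ℤ × ℤ))) {N : ℕ} (x : Fin N → ℂ)
    (hx : ∀ i j, i ≠ j → 1 ≤ ‖x i - x j‖) (s : S ↪ Fin N) {η : ℝ} (hη : 1 + η < 2 * R)
    (hedge : ∀ p p' : S, Fw p.1 p'.1 → ‖x (s p') - x (s p)‖ ≤ 1 + η) {τ C₂ : ℝ} (hC₂ : 0 ≤ C₂)
    (hτ : C₂ * τ < 1) (hex : ∀ p : S, 0 ≤ ex x (s p) ∧ ex x (s p) ≤ τ)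
    (hh : ∀ p : S, (1 - C₂ * ex x (s p)) * ∑ j ∈ Nbr x (s p), (‖x j - x (s p)‖ - 1) ≤
      2 * √3 * ex x (s p)) :
    ∑ p ∈ S, ∑ k : Fin 3, (if (p.1, p.2 + dr k) ∈ S then
      ‖tot S (fun p => x (s p)) p.1 (p.2 + dr k) - tot S (fun p => x (s p)) p.1 p.2‖ - 1 else 0) ≤
      √3 / (1 - C₂ * τ) * ∑ p : S, ex x (s p) := by
  classical
  set g : S → S → ℝ := fun p p' => ‖x (s p') - x (s p)‖ - 1 with hg
  have hgs : ∀ p p', g p p' = g p' p := fun p p' => by rw [hg]; simp only; rw [norm_sub_rev]
  have hg0 : ∀ p p' : S, p ≠ p' → 0 ≤ g p p' := by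
    intro p p' hne
    have := hx (s p') (s p) (fun h => hne (s.injective h).symm)
    rw [hg]; simp only; linarith
  -- left side as a sum over pairs
  have hA : ∑ p ∈ S, ∑ k : Fin 3, (if (p.1, p.2 + dr k) ∈ S then
      ‖tot S (fun p => x (s p)) p.1 (p.2 + dr k) - tot S (fun p => x (s p)) p.1 p.2‖ - 1 else 0) ≤
      ∑ p : S, ∑ p' : S, (if Fw p.1 p'.1 then g p p' else 0) := by
    rw [← Finset.sum_coe_sort S]
    refine Finset.sum_le_sum fun p _ => ?_
    have h1 : ∀ k : Fin 3, (if (p.1.1, p.1.2 + dr k) ∈ S then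
        ‖tot S (fun p => x (s p)) p.1.1 (p.1.2 + dr k) - tot S (fun p => x (s p)) p.1.1 p.1.2‖ - 1
        else 0) = ∑ p' : S, (if p'.1 = (p.1.1, p.1.2 + dr k) then g p p' else 0) := by
      intro k
      by_cases hm : (p.1.1, p.1.2 + dr k) ∈ S
      · rw [if_pos hm, Finset.sum_eq_single (⟨_, hm⟩ : S)]
        · rw [if_pos rfl]
          unfold tot
          rw [dif_pos hm, dif_pos (show (p.1.1, p.1.2) ∈ S from p.2)]
        · intro p' _ hne
          rw [if_neg]
          intro h
          exact hne (Subtype.ext h)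
        · intro h
          exact absurd (Finset.mem_univ _) h
      · rw [if_neg hm]
        symm
        refine Finset.sum_eq_zero fun p' _ => ?_
        rw [if_neg]
        intro h
        exact hm (h ▸ p'.2)
    rw [Finset.sum_congr rfl fun k _ => h1 k, Finset.sum_comm]
    refine Finset.sum_le_sum fun p' _ => ?_
    by_cases hF : Fw p.1 p'.1
    · rw [if_pos hF]
      obtain ⟨hF1, k, hk⟩ := hF
      rw [Finset.sum_eq_single k]
      · rw [if_pos (show p'.1 = (p.1.1, p.1.2 + dr k) from Prod.ext hF1 hk)]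
      · intro l _ hl
        rw [if_neg]
        intro h
        have h2 := congrArg Prod.snd h
        simp only at h2
        rw [hk] at h2
        exact hl (dr_inj (add_left_cancel h2)).symm
      · intro h
        exact absurd (Finset.mem_univ _) h
    · rw [if_neg hF]
      refine le_of_eq (Finset.sum_eq_zero fun k _ => ?_)
      rw [if_neg]
      intro h
      refine hF ⟨?_, k, ?_⟩
      · rw [h]
      · rw [h]
  -- for each slot
  have hB : ∀ p : S, ∑ p' : S, ((if Fw p.1 p'.1 then g p p' else 0) +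
      (if Fw p'.1 p.1 then g p p' else 0)) ≤ 2 * √3 / (1 - C₂ * τ) * ex x (s p) := by
    intro p
    obtain ⟨e0, e1⟩ := hex p
    have hs0 : 0 ≤ ∑ j ∈ Nbr x (s p), (‖x j - x (s p)‖ - 1) := by
      refine Finset.sum_nonneg fun j hj => ?_
      rw [Nbr, Finset.mem_filter] at hj
      linarith [hx j (s p) hj.2.1]
    have h1 : ∑ p' : S, ((if Fw p.1 p'.1 then g p p' else 0) +
        (if Fw p'.1 p.1 then g p p' else 0)) ≤ ∑ j ∈ Nbr x (s p), (‖x j - x (s p)‖ - 1) := by
      calc ∑ p' : S, ((if Fw p.1 p'.1 then g p p' else 0) + (if Fw p'.1 p.1 then g p p' else 0))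
          ≤ ∑ p' : S, (if s p' ∈ Nbr x (s p) then ‖x (s p') - x (s p)‖ - 1 else 0) := by
            refine Finset.sum_le_sum fun p' _ => ?_
            by_cases h1 : Fw p.1 p'.1
            · have h2 := Fw_asymm h1
              rw [if_pos h1, if_neg h2, add_zero, if_pos]
              rw [Nbr, Finset.mem_filter]
              refine ⟨Finset.mem_univ _, fun h => Fw_ne h1 (by rw [s.injective h]), ?_⟩
              exact (hedge p p' h1).trans_lt hη
            · rw [if_neg h1, zero_add]
              by_cases h2 : Fw p'.1 p.1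
              · rw [if_pos h2, if_pos]
                rw [Nbr, Finset.mem_filter]
                refine ⟨Finset.mem_univ _, fun h => Fw_ne h2 (by rw [s.injective h]), ?_⟩
                rw [norm_sub_rev]
                exact (hedge p' p h2).trans_lt hη
              · rw [if_neg h2]
                split
                · rename_i h3
                  rw [Nbr, Finset.mem_filter] at h3
                  linarith [hx (s p') (s p) h3.2.1]
                · exact le_rfl
        _ = ∑ p' ∈ Finset.univ.filter (fun p' : S => s p' ∈ Nbr x (s p)),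
              (‖x (s p') - x (s p)‖ - 1) := by rw [Finset.sum_filter]
        _ = ∑ j ∈ (Finset.univ.filter (fun p' : S => s p' ∈ Nbr x (s p))).map s,
              (‖x j - x (s p)‖ - 1) := by rw [Finset.sum_map]
        _ ≤ _ := by
            refine Finset.sum_le_sum_of_subset_of_nonneg ?_ ?_
            · intro j hj
              rw [Finset.mem_map] at hj
              obtain ⟨p', hp', rfl⟩ := hj
              exact (Finset.mem_filter.1 hp').2
            · intro j hj _
              rw [Nbr, Finset.mem_filter] at hj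
              linarith [hx j (s p) hj.2.1]
    refine h1.trans ?_
    have h2 := hh p
    have h3 : 0 < 1 - C₂ * τ := by linarith
    have h4 : (1 - C₂ * τ) * ∑ j ∈ Nbr x (s p), (‖x j - x (s p)‖ - 1) ≤ 2 * √3 * ex x (s p) := by
      refine le_trans (mul_le_mul_of_nonneg_right ?_ hs0) h2
      nlinarith
    rw [div_mul_eq_mul_div, le_div_iff₀ h3]
    linarith
  have hC : ∑ p : S, ∑ p' : S, (if Fw p'.1 p.1 then g p p' else 0) =
      ∑ p : S, ∑ p' : S, (if Fw p.1 p'.1 then g p p' else 0) := by
    rw [Finset.sum_comm]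
    refine Finset.sum_congr rfl fun p _ => Finset.sum_congr rfl fun p' _ => ?_
    rw [hgs]
  have hD := Finset.sum_le_sum fun (p : S) (_ : p ∈ Finset.univ) => hB p
  rw [Finset.sum_congr rfl fun p _ => Finset.sum_add_distrib, Finset.sum_add_distrib, hC,
    ← Finset.mul_sum] at hD
  have hE : 2 * √3 / (1 - C₂ * τ) * ∑ p : S, ex x (s p) =
      2 * (√3 / (1 - C₂ * τ) * ∑ p : S, ex x (s p)) := by ring
  rw [hE] at hD
  linarith

end Pool.Agent.J4.H83.HD
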