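import Pool.Agent.J4.H83.HD.W

/-!
# Convergence of the polytope constants (from the superadditivity)
-/

set_option autoImplicit false

open MeasureTheory Set Filter Topology

namespace Pool.Agent.J4.H83.HD.KL

open Pool.Agent.J4.H83.HD

/-- a criterion for convergence -/
lemma tendsto_of_almost_super (u : ℕ → ℝ) (A B : ℝ) (hA : ∀ᶠ m in atTop, A ≤ u m)
    (hB : ∀ᶠ m in atTop, u m ≤ B)
    (h : ∀ ε : ℝ, 0 < ε → ∀ᶠ m in atTop, ∀ᶠ M in atTop, u m - ε ≤ u M) :
    ∃ S : ℝ, Tendsto u atTop (𝓝 S) := by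
  refine ⟨limsup u atTop, ?_⟩
  have hbd : IsBoundedUnder (· ≤ ·) atTop u := ⟨B, by simpa [eventually_map] using hB⟩
  have hbd' : IsBoundedUnder (· ≥ ·) atTop u := ⟨A, by simpa [eventually_map] using hA⟩
  have hcb : IsCoboundedUnder (· ≤ ·) atTop u := hbd'.isCoboundedUnder_le
  rw [Metric.tendsto_atTop']
  intro ε hε
  have h1 : ∀ᶠ M in atTop, u M < limsup u atTop + ε :=
    eventually_lt_of_limsup_lt (by linarith) hbd
  have h2 : ∃ᶠ m in atTop, limsup u atTop - ε / 2 < u m :=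
    frequently_lt_of_lt_limsup hcb (by linarith)
  obtain ⟨m, hm1, hm2⟩ := (h2.and_eventually (h (ε / 4) (by positivity))).exists
  have h3 := h1.and hm2
  obtain ⟨M₀, hM₀⟩ := eventually_atTop.1 h3
  refine ⟨M₀, fun M hM => ?_⟩
  obtain ⟨h4, h5⟩ := hM₀ M hM.le
  rw [Real.dist_eq, abs_lt]
  constructor <;> linarith

lemma tendsto_K (m : ℕ) :
    Tendsto (fun M : ℕ => (((M - 1) / (m + 1) : ℕ) : ℝ) / M) atTop (𝓝 (1 / (m + 1))) := by
  have hm : (0 : ℝ) < m + 1 := by positivity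
  have h0 : Tendsto (fun M : ℕ => 1 / (m + 1 : ℝ) - 1 / M) atTop (𝓝 (1 / (m + 1 : ℝ) - 0)) :=
    tendsto_const_nhds.sub (tendsto_one_div_atTop_nhds_zero_nat)
  rw [sub_zero] at h0
  refine tendsto_of_tendsto_of_tendsto_of_le_of_le' h0 tendsto_const_nhds ?_ ?_
  · filter_upwards [eventually_ge_atTop 1] with M hM
    have hM0 : (0 : ℝ) < M := by exact_mod_cast hM
    have h1 := Nat.div_add_mod (M - 1) (m + 1)
    have h2 := Nat.mod_lt (M - 1) (show 0 < m + 1 by omega)
    set K := (M - 1) / (m + 1) with hK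
    have h3 : M ≤ (m + 1) * K + (m + 1) := by omega
    have h4 : (M : ℝ) ≤ (m + 1) * K + (m + 1) := by exact_mod_cast h3
    rw [div_sub_div _ _ hm.ne' hM0.ne', div_le_div_iff₀ (by positivity) hM0]
    nlinarith
  · filter_upwards [eventually_ge_atTop 1] with M hM
    have hM0 : (0 : ℝ) < M := by exact_mod_cast hM
    have h1 := Nat.div_mul_le_self (M - 1) (m + 1)
    set K := (M - 1) / (m + 1) with hK
    have h3 : K * (m + 1) ≤ M := by omega
    have h4 : (K : ℝ) * (m + 1) ≤ M := by exact_mod_cast h3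
    rw [div_le_div_iff₀ hM0 hm]
    linarith

lemma w_pos (m : ℕ) : 0 < (W m pt).toReal := by
  have h1 := W_pt_ge m
  have h2 : W m pt ≠ ⊤ := ne_top_of_le_ne_top ENNReal.ofReal_ne_top (W_pt_le m)
  refine ENNReal.toReal_pos ?_ h2
  intro h0
  rw [h0] at h1
  have h3 : (0 : ℝ) < (1 / 2) ^ ((m - 1) ^ 2) := by positivity
  exact absurd h1 (by simp)

lemma w_ge (m : ℕ) : (1 / 2 : ℝ) ^ ((m - 1) ^ 2) ≤ (W m pt).toReal := by
  have h2 : W m pt ≠ ⊤ := ne_top_of_le_ne_top ENNReal.ofReal_ne_top (W_pt_le m)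
  have h1 := ENNReal.toReal_mono h2 (W_pt_ge m)
  rwa [ENNReal.toReal_ofReal (by positivity)] at h1

/-- the statement `W_super` -/
def SupSt : Prop := ∀ (m K M : ℕ), 1 ≤ m → ∀ e : ℝ, 0 < e → e ≤ 1 / 2 →
    (m + 1) * K + 1 ≤ M →
    ENNReal.ofReal ((e ^ 2) ^ ((M - 1) ^ 2 - K ^ 2 * (m - 1) ^ 2)) *
      (ENNReal.ofReal ((1 - e) ^ (2 * (m - 1) ^ 2)) * W m pt) ^ (K ^ 2) ≤ W M pt

lemma log_super (H : SupSt) (m K M : ℕ) (hm : 2 ≤ m) (hM : (m + 1) * K + 1 ≤ M) :
    -2 * Real.log m * (((M : ℝ) - 1) ^ 2 - (K : ℝ) ^ 2 * ((m : ℝ) - 1) ^ 2) +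
      (K : ℝ) ^ 2 * (2 * ((m : ℝ) - 1) ^ 2 * Real.log (1 - 1 / m) +
        Real.log (W m pt).toReal) ≤ Real.log (W M pt).toReal := by
  have hm2 : (2 : ℝ) ≤ m := by exact_mod_cast hm
  have hm0 : (0 : ℝ) < m := by linarith
  have he : 1 / (m : ℝ) ≤ 1 / 2 := one_div_le_one_div_of_le (by norm_num) hm2
  have he0 : 0 < 1 / (m : ℝ) := by positivity
  have h1 := H m K M (by omega) (1 / m) he0 he hM
  have hWm : W m pt ≠ ⊤ := ne_top_of_le_ne_top ENNReal.ofReal_ne_top (W_pt_le m)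
  have hWM : W M pt ≠ ⊤ := ne_top_of_le_ne_top ENNReal.ofReal_ne_top (W_pt_le M)
  have h2 := ENNReal.toReal_mono hWM h1
  have he1 : (0 : ℝ) < 1 - 1 / m := by linarith
  rw [ENNReal.toReal_mul, ENNReal.toReal_pow, ENNReal.toReal_mul,
    ENNReal.toReal_ofReal (by positivity), ENNReal.toReal_ofReal (by positivity)] at h2
  have hw := w_pos m
  have h3 := Real.log_le_log (by positivity) h2
  refine le_trans (le_of_eq ?_) h3
  have hle : K ^ 2 * (m - 1) ^ 2 ≤ (M - 1) ^ 2 := by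
    rw [← mul_pow]
    refine Nat.pow_le_pow_left ?_ 2
    have : K * (m - 1) ≤ (m + 1) * K := by
      rw [mul_comm]; exact Nat.mul_le_mul_right K (by omega)
    omega
  rw [Real.log_mul (by positivity) (by positivity), Real.log_pow, Real.log_pow, Real.log_pow,
    Real.log_mul (by positivity) hw.ne', Real.log_pow, one_div, Real.log_inv, Nat.cast_sub hle]
  push_cast [Nat.cast_sub (show 1 ≤ M by omega), Nat.cast_sub (show 1 ≤ m by omega)]
  ring

theorem klim_of (H : SupSt) (B : ℝ)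
    (hB : ∀ᶠ m : ℕ in atTop, Real.log (W m pt).toReal / (m : ℝ) ^ 2 ≤ B) :
    ∃ S : ℝ, Tendsto (fun m : ℕ => Real.log (W m pt).toReal / (m : ℝ) ^ 2) atTop (𝓝 S) := by
  have hlow : ∀ m : ℕ, -Real.log 2 ≤ Real.log (W m pt).toReal / (m : ℝ) ^ 2 := by
    intro m
    rcases Nat.eq_zero_or_pos m with h0 | h0
    · subst h0
      simp only [Nat.cast_zero]
      norm_num
      exact Real.log_nonneg (by norm_num)
    · have hm0 : (0 : ℝ) < m := by exact_mod_cast h0
      rw [le_div_iff₀ (by positivity)]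
      have h1 := Real.log_le_log (by positivity) (w_ge m)
      rw [Real.log_pow, one_div, Real.log_inv] at h1
      refine le_trans ?_ h1
      have h2 : (((m - 1) ^ 2 : ℕ) : ℝ) ≤ (m : ℝ) ^ 2 := by
        have : (m - 1) ^ 2 ≤ m ^ 2 := Nat.pow_le_pow_left (by omega) 2
        exact_mod_cast this
      have h3 : 0 ≤ Real.log 2 := Real.log_nonneg (by norm_num)
      nlinarith
  refine tendsto_of_almost_super _ (-Real.log 2) B (Eventually.of_forall hlow) hB ?_
  intro ε hε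
  set κ : ℕ → ℝ := fun m => Real.log (W m pt).toReal / (m : ℝ) ^ 2 with hκ
  -- the limit for fixed m
  have hlim : ∀ m : ℕ, 2 ≤ m → Tendsto (fun M : ℕ =>
      (-2 * Real.log m * (((M : ℝ) - 1) ^ 2 - (((M - 1) / (m + 1) : ℕ) : ℝ) ^ 2 *
        ((m : ℝ) - 1) ^ 2) + (((M - 1) / (m + 1) : ℕ) : ℝ) ^ 2 *
        (2 * ((m : ℝ) - 1) ^ 2 * Real.log (1 - 1 / m) + Real.log (W m pt).toReal)) / (M : ℝ) ^ 2)
      atTop (𝓝 (-2 * Real.log m * (1 - (1 / (m + 1 : ℝ)) ^ 2 * ((m : ℝ) - 1) ^ 2) +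
        (1 / (m + 1 : ℝ)) ^ 2 * (2 * ((m : ℝ) - 1) ^ 2 * Real.log (1 - 1 / m) +
          Real.log (W m pt).toReal))) := by
    intro m hm
    have hK := tendsto_K m
    have hM : Tendsto (fun M : ℕ => (1 : ℝ) - 1 / M) atTop (𝓝 (1 - 0)) :=
      tendsto_const_nhds.sub tendsto_one_div_atTop_nhds_zero_nat
    rw [sub_zero] at hM
    have h1 := (((hM.pow 2).sub ((hK.pow 2).mul_const (((m : ℝ) - 1) ^ 2))).const_mul
      (-2 * Real.log m)).add ((hK.pow 2).mul_const
      (2 * ((m : ℝ) - 1) ^ 2 * Real.log (1 - 1 / m) + Real.log (W m pt).toReal))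
    rw [one_pow] at h1
    refine h1.congr' ?_
    filter_upwards [eventually_ge_atTop 1] with M hM1
    have hM0 : (M : ℝ) ≠ 0 := by
      have : 0 < M := hM1
      positivity
    field_simp
  -- the error term
  have herr : Tendsto (fun m : ℕ => (-2 * Real.log m * (1 - (1 / (m + 1 : ℝ)) ^ 2 *
      ((m : ℝ) - 1) ^ 2) + (1 / (m + 1 : ℝ)) ^ 2 * (2 * ((m : ℝ) - 1) ^ 2 *
      Real.log (1 - 1 / m)))) atTop (𝓝 0) := by
    have hlogm : Tendsto (fun m : ℕ => Real.log m / m) atTop (𝓝 0) := by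
      have h1 := Real.isLittleO_log_id_atTop.tendsto_div_nhds_zero
      exact h1.comp tendsto_natCast_atTop_atTop
    have h1m : Tendsto (fun m : ℕ => 1 / (m : ℝ)) atTop (𝓝 0) := tendsto_one_div_atTop_nhds_zero_nat
    have hr : Tendsto (fun m : ℕ => (m : ℝ) / (m + 1)) atTop (𝓝 1) := by
      have h2 : Tendsto (fun m : ℕ => 1 / (1 + 1 / (m : ℝ))) atTop (𝓝 (1 / (1 + 0))) :=
        tendsto_const_nhds.div (tendsto_const_nhds.add h1m) (by norm_num)
      rw [add_zero, div_one] at h2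
      refine h2.congr' ?_
      filter_upwards [eventually_ge_atTop 1] with m hm
      have hm0 : (m : ℝ) ≠ 0 := by have : 0 < m := hm
                                   positivity
      field_simp
    have hs : Tendsto (fun m : ℕ => 1 / (m + 1 : ℝ) * ((m : ℝ) - 1)) atTop (𝓝 1) := by
      have h2 := hr.mul (tendsto_const_nhds.sub h1m (a := (1 : ℝ)))
      rw [sub_zero, one_mul] at h2
      refine h2.congr' ?_
      filter_upwards [eventually_ge_atTop 1] with m hm
      have hm0 : (m : ℝ) ≠ 0 := by have : 0 < m := hm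
                                   positivity
      field_simp
    have hl : Tendsto (fun m : ℕ => Real.log (1 - 1 / m)) atTop (𝓝 0) := by
      have h2 : Tendsto (fun m : ℕ => 1 - 1 / (m : ℝ)) atTop (𝓝 (1 - 0)) :=
        tendsto_const_nhds.sub h1m
      rw [sub_zero] at h2
      have h3 := (Real.continuousAt_log (one_ne_zero)).tendsto.comp h2
      rwa [Real.log_one] at h3
    -- first term: -2 (log m / m) * (4 m² / (m+1)²)
    have t1 : Tendsto (fun m : ℕ => -2 * Real.log m * (1 - (1 / (m + 1 : ℝ)) ^ 2 *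
        ((m : ℝ) - 1) ^ 2)) atTop (𝓝 0) := by
      have h2 := (hlogm.mul ((hr.pow 2).const_mul 4)).const_mul (-2)
      simp only [zero_mul, mul_zero] at h2
      refine h2.congr' ?_
      filter_upwards [eventually_ge_atTop 1] with m hm
      have hm0 : (m : ℝ) ≠ 0 := by have : 0 < m := hm
                                   positivity
      field_simp
      ring
    have t2 : Tendsto (fun m : ℕ => (1 / (m + 1 : ℝ)) ^ 2 * (2 * ((m : ℝ) - 1) ^ 2 *
        Real.log (1 - 1 / m))) atTop (𝓝 0) := by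
      have h2 := ((hs.pow 2).const_mul 2).mul hl
      simp only [mul_zero] at h2
      refine h2.congr fun m => ?_
      ring
    simpa using t1.add t2
  have hmain : ∀ᶠ m : ℕ in atTop, κ m - ε / 2 ≤
      -2 * Real.log m * (1 - (1 / (m + 1 : ℝ)) ^ 2 * ((m : ℝ) - 1) ^ 2) +
        (1 / (m + 1 : ℝ)) ^ 2 * (2 * ((m : ℝ) - 1) ^ 2 * Real.log (1 - 1 / m) +
          Real.log (W m pt).toReal) := by
    have h1 := herr.eventually (lt_mem_nhds (show -(ε / 4) < 0 by linarith))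
    have h2 : Tendsto (fun m : ℕ => (|B| + Real.log 2) * (2 / (m : ℝ))) atTop (𝓝 0) := by
      have h3 := (tendsto_one_div_atTop_nhds_zero_nat (𝕜 := ℝ)).const_mul
        (2 * (|B| + Real.log 2))
      rw [mul_zero] at h3
      refine h3.congr fun m => ?_
      ring
    have h3 := h2.eventually (gt_mem_nhds (show (0 : ℝ) < ε / 4 by linarith))
    filter_upwards [h1, h3, hB, eventually_ge_atTop 1] with m a1 a2 a3 a4
    have hm0 : (0 : ℝ) < m := by exact_mod_cast a4
    have e1 : Real.log (W m pt).toReal = κ m * (m : ℝ) ^ 2 := by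
      rw [hκ]; field_simp
    rw [e1]
    have hk1 := hlow m
    have hk2 : κ m ≤ B := a3
    have hl2 : 0 ≤ Real.log 2 := Real.log_nonneg (by norm_num)
    have hkabs : |κ m| ≤ |B| + Real.log 2 := by
      rw [abs_le]
      have := neg_abs_le B
      have := le_abs_self B
      constructor <;> [skip; linarith]
      have h5 : -Real.log 2 ≤ κ m := hk1
      have := abs_nonneg B
      linarith
    have e2 : (1 / (m + 1 : ℝ)) ^ 2 * (κ m * (m : ℝ) ^ 2) =
        κ m - κ m * ((2 * m + 1) / (m + 1) ^ 2) := by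
      field_simp; ring
    have e3 : κ m * ((2 * m + 1) / (m + 1) ^ 2) ≤ (|B| + Real.log 2) * (2 / m) := by
      have h6 : (2 * (m : ℝ) + 1) / (m + 1) ^ 2 ≤ 2 / m := by
        rw [div_le_div_iff₀ (by positivity) hm0]
        nlinarith
      have h7 : 0 ≤ (2 * (m : ℝ) + 1) / (m + 1) ^ 2 := by positivity
      calc κ m * ((2 * m + 1) / (m + 1) ^ 2) ≤ |κ m| * ((2 * m + 1) / (m + 1) ^ 2) :=
            mul_le_mul_of_nonneg_right (le_abs_self _) h7
        _ ≤ (|B| + Real.log 2) * (2 / m) := mul_le_mul hkabs h6 h7 (by positivity)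
    have e4 : (1 / (m + 1 : ℝ)) ^ 2 * (2 * ((m : ℝ) - 1) ^ 2 * Real.log (1 - 1 / m) +
        κ m * (m : ℝ) ^ 2) = (1 / (m + 1 : ℝ)) ^ 2 * (2 * ((m : ℝ) - 1) ^ 2 *
        Real.log (1 - 1 / m)) + (κ m - κ m * ((2 * m + 1) / (m + 1) ^ 2)) := by
      rw [mul_add, e2]
    rw [e4]
    linarith
  filter_upwards [hmain, eventually_ge_atTop 2] with m h1 h2
  have h3 := (hlim m h2).eventually (lt_mem_nhds (show κ m - ε < _ from lt_of_lt_of_le
    (by linarith) h1))
  filter_upwards [h3, eventually_ge_atTop 1] with M h4 h5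
  have hM0 : (0 : ℝ) < M := by exact_mod_cast h5
  have h6 : (m + 1) * ((M - 1) / (m + 1)) + 1 ≤ M := by
    have := Nat.mul_div_le (M - 1) (m + 1)
    omega
  have h7 := log_super H m _ M h2 h6
  refine h4.le.trans ?_
  exact div_le_div_of_nonneg_right h7 (by positivity)

end Pool.Agent.J4.H83.HD.KL
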