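import Mathlib

/-!
# The asymptotic evaluation of the lower bound (real analysis)
-/

set_option autoImplicit false

open MeasureTheory Set Filter Topology

namespace Pool.Agent.J4.H83.HD.Lasy

lemma exists_K (m : ℕ) (c s δ : ℝ) (hc : 0 < c) (hc1 : c ≤ 1) (hs : 0 < s) (hs1 : s ≤ 1)
    (hgap : (1 + s) ^ 2 * c < c + δ) : ∃ L₀ : ℝ, ∀ (L : ℝ) (N : ℕ), L₀ ≤ L →
      (c + δ) * N ≤ L ^ 2 → ∃ K₁ K₂ : ℕ, (1 + s) * ((m + 1) * K₁ + m + 2) + 1 ≤ L ∧
        (1 + s) * (c * ((m + 1) * K₂)) + 1 ≤ L ∧ N ≤ (m + 1) ^ 2 * (K₁ * K₂) := by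
  set A : ℝ := 4 * m + 8 with hA
  set g : ℝ := c + δ - (1 + s) ^ 2 * c with hg
  have hg0 : 0 < g := by rw [hg]; linarith
  have hm0 : (0 : ℝ) ≤ m := Nat.cast_nonneg m
  have hA0 : 0 < A := by rw [hA]; positivity
  refine ⟨max A (2 * A * (c + δ) / g), fun L N hL hN => ?_⟩
  have hLA : A ≤ L := (le_max_left _ _).trans hL
  have hLg : 2 * A * (c + δ) ≤ g * L := by
    have := (le_max_right _ _).trans hL
    rw [div_le_iff₀ hg0] at this
    linarith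
  have hs0 : 0 < 1 + s := by linarith
  have hm1 : (0 : ℝ) < m + 1 := by positivity
  have hcd : 0 < c + δ := by have : 0 < (1 + s) ^ 2 * c := by positivity
                             linarith
  set X : ℝ := (L - 1) / (1 + s) - m - 2 with hX
  set Y : ℝ := (L - 1) / ((1 + s) * c) with hY
  have hXlow : (L - A) / (1 + s) ≤ X - (m + 1) := by
    rw [div_le_iff₀ hs0, hX]
    have : ((L - 1) / (1 + s) - m - 2 - (m + 1)) * (1 + s) = (L - 1) - (2 * m + 3) * (1 + s) := by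
      field_simp; ring
    rw [this]
    nlinarith
  have hX0 : 0 ≤ (L - A) / (1 + s) := div_nonneg (by linarith) hs0.le
  have hsc : 0 < (1 + s) * c := by positivity
  have hYlow : (L - A) / ((1 + s) * c) ≤ Y - (m + 1) := by
    rw [div_le_iff₀ hsc, hY]
    have : ((L - 1) / ((1 + s) * c) - (m + 1)) * ((1 + s) * c) =
        (L - 1) - (m + 1) * ((1 + s) * c) := by
      field_simp
    rw [this]
    have h2 : (1 + s) * c ≤ 2 := by nlinarith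
    nlinarith
  have hY0 : 0 ≤ (L - A) / ((1 + s) * c) := div_nonneg (by linarith) hsc.le
  have hXn : 0 ≤ X := by linarith
  have hYn : 0 ≤ Y := by linarith
  set K₁ : ℕ := ⌊X / (m + 1)⌋₊ with hK₁
  set K₂ : ℕ := ⌊Y / (m + 1)⌋₊ with hK₂
  have k1 : (m + 1 : ℝ) * K₁ ≤ X := by
    have := Nat.floor_le (div_nonneg hXn hm1.le)
    rw [le_div_iff₀ hm1] at this
    linarith
  have k2 : (m + 1 : ℝ) * K₂ ≤ Y := by
    have := Nat.floor_le (div_nonneg hYn hm1.le)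
    rw [le_div_iff₀ hm1] at this
    linarith
  have k3 : X - (m + 1) ≤ (m + 1 : ℝ) * K₁ := by
    have := (Nat.lt_floor_add_one (X / (m + 1))).le
    rw [div_le_iff₀ hm1] at this
    linarith
  have k4 : Y - (m + 1) ≤ (m + 1 : ℝ) * K₂ := by
    have := (Nat.lt_floor_add_one (Y / (m + 1))).le
    rw [div_le_iff₀ hm1] at this
    linarith
  refine ⟨K₁, K₂, ?_, ?_, ?_⟩
  · have h1 : (1 + s) * ((m + 1) * K₁ + m + 2) ≤ (1 + s) * (X + m + 2) :=
      mul_le_mul_of_nonneg_left (by linarith) hs0.le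
    have h2 : (1 + s) * (X + m + 2) = L - 1 := by rw [hX]; field_simp; ring
    linarith
  · have h1 : (1 + s) * (c * ((m + 1) * K₂)) ≤ (1 + s) * (c * Y) :=
      mul_le_mul_of_nonneg_left (mul_le_mul_of_nonneg_left k2 hc.le) hs0.le
    have h2 : (1 + s) * (c * Y) = L - 1 := by rw [hY]; field_simp
    linarith
  · have h1 : (L - A) / (1 + s) * ((L - A) / ((1 + s) * c)) ≤ (m + 1 : ℝ) * K₁ * ((m + 1) * K₂) :=
      mul_le_mul (by linarith) (by linarith) hY0 (by positivity)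
    have h2 : (N : ℝ) ≤ (L - A) / (1 + s) * ((L - A) / ((1 + s) * c)) := by
      have e : (L - A) / (1 + s) * ((L - A) / ((1 + s) * c)) =
          (L - A) ^ 2 / ((1 + s) ^ 2 * c) := by field_simp
      rw [e]
      have hN' : (N : ℝ) ≤ L ^ 2 / (c + δ) := by rw [le_div_iff₀ hcd]; linarith
      refine hN'.trans ?_
      rw [div_le_div_iff₀ hcd (by positivity)]
      have h3 : (L - A) ^ 2 ≥ L ^ 2 - 2 * A * L := by nlinarith [sq_nonneg A]
      have h4 : (L ^ 2 - 2 * A * L) * (c + δ) ≤ (L - A) ^ 2 * (c + δ) :=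
        mul_le_mul_of_nonneg_right h3 hcd.le
      have h5 : 0 ≤ L * (g * L - 2 * A * (c + δ)) := mul_nonneg (by linarith) (by linarith)
      have h6 : L * (g * L - 2 * A * (c + δ)) =
          (L ^ 2 - 2 * A * L) * (c + δ) - L ^ 2 * ((1 + s) ^ 2 * c) := by rw [hg]; ring
      linarith
    have h3 : (N : ℝ) ≤ (((m + 1) ^ 2 * (K₁ * K₂) : ℕ) : ℝ) := by
      push_cast
      calc (N : ℝ) ≤ _ := h2.trans h1
        _ = _ := by ring
    exact_mod_cast h3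

/-- `log (64 m²) / m` is small -/
lemma log_small (ε : ℝ) (hε : 0 < ε) : ∃ m₀ : ℕ, ∀ m : ℕ, m₀ ≤ m → 2 ≤ m ∧
    64 * Real.log (64 * (m : ℝ) ^ 2) ≤ ε * m := by
  obtain ⟨k, hk⟩ := exists_nat_ge (256 ^ 2 * 8 / ε ^ 2)
  refine ⟨k + 2, fun m hm => ⟨by omega, ?_⟩⟩
  have hm' : (0 : ℝ) < m := by
    have : 0 < m := by omega
    exact_mod_cast this
  have hkm : 256 ^ 2 * 8 / ε ^ 2 ≤ (m : ℝ) := by
    refine hk.trans ?_
    exact_mod_cast (by omega : k ≤ m)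
  rw [div_le_iff₀ (by positivity)] at hkm
  have h8 : (0 : ℝ) < 8 * m := by positivity
  have e1 : Real.log (64 * (m : ℝ) ^ 2) = 4 * Real.log (√(8 * m)) := by
    rw [Real.log_sqrt h8.le, show 64 * (m : ℝ) ^ 2 = (8 * m) ^ 2 by ring, Real.log_pow]
    push_cast
    ring
  have h1 : Real.log (√(8 * m)) ≤ √(8 * m) := Real.log_le_self (Real.sqrt_nonneg _)
  have h2 : 256 * √(8 * m) ≤ ε * m := by
    have h3 : 256 * √(8 * m) = √(256 ^ 2 * (8 * m)) := by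
      rw [Real.sqrt_mul (by positivity : (0 : ℝ) ≤ 256 ^ 2) (8 * m), Real.sqrt_sq (by norm_num)]
    rw [h3]
    apply Real.sqrt_le_iff.2
    refine ⟨by positivity, ?_⟩
    nlinarith
  rw [e1]
  linarith

/-- the main computation with logarithms -/
lemma main_log (m : ℕ) (w s δ ε : ℝ) (hm : 2 ≤ m) (hε : 0 < ε) (hδ : 0 < δ)
    (hs : s = Real.exp (-(ε / 8)) * δ / √3) (hw : 0 < w)
    (hlw : |Real.log w| ≤ (m : ℝ) ^ 2 * Real.log (64 * (m : ℝ) ^ 2))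
    (hmε : 64 * Real.log (64 * (m : ℝ) ^ 2) ≤ ε * m) (N : ℕ)
    (hN : 16 * (m : ℝ) ^ 2 * Real.log (64 * (m : ℝ) ^ 2) ≤ ε * N) :
    Real.exp (N * (2 * Real.log δ - Real.log 3 + Real.log w / (m : ℝ) ^ 2 - ε)) ≤
      ((1 / (m : ℝ) * s) ^ 2) ^ (N - (N / (m + 1) ^ 2) * (m - 1) ^ 2) *
        (((1 - 1 / (m : ℝ)) * s) ^ (2 * (m - 1) ^ 2) * w) ^ (N / (m + 1) ^ 2) := by
  set κ : ℝ := Real.log (64 * (m : ℝ) ^ 2) with hκ
  have hm2 : (2 : ℝ) ≤ m := by exact_mod_cast hm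
  have hm0 : (0 : ℝ) < m := by linarith
  have h3 : (0 : ℝ) < √3 := Real.sqrt_pos.2 (by norm_num)
  have hs0 : 0 < s := by rw [hs]; positivity
  set Q : ℕ := N / (m + 1) ^ 2 with hQ
  set P : ℕ := (m - 1) ^ 2 with hP
  have hPr : (P : ℝ) = ((m : ℝ) - 1) ^ 2 := by
    rw [hP]
    push_cast [Nat.cast_sub (by omega : 1 ≤ m)]
    ring
  have hQle : Q * (m + 1) ^ 2 ≤ N := Nat.div_mul_le_self N _
  have hQlt : N < (Q + 1) * (m + 1) ^ 2 := by
    rw [hQ]; exact by have := Nat.lt_mul_div_succ N (show 0 < (m + 1) ^ 2 by positivity); nlinarith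
  have hQP : Q * P ≤ N := by
    refine le_trans (Nat.mul_le_mul_left Q ?_) hQle
    rw [hP]
    exact Nat.pow_le_pow_left (by omega) 2
  set T : ℕ := N - Q * P with hT
  have hTr : (T : ℝ) = N - Q * P := by
    rw [hT, Nat.cast_sub hQP]; push_cast; ring
  have he0 : (0 : ℝ) < 1 / m := by positivity
  have he1 : (0 : ℝ) < 1 - 1 / m := by
    have : (1 : ℝ) / m ≤ 1 / 2 := one_div_le_one_div_of_le (by norm_num) hm2
    linarith
  have hpos : 0 < ((1 / (m : ℝ) * s) ^ 2) ^ T * (((1 - 1 / (m : ℝ)) * s) ^ (2 * P) * w) ^ Q := by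
    positivity
  rw [← Real.le_log_iff_exp_le hpos]
  have hlog : Real.log (((1 / (m : ℝ) * s) ^ 2) ^ T *
      (((1 - 1 / (m : ℝ)) * s) ^ (2 * P) * w) ^ Q) =
      2 * N * Real.log s + 2 * T * Real.log (1 / m) + 2 * (Q * P) * Real.log (1 - 1 / m) +
        Q * Real.log w := by
    rw [Real.log_mul (by positivity) (by positivity), Real.log_pow, Real.log_pow, Real.log_pow,
      Real.log_mul (by positivity) hw.ne', Real.log_pow, Real.log_mul he0.ne' hs0.ne',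
      Real.log_mul he1.ne' hs0.ne']
    push_cast
    rw [hTr]
    ring
  rw [hlog]
  have hlogs : Real.log s = -(ε / 8) + Real.log δ - Real.log 3 / 2 := by
    rw [hs, Real.log_div (by positivity) h3.ne', Real.log_mul (Real.exp_pos _).ne' hδ.ne',
      Real.log_exp, Real.log_sqrt (by norm_num)]
  have hκ1 : 1 ≤ κ := by
    rw [hκ, Real.le_log_iff_exp_le (by positivity)]
    have := Real.exp_one_lt_d9
    nlinarith
  have hlm0 : 0 ≤ Real.log m := Real.log_nonneg (by linarith)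
  have hlm : Real.log m ≤ κ := by
    rw [hκ]
    exact Real.log_le_log hm0 (by nlinarith)
  have hN0 : (0 : ℝ) ≤ N := Nat.cast_nonneg N
  have hQ0 : (0 : ℝ) ≤ Q := Nat.cast_nonneg Q
  have hQ1 : (Q : ℝ) * ((m : ℝ) + 1) ^ 2 ≤ N := by exact_mod_cast hQle
  have hQ2 : (N : ℝ) ≤ (Q + 1) * ((m : ℝ) + 1) ^ 2 := by exact_mod_cast hQlt.le
  have hεN : 0 ≤ ε * N := by positivity
  -- bound for T
  have hTb : (T : ℝ) * m ≤ 4 * N + (m : ℝ) ^ 3 := by
    have h5 : (N : ℝ) * ((m : ℝ) - 1) ^ 2 ≤ (Q + 1) * ((m : ℝ) + 1) ^ 2 * ((m : ℝ) - 1) ^ 2 :=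
      mul_le_mul_of_nonneg_right hQ2 (by positivity)
    have h6 : (T : ℝ) * ((m : ℝ) + 1) ^ 2 ≤ 4 * m * N + ((m : ℝ) + 1) ^ 2 * ((m : ℝ) - 1) ^ 2 := by
      rw [hTr, hPr]
      nlinarith
    have hT0 : (0 : ℝ) ≤ T := Nat.cast_nonneg T
    have h7 : ((T : ℝ) * m) * ((m : ℝ) + 1) ^ 2 ≤ (4 * N + (m : ℝ) ^ 3) * ((m : ℝ) + 1) ^ 2 := by
      have h8 : (T : ℝ) * ((m : ℝ) + 1) ^ 2 * m ≤
          (4 * m * N + ((m : ℝ) + 1) ^ 2 * ((m : ℝ) - 1) ^ 2) * m :=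
        mul_le_mul_of_nonneg_right h6 hm0.le
      have h9 : 4 * (m : ℝ) * N * m ≤ 4 * N * ((m : ℝ) + 1) ^ 2 := by nlinarith
      have h10 : ((m : ℝ) + 1) ^ 2 * ((m : ℝ) - 1) ^ 2 * m ≤ (m : ℝ) ^ 3 * ((m : ℝ) + 1) ^ 2 := by
        have : ((m : ℝ) - 1) ^ 2 ≤ (m : ℝ) ^ 2 := by nlinarith
        have h11 : ((m : ℝ) - 1) ^ 2 * (((m : ℝ) + 1) ^ 2 * m) ≤
            (m : ℝ) ^ 2 * (((m : ℝ) + 1) ^ 2 * m) :=
          mul_le_mul_of_nonneg_right this (by positivity)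
        linarith
      linarith
    exact le_of_mul_le_mul_right h7 (by positivity)
  -- first term
  have hlogm : Real.log (1 / (m : ℝ)) = -Real.log m := by
    rw [one_div, Real.log_inv]
  have t1 : -(ε * N / 4) ≤ 2 * T * Real.log (1 / m) := by
    rw [hlogm]
    have h5 : (T : ℝ) * Real.log m ≤ T * κ := mul_le_mul_of_nonneg_left hlm (Nat.cast_nonneg _)
    have h6 : (T : ℝ) * m * κ ≤ (4 * N + (m : ℝ) ^ 3) * κ :=
      mul_le_mul_of_nonneg_right hTb (by linarith)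
    -- 64 κ N ≤ ε m N, 16 m² κ ≤ ε N
    have h7 : 64 * κ * N ≤ ε * m * N := mul_le_mul_of_nonneg_right hmε hN0
    have h8 : 16 * (m : ℝ) ^ 2 * κ * m ≤ ε * N * m := mul_le_mul_of_nonneg_right hN hm0.le
    have h9 : (T : ℝ) * κ * m ≤ (ε * N / 8) * m := by nlinarith
    have h10 : (T : ℝ) * κ ≤ ε * N / 8 := le_of_mul_le_mul_right h9 hm0
    linarith
  -- second term
  have t2 : -(ε * N / 8) ≤ 2 * (Q * P) * Real.log (1 - 1 / m) := by
    have h5 : -(2 / (m : ℝ)) ≤ Real.log (1 - 1 / m) := by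
      have h6 := Real.one_sub_inv_le_log_of_pos he1
      refine le_trans ?_ h6
      have h7 : (1 - 1 / (m : ℝ))⁻¹ = m / (m - 1) := by
        rw [inv_eq_one_div]
        field_simp
      rw [h7]
      have h8 : (0 : ℝ) < m - 1 := by linarith
      have h9 : 1 - (m : ℝ) / (m - 1) = -(1 / (m - 1)) := by field_simp; ring
      rw [h9]
      have : 1 / ((m : ℝ) - 1) ≤ 2 / m := by
        rw [div_le_div_iff₀ h8 hm0]
        linarith
      linarith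
    have h6 : ((Q * P : ℕ) : ℝ) ≤ N := by exact_mod_cast hQP
    push_cast at h6
    have h0 : (0 : ℝ) ≤ Q * P := by positivity
    have h7 : (Q * P : ℝ) * (-(2 / (m : ℝ))) ≤ (Q * P : ℝ) * Real.log (1 - 1 / m) :=
      mul_le_mul_of_nonneg_left h5 h0
    have h8 : (Q * P : ℝ) * (2 / (m : ℝ)) ≤ N * (2 / (m : ℝ)) :=
      mul_le_mul_of_nonneg_right h6 (by positivity)
    have h9 : (N : ℝ) * (2 / (m : ℝ)) ≤ ε * N / 16 := by
      have h10 : (N : ℝ) * (2 / (m : ℝ)) = 2 * N / m := by ring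
      rw [h10, div_le_iff₀ hm0]
      have h11 : 64 * κ * N ≤ ε * m * N := mul_le_mul_of_nonneg_right hmε hN0
      nlinarith
    linarith
  -- third term
  have t3 : -(ε * N / 4) ≤ Q * Real.log w - N * (Real.log w / (m : ℝ) ^ 2) := by
    have e : Q * Real.log w - N * (Real.log w / (m : ℝ) ^ 2) =
        -((N / (m : ℝ) ^ 2 - Q) * Real.log w) := by ring
    rw [e, neg_le_neg_iff]
    have hd0 : 0 ≤ N / (m : ℝ) ^ 2 - Q := by
      rw [sub_nonneg, le_div_iff₀ (by positivity)]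
      refine le_trans ?_ hQ1
      exact mul_le_mul_of_nonneg_left (by nlinarith) hQ0
    have hd1 : (N / (m : ℝ) ^ 2 - Q) * (m : ℝ) ^ 2 * m ≤ 2 * N + (m : ℝ) ^ 3 := by
      have h5 : (N / (m : ℝ) ^ 2 - Q) * (m : ℝ) ^ 2 = N - Q * (m : ℝ) ^ 2 := by field_simp
      rw [h5]
      -- Q + 1 ≥ N / (m+1)²
      have h6 : (N : ℝ) * (m : ℝ) ^ 2 ≤ (Q + 1) * ((m : ℝ) + 1) ^ 2 * (m : ℝ) ^ 2 :=
        mul_le_mul_of_nonneg_right hQ2 (by positivity)
      have h7 : (N - Q * (m : ℝ) ^ 2) * ((m : ℝ) + 1) ^ 2 ≤ N * (2 * m + 1) +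
          (m : ℝ) ^ 2 * ((m : ℝ) + 1) ^ 2 := by nlinarith
      have h8 : ((N - Q * (m : ℝ) ^ 2) * m) * ((m : ℝ) + 1) ^ 2 ≤
          (2 * N + (m : ℝ) ^ 3) * ((m : ℝ) + 1) ^ 2 := by
        have h9 := mul_le_mul_of_nonneg_right h7 hm0.le
        have h10 : (N : ℝ) * (2 * m + 1) * m ≤ 2 * N * ((m : ℝ) + 1) ^ 2 := by nlinarith
        nlinarith
      exact le_of_mul_le_mul_right h8 (by positivity)
    have h5 : (N / (m : ℝ) ^ 2 - Q) * Real.log w ≤ (N / (m : ℝ) ^ 2 - Q) * ((m : ℝ) ^ 2 * κ) :=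
      mul_le_mul_of_nonneg_left ((le_abs_self _).trans hlw) hd0
    refine h5.trans ?_
    have h6 : ((N / (m : ℝ) ^ 2 - Q) * ((m : ℝ) ^ 2 * κ)) * m ≤ (ε * N / 4) * m := by
      have h7 : ((N / (m : ℝ) ^ 2 - Q) * ((m : ℝ) ^ 2 * κ)) * m =
          ((N / (m : ℝ) ^ 2 - Q) * (m : ℝ) ^ 2 * m) * κ := by ring
      rw [h7]
      have h8 : ((N / (m : ℝ) ^ 2 - Q) * (m : ℝ) ^ 2 * m) * κ ≤ (2 * N + (m : ℝ) ^ 3) * κ :=
        mul_le_mul_of_nonneg_right hd1 (by linarith)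
      have h9 : 64 * κ * N ≤ ε * m * N := mul_le_mul_of_nonneg_right hmε hN0
      have h10 : 16 * (m : ℝ) ^ 2 * κ * m ≤ ε * N * m := mul_le_mul_of_nonneg_right hN hm0.le
      have h11 : 0 ≤ ε * N * m := by positivity
      nlinarith
    exact le_of_mul_le_mul_right h6 hm0
  rw [hlogs]
  have hexp : (N : ℝ) * (2 * Real.log δ - Real.log 3 + Real.log w / (m : ℝ) ^ 2 - ε) =
      N * (2 * Real.log δ - Real.log 3) + N * (Real.log w / (m : ℝ) ^ 2) - ε * N := by ring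
  rw [hexp]
  have hexp2 : 2 * (N : ℝ) * (-(ε / 8) + Real.log δ - Real.log 3 / 2) =
      N * (2 * Real.log δ - Real.log 3) - ε * N / 4 := by ring
  rw [hexp2]
  linarith

end Pool.Agent.J4.H83.HD.Lasy

namespace Pool.Agent.J4.H83.HD

theorem lasy (w : ℕ → ℝ) (hw1 : ∀ m, (1 / 2) ^ ((m - 1) ^ 2) ≤ w m)
    (hw2 : ∀ m, w m ≤ (64 * (m : ℝ) ^ 2) ^ ((m - 1) ^ 2)) (z : ℝ → ℕ → ℝ)
    (hz : ∀ (m : ℕ) (s e L : ℝ) (K₁ K₂ N : ℕ), 1 ≤ m → 0 < s → 0 < e → e ≤ 1 / 2 →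
      s * (m + 1) ≤ 1 / 100 → (1 + s) * ((m + 1) * K₁ + m + 2) + 1 ≤ L →
      (1 + s) * (√3 / 2 * ((m + 1) * K₂)) + 1 ≤ L → N ≤ (m + 1) ^ 2 * (K₁ * K₂) →
      ((e * s) ^ 2) ^ (N - (N / (m + 1) ^ 2) * (m - 1) ^ 2) *
        (((1 - e) * s) ^ (2 * (m - 1) ^ 2) * w m) ^ (N / (m + 1) ^ 2) ≤ z L N)
    (ε : ℝ) (hε : 0 < ε) : ∃ m₀ : ℕ, ∀ m : ℕ, m₀ ≤ m → ∃ δ₀ : ℝ, 0 < δ₀ ∧ ∀ δ : ℝ, 0 < δ → δ < δ₀ →
      ∃ L₀ : ℝ, ∀ (L : ℝ) (N : ℕ), L₀ ≤ L → L ^ 2 / 2 ≤ N → (√3 / 2 + δ) * N ≤ L ^ 2 →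
        Real.exp (N * (2 * Real.log δ - Real.log 3 + Real.log (w m) / (m : ℝ) ^ 2 - ε)) ≤ z L N := by
  obtain ⟨m₀, hm₀⟩ := Lasy.log_small ε hε
  refine ⟨m₀, fun m hm => ?_⟩
  obtain ⟨hm2, hmε⟩ := hm₀ m hm
  have hm2' : (2 : ℝ) ≤ m := by exact_mod_cast hm2
  have hm0 : (0 : ℝ) < m := by linarith
  set κ : ℝ := Real.log (64 * (m : ℝ) ^ 2) with hκ
  have hκ1 : 1 ≤ κ := by
    rw [hκ, Real.le_log_iff_exp_le (by positivity)]
    have := Real.exp_one_lt_d9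
    nlinarith
  have h3 : (0 : ℝ) < √3 := Real.sqrt_pos.2 (by norm_num)
  have h33 : √3 ^ 2 = 3 := Real.sq_sqrt (by norm_num)
  have h31 : 1 ≤ √3 := by nlinarith
  have h32 : √3 ≤ 2 := by nlinarith
  set θ : ℝ := Real.exp (-(ε / 8)) with hθ
  have hθ0 : 0 < θ := Real.exp_pos _
  have hθ1 : θ < 1 := by rw [hθ, Real.exp_lt_one_iff]; linarith
  refine ⟨min (1 - θ) (1 / (100 * (m + 1))), lt_min (by linarith) (by positivity),
    fun δ hδ hδ0 => ?_⟩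
  have hδ1 : δ < 1 - θ := hδ0.trans_le (min_le_left _ _)
  have hδ2 : δ < 1 / (100 * (m + 1)) := hδ0.trans_le (min_le_right _ _)
  set s : ℝ := θ * δ / √3 with hs
  have hs0 : 0 < s := by positivity
  have hsθ : √3 * s = θ * δ := by rw [hs]; field_simp
  have hsδ : s ≤ θ * δ := by
    rw [← hsθ]; nlinarith
  have hsδ' : s ≤ δ := hsδ.trans (by nlinarith)
  have hs100 : s * (m + 1) ≤ 1 / 100 := by
    have h5 : δ * (100 * (m + 1)) < 1 := by rwa [lt_div_iff₀ (by positivity)] at hδ2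
    nlinarith
  have hs1 : s ≤ 1 := by nlinarith
  have hgap : (1 + s) ^ 2 * (√3 / 2) < √3 / 2 + δ := by
    have e : (1 + s) ^ 2 * (√3 / 2) = √3 / 2 + √3 * s + (√3 * s) * s / 2 := by ring
    rw [e, hsθ]
    have h5 : θ * δ * s ≤ δ * δ := by
      have : θ * δ ≤ δ := by nlinarith
      exact mul_le_mul this hsδ' hs0.le hδ.le
    nlinarith
  obtain ⟨L₁, hL₁⟩ := Lasy.exists_K m (√3 / 2) s δ (by positivity) (by linarith) hs0 hs1 hgap
  refine ⟨max L₁ (max 1 (32 * (m : ℝ) ^ 2 * κ / ε)), fun L N hL hN1 hN2 => ?_⟩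
  have hLa : L₁ ≤ L := (le_max_left _ _).trans hL
  have hLb : 1 ≤ L := (le_max_left _ _).trans ((le_max_right _ _).trans hL)
  have hLc : 32 * (m : ℝ) ^ 2 * κ / ε ≤ L := (le_max_right _ _).trans ((le_max_right _ _).trans hL)
  obtain ⟨K₁, K₂, hK1, hK2, hK3⟩ := hL₁ L N hLa hN2
  have hwpos : 0 < w m := lt_of_lt_of_le (by positivity) (hw1 m)
  have hP : (((m - 1) ^ 2 : ℕ) : ℝ) ≤ (m : ℝ) ^ 2 := by
    have : (m - 1) ^ 2 ≤ m ^ 2 := Nat.pow_le_pow_left (by omega) 2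
    exact_mod_cast this
  have hlw : |Real.log (w m)| ≤ (m : ℝ) ^ 2 * κ := by
    rw [abs_le]
    constructor
    · have h5 := Real.log_le_log (by positivity) (hw1 m)
      rw [Real.log_pow] at h5
      have h6 : Real.log (1 / 2) = -Real.log 2 := by rw [one_div, Real.log_inv]
      have h7 : Real.log 2 ≤ κ := by
        rw [hκ]; exact Real.log_le_log (by norm_num) (by nlinarith)
      have h8 : (0 : ℝ) ≤ (((m - 1) ^ 2 : ℕ) : ℝ) := Nat.cast_nonneg _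
      rw [h6] at h5
      have h9 : (0 : ℝ) ≤ Real.log 2 := Real.log_nonneg (by norm_num)
      nlinarith
    · have h5 := Real.log_le_log hwpos (hw2 m)
      rw [Real.log_pow, ← hκ] at h5
      refine h5.trans ?_
      exact mul_le_mul_of_nonneg_right hP (by linarith)
  have hNε : 16 * (m : ℝ) ^ 2 * κ ≤ ε * N := by
    rw [div_le_iff₀ hε] at hLc
    have h5 : L ≤ L ^ 2 := by nlinarith
    nlinarith
  have key := Lasy.main_log m (w m) s δ ε hm2 hε hδ hs hwpos hlw hmε N hNε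
  have he2 : 1 / (m : ℝ) ≤ 1 / 2 := one_div_le_one_div_of_le (by norm_num) hm2'
  exact key.trans (hz m s (1 / m) L K₁ K₂ N (by omega) hs0 (by positivity) he2 hs100 hK1 hK2 hK3)

end Pool.Agent.J4.H83.HD
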