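import Pool.Agent.J4.H83.HD.W

/-!
# The normalised asymptotics from the upper and the lower bound
-/

set_option autoImplicit false

open MeasureTheory Set Filter Topology

namespace Pool.Agent.J4.H83.HD

open Pool.Agent.J4.H83.FV

namespace Nrm

/-- the statement of the upper bound -/
def UASt : Prop := ∀ (ε : ℝ) (_ : 0 < ε), ∃ δ₀ : ℝ, 0 < δ₀ ∧ ∀ δ : ℝ, 0 < δ → δ < δ₀ →
    ∃ m : ℕ, 2 ≤ m ∧ 1 / ε ≤ m ∧ ∃ L₀ : ℝ, ∀ (L : ℝ) (N : ℕ), L₀ ≤ L → 0 < N →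
      L ^ 2 ≤ (√3 / 2 + δ) * N →
        zr L N ≤ Real.exp (N * (2 * Real.log δ - Real.log 3 +
          Real.log (W m pt).toReal / (m : ℝ) ^ 2 + ε))

/-- the statement of the lower bound -/
def LASt : Prop := ∀ (ε : ℝ) (_ : 0 < ε), ∃ m₀ : ℕ, ∀ m : ℕ, m₀ ≤ m → ∃ δ₀ : ℝ, 0 < δ₀ ∧
    ∀ δ : ℝ, 0 < δ → δ < δ₀ → ∃ L₀ : ℝ, ∀ (L : ℝ) (N : ℕ), L₀ ≤ L → L ^ 2 / 2 ≤ N →
      (√3 / 2 + δ) * N ≤ L ^ 2 →
        Real.exp (N * (2 * Real.log δ - Real.log 3 + Real.log (W m pt).toReal / (m : ℝ) ^ 2 - ε)) ≤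
          zr L N

/-- `limsup` -/
lemma exists_limsup (κ : ℕ → ℝ) (a b : ℝ) (ha : ∀ᶠ m in atTop, a ≤ κ m)
    (hb : ∀ᶠ m in atTop, κ m ≤ b) :
    ∃ S : ℝ, ∀ ε : ℝ, 0 < ε → (∀ᶠ m in atTop, κ m ≤ S + ε) ∧ ∃ᶠ m in atTop, S - ε ≤ κ m := by
  set T : Set ℝ := {s | ∀ᶠ m in atTop, κ m ≤ s} with hT
  have hne : T.Nonempty := ⟨b, hb⟩
  have hbdd : BddBelow T := by
    refine ⟨a, fun s hs => ?_⟩
    obtain ⟨m, h1, h2⟩ := (ha.and hs).exists
    exact h1.trans h2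
  refine ⟨sInf T, fun ε hε => ⟨?_, ?_⟩⟩
  · obtain ⟨s, hs, hs2⟩ := exists_lt_of_csInf_lt hne (show sInf T < sInf T + ε by linarith)
    filter_upwards [hs] with m hm
    linarith
  · by_contra hcon
    rw [not_frequently] at hcon
    have h1 : sInf T - ε ∈ T := by
      filter_upwards [hcon] with m hm
      exact (not_le.1 hm).le
    have := csInf_le hbdd h1
    linarith

lemma W_pt_ne_top (m : ℕ) : W m pt ≠ ⊤ := ((W_pt_le m).trans_lt ENNReal.ofReal_lt_top).ne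

lemma w_ge (m : ℕ) : (1 / 2 : ℝ) ^ ((m - 1) ^ 2) ≤ (W m pt).toReal := by
  have h := ENNReal.toReal_mono (W_pt_ne_top m) (W_pt_ge m)
  rwa [ENNReal.toReal_ofReal (by positivity)] at h

lemma w_le (m : ℕ) : (W m pt).toReal ≤ (64 * (m : ℝ) ^ 2) ^ ((m - 1) ^ 2) := by
  have h := ENNReal.toReal_mono ENNReal.ofReal_ne_top (W_pt_le m)
  rwa [ENNReal.toReal_ofReal (by positivity)] at h

lemma kap_ge (m : ℕ) : -Real.log 2 ≤ Real.log (W m pt).toReal / (m : ℝ) ^ 2 := by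
  have hlog2 : 0 < Real.log 2 := Real.log_pos (by norm_num)
  rcases Nat.eq_zero_or_pos m with h | h
  · subst h
    simp
    exact hlog2.le
  have h1 : Real.log ((1 / 2 : ℝ) ^ ((m - 1) ^ 2)) ≤ Real.log (W m pt).toReal :=
    Real.log_le_log (by positivity) (w_ge m)
  rw [Real.log_pow, one_div, Real.log_inv] at h1
  have hm : (0 : ℝ) < m := by exact_mod_cast h
  rw [le_div_iff₀ (by positivity)]
  refine le_trans ?_ h1
  have h2 : (((m - 1) ^ 2 : ℕ) : ℝ) ≤ (m : ℝ) ^ 2 := by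
    have h3 : (m - 1) ^ 2 ≤ m ^ 2 := Nat.pow_le_pow_left (Nat.sub_le m 1) 2
    exact_mod_cast h3
  nlinarith

lemma rho_lt (δ : ℝ) (hδ : 0 < δ) : 1 / (√3 / 2 + δ) < rc := by
  have h3p : 0 < √3 := by positivity
  rw [div_lt_iff₀ (by positivity)]
  have h := rc_pos
  have h2 : rc * (√3 / 2) = 1 := by rw [half_rc]; field_simp
  nlinarith

lemma log_rho (δ : ℝ) (hδ : 0 < δ) : Real.log (1 / (√3 / 2 + δ)) -
    2 * Real.log (1 - 1 / (√3 / 2 + δ) / rc) = Real.log (√3 / 2 + δ) - 2 * Real.log δ := by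
  have h3p : 0 < √3 := by positivity
  have hs : 0 < √3 / 2 + δ := by positivity
  have h2 : 1 - 1 / (√3 / 2 + δ) / rc = δ / (√3 / 2 + δ) := by
    have h : 1 / (√3 / 2 + δ) / rc = (√3 / 2) / (√3 / 2 + δ) := by
      rw [half_rc]
      have := rc_pos
      field_simp
    rw [h]
    field_simp
    ring
  rw [h2, Real.log_div hδ.ne' hs.ne', one_div, Real.log_inv]
  ring

/-- eventual inequalities along a sequence with the limiting density `1 / (√3 / 2 + δ)` -/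
lemma ev_dens {δ δ' δ'' : ℝ} (hδ : 0 < δ) (h1 : δ' < δ) (h1' : 0 < δ') (h2 : δ < δ'') (hδ1 : δ < 1)
    (L : ℕ → ℝ) (N : ℕ → ℕ) (hL : Tendsto L atTop atTop)
    (hN : Tendsto (fun k => (N k : ℝ) / L k ^ 2) atTop (𝓝 (1 / (√3 / 2 + δ)))) :
    ∀ᶠ k in atTop, 0 < N k ∧ L k ^ 2 / 2 ≤ N k ∧ (√3 / 2 + δ') * N k ≤ L k ^ 2 ∧
      L k ^ 2 ≤ (√3 / 2 + δ'') * N k := by
  have h3p : 0 < √3 := by positivity
  have h3 : √3 < 2 := by
    rw [Real.sqrt_lt' (by norm_num)]; norm_num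
  have hs : 0 < √3 / 2 + δ := by positivity
  have a1 : (1 : ℝ) / 2 < 1 / (√3 / 2 + δ) := by
    rw [div_lt_div_iff_of_pos_left one_pos two_pos hs]
    linarith
  have a2 : 1 / (√3 / 2 + δ) < 1 / (√3 / 2 + δ') :=
    one_div_lt_one_div_of_lt (by positivity) (by linarith)
  have a3 : 1 / (√3 / 2 + δ'') < 1 / (√3 / 2 + δ) :=
    one_div_lt_one_div_of_lt (by positivity) (by linarith)
  filter_upwards [hN.eventually (lt_mem_nhds a1), hN.eventually (gt_mem_nhds a2),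
    hN.eventually (lt_mem_nhds a3), hL.eventually_ge_atTop 1] with k b1 b2 b3 b4
  have hL2 : (0 : ℝ) < L k ^ 2 := by positivity
  have hs' : 0 < √3 / 2 + δ' := by positivity
  have hs'' : 0 < √3 / 2 + δ'' := by linarith
  rw [lt_div_iff₀ hL2] at b1 b3
  rw [div_lt_iff₀ hL2] at b2
  refine ⟨?_, by linarith, ?_, ?_⟩
  · rcases Nat.eq_zero_or_pos (N k) with h | h
    · rw [h] at b1
      push_cast at b1
      linarith
    · exact h
  · have := mul_le_mul_of_nonneg_left b2.le hs'.le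
    calc (√3 / 2 + δ') * N k ≤ (√3 / 2 + δ') * (1 / (√3 / 2 + δ') * L k ^ 2) := this
      _ = L k ^ 2 := by field_simp
  · have := mul_le_mul_of_nonneg_left b3.le hs''.le
    calc L k ^ 2 = (√3 / 2 + δ'') * (1 / (√3 / 2 + δ'') * L k ^ 2) := by
          rw [← mul_assoc, mul_one_div_cancel hs''.ne', one_mul]
      _ ≤ (√3 / 2 + δ'') * N k := this

/-- boundedness from above -/
lemma kap_le (LA : LASt) : ∃ b : ℝ, ∀ᶠ m : ℕ in atTop, Real.log (W m pt).toReal / (m : ℝ) ^ 2 ≤ b := by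
  obtain ⟨C, hC, has⟩ := asym
  obtain ⟨m₀, hm₀⟩ := LA 1 one_pos
  have h3p : 0 < √3 := by positivity
  refine ⟨C + Real.log 3 + 1 + 2 * Real.log 2 + Real.log 2, ?_⟩
  filter_upwards [eventually_ge_atTop m₀] with m hm
  obtain ⟨δ₀, hδ₀, h⟩ := hm₀ m hm
  set δ := min (δ₀ / 2) (1 / 8) with hδ
  have hδ0 : 0 < δ := by rw [hδ]; positivity
  have hδ1 : δ < δ₀ := lt_of_le_of_lt (min_le_left _ _) (by linarith)
  have hδ2 : δ ≤ 1 / 8 := min_le_right _ _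
  obtain ⟨L₀, hL₀⟩ := h δ hδ0 hδ1
  have h2δ : 0 < 2 * δ := by positivity
  obtain ⟨L, N, hL, hN⟩ := exists_seq (1 / (√3 / 2 + 2 * δ)) (by positivity)
  have e1 := ev_dens h2δ (δ' := δ) (δ'' := 3 * δ) (by linarith) hδ0 (by linarith) (by linarith) L N hL hN
  have e2 := has _ (by positivity) (rho_lt (2 * δ) h2δ) L N hL hN
  obtain ⟨k, ⟨a1, a2, a3, -⟩, ⟨-, b2, b3⟩, c⟩ := (e1.and (e2.and (hL.eventually_ge_atTop L₀))).exists
  have h4 := hL₀ (L k) (N k) c a2 a3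
  have h5 := Real.log_le_log (Real.exp_pos _) h4
  rw [Real.log_exp] at h5
  rw [log_rho _ h2δ] at b3
  have h6 := (abs_le.1 b3).1
  have hNk : (0 : ℝ) < N k := by exact_mod_cast a1
  have h7 : 2 * Real.log δ - Real.log 3 + Real.log (W m pt).toReal / (m : ℝ) ^ 2 - 1 ≤
      1 / (N k : ℝ) * Real.log (zr (L k) (N k)) := by
    rw [one_div, inv_mul_eq_div, le_div_iff₀ hNk]
    linarith
  have h8 : Real.log (2 * δ) = Real.log 2 + Real.log δ := Real.log_mul two_ne_zero hδ0.ne'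
  have h9 : -Real.log 2 ≤ Real.log (√3 / 2 + 2 * δ) := by
    rw [← Real.log_inv]
    refine Real.log_le_log (by norm_num) ?_
    have : (1 : ℝ) ≤ √3 := by
      rw [Real.one_le_sqrt]; norm_num
    linarith
  linarith

theorem norm_of (UA : UASt) (LA : LASt) : ∃ κ : ℝ, ∀ ε : ℝ, 0 < ε → ∃ δ₀ : ℝ, 0 < δ₀ ∧
    ∀ δ : ℝ, 0 < δ → δ < δ₀ → ∀ (L : ℕ → ℝ) (N : ℕ → ℕ), Tendsto L atTop atTop →
      Tendsto (fun k => (N k : ℝ) / L k ^ 2) atTop (𝓝 (1 / (√3 / 2 + δ))) →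
      ∀ᶠ k in atTop, 0 < zr (L k) (N k) ∧
        |-(1 / (N k : ℝ)) * Real.log (zr (L k) (N k)) + 2 * Real.log δ - κ| ≤ ε := by
  obtain ⟨b, hb⟩ := kap_le LA
  obtain ⟨S, hS⟩ := exists_limsup (fun m : ℕ => Real.log (W m pt).toReal / (m : ℝ) ^ 2) _ b
    (Eventually.of_forall kap_ge) hb
  refine ⟨Real.log 3 - S, fun ε hε => ?_⟩
  set e := ε / 3 with he
  have he0 : 0 < e := by positivity
  obtain ⟨hS1, hS2⟩ := hS e he0
  -- the lower bound
  obtain ⟨m₀, hm₀⟩ := LA e he0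
  obtain ⟨m₁, hm₁, hm₁S⟩ := (hS2.and_eventually (eventually_ge_atTop m₀)).exists
  obtain ⟨δ₁, hδ₁, hlow⟩ := hm₀ m₁ hm₁S
  -- the upper bound
  obtain ⟨m₂, hm₂⟩ := eventually_atTop.1 hS1
  set e' := min e (1 / ((m₂ : ℝ) + 1)) with he'
  have he'0 : 0 < e' := by rw [he']; positivity
  obtain ⟨δ₂, hδ₂, hup⟩ := UA e' he'0
  set q := Real.exp (e / 2) with hq
  have hq0 : 0 < q := Real.exp_pos _
  have hq1 : 1 < q := Real.one_lt_exp_iff.2 (by positivity)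
  have hlq : Real.log q = e / 2 := Real.log_exp _
  refine ⟨min (min δ₁ 1) (δ₂ / q), by positivity, fun δ hδ hδm L N hL hN => ?_⟩
  have hd1 : δ < δ₁ := lt_of_lt_of_le hδm ((min_le_left _ _).trans (min_le_left _ _))
  have hd2 : δ < 1 := lt_of_lt_of_le hδm ((min_le_left _ _).trans (min_le_right _ _))
  have hd3 : q * δ < δ₂ := by
    have := lt_of_lt_of_le hδm (min_le_right _ _)
    rw [lt_div_iff₀ hq0] at this
    linarith
  have hlt1 : δ / q < δ := by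
    rw [div_lt_iff₀ hq0]
    nlinarith
  have hlt2 : δ < q * δ := by nlinarith
  obtain ⟨L₁, hL₁⟩ := hlow (δ / q) (by positivity) (hlt1.trans hd1)
  obtain ⟨m, hm2, hme, L₂, hL₂⟩ := hup (q * δ) (by positivity) hd3
  have hm : m₂ ≤ m := by
    have h1 : (m₂ : ℝ) + 1 ≤ 1 / e' := by
      rw [le_div_iff₀ he'0]
      have : e' ≤ 1 / ((m₂ : ℝ) + 1) := min_le_right _ _
      have h2 : (0 : ℝ) < (m₂ : ℝ) + 1 := by positivity
      calc ((m₂ : ℝ) + 1) * e' ≤ ((m₂ : ℝ) + 1) * (1 / ((m₂ : ℝ) + 1)) :=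
            mul_le_mul_of_nonneg_left this h2.le
        _ = 1 := by field_simp
    have h3 : (m₂ : ℝ) ≤ m := by linarith
    exact_mod_cast h3
  have hκ := hm₂ m hm
  have hee : e' ≤ e := min_le_left _ _
  filter_upwards [ev_dens hδ hlt1 (by positivity) hlt2 hd2 L N hL hN, hL.eventually_ge_atTop L₁,
    hL.eventually_ge_atTop L₂] with k ⟨a1, a2, a3, a4⟩ c1 c2
  have h1 := hL₁ (L k) (N k) c1 a2 a3
  have h2 := hL₂ (L k) (N k) c2 a1 a4
  have hz : 0 < zr (L k) (N k) := (Real.exp_pos _).trans_le h1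
  refine ⟨hz, ?_⟩
  have hNk : (0 : ℝ) < N k := by exact_mod_cast a1
  have h3 := Real.log_le_log (Real.exp_pos _) h1
  have h4 := Real.log_le_log hz h2
  rw [Real.log_exp] at h3 h4
  rw [Real.log_div hδ.ne' hq0.ne', hlq] at h3
  rw [Real.log_mul hq0.ne' hδ.ne', hlq] at h4
  have h5 : -(1 / (N k : ℝ)) * Real.log (zr (L k) (N k)) = -(Real.log (zr (L k) (N k)) / N k) := by
    ring
  rw [mul_comm] at h3 h4
  rw [← le_div_iff₀ hNk] at h3
  rw [← div_le_iff₀ hNk] at h4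
  rw [h5, abs_le]
  constructor <;> linarith

end Nrm

end Pool.Agent.J4.H83.HD
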