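import Pool.Agent.J4.H83.HD.Low
import Pool.Agent.J4.H83.HD.NormA
import Pool.Agent.J4.H83.HD.Lasy
import Pool.Agent.J4.H83.HD.Count

/-!
# The normalised asymptotics
-/

set_option autoImplicit false

open MeasureTheory Set Filter Topology

namespace Pool.Agent.J4.H83.HD

open Pool.Agent.J4.H83.FV

/-- the lower bound -/
theorem lower_asym (ε : ℝ) (hε : 0 < ε) : ∃ m₀ : ℕ, ∀ m : ℕ, m₀ ≤ m → ∃ δ₀ : ℝ, 0 < δ₀ ∧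
    ∀ δ : ℝ, 0 < δ → δ < δ₀ → ∃ L₀ : ℝ, ∀ (L : ℝ) (N : ℕ), L₀ ≤ L → L ^ 2 / 2 ≤ N →
      (√3 / 2 + δ) * N ≤ L ^ 2 →
        Real.exp (N * (2 * Real.log δ - Real.log 3 + Real.log (W m pt).toReal / (m : ℝ) ^ 2 - ε)) ≤
          zr L N :=
  lasy (fun m => (W m pt).toReal) Nrm.w_ge Nrm.w_le zr
    (fun m s e L K₁ K₂ N hm hs he he2 hsm h1 h2 hN =>
      lower_block m hm s e hs he he2 hsm L K₁ K₂ N h1 h2 hN) ε hε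

/-- the normalised asymptotics -/
theorem norm_asym : ∃ κ : ℝ, ∀ ε : ℝ, 0 < ε → ∃ δ₀ : ℝ, 0 < δ₀ ∧ ∀ δ : ℝ, 0 < δ → δ < δ₀ →
    ∀ (L : ℕ → ℝ) (N : ℕ → ℕ), Tendsto L atTop atTop →
      Tendsto (fun k => (N k : ℝ) / L k ^ 2) atTop (𝓝 (1 / (√3 / 2 + δ))) →
      ∀ᶠ k in atTop, 0 < zr (L k) (N k) ∧
        |-(1 / (N k : ℝ)) * Real.log (zr (L k) (N k)) + 2 * Real.log δ - κ| ≤ ε :=
  Nrm.norm_of upper_asym lower_asym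

end Pool.Agent.J4.H83.HD
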