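import Pool.Agent.J4.H83.HD.Norm

/-!
# The normalised asymptotics with the limit `S` of the polytope constants
-/

set_option autoImplicit false

open MeasureTheory Set Filter Topology

namespace Pool.Agent.J4.H83.HD

open Pool.Agent.J4.H83.FV Nrm

theorem kappa_bdd : ∃ B : ℝ, ∀ᶠ m : ℕ in atTop, Real.log (W m pt).toReal / (m : ℝ) ^ 2 ≤ B :=
  kap_le lower_asym

theorem norm_asym2 (S : ℝ)
    (hS : Tendsto (fun m : ℕ => Real.log (W m pt).toReal / (m : ℝ) ^ 2) atTop (𝓝 S)) :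
    ∀ ε : ℝ, 0 < ε → ∃ δ₀ : ℝ, 0 < δ₀ ∧ ∀ δ : ℝ, 0 < δ → δ < δ₀ → ∀ (L : ℕ → ℝ) (N : ℕ → ℕ),
      Tendsto L atTop atTop →
      Tendsto (fun k => (N k : ℝ) / L k ^ 2) atTop (𝓝 (1 / (√3 / 2 + δ))) →
      ∀ᶠ k in atTop, 0 < zr (L k) (N k) ∧
        |-(1 / (N k : ℝ)) * Real.log (zr (L k) (N k)) + 2 * Real.log δ - (Real.log 3 - S)| ≤ ε := by
  intro ε hε
  have UA := upper_asym
  have LA := lower_asym
  set e := ε / 3 with he
  have he0 : 0 < e := by positivity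
  have hS1 : ∀ᶠ m : ℕ in atTop, Real.log (W m pt).toReal / (m : ℝ) ^ 2 ≤ S + e :=
    (hS.eventually (gt_mem_nhds (show S < S + e by linarith))).mono fun m hm => hm.le
  have hS2 : ∃ᶠ m : ℕ in atTop, S - e ≤ Real.log (W m pt).toReal / (m : ℝ) ^ 2 :=
    ((hS.eventually (lt_mem_nhds (show S - e < S by linarith))).mono fun m hm => hm.le).frequently
  -- the lower bound
  obtain ⟨m₀, hm₀⟩ := LA e he0
  obtain ⟨m₁, hm₁, hm₁S⟩ := (hS2.and_eventually (eventually_ge_atTop m₀)).exists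
  obtain ⟨δ₁, hδ₁, hlow⟩ := hm₀ m₁ hm₁S
  -- the upper bound
  obtain ⟨m₂, hm₂⟩ := eventually_atTop.1 hS1
  set e' := min e (1 / ((m₂ : ℝ) + 1)) with he'
  have he'0 : 0 < e' := by rw [he']; positivity
  obtain ⟨δ₂, hδ₂, hup⟩ := UA e' he'0
  set q := Real.exp (e / 2) with hq
  have hq0 : 0 < q := Real.exp_pos _
  have hq1 : 1 < q := Real.one_lt_exp_iff.2 (by positivity)
  have hlq : Real.log q = e / 2 := Real.log_exp _
  refine ⟨min (min δ₁ 1) (δ₂ / q), by positivity, fun δ hδ hδm L N hL hN => ?_⟩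
  have hd1 : δ < δ₁ := lt_of_lt_of_le hδm ((min_le_left _ _).trans (min_le_left _ _))
  have hd2 : δ < 1 := lt_of_lt_of_le hδm ((min_le_left _ _).trans (min_le_right _ _))
  have hd3 : q * δ < δ₂ := by
    have := lt_of_lt_of_le hδm (min_le_right _ _)
    rw [lt_div_iff₀ hq0] at this
    linarith
  have hlt1 : δ / q < δ := by
    rw [div_lt_iff₀ hq0]
    nlinarith
  have hlt2 : δ < q * δ := by nlinarith
  obtain ⟨L₁, hL₁⟩ := hlow (δ / q) (by positivity) (hlt1.trans hd1)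
  obtain ⟨m, hm2, hme, L₂, hL₂⟩ := hup (q * δ) (by positivity) hd3
  have hm : m₂ ≤ m := by
    have h1 : (m₂ : ℝ) + 1 ≤ 1 / e' := by
      rw [le_div_iff₀ he'0]
      have : e' ≤ 1 / ((m₂ : ℝ) + 1) := min_le_right _ _
      have h2 : (0 : ℝ) < (m₂ : ℝ) + 1 := by positivity
      calc ((m₂ : ℝ) + 1) * e' ≤ ((m₂ : ℝ) + 1) * (1 / ((m₂ : ℝ) + 1)) :=
            mul_le_mul_of_nonneg_left this h2.le
        _ = 1 := by field_simp
    have h3 : (m₂ : ℝ) ≤ m := by linarith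
    exact_mod_cast h3
  have hκ := hm₂ m hm
  have hee : e' ≤ e := min_le_left _ _
  filter_upwards [ev_dens hδ hlt1 (by positivity) hlt2 hd2 L N hL hN, hL.eventually_ge_atTop L₁,
    hL.eventually_ge_atTop L₂] with k ⟨a1, a2, a3, a4⟩ c1 c2
  have h1 := hL₁ (L k) (N k) c1 a2 a3
  have h2 := hL₂ (L k) (N k) c2 a1 a4
  have hz : 0 < zr (L k) (N k) := (Real.exp_pos _).trans_le h1
  refine ⟨hz, ?_⟩
  have hNk : (0 : ℝ) < N k := by exact_mod_cast a1
  have h3 := Real.log_le_log (Real.exp_pos _) h1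
  have h4 := Real.log_le_log hz h2
  rw [Real.log_exp] at h3 h4
  rw [Real.log_div hδ.ne' hq0.ne', hlq] at h3
  rw [Real.log_mul hq0.ne' hδ.ne', hlq] at h4
  have h5 : -(1 / (N k : ℝ)) * Real.log (zr (L k) (N k)) = -(Real.log (zr (L k) (N k)) / N k) := by
    ring
  rw [mul_comm] at h3 h4
  rw [← le_div_iff₀ hNk] at h3
  rw [← div_le_iff₀ hNk] at h4
  rw [h5, abs_le]
  constructor <;> linarith


end Pool.Agent.J4.H83.HD
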