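import Pool.Agent.J4.H83.HD.Defs

/-!
# Packing, depth in a cell, nets, rounding to the lattice
-/

set_option autoImplicit false

open MeasureTheory Set

namespace Pool.Agent.J4.H83.HD

open Pool.Agent.J4.H83.FV

lemma om_sq : om ^ 2 = -1 - om := by
  have h3 := sqrt3_sq
  apply Complex.ext
  · simp only [om, pow_two, Complex.mul_re, Complex.sub_re, Complex.neg_re, Complex.one_re]
    nlinarith
  · simp only [om, pow_two, Complex.mul_im, Complex.sub_im, Complex.neg_im, Complex.one_im]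
    ring

lemma nsq_pt (a b : ℝ) : ‖(a : ℂ) + b * om‖ ^ 2 = a ^ 2 - a * b + b ^ 2 := by
  have h3 := sqrt3_sq
  rw [nsq]
  simp only [om, Complex.add_re, Complex.add_im, Complex.mul_re, Complex.mul_im, Complex.ofReal_re,
    Complex.ofReal_im]
  nlinarith

lemma norm_pt_sq (z : ℤ × ℤ) : ‖pt z‖ ^ 2 = (z.1 : ℝ) ^ 2 - z.1 * z.2 + (z.2 : ℝ) ^ 2 := by
  have := nsq_pt (z.1 : ℝ) (z.2 : ℝ)
  unfold pt
  exact_mod_cast this

lemma pt_add_k (z w : ℤ × ℤ) : pt (z + w) = pt z + pt w := by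
  unfold pt
  simp only [Prod.fst_add, Prod.snd_add, Int.cast_add]
  ring

lemma pt_sub (z w : ℤ × ℤ) : pt (z - w) = pt z - pt w := by
  unfold pt
  simp only [Prod.fst_sub, Prod.snd_sub, Int.cast_sub]
  ring

lemma pt_dr_k (k : Fin 3) : pt (dr k) = om ^ (k : ℕ) := by
  fin_cases k
  · simp [pt, dr]
  · simp [pt, dr]
  · simp only [pt, dr]
    simp only [Fin.reduceFinMk, Matrix.cons_val, Int.cast_neg, Int.cast_one]
    rw [om_sq]
    ring

lemma norm_pt_ge_one {z : ℤ × ℤ} (hz : z ≠ 0) : 1 ≤ ‖pt z‖ := by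
  have h1 : (1 : ℤ) ≤ z.1 ^ 2 - z.1 * z.2 + z.2 ^ 2 := by
    by_contra hcon
    push Not at hcon
    have h2 : z.1 ^ 2 - z.1 * z.2 + z.2 ^ 2 ≤ 0 := by omega
    have h3 : z.1 = 0 := by nlinarith [sq_nonneg (z.1 - 2 * z.2), sq_nonneg z.1]
    have h4 : z.2 = 0 := by nlinarith [sq_nonneg (2 * z.1 - z.2), sq_nonneg z.2]
    exact hz (Prod.ext h3 h4)
  have h2 : (1 : ℝ) ≤ ‖pt z‖ ^ 2 := by rw [norm_pt_sq]; exact_mod_cast h1
  nlinarith [norm_nonneg (pt z)]

lemma norm_pt_ge (z : ℤ × ℤ) : |(z.1 : ℝ)| + |(z.2 : ℝ)| ≤ 2 * ‖pt z‖ := by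
  have h := norm_pt_sq z
  have h0 := norm_nonneg (pt z)
  refine abs_le_of_sq_le_sq' ?_ (by positivity) |>.2
  rw [mul_pow, h]
  have h1 := sq_abs (z.1 : ℝ)
  have h2 := sq_abs (z.2 : ℝ)
  have h3 : 2 * (|(z.1 : ℝ)| * |(z.2 : ℝ)|) ≤ (z.1 : ℝ) ^ 2 + (z.2 : ℝ) ^ 2 := by
    rw [← h1, ← h2]; nlinarith [sq_nonneg (|(z.1 : ℝ)| - |(z.2 : ℝ)|)]
  nlinarith [sq_nonneg ((z.1 : ℝ) - z.2)]

lemma norm_pt_le_k (z : ℤ × ℤ) : ‖pt z‖ ≤ |(z.1 : ℝ)| + |(z.2 : ℝ)| := by
  have hom : ‖om‖ = 1 := by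
    have := nsq_pt 0 1
    simp only [Complex.ofReal_zero, Complex.ofReal_one, zero_add, one_mul] at this
    have h0 := norm_nonneg om
    nlinarith
  unfold pt
  calc ‖(z.1 : ℂ) + z.2 * om‖ ≤ ‖(z.1 : ℂ)‖ + ‖(z.2 : ℂ) * om‖ := norm_add_le _ _
    _ = _ := by
      rw [norm_mul, hom, mul_one]
      have e1 : ‖(z.1 : ℂ)‖ = |(z.1 : ℝ)| := by
        rw [← Complex.ofReal_intCast, Complex.norm_real, Real.norm_eq_abs]
      have e2 : ‖(z.2 : ℂ)‖ = |(z.2 : ℝ)| := by
        rw [← Complex.ofReal_intCast, Complex.norm_real, Real.norm_eq_abs]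
      rw [e1, e2]

/-- rounding to the lattice -/
lemma exists_pt (w : ℂ) : ∃ z : ℤ × ℤ, ‖w - pt z‖ ≤ 0.867 := by
  have h3 := sqrt3_sq
  have h3p : 0 < √3 := by positivity
  set b : ℝ := 2 * w.im / √3 with hb
  set a : ℝ := w.re + b / 2 with ha
  have e : w = (a : ℂ) + b * om := by
    apply Complex.ext
    · simp only [om, Complex.add_re, Complex.mul_re, Complex.ofReal_re, Complex.ofReal_im]
      rw [ha]; ring
    · simp only [om, Complex.add_im, Complex.mul_im, Complex.ofReal_re, Complex.ofReal_im]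
      rw [hb]; field_simp; ring
  refine ⟨(round a, round b), ?_⟩
  have e2 : w - pt (round a, round b) = ((a - round a : ℝ) : ℂ) + ((b - round b : ℝ) : ℂ) * om := by
    rw [e]; unfold pt; push_cast; ring
  have h1 := abs_sub_round a
  have h2 := abs_sub_round b
  have h4 := nsq_pt (a - round a) (b - round b)
  rw [← e2] at h4
  obtain ⟨c1, c2⟩ := abs_le.1 h1
  obtain ⟨d1, d2⟩ := abs_le.1 h2
  have h5 : ‖w - pt (round a, round b)‖ ^ 2 ≤ 3 / 4 := by
    rw [h4]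
    set p := a - round a
    set q := b - round b
    nlinarith [mul_nonneg (sub_nonneg.2 c2) (sub_nonneg.2 d2), sq_nonneg (p + q), sq_nonneg (p - q),
      mul_nonneg (sub_nonneg.2 c2) (by linarith : 0 ≤ q + 1 / 2),
      mul_nonneg (sub_nonneg.2 d2) (by linarith : 0 ≤ p + 1 / 2),
      mul_nonneg (by linarith : 0 ≤ p + 1 / 2) (by linarith : 0 ≤ q + 1 / 2)]
  nlinarith [norm_nonneg (w - pt (round a, round b))]

/-- a net of the unit circle -/
lemma exists_net (b : ℕ) (hb : 0 < b) (r : ℂ) (hr : ‖r‖ = 1) :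
    ∃ k : Fin b, ‖r - Complex.exp ((2 * Real.pi * k / b : ℝ) * Complex.I)‖ ≤ 7 / b := by
  have hpi := Real.pi_pos
  have hpi2 := Real.pi_lt_d2
  have hb0 : (0 : ℝ) < b := by exact_mod_cast hb
  set θ := Complex.arg r with hθ
  have hθr : Complex.exp (θ * Complex.I) = r := by
    have := Complex.norm_mul_exp_arg_mul_I r
    rw [hr] at this
    simpa using this
  obtain ⟨θ', h0, h1, h2⟩ : ∃ θ' : ℝ, 0 ≤ θ' ∧ θ' < 2 * Real.pi ∧
      Complex.exp (θ' * Complex.I) = r := by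
    rcases le_or_gt 0 θ with h | h
    · exact ⟨θ, h, by have := Complex.arg_le_pi r; rw [← hθ] at this; linarith, hθr⟩
    · refine ⟨θ + 2 * Real.pi, ?_, by linarith, ?_⟩
      · have := Complex.neg_pi_lt_arg r
        rw [← hθ] at this
        linarith
      · push_cast
        rw [add_mul, Complex.exp_add, hθr, Complex.exp_two_pi_mul_I, mul_one]
  set k := ⌊θ' * b / (2 * Real.pi)⌋₊ with hk
  have hq0 : 0 ≤ θ' * b / (2 * Real.pi) := by positivity
  have hkb : k < b := by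
    rw [hk, Nat.floor_lt hq0, div_lt_iff₀ (by positivity)]
    nlinarith
  refine ⟨⟨k, hkb⟩, ?_⟩
  have h3 : (k : ℝ) ≤ θ' * b / (2 * Real.pi) := Nat.floor_le hq0
  have h4 : θ' * b / (2 * Real.pi) < k + 1 := Nat.lt_floor_add_one _
  rw [le_div_iff₀ (by positivity)] at h3
  rw [div_lt_iff₀ (by positivity)] at h4
  have h5 : |2 * Real.pi * k / b - θ'| ≤ 7 / b := by
    rw [abs_le]
    constructor
    · rw [neg_le_sub_iff_le_add, ← add_div, le_div_iff₀ hb0]
      nlinarith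
    · rw [sub_le_iff_le_add, div_le_iff₀ hb0, add_mul, div_mul_cancel₀ _ hb0.ne']
      nlinarith
  rw [← h2, ← norm_neg, neg_sub]
  have h6 : Complex.exp ((2 * Real.pi * k / b : ℝ) * Complex.I) - Complex.exp (θ' * Complex.I) =
      Complex.exp (θ' * Complex.I) * (Complex.exp (Complex.I * (2 * Real.pi * k / b - θ' : ℝ)) - 1) := by
    rw [mul_sub, ← Complex.exp_add, mul_one]
    congr 2
    push_cast
    ring
  show ‖Complex.exp ((2 * Real.pi * k / b : ℝ) * Complex.I) - Complex.exp (θ' * Complex.I)‖ ≤ _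
  rw [h6, norm_mul, Complex.norm_exp_ofReal_mul_I, one_mul]
  exact (Real.norm_exp_I_mul_ofReal_sub_one_le (x := 2 * Real.pi * k / b - θ')).trans (by
    rw [Real.norm_eq_abs]; exact h5)

/-- at most `(2A+1)(2B+1)` points with mutual distances at least one in a rectangle -/
lemma packing {N : ℕ} (x : Fin N → ℂ) (hx : ∀ i j, i ≠ j → 1 ≤ ‖x i - x j‖) (a b A B : ℝ)
    (hA : 0 ≤ A) (hB : 0 ≤ B) (s : Finset (Fin N))
    (hs : ∀ i ∈ s, (a ≤ (x i).re ∧ (x i).re ≤ a + A) ∧ (b ≤ (x i).im ∧ (x i).im ≤ b + B)) :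
    (s.card : ℝ) ≤ (2 * A + 1) * (2 * B + 1) := by
  have h1 : s.card ≤ (Finset.range (⌊2 * A⌋₊ + 1) ×ˢ Finset.range (⌊2 * B⌋₊ + 1)).card := by
    refine Finset.card_le_card_of_injOn
      (fun i => (⌊2 * ((x i).re - a)⌋₊, ⌊2 * ((x i).im - b)⌋₊)) ?_ ?_
    · intro i hi
      obtain ⟨⟨h1, h2⟩, h3, h4⟩ := hs i hi
      simp only [Finset.coe_product, Finset.coe_range, Set.mem_prod, Set.mem_Iio]
      constructor
      · exact Nat.lt_succ_of_le (Nat.floor_le_floor (by linarith))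
      · exact Nat.lt_succ_of_le (Nat.floor_le_floor (by linarith))
    · intro i hi j hj hij
      by_contra hne
      obtain ⟨⟨h1, h2⟩, h3, h4⟩ := hs i hi
      obtain ⟨⟨g1, g2⟩, g3, g4⟩ := hs j hj
      have hd := hx i j hne
      simp only [Prod.mk.injEq] at hij
      obtain ⟨e1, e2⟩ := hij
      have f1 := Nat.floor_le (show 0 ≤ 2 * ((x i).re - a) by linarith)
      have f2 := Nat.lt_floor_add_one (2 * ((x i).re - a))
      have f3 := Nat.floor_le (show 0 ≤ 2 * ((x j).re - a) by linarith)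
      have f4 := Nat.lt_floor_add_one (2 * ((x j).re - a))
      have f5 := Nat.floor_le (show 0 ≤ 2 * ((x i).im - b) by linarith)
      have f6 := Nat.lt_floor_add_one (2 * ((x i).im - b))
      have f7 := Nat.floor_le (show 0 ≤ 2 * ((x j).im - b) by linarith)
      have f8 := Nat.lt_floor_add_one (2 * ((x j).im - b))
      rw [e1] at f1 f2
      rw [e2] at f5 f6
      have k1 : |(x i).re - (x j).re| ≤ 1 / 2 := by rw [abs_le]; constructor <;> linarith
      have k2 : |(x i).im - (x j).im| ≤ 1 / 2 := by rw [abs_le]; constructor <;> linarith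
      have k3 : ‖x i - x j‖ ^ 2 ≤ 1 / 2 := by
        rw [nsq, Complex.sub_re, Complex.sub_im]
        have := sq_le_sq' (abs_le.1 k1).1 (abs_le.1 k1).2
        have := sq_le_sq' (abs_le.1 k2).1 (abs_le.1 k2).2
        linarith
      nlinarith
  rw [Finset.card_product, Finset.card_range, Finset.card_range] at h1
  have h2 : (s.card : ℝ) ≤ ((⌊2 * A⌋₊ + 1) * (⌊2 * B⌋₊ + 1) : ℕ) := by exact_mod_cast h1
  push_cast at h2
  have h3 := Nat.floor_le (show 0 ≤ 2 * A by linarith)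
  have h4 := Nat.floor_le (show 0 ≤ 2 * B by linarith)
  calc (s.card : ℝ) ≤ _ := h2
    _ ≤ _ := mul_le_mul (by linarith) (by linarith) (by positivity) (by positivity)

/-- the depth of the point `w` in the cell `c` of side `M` -/
noncomputable def dep (M : ℝ) (c : ℕ × ℕ) (w : ℂ) : ℝ :=
  min (min (w.re - M * c.1) (M * (c.1 + 1) - w.re)) (min (w.im - M * c.2) (M * (c.2 + 1) - w.im))

lemma le_dep {M d : ℝ} {c : ℕ × ℕ} {w : ℂ} : d ≤ dep M c w ↔ (d ≤ w.re - M * c.1 ∧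
    d ≤ M * (c.1 + 1) - w.re) ∧ (d ≤ w.im - M * c.2 ∧ d ≤ M * (c.2 + 1) - w.im) := by
  unfold dep
  rw [le_min_iff, le_min_iff, le_min_iff]

lemma dep_lip (M : ℝ) (c : ℕ × ℕ) (w w' : ℂ) : dep M c w' - ‖w - w'‖ ≤ dep M c w := by
  have h1 := abs_le.1 (Complex.abs_re_le_norm (w - w'))
  have h2 := abs_le.1 (Complex.abs_im_le_norm (w - w'))
  rw [Complex.sub_re] at h1
  rw [Complex.sub_im] at h2
  obtain ⟨⟨g1, g2⟩, g3, g4⟩ := le_dep.1 (le_refl (dep M c w'))
  rw [le_dep]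
  refine ⟨⟨by linarith, by linarith⟩, by linarith, by linarith⟩

lemma dep_abs (M : ℝ) (c : ℕ × ℕ) (w w' : ℂ) : |dep M c w - dep M c w'| ≤ ‖w - w'‖ := by
  rw [abs_le]
  have h1 := dep_lip M c w w'
  have h2 := dep_lip M c w' w
  rw [norm_sub_rev] at h2
  constructor <;> linarith

/-- points of positive depth are in only one cell -/
lemma dep_inj {M : ℝ} (hM : 0 < M) {c c' : ℕ × ℕ} {w w' : ℂ} (h : 0 < dep M c w)
    (h' : 0 < dep M c' w) : c = c' := by
  obtain ⟨⟨g1, g2⟩, g3, g4⟩ := le_dep.1 (le_refl (dep M c w))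
  obtain ⟨⟨f1, f2⟩, f3, f4⟩ := le_dep.1 (le_refl (dep M c' w))
  have key : ∀ a b : ℕ, ∀ t : ℝ, 0 < t - M * a → 0 < M * (b + 1) - t → a ≤ b := by
    intro a b t h1 h2
    have : M * a < M * (b + 1) := by linarith
    have h3 := lt_of_mul_lt_mul_left this hM.le
    have h4 : a < b + 1 := by exact_mod_cast h3
    omega
  apply Prod.ext
  · exact le_antisymm (key _ _ w.re (by linarith) (by linarith)) (key _ _ w.re (by linarith) (by linarith))
  · exact le_antisymm (key _ _ w.im (by linarith) (by linarith)) (key _ _ w.im (by linarith) (by linarith))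

end Pool.Agent.J4.H83.HD
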