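import Pool.Agent.J4.H83.HD.Pack

/-!
# Types of configurations: for each good cell a lattice from a finite net
-/

set_option autoImplicit false

open MeasureTheory Set

namespace Pool.Agent.J4.H83.HD

open Pool.Agent.J4.H83.FV

variable {K M b : ℕ}

/-- the origin of the lattice of a cell -/
noncomputable def pq (M : ℕ) {b : ℕ} (c : ℕ × ℕ) (q : Fin (100 * M) × Fin (100 * M) × Fin b) : ℂ :=
  ⟨M * c.1 + (q.1 : ℝ) / 100, M * c.2 + (q.2.1 : ℝ) / 100⟩

/-- the direction of the lattice of a cell -/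
noncomputable def rq {M b : ℕ} (q : Fin (100 * M) × Fin (100 * M) × Fin b) : ℂ :=
  Complex.exp ((2 * Real.pi * (q.2.2 : ℕ) / b : ℝ) * Complex.I)

lemma norm_rq {M b : ℕ} (q : Fin (100 * M) × Fin (100 * M) × Fin b) : ‖rq q‖ = 1 :=
  Complex.norm_exp_ofReal_mul_I _

/-- the types -/
abbrev Ty (K M b : ℕ) := Fin K × Fin K → Option (Fin (100 * M) × Fin (100 * M) × Fin b)

def cn (c : Fin K × Fin K) : ℕ × ℕ := (c.1, c.2)

lemma cn_inj {c c' : Fin K × Fin K} (h : cn c = cn c') : c = c' := by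
  unfold cn at h
  simp only [Prod.mk.injEq] at h
  exact Prod.ext (Fin.ext h.1) (Fin.ext h.2)

/-- the lattice points of the type in the cell -/
noncomputable def lp (t : Ty K M b) (c : Fin K × Fin K) (z : ℤ × ℤ) : ℂ :=
  match t c with
  | none => 0
  | some q => pq M (cn c) q + rq q * pt z

noncomputable def rr (t : Ty K M b) (c : Fin K × Fin K) : ℂ :=
  match t c with
  | none => 1
  | some q => rq q

/-- the slots -/
noncomputable def SS (t : Ty K M b) : Finset ((Fin K × Fin K) × (ℤ × ℤ)) :=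
  open scoped Classical in
  (Finset.univ ×ˢ (Finset.Icc (-(4 * M : ℤ)) (4 * M) ×ˢ Finset.Icc (-(4 * M : ℤ)) (4 * M))).filter
    fun p => (t p.1).isSome ∧ 1 ≤ dep M (cn p.1) (lp t p.1 p.2)

/-- the weights -/
noncomputable def ph (m : ℕ) (lam : ℝ) (t : Ty K M b) (c : Fin K × Fin K) (z : ℤ × ℤ) : ℝ :=
  if (t c).isSome then min 1 (max 0 (lam * (dep M (cn c) (lp t c z) - (4 * m + 14)))) else 0

/-- the cells as sets -/
def Dc (M : ℕ) (c : Fin K × Fin K) : Set ℂ := {w | 0 ≤ dep M (cn c) w}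

lemma norm_rr (t : Ty K M b) (c : Fin K × Fin K) : ‖rr t c‖ = 1 := by
  unfold rr
  split
  · simp
  · exact norm_rq _

lemma Dc_eq (c : Fin K × Fin K) : Dc M c = Complex.measurableEquivRealProd ⁻¹'
    (Icc ((M : ℝ) * (c.1 : ℕ)) (M * ((c.1 : ℕ) + 1)) ×ˢ Icc ((M : ℝ) * (c.2 : ℕ)) (M * ((c.2 : ℕ) + 1))) := by
  ext w
  simp only [Dc, mem_setOf_eq, le_dep, mem_preimage, Complex.measurableEquivRealProd_apply, mem_prod,
    mem_Icc, cn, sub_nonneg]

lemma Dc_meas (c : Fin K × Fin K) : MeasurableSet (Dc M c) := by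
  rw [Dc_eq]
  exact Complex.measurableEquivRealProd.measurable (measurableSet_Icc.prod measurableSet_Icc)

lemma vol_Dc (c : Fin K × Fin K) : volume (Dc M c) ≤ ENNReal.ofReal ((M : ℝ) ^ 2) := by
  have h0 : (0 : ℝ) ≤ M := Nat.cast_nonneg _
  rw [Dc_eq, Complex.volume_preserving_equiv_real_prod.measure_preimage_equiv,
    Measure.volume_eq_prod, Measure.prod_prod, Real.volume_Icc, Real.volume_Icc,
    ← ENNReal.ofReal_mul (by nlinarith)]
  refine le_of_eq ?_
  congr 1
  ring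

/-- points of the closed cell are near the origin of the lattice of the cell -/
lemma pq_near {c : ℕ × ℕ} (q : Fin (100 * M) × Fin (100 * M) × Fin b) {w : ℂ}
    (hw : 0 ≤ dep M c w) : ‖w - pq M c q‖ ≤ 1.5 * M := by
  obtain ⟨⟨g1, g2⟩, g3, g4⟩ := le_dep.1 hw
  have hM : (0 : ℝ) ≤ M := Nat.cast_nonneg _
  have h1 : (q.1 : ℝ) ≤ 100 * M := by
    have := q.1.2
    exact_mod_cast this.le
  have h2 : (q.2.1 : ℝ) ≤ 100 * M := by
    have := q.2.1.2
    exact_mod_cast this.le
  have h3 : (0 : ℝ) ≤ (q.1 : ℝ) := Nat.cast_nonneg _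
  have h4 : (0 : ℝ) ≤ (q.2.1 : ℝ) := Nat.cast_nonneg _
  have e1 : |(w - pq M c q).re| ≤ M := by
    rw [Complex.sub_re, abs_le]
    simp only [pq]
    constructor <;> nlinarith
  have e2 : |(w - pq M c q).im| ≤ M := by
    rw [Complex.sub_im, abs_le]
    simp only [pq]
    constructor <;> nlinarith
  have h5 := nsq (w - pq M c q)
  have h6 := sq_le_sq' (abs_le.1 e1).1 (abs_le.1 e1).2
  have h7 := sq_le_sq' (abs_le.1 e2).1 (abs_le.1 e2).2
  refine abs_le_of_sq_le_sq' ?_ (by positivity) |>.2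
  nlinarith

lemma pt_bound {c : ℕ × ℕ} (q : Fin (100 * M) × Fin (100 * M) × Fin b) {z : ℤ × ℤ}
    (hw : 0 ≤ dep M c (pq M c q + rq q * pt z)) : ‖pt z‖ ≤ 1.5 * M ∧
      |(z.1 : ℝ)| + |(z.2 : ℝ)| ≤ 3 * M := by
  have h1 := pq_near q hw
  rw [add_sub_cancel_left, norm_mul, norm_rq, one_mul] at h1
  refine ⟨h1, (norm_pt_ge z).trans (by linarith)⟩

lemma mem_SS {t : Ty K M b} {c : Fin K × Fin K} {z : ℤ × ℤ}
    (q : Fin (100 * M) × Fin (100 * M) × Fin b) (hq : t c = some q) :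
    (c, z) ∈ SS t ↔ 1 ≤ dep M (cn c) (pq M (cn c) q + rq q * pt z) := by
  classical
  unfold SS
  have e : lp t c z = pq M (cn c) q + rq q * pt z := by
    unfold lp; rw [hq]
  constructor
  · intro h
    rw [Finset.mem_filter] at h
    have := h.2.2
    simp only at this
    rwa [e] at this
  · intro h
    obtain ⟨-, h2⟩ := pt_bound q (by linarith : (0:ℝ) ≤ dep M (cn c) (pq M (cn c) q + rq q * pt z))
    have hM : (0 : ℝ) ≤ M := Nat.cast_nonneg _
    have a1 : |(z.1 : ℝ)| ≤ 4 * M := by have := abs_nonneg (z.2 : ℝ); linarith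
    have a2 : |(z.2 : ℝ)| ≤ 4 * M := by have := abs_nonneg (z.1 : ℝ); linarith
    have b1 : |z.1| ≤ 4 * M := by exact_mod_cast a1
    have b2 : |z.2| ≤ 4 * M := by exact_mod_cast a2
    rw [Finset.mem_filter, Finset.mem_product, Finset.mem_product, Finset.mem_Icc, Finset.mem_Icc]
    refine ⟨⟨Finset.mem_univ _, abs_le.1 b1, abs_le.1 b2⟩, ?_, ?_⟩
    · simp only [hq, Option.isSome_some]
    · simp only
      rwa [e]

lemma isSome_of_mem {t : Ty K M b} {p : (Fin K × Fin K) × (ℤ × ℤ)} (h : p ∈ SS t) :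
    ∃ q, t p.1 = some q := by
  classical
  unfold SS at h
  rw [Finset.mem_filter] at h
  exact Option.isSome_iff_exists.1 h.2.1

lemma ph_nonneg (m : ℕ) (lam : ℝ) (t : Ty K M b) (c : Fin K × Fin K) (z : ℤ × ℤ) :
    0 ≤ ph m lam t c z := by
  unfold ph
  split
  · exact le_min zero_le_one (le_max_left _ _)
  · exact le_rfl

lemma ph_le_one (m : ℕ) (lam : ℝ) (t : Ty K M b) (c : Fin K × Fin K) (z : ℤ × ℤ) :
    ph m lam t c z ≤ 1 := by
  unfold ph
  split
  · exact min_le_left _ _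
  · exact zero_le_one

lemma norm_om_k : ‖om‖ = 1 := by
  have := nsq_pt 0 1
  simp only [Complex.ofReal_zero, Complex.ofReal_one, zero_add, one_mul] at this
  have h0 := norm_nonneg om
  nlinarith

lemma lp_some {t : Ty K M b} {c : Fin K × Fin K} (z : ℤ × ℤ)
    {q : Fin (100 * M) × Fin (100 * M) × Fin b} (hq : t c = some q) :
    lp t c z = pq M (cn c) q + rq q * pt z := by
  unfold lp; rw [hq]

lemma ph_supp (m : ℕ) (lam : ℝ) (hlam : 0 < lam) (t : Ty K M b) (c : Fin K × Fin K) (z : ℤ × ℤ)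
    (h : ph m lam t c z ≠ 0) (y : ℤ × ℤ) (h1 : |y.1| ≤ 2 * m + 6) (h2 : |y.2| ≤ 2 * m + 6) :
    (c, z + y) ∈ SS t := by
  unfold ph at h
  split at h
  · rename_i hs
    obtain ⟨q, hq⟩ := Option.isSome_iff_exists.1 hs
    rw [mem_SS q hq]
    have h3 : 0 < lam * (dep M (cn c) (lp t c z) - (4 * m + 14)) := by
      by_contra hcon
      push Not at hcon
      rw [max_eq_left hcon] at h
      exact h (by simp)
    have h4 : 4 * (m : ℝ) + 14 < dep M (cn c) (lp t c z) := by
      have := (mul_pos_iff_of_pos_left hlam).1 h3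
      linarith
    rw [lp_some z hq] at h4
    have h5 := dep_lip M (cn c) (pq M (cn c) q + rq q * pt (z + y)) (pq M (cn c) q + rq q * pt z)
    have e : pq M (cn c) q + rq q * pt (z + y) - (pq M (cn c) q + rq q * pt z) = rq q * pt y := by
      rw [pt_add_k]; ring
    rw [e, norm_mul, norm_rq, one_mul] at h5
    have h6 := norm_pt_le_k y
    have a1 : |(y.1 : ℝ)| ≤ 2 * m + 6 := by exact_mod_cast h1
    have a2 : |(y.2 : ℝ)| ≤ 2 * m + 6 := by exact_mod_cast h2
    linarith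
  · exact absurd rfl h

lemma ph_lip (m : ℕ) (lam : ℝ) (hlam : 0 < lam) (t : Ty K M b) (c : Fin K × Fin K) (z : ℤ × ℤ)
    (k : Fin 3) : |ph m lam t c (z + dr k) - ph m lam t c z| ≤ lam := by
  unfold ph
  by_cases hs : (t c).isSome
  · rw [if_pos hs, if_pos hs]
    obtain ⟨q, hq⟩ := Option.isSome_iff_exists.1 hs
    have h1 : |dep M (cn c) (lp t c (z + dr k)) - dep M (cn c) (lp t c z)| ≤ 1 := by
      refine (dep_abs _ _ _ _).trans (le_of_eq ?_)
      rw [lp_some _ hq, lp_some _ hq]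
      have e : pq M (cn c) q + rq q * pt (z + dr k) - (pq M (cn c) q + rq q * pt z) =
          rq q * pt (dr k) := by
        rw [pt_add_k]; ring
      rw [e, norm_mul, norm_rq, pt_dr_k, norm_pow, norm_om_k, one_pow, one_mul]
    have h2 : |lam * (dep M (cn c) (lp t c (z + dr k)) - (4 * m + 14)) -
        lam * (dep M (cn c) (lp t c z) - (4 * m + 14))| ≤ lam := by
      rw [← mul_sub, abs_mul, abs_of_pos hlam, sub_sub_sub_cancel_right]
      exact mul_le_of_le_one_right hlam.le h1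
    refine (abs_min_sub_min_le_max _ _ _ _).trans ?_
    rw [sub_self, abs_zero]
    refine max_le hlam.le ?_
    refine (abs_max_sub_max_le_max _ _ _ _).trans ?_
    rw [sub_self, abs_zero]
    exact max_le hlam.le h2
  · rw [if_neg hs, if_neg hs, sub_self, abs_zero]
    exact hlam.le

end Pool.Agent.J4.H83.HD
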