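import Pool.Agent.J4.H83.HD.Defs
import Pool.Agent.TH264.MP.PL

/-!
# Piece W: the volume of the polytope of block displacements

Log-concavity in the boundary values (Prekopa-Leindler), scaling, robustness, crude bounds.
-/

set_option autoImplicit false

open MeasureTheory Set Filter Topology
open scoped Pointwise

namespace Pool.Agent.J4.H83.HD

open Pool.Agent.J4.H83.FV

/-! ### the complex number `ω` -/

theorem om_re : om.re = -1 / 2 := rfl

theorem om_im : om.im = √3 / 2 := rfl

theorem norm_om : ‖om‖ = 1 := by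
  have h : ‖om‖ ^ 2 = 1 := by
    rw [← Complex.normSq_eq_norm_sq, Complex.normSq_apply, om_re, om_im]
    have h3 : √3 * √3 = 3 := Real.mul_self_sqrt (by norm_num)
    nlinarith
  have h0 : 0 ≤ ‖om‖ := norm_nonneg _
  nlinarith

theorem om_rel : 1 + om + om ^ 2 = 0 := by
  have h3 : √3 * √3 = 3 := Real.mul_self_sqrt (by norm_num)
  apply Complex.ext
  · simp only [Complex.add_re, Complex.one_re, pow_two, Complex.mul_re, om_re, om_im, Complex.zero_re]
    nlinarith
  · simp only [Complex.add_im, Complex.one_im, pow_two, Complex.mul_im, om_re, om_im, Complex.zero_im]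
    ring

theorem pt_add (z y : ℤ × ℤ) : pt (z + y) = pt z + pt y := by
  unfold pt
  push_cast [Prod.fst_add, Prod.snd_add]
  ring

theorem pt_dr (k : Fin 3) : pt (dr k) = om ^ (k : ℕ) := by
  have h := om_rel
  match k with
  | 0 => simp [pt, dr]
  | 1 => simp [pt, dr]
  | 2 =>
    have e : dr 2 = (-1, -1) := rfl
    rw [e]
    unfold pt
    push_cast
    have e2 : ((2 : Fin 3) : ℕ) = 2 := rfl
    rw [e2]
    linear_combination -h

theorem norm_om_pow (k : ℕ) : ‖om ^ k‖ = 1 := by
  rw [norm_pow, norm_om, one_pow]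

/-- `conj (ω^k) ω^k = 1` -/
theorem conj_om_pow (k : ℕ) : (starRingEnd ℂ) (om ^ k) * om ^ k = 1 := by
  rw [mul_comm, Complex.mul_conj, Complex.normSq_eq_norm_sq, norm_om_pow]
  norm_num

/-! ### linearity -/

theorem gl_add (u v : ℤ × ℤ → ℂ) (z : ℤ × ℤ) (k : Fin 3) :
    gl (fun x => u x + v x) z k = gl u z k + gl v z k := by
  unfold gl
  rw [← Complex.add_re, ← mul_add]
  congr 2
  ring

theorem gl_smul (t : ℝ) (u : ℤ × ℤ → ℂ) (z : ℤ × ℤ) (k : Fin 3) :
    gl (fun x => (t : ℂ) * u x) z k = t * gl u z k := by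
  unfold gl
  rw [← Complex.re_ofReal_mul]
  congr 1
  ring

theorem glue_add (m : ℕ) (b b' : ℤ × ℤ → ℂ) (w w' : In m → ℂ) (z : ℤ × ℤ) :
    glue m (fun x => b x + b' x) (w + w') z = glue m b w z + glue m b' w' z := by
  unfold glue
  split_ifs with h
  · rfl
  · rfl

theorem glue_smul (m : ℕ) (t : ℝ) (b : ℤ × ℤ → ℂ) (w : In m → ℂ) (z : ℤ × ℤ) :
    glue m (fun x => (t : ℂ) * b x) (t • w) z = (t : ℂ) * glue m b w z := by
  unfold glue
  split_ifs with h
  · simp
  · rfl

theorem glue_cont (m : ℕ) (b : ℤ × ℤ → ℂ) (z : ℤ × ℤ) : Continuous fun w => glue m b w z := by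
  unfold glue
  split_ifs with h
  · exact continuous_apply _
  · exact continuous_const

theorem gl_cont (m : ℕ) (b : ℤ × ℤ → ℂ) (z : ℤ × ℤ) (k : Fin 3) :
    Continuous fun w => gl (glue m b w) z k := by
  unfold gl
  have h1 := glue_cont m b z
  have h2 := glue_cont m b (z + dr k)
  fun_prop

theorem CS_closed (m : ℕ) (b : ℤ × ℤ → ℂ) : IsClosed (CS m b) := by
  unfold CS
  simp only [Set.ofPred_forall]
  refine isClosed_iInter fun z => isClosed_iInter fun _ => isClosed_iInter fun k =>
    isClosed_iInter fun _ => isClosed_iInter fun _ => ?_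
  exact isClosed_le continuous_const (gl_cont m b z k)

theorem CS_meas (m : ℕ) (b : ℤ × ℤ → ℂ) : MeasurableSet (CS m b) := (CS_closed m b).measurableSet

/-! ### the crude bound -/

/-- monotone along the rows -/
theorem row_mono (m : ℕ) (b : ℤ × ℤ → ℂ) (w : In m → ℂ) (hw : w ∈ CS m b) (j : ℤ) (hj : 0 < j)
    (hj' : j < m) (i : ℤ) (hi : 0 ≤ i) (n : ℕ) (hn : i + n ≤ m) :
    (glue m b w (i, j)).re ≤ (glue m b w (i + n, j)).re := by
  induction n with
  | zero => simp
  | succ n ih =>
    have ih' := ih (by push_cast at hn; linarith)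
    refine ih'.trans ?_
    have hm2 : 2 ≤ m := by omega
    have h := hw (i + n, j) (by simp only [Sq, Finset.mem_product, Finset.mem_Icc]; push_cast at hn; omega)
      0 (by simp only [Sq, dr, Finset.mem_product, Finset.mem_Icc, Matrix.cons_val_zero, Prod.mk_add_mk]
            push_cast at hn; omega)
      (by
        simp only [In, dr, Finset.mem_product, Finset.mem_Ioo, Matrix.cons_val_zero, Prod.mk_add_mk]
        push_cast at hn
        omega)
    have e : ((i + n, j) : ℤ × ℤ) + dr 0 = (i + (n + 1 : ℕ), j) := by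
      simp only [dr, Matrix.cons_val_zero, Prod.mk_add_mk]
      push_cast
      ring_nf
    unfold gl at h
    rw [e] at h
    simp only [Fin.val_zero, pow_zero, map_one, one_mul, Complex.sub_re] at h
    linarith

/-- monotone along the columns -/
theorem col_mono (m : ℕ) (b : ℤ × ℤ → ℂ) (w : In m → ℂ) (hw : w ∈ CS m b) (i : ℤ) (hi : 0 < i)
    (hi' : i < m) (j : ℤ) (hj : 0 ≤ j) (n : ℕ) (hn : j + n ≤ m) :
    ((starRingEnd ℂ) om * glue m b w (i, j)).re ≤ ((starRingEnd ℂ) om * glue m b w (i, j + n)).re := by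
  induction n with
  | zero => simp
  | succ n ih =>
    have ih' := ih (by push_cast at hn; linarith)
    refine ih'.trans ?_
    have hm2 : 2 ≤ m := by omega
    have h := hw (i, j + n) (by simp only [Sq, Finset.mem_product, Finset.mem_Icc]; push_cast at hn; omega)
      1 (by simp only [Sq, dr, Finset.mem_product, Finset.mem_Icc, Matrix.cons_val_one, Matrix.cons_val_zero,
              Prod.mk_add_mk]
            push_cast at hn; omega)
      (by
        simp only [In, dr, Finset.mem_product, Finset.mem_Ioo, Matrix.cons_val_one, Matrix.cons_val_zero,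
          Prod.mk_add_mk]
        push_cast at hn
        omega)
    have e : ((i, j + n) : ℤ × ℤ) + dr 1 = (i, j + (n + 1 : ℕ)) := by
      simp only [dr, Matrix.cons_val_one, Matrix.cons_val_zero, Prod.mk_add_mk]
      push_cast
      ring_nf
    unfold gl at h
    rw [e] at h
    simp only [Fin.val_one, pow_one, mul_sub, Complex.sub_re] at h
    linarith

theorem CS_bound (m : ℕ) (b : ℤ × ℤ → ℂ) (B : ℝ) (hB : ∀ z ∈ Sq m, z ∉ In m → ‖b z‖ ≤ B)
    (w : In m → ℂ) (hw : w ∈ CS m b) (z : In m) : ‖w z‖ ≤ 2 * B := by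
  obtain ⟨⟨i, j⟩, hz⟩ := z
  have hz' := hz
  simp only [In, Finset.mem_product, Finset.mem_Ioo] at hz'
  obtain ⟨⟨hi, hi'⟩, hj, hj'⟩ := hz'
  have hwz : glue m b w (i, j) = w ⟨(i, j), hz⟩ := by
    unfold glue
    rw [dif_pos hz]
  have hbd : ∀ y : ℤ × ℤ, y ∈ Sq m → y ∉ In m → ‖glue m b w y‖ ≤ B := by
    intro y hy hy'
    unfold glue
    rw [dif_neg hy']
    exact hB y hy hy'
  have b1 := hbd (0, j) (by simp only [Sq, Finset.mem_product, Finset.mem_Icc]; omega)
    (by simp only [In, Finset.mem_product, Finset.mem_Ioo]; omega)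
  have b2 := hbd ((m : ℤ), j) (by simp only [Sq, Finset.mem_product, Finset.mem_Icc]; omega)
    (by simp only [In, Finset.mem_product, Finset.mem_Ioo]; omega)
  have b3 := hbd (i, 0) (by simp only [Sq, Finset.mem_product, Finset.mem_Icc]; omega)
    (by simp only [In, Finset.mem_product, Finset.mem_Ioo]; omega)
  have b4 := hbd (i, (m : ℤ)) (by simp only [Sq, Finset.mem_product, Finset.mem_Icc]; omega)
    (by simp only [In, Finset.mem_product, Finset.mem_Ioo]; omega)
  have r1 := row_mono m b w hw j hj hj' 0 le_rfl i.toNat (by omega)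
  have r2 := row_mono m b w hw j hj hj' i hi.le (m - i).toNat (by omega)
  have c1 := col_mono m b w hw i hi hi' 0 le_rfl j.toNat (by omega)
  have c2 := col_mono m b w hw i hi hi' j hj.le (m - j).toNat (by omega)
  rw [show (0 : ℤ) + (i.toNat : ℤ) = i by omega] at r1
  rw [show i + ((m - i).toNat : ℤ) = m by omega] at r2
  rw [show (0 : ℤ) + (j.toNat : ℤ) = j by omega] at c1
  rw [show j + ((m - j).toNat : ℤ) = m by omega] at c2
  rw [hwz] at r1 r2 c1 c2
  have hom : ‖(starRingEnd ℂ) om‖ = 1 := by rw [RCLike.norm_conj, norm_om]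
  have k1 : -B ≤ (glue m b w (0, j)).re := by
    have := Complex.abs_re_le_norm (glue m b w (0, j))
    have := abs_le.1 (this.trans b1)
    linarith [this.1]
  have k2 : (glue m b w (m, j)).re ≤ B := by
    have := Complex.abs_re_le_norm (glue m b w (m, j))
    have := abs_le.1 (this.trans b2)
    linarith [this.2]
  have k3 : -B ≤ ((starRingEnd ℂ) om * glue m b w (i, 0)).re := by
    have := Complex.abs_re_le_norm ((starRingEnd ℂ) om * glue m b w (i, 0))
    rw [norm_mul, hom, one_mul] at this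
    have := abs_le.1 (this.trans b3)
    linarith [this.1]
  have k4 : ((starRingEnd ℂ) om * glue m b w (i, m)).re ≤ B := by
    have := Complex.abs_re_le_norm ((starRingEnd ℂ) om * glue m b w (i, m))
    rw [norm_mul, hom, one_mul] at this
    have := abs_le.1 (this.trans b4)
    linarith [this.2]
  have B0 : 0 ≤ B := (norm_nonneg _).trans b1
  generalize hW : w ⟨(i, j), hz⟩ = W at *
  have e : ((starRingEnd ℂ) om * W).re = -(1 / 2) * W.re + √3 / 2 * W.im := by
    simp only [Complex.mul_re, Complex.conj_re, Complex.conj_im, om_re, om_im]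
    ring
  rw [e] at c1 c2
  have h3 : √3 * √3 = 3 := Real.mul_self_sqrt (by norm_num)
  have x1 : -B ≤ W.re := k1.trans r1
  have x2 : W.re ≤ B := r2.trans k2
  have y1 : -B ≤ -(1 / 2) * W.re + √3 / 2 * W.im := k3.trans c1
  have y2 : -(1 / 2) * W.re + √3 / 2 * W.im ≤ B := c2.trans k4
  have q1 : (√3 * W.im) ≤ 3 * B := by linarith
  have q2 : -(3 * B) ≤ √3 * W.im := by linarith
  have hn : ‖W‖ ^ 2 = W.re * W.re + W.im * W.im := by
    rw [← Complex.normSq_eq_norm_sq, Complex.normSq_apply]
  have hi2 : W.im * W.im * 3 = (√3 * W.im) * (√3 * W.im) := by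
    calc W.im * W.im * 3 = W.im * W.im * (√3 * √3) := by rw [h3]
      _ = _ := by ring
  have hi3 : (√3 * W.im) * (√3 * W.im) ≤ (3 * B) * (3 * B) := by
    have q3 := mul_nonneg (sub_nonneg.2 q1) (by linarith : 0 ≤ √3 * W.im + 3 * B)
    nlinarith
  have hr : W.re * W.re ≤ B * B := by nlinarith
  have hfin : ‖W‖ ^ 2 ≤ (2 * B) ^ 2 := by rw [hn]; nlinarith
  exact le_of_sq_le_sq hfin (by positivity)

/-! ### Prekopa-Leindler -/

/-- the Prekopa-Leindler inequality for Haar measures of finite dimensional spaces -/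
theorem plE {E : Type} [NormedAddCommGroup E] [NormedSpace ℝ E] [FiniteDimensional ℝ E]
    [MeasurableSpace E] [BorelSpace E] (μ : Measure E) [μ.IsAddHaarMeasure] (s : ℝ) (hs : 0 < s)
    (hs1 : s < 1) (f g h : E → ENNReal) (hf : Measurable f) (hg : Measurable g) (hh : Measurable h)
    (hfg : ∀ x y, f x ^ s * g y ^ (1 - s) ≤ h (s • x + (1 - s) • y)) :
    (∫⁻ x, f x ∂μ) ^ s * (∫⁻ x, g x ∂μ) ^ (1 - s) ≤ ∫⁻ x, h x ∂μ := by
  have h1s : 0 < 1 - s := by linarith
  let e : (Fin (Module.finrank ℝ E) → ℝ) ≃L[ℝ] E := ContinuousLinearEquiv.ofFinrankEq (by simp)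
  have hH : (Measure.map e volume).IsAddHaarMeasure := e.isAddHaarMeasure_map volume
  have hc := Measure.isAddLeftInvariant_eq_smul μ (Measure.map e volume)
  generalize μ.addHaarScalarFactor (Measure.map e volume) = c at hc
  have hint : ∀ φ : E → ENNReal, Measurable φ → ∫⁻ x, φ x ∂μ = c * ∫⁻ x, φ (e x) := by
    intro φ hφ
    rw [hc, lintegral_smul_measure, lintegral_map hφ e.continuous.measurable]
    rfl
  rw [hint f hf, hint g hg, hint h hh, ENNReal.mul_rpow_of_nonneg _ _ hs.le,
    ENNReal.mul_rpow_of_nonneg _ _ h1s.le]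
  have key := Pool.Agent.TH264.MP.pl _ s hs hs1 (fun x => f (e x)) (fun x => g (e x)) (fun x => h (e x))
    (hf.comp e.continuous.measurable) (hg.comp e.continuous.measurable)
    (hh.comp e.continuous.measurable) (fun x y => by
      have := hfg (e x) (e y)
      rwa [← map_smul, ← map_smul, ← map_add] at this)
  have ec : (c : ENNReal) ^ s * (c : ENNReal) ^ (1 - s) = c := by
    rcases eq_or_ne c 0 with h0 | h0
    · rw [h0]
      simp [ENNReal.zero_rpow_of_pos hs]
    · rw [← ENNReal.rpow_add _ _ (by simpa using h0) ENNReal.coe_ne_top]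
      simp
  calc (c : ENNReal) ^ s * (∫⁻ x, f (e x)) ^ s * ((c : ENNReal) ^ (1 - s) * (∫⁻ x, g (e x)) ^ (1 - s))
      = ((c : ENNReal) ^ s * (c : ENNReal) ^ (1 - s)) *
        ((∫⁻ x, f (e x)) ^ s * (∫⁻ x, g (e x)) ^ (1 - s)) := by
        generalize (c : ENNReal) ^ s = a1
        generalize (c : ENNReal) ^ (1 - s) = a2
        ring
    _ ≤ _ := by
        rw [ec]
        gcongr

/-- the inequality of Jensen from its case of two points -/
theorem jensen_gen {V : Type} [AddCommGroup V] [Module ℝ V] (F : V → ENNReal)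
    (h2 : ∀ s : ℝ, 0 < s → s < 1 → ∀ x y, F x ^ s * F y ^ (1 - s) ≤ F (s • x + (1 - s) • y))
    {ι : Type} (s : Finset ι) (b : ι → V) : ∀ (w : ι → ℝ), (∀ i ∈ s, 0 ≤ w i) → ∑ i ∈ s, w i = 1 →
    ∏ i ∈ s, F (b i) ^ (w i) ≤ F (∑ i ∈ s, w i • b i) := by
  classical
  induction s using Finset.induction_on with
  | empty =>
    intro w _ h
    simp at h
  | insert a s ha ih =>
    intro w hw hs
    rw [Finset.sum_insert ha] at hs
    have hwa : 0 ≤ w a := hw a (Finset.mem_insert_self a s)
    have hws : ∀ i ∈ s, 0 ≤ w i := fun i hi => hw i (Finset.mem_insert_of_mem hi)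
    have hS : 0 ≤ ∑ i ∈ s, w i := Finset.sum_nonneg hws
    rw [Finset.prod_insert ha, Finset.sum_insert ha]
    rcases hwa.eq_or_lt with h0 | h0
    · rw [← h0] at hs ⊢
      rw [ENNReal.rpow_zero, one_mul, zero_smul, zero_add]
      exact ih w hws (by linarith)
    · rcases (show w a ≤ 1 by linarith).eq_or_lt with h1 | h1
      · have hz : ∀ i ∈ s, w i = 0 := by
          have : ∑ i ∈ s, w i = 0 := by linarith
          exact (Finset.sum_eq_zero_iff_of_nonneg hws).1 this
        have e1 : ∏ i ∈ s, F (b i) ^ (w i) = 1 :=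
          Finset.prod_eq_one fun i hi => by rw [hz i hi, ENNReal.rpow_zero]
        have e2 : ∑ i ∈ s, w i • b i = 0 :=
          Finset.sum_eq_zero fun i hi => by rw [hz i hi, zero_smul]
        rw [e1, e2, h1, mul_one, ENNReal.rpow_one, one_smul, add_zero]
      · have hp : 0 < 1 - w a := by linarith
        have key := ih (fun i => w i / (1 - w a)) (fun i hi => div_nonneg (hws i hi) hp.le) (by
          rw [← Finset.sum_div, div_eq_one_iff_eq hp.ne']
          linarith)
        have h3 := h2 (w a) h0 h1 (b a) (∑ i ∈ s, (w i / (1 - w a)) • b i)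
        have e1 : (1 - w a) • ∑ i ∈ s, (w i / (1 - w a)) • b i = ∑ i ∈ s, w i • b i := by
          rw [Finset.smul_sum]
          refine Finset.sum_congr rfl fun i _ => ?_
          rw [smul_smul, mul_div_cancel₀ _ hp.ne']
        rw [e1] at h3
        refine le_trans ?_ h3
        gcongr
        have h4 := ENNReal.rpow_le_rpow key hp.le
        refine le_trans (le_of_eq ?_) h4
        rw [← ENNReal.prod_rpow_of_nonneg hp.le]
        refine Finset.prod_congr rfl fun i _ => ?_
        rw [← ENNReal.rpow_mul, div_mul_cancel₀ _ hp.ne']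

theorem W_two (m : ℕ) (s : ℝ) (hs : 0 < s) (hs1 : s < 1) (b b' : ℤ × ℤ → ℂ) :
    W m b ^ s * W m b' ^ (1 - s) ≤ W m (s • b + (1 - s) • b') := by
  have h1s : 0 < 1 - s := by linarith
  have hW : ∀ b : ℤ × ℤ → ℂ, W m b = ∫⁻ w, (CS m b).indicator (fun _ => 1) w := by
    intro b
    rw [lintegral_indicator (CS_meas m b)]
    simp [W]
  rw [hW, hW, hW]
  refine plE volume s hs hs1 _ _ _ (measurable_const.indicator (CS_meas m b))
    (measurable_const.indicator (CS_meas m b')) (measurable_const.indicator (CS_meas m _)) ?_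
  intro x y
  by_cases hx : x ∈ CS m b
  · by_cases hy : y ∈ CS m b'
    · have : s • x + (1 - s) • y ∈ CS m (s • b + (1 - s) • b') := by
        intro z hz k hk hzk
        have e : glue m (s • b + (1 - s) • b') (s • x + (1 - s) • y) =
            fun z => (s : ℂ) * glue m b x z + ((1 - s : ℝ) : ℂ) * glue m b' y z := by
          funext z
          unfold glue
          split_ifs with h
          · simp
          · simp
        rw [e, gl_add, gl_smul, gl_smul]
        have h1 := hx z hz k hk hzk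
        have h2 := hy z hz k hk hzk
        positivity
      rw [Set.indicator_of_mem hx, Set.indicator_of_mem hy, Set.indicator_of_mem this]
      simp
    · rw [Set.indicator_of_notMem hy, ENNReal.zero_rpow_of_pos h1s, mul_zero]
      exact zero_le
  · rw [Set.indicator_of_notMem hx, ENNReal.zero_rpow_of_pos hs, zero_mul]
    exact zero_le

theorem W_jensen (m : ℕ) {ι : Type} (s : Finset ι) (w : ι → ℝ) (hw : ∀ i ∈ s, 0 ≤ w i)
    (hs : ∑ i ∈ s, w i = 1) (b : ι → ℤ × ℤ → ℂ) :
    ∏ i ∈ s, W m (b i) ^ (w i) ≤ W m (fun z => ∑ i ∈ s, (w i : ℂ) * b i z) := by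
  have h := jensen_gen (fun b => W m b) (fun s hs hs1 x y => W_two m s hs hs1 x y) s b w hw hs
  refine h.trans (le_of_eq ?_)
  congr 1
  funext z
  rw [Finset.sum_apply]
  refine Finset.sum_congr rfl fun i _ => ?_
  simp

/-! ### scaling -/

theorem card_In (m : ℕ) : Fintype.card (In m) = (m - 1) ^ 2 := by
  rw [Fintype.card_coe]
  unfold In
  rw [Finset.card_product, Int.card_Ioo]
  have : ((m : ℤ) - 0 - 1).toNat = m - 1 := by omega
  rw [this, pow_two]

theorem W_smul (m : ℕ) (t : ℝ) (ht : 0 < t) (b : ℤ × ℤ → ℂ) :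
    W m (fun z => (t : ℂ) * b z) = ENNReal.ofReal (t ^ (2 * (m - 1) ^ 2)) * W m b := by
  have e : CS m (fun z => (t : ℂ) * b z) = t • CS m b := by
    ext w
    rw [Set.mem_smul_set_iff_inv_smul_mem₀ ht.ne']
    have e2 : ∀ z k, gl (glue m (fun z => (t : ℂ) * b z) w) z k = t * gl (glue m b (t⁻¹ • w)) z k := by
      intro z k
      rw [← gl_smul]
      congr 1
      funext y
      rw [← glue_smul, smul_inv_smul₀ ht.ne']
    constructor
    · intro h z hz k hk hzk
      have := h z hz k hk hzk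
      rw [e2] at this
      exact nonneg_of_mul_nonneg_right this ht
    · intro h z hz k hk hzk
      rw [e2]
      exact mul_nonneg ht.le (h z hz k hk hzk)
  unfold W
  rw [e, Measure.addHaar_smul, Module.finrank_pi_fintype]
  simp only [Complex.finrank_real_complex, Finset.sum_const, Finset.card_univ, card_In, smul_eq_mul]
  rw [abs_of_pos (by positivity), mul_comm 2]

/-! ### robustness -/

theorem W_robust (m : ℕ) (c a : ℝ) (hc : 0 ≤ c) (b b' : ℤ × ℤ → ℂ)
    (h : ∀ z ∈ Sq m, z ∉ In m → ‖b' z - b z - (c + a * Complex.I) * pt z‖ ≤ c) :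
    W m b ≤ W m b' := by
  let v : In m → ℂ := fun z => (c + a * Complex.I) * pt z.1
  have hsub : CS m b ⊆ (fun w => w + v) ⁻¹' CS m b' := by
    intro w hw z hz k hk hzk
    have h1 := hw z hz k hk hzk
    -- the error at the end points
    let er : ℤ × ℤ → ℂ := fun y => glue m b' (w + v) y - glue m b w y - (c + a * Complex.I) * pt y
    have er0 : ∀ y, y ∈ In m → er y = 0 := by
      intro y hy
      simp only [er, glue, dif_pos hy, v, Pi.add_apply]
      ring
    have er1 : ∀ y, y ∈ Sq m → ‖er y‖ ≤ c := by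
      intro y hy
      by_cases hy' : y ∈ In m
      · rw [er0 y hy', norm_zero]; exact hc
      · simp only [er, glue, dif_neg hy']
        exact h y hy hy'
    have hpt : pt (z + dr k) - pt z = om ^ (k : ℕ) := by rw [pt_add, pt_dr]; ring
    have hgl : gl (glue m b' (w + v)) z k = gl (glue m b w) z k + c +
        ((starRingEnd ℂ) (om ^ (k : ℕ)) * (er (z + dr k) - er z)).re := by
      have e1 : (starRingEnd ℂ) (om ^ (k : ℕ)) * (glue m b' (w + v) (z + dr k) - glue m b' (w + v) z) =
          (starRingEnd ℂ) (om ^ (k : ℕ)) * (glue m b w (z + dr k) - glue m b w z) +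
          (c + a * Complex.I) + (starRingEnd ℂ) (om ^ (k : ℕ)) * (er (z + dr k) - er z) := by
        have e2 : glue m b' (w + v) (z + dr k) - glue m b' (w + v) z =
            (glue m b w (z + dr k) - glue m b w z) + (c + a * Complex.I) * om ^ (k : ℕ) +
            (er (z + dr k) - er z) := by
          rw [← hpt]
          simp only [er]
          ring
        rw [e2]
        have e3 := conj_om_pow (k : ℕ)
        linear_combination (c + a * Complex.I) * e3
      unfold gl
      rw [e1]
      simp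
    have hcn : ‖(starRingEnd ℂ) (om ^ (k : ℕ))‖ = 1 := by rw [RCLike.norm_conj, norm_om_pow]
    have hn : ‖er (z + dr k) - er z‖ ≤ c := by
      rcases hzk with hz1 | hz1
      · rw [er0 z hz1, sub_zero]; exact er1 _ hk
      · rw [er0 _ hz1, zero_sub, norm_neg]; exact er1 _ hz
    have h2 := Complex.abs_re_le_norm ((starRingEnd ℂ) (om ^ (k : ℕ)) * (er (z + dr k) - er z))
    rw [norm_mul, hcn, one_mul] at h2
    have h3 := (abs_le.1 (h2.trans hn)).1
    rw [hgl]
    linarith
  unfold W
  calc volume (CS m b) ≤ volume ((fun w => w + v) ⁻¹' CS m b') := measure_mono hsub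
    _ = volume (CS m b') := measure_preimage_add_right _ _ _

/-! ### crude bounds -/

theorem W_pt_ge (m : ℕ) : ENNReal.ofReal ((1 / 2) ^ ((m - 1) ^ 2)) ≤ W m pt := by
  have hsub : Set.univ.pi (fun z : In m => Metric.closedBall (pt z.1) (1 / 2)) ⊆ CS m pt := by
    intro w hw z hz k hk hzk
    have her : ∀ y, ‖glue m pt w y - pt y‖ ≤ 1 / 2 := by
      intro y
      by_cases hy : y ∈ In m
      · have := hw ⟨y, hy⟩ (Set.mem_univ _)
        rw [Metric.mem_closedBall, dist_eq_norm] at this
        simpa [glue, dif_pos hy] using this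
      · simp [glue, dif_neg hy]
    have hpt : pt (z + dr k) - pt z = om ^ (k : ℕ) := by rw [pt_add, pt_dr]; ring
    have e1 : (starRingEnd ℂ) (om ^ (k : ℕ)) * (glue m pt w (z + dr k) - glue m pt w z) =
        1 + (starRingEnd ℂ) (om ^ (k : ℕ)) *
          ((glue m pt w (z + dr k) - pt (z + dr k)) - (glue m pt w z - pt z)) := by
      have e3 := conj_om_pow (k : ℕ)
      rw [← hpt] at e3 ⊢
      linear_combination e3
    have hcn : ‖(starRingEnd ℂ) (om ^ (k : ℕ))‖ = 1 := by rw [RCLike.norm_conj, norm_om_pow]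
    have h2 := Complex.abs_re_le_norm ((starRingEnd ℂ) (om ^ (k : ℕ)) *
          ((glue m pt w (z + dr k) - pt (z + dr k)) - (glue m pt w z - pt z)))
    rw [norm_mul, hcn, one_mul] at h2
    have h3 : ‖(glue m pt w (z + dr k) - pt (z + dr k)) - (glue m pt w z - pt z)‖ ≤ 1 := by
      refine (norm_sub_le _ _).trans ?_
      have := her z
      have := her (z + dr k)
      linarith
    have h4 := (abs_le.1 (h2.trans h3)).1
    unfold gl
    rw [e1, Complex.add_re, Complex.one_re]
    linarith
  have hvol : volume (Set.univ.pi (fun z : In m => Metric.closedBall (pt z.1) (1 / 2 : ℝ))) =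
      (ENNReal.ofReal (1 / 2) ^ 2 * NNReal.pi) ^ ((m - 1) ^ 2) := by
    rw [volume_pi_pi]
    simp only [Complex.volume_closedBall, Finset.prod_const, Finset.card_univ, card_In]
  refine le_trans ?_ (measure_mono hsub)
  rw [hvol, ENNReal.ofReal_pow (by norm_num)]
  gcongr
  have : ENNReal.ofReal (1 / 2) ^ 2 * (NNReal.pi : ENNReal) = ENNReal.ofReal ((1 / 2) ^ 2 * Real.pi) := by
    rw [ENNReal.ofReal_mul (by norm_num), ENNReal.ofReal_pow (by norm_num)]
    congr 1
    rw [← NNReal.coe_real_pi, ENNReal.ofReal_coe_nnreal]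
  rw [this]
  apply ENNReal.ofReal_le_ofReal
  have := Real.pi_gt_three
  linarith

theorem norm_pt_le (m : ℕ) (z : ℤ × ℤ) (hz : z ∈ Sq m) : ‖pt z‖ ≤ m := by
  obtain ⟨i, j⟩ := z
  simp only [Sq, Finset.mem_product, Finset.mem_Icc] at hz
  obtain ⟨⟨hi, hi'⟩, hj, hj'⟩ := hz
  have h3 : √3 * √3 = 3 := Real.mul_self_sqrt (by norm_num)
  have e : ‖pt (i, j)‖ ^ 2 = (i : ℝ) ^ 2 - i * j + (j : ℝ) ^ 2 := by
    rw [← Complex.normSq_eq_norm_sq, Complex.normSq_apply]
    simp only [pt, Complex.add_re, Complex.add_im, Complex.mul_re, Complex.mul_im, Complex.intCast_re,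
      Complex.intCast_im, om_re, om_im]
    have : (√3 / 2) * (√3 / 2) = 3 / 4 := by linarith
    linear_combination (j : ℝ) ^ 2 * this
  have i0 : (0 : ℝ) ≤ i := by exact_mod_cast hi
  have j0 : (0 : ℝ) ≤ j := by exact_mod_cast hj
  have i1 : (i : ℝ) ≤ m := by exact_mod_cast hi'
  have j1 : (j : ℝ) ≤ m := by exact_mod_cast hj'
  have hfin : ‖pt (i, j)‖ ^ 2 ≤ (m : ℝ) ^ 2 := by
    rw [e]
    rcases le_total (i : ℝ) j with h | h
    · nlinarith [mul_nonneg i0 (sub_nonneg.2 h), mul_nonneg j0 (sub_nonneg.2 j1)]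
    · nlinarith [mul_nonneg j0 (sub_nonneg.2 h), mul_nonneg i0 (sub_nonneg.2 i1)]
  exact le_of_sq_le_sq hfin (by positivity)

theorem W_pt_le (m : ℕ) : W m pt ≤ ENNReal.ofReal ((64 * (m : ℝ) ^ 2) ^ ((m - 1) ^ 2)) := by
  have hsub : CS m pt ⊆ Set.univ.pi (fun z : In m => Metric.closedBall (0 : ℂ) (2 * m)) := by
    intro w hw z _
    rw [mem_closedBall_zero_iff]
    exact CS_bound m pt m (fun z hz _ => norm_pt_le m z hz) w hw z
  have hvol : volume (Set.univ.pi (fun z : In m => Metric.closedBall (0 : ℂ) (2 * m : ℝ))) =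
      (ENNReal.ofReal (2 * m) ^ 2 * NNReal.pi) ^ ((m - 1) ^ 2) := by
    rw [volume_pi_pi]
    simp only [Complex.volume_closedBall, Finset.prod_const, Finset.card_univ, card_In]
  refine (measure_mono hsub).trans ?_
  rw [hvol, ENNReal.ofReal_pow (by positivity)]
  gcongr
  have : ENNReal.ofReal (2 * m) ^ 2 * (NNReal.pi : ENNReal) = ENNReal.ofReal ((2 * m) ^ 2 * Real.pi) := by
    rw [ENNReal.ofReal_mul (p := (2 * (m : ℝ)) ^ 2) (by positivity),
      ENNReal.ofReal_pow (p := 2 * (m : ℝ)) (by positivity)]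
    congr 1
    rw [← NNReal.coe_real_pi, ENNReal.ofReal_coe_nnreal]
  rw [this]
  apply ENNReal.ofReal_le_ofReal
  have := Real.pi_lt_four
  have hm : (0 : ℝ) ≤ (m : ℝ) ^ 2 := by positivity
  nlinarith

end Pool.Agent.J4.H83.HD
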